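import Pool.Agent.Y83.Lpa3

/-!
# Extension of scalars for Leavitt path algebras
-/

namespace Pool.Agent.Y83

namespace LPA

theorem algHom_ext {K : Type} [Field K] {G : FGraph} {B : Type} [Ring B] [Algebra K B]
    {f g : LPA K G →ₐ[K] B} (h : ∀ x, f (gen K x) = g (gen K x)) : f = g := by
  apply RingQuot.ringQuot_ext'
  apply FreeAlgebra.hom_ext
  funext x
  exact h x

noncomputable section

variable (K L : Type) [Field K] [Field L] [Algebra K L]

/-- The canonical map `L_K(G) → L_L(G)`. -/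
def bc (G : FGraph) : LPA K G →ₐ[K] LPA L G := lift K (fam L G)

theorem bc_gen {G : FGraph} (g : LGen G) : bc K L G (gen K g) = gen L g :=
  (lift_gen K (fam L G) g).trans (fam_val L G g)

theorem bc_mem_gr {G : FGraph} {n : ℤ} {x : LPA K G} (hx : x ∈ gr K G n) :
    bc K L G x ∈ gr L G n := by
  have h : gr K G n ≤ ((gr L G n).restrictScalars K).comap (bc K L G).toLinearMap := by
    refine Submodule.span_le.mpr ?_
    rintro _ ⟨l, hl, rfl⟩
    change bc K L G (l.map (gen K)).prod ∈ gr L G n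
    rw [map_list_prod, List.map_map]
    have h2 : (⇑(bc K L G) ∘ gen K : LGen G → LPA L G) = gen L := funext (bc_gen K L)
    rw [h2]
    exact Submodule.subset_span ⟨l, hl, rfl⟩
  exact h hx

variable {K} {G H : FGraph}

/-- Extension of scalars of an algebra homomorphism. -/
def bcHom (ψ : LPA K G →ₐ[K] LPA K H) : LPA L G →ₐ[L] LPA L H :=
  lift L ((fam K G).map ((bc K L H).comp ψ).toRingHom)

theorem bcHom_gen (ψ : LPA K G →ₐ[K] LPA K H) (g : LGen G) :
    bcHom L ψ (gen L g) = bc K L H (ψ (gen K g)) := by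
  unfold bcHom
  rw [lift_gen]
  cases g <;> rfl

theorem bcHom_bc (ψ : LPA K G →ₐ[K] LPA K H) (x : LPA K G) :
    bcHom L ψ (bc K L G x) = bc K L H (ψ x) := by
  have h : ((bcHom L ψ).restrictScalars K).comp (bc K L G) = (bc K L H).comp ψ := by
    apply algHom_ext
    intro g
    change bcHom L ψ (bc K L G (gen K g)) = bc K L H (ψ (gen K g))
    rw [bc_gen, bcHom_gen]
  exact DFunLike.congr_fun h x

theorem bcHom_comp (ψ : LPA K G →ₐ[K] LPA K H) (φ : LPA K H →ₐ[K] LPA K G)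
    (h : φ.comp ψ = AlgHom.id K _) : (bcHom L φ).comp (bcHom L ψ) = AlgHom.id L _ := by
  apply algHom_ext
  intro g
  change bcHom L φ (bcHom L ψ (gen L g)) = gen L g
  rw [bcHom_gen, bcHom_bc]
  have h2 : φ (ψ (gen K g)) = gen K g := DFunLike.congr_fun h (gen K g)
  rw [h2, bc_gen]

theorem prod_mem_gr {B : FGraph} (f : LGen G → LPA L B) (hf : ∀ g, f g ∈ gr L B g.deg)
    (l : List (LGen G)) : (l.map f).prod ∈ gr L B (l.map LGen.deg).sum := by
  induction l with
  | nil => simpa using one_mem_gr (K := L) (G := B)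
  | cons g l ih =>
    simp only [List.map_cons, List.prod_cons, List.sum_cons]
    exact mul_mem_gr L (hf g) ih

theorem bcHom_mem (ψ : LPA K G →ₐ[K] LPA K H) (hψ : ∀ n x, x ∈ gr K G n → ψ x ∈ gr K H n)
    {n : ℤ} {x : LPA L G} (hx : x ∈ gr L G n) : bcHom L ψ x ∈ gr L H n := by
  have h : gr L G n ≤ (gr L H n).comap (bcHom L ψ).toLinearMap := by
    refine Submodule.span_le.mpr ?_
    rintro _ ⟨l, hl, rfl⟩
    change bcHom L ψ (l.map (gen L)).prod ∈ gr L H n
    rw [map_list_prod, List.map_map, ← hl]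
    apply prod_mem_gr
    intro g
    change bcHom L ψ (gen L g) ∈ _
    rw [bcHom_gen]
    exact bc_mem_gr K L (hψ _ _ (gen_mem_gr K g))
  exact h hx

end

end LPA

/-- Graded isomorphism is preserved by extension of scalars. -/
theorem GradedIso.baseChange {K : Type} (L : Type) [Field K] [Field L] [Algebra K L]
    {G H : FGraph} (h : GradedIso K G H) : GradedIso L G H := by
  obtain ⟨ψ, hψ⟩ := h
  have h1 : (ψ.symm.toAlgHom).comp ψ.toAlgHom = AlgHom.id K _ := by
    exact AlgHom.ext fun x => ψ.symm_apply_apply x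
  have h2 : (ψ.toAlgHom).comp ψ.symm.toAlgHom = AlgHom.id K _ := by
    exact AlgHom.ext fun x => ψ.apply_symm_apply x
  have g1 : ∀ n x, x ∈ LPA.gr K G n → ψ.toAlgHom x ∈ LPA.gr K H n := fun n x hx => (hψ n x).1 hx
  have g2 : ∀ n x, x ∈ LPA.gr K H n → ψ.symm.toAlgHom x ∈ LPA.gr K G n := fun n x hx => by
    rw [hψ]
    change ψ (ψ.symm x) ∈ _
    rwa [ψ.apply_symm_apply]
  refine ⟨AlgEquiv.ofAlgHom (LPA.bcHom L ψ.toAlgHom) (LPA.bcHom L ψ.symm.toAlgHom)
    (LPA.bcHom_comp L _ _ h2) (LPA.bcHom_comp L _ _ h1), fun n x => ⟨fun hx => ?_, fun hx => ?_⟩⟩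
  · exact LPA.bcHom_mem L _ g1 hx
  · have h3 := LPA.bcHom_mem L _ g2 hx
    have h4 : LPA.bcHom L ψ.symm.toAlgHom (LPA.bcHom L ψ.toAlgHom x) = x :=
      DFunLike.congr_fun (LPA.bcHom_comp L _ _ h1) x
    rw [← h4]
    exact h3

end Pool.Agent.Y83
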