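import Pool.Agent.Y83.Ex1
import Pool.Agent.Y83.Bc1

/-!
# The two graphs over an arbitrary field of characteristic zero
-/

namespace Pool.Agent.Y83

/-- The Leavitt path algebras of the two graphs are not graded isomorphic over any field of
characteristic zero. -/
theorem not_gradedIso_charZero (K : Type) [Field K] [CharZero K] :
    ¬ GradedIso K graphE graphF :=
  fun h => not_gradedIso (AlgebraicClosure K) (h.baseChange (AlgebraicClosure K))

end Pool.Agent.Y83
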