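import Pool.Agent.Y83.Sgc7

set_option linter.unusedSectionVars false
set_option linter.unusedVariables false

/-!
# The explicit pair
-/

namespace Pool.Agent.Y83

open Module Matrix

/-- adjacency matrix of the graph `1 → 2 → 3 → 4 → {1,2}` -/
def CE : Matrix (Fin 4) (Fin 4) ℕ := !![0,1,0,0; 0,0,1,0; 0,0,0,1; 1,1,0,0]

/-- the same graph with an additional source emitting edges to `1` and `2` -/
def CF : Matrix (Fin 5) (Fin 5) ℕ :=
  !![0,1,0,0,0; 0,0,1,0,0; 0,0,0,1,0; 1,1,0,0,0; 1,1,0,0,0]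

def CZ : Matrix (Fin 4) (Fin 4) ℤ := !![0,1,0,0; 0,0,1,0; 0,0,0,1; 1,1,0,0]

def CZinv : Matrix (Fin 4) (Fin 4) ℤ := !![-1,0,0,1; 1,0,0,0; 0,1,0,0; 0,0,1,0]

def nu : Matrix (Fin 4) (Fin 4) ℤ := !![1,0,-1,1; 1,2,0,-1; -1,0,2,0; 0,-1,0,2]

def nuinv : Matrix (Fin 4) (Fin 4) ℤ := !![6,-2,3,-4; -4,2,-2,3; 3,-1,2,-2; -2,1,-1,2]

theorem zm_CE : zm CE = CZ := by decide

theorem CZ_inv : CZ * CZinv = 1 := by decide

theorem CZ_inv' : CZinv * CZ = 1 := by decide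

theorem nu_inv : nu * nuinv = 1 := by decide

theorem sgc_nu : sgc nu (nuinv * CZ) = 1 := by
  have : nuinv * CZ = !![-4,2,-2,3; 3,-1,2,-2; -2,1,-1,2; 2,0,1,-1] := by decide
  rw [this]
  decide +kernel

theorem nu_unique (U : Matrix (Fin 4) (Fin 4) ℤ) (hU : U * CZ = CZ * U)
    (h : zv (fun _ => 1) ᵥ* U = zv ![1,1,1,2]) : U = nu := by
  let K : Matrix (Fin 4) (Fin 4) ℤ := !![1,1,1,1; 1,2,1,1; 1,2,2,1; 1,2,2,2]
  let K' : Matrix (Fin 4) (Fin 4) ℤ := !![2,0,0,-1; -1,1,0,0; 0,-1,1,0; 0,0,-1,1]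
  let L : Matrix (Fin 4) (Fin 4) ℤ := !![1,1,1,2; 2,3,1,1; 1,3,3,1; 1,2,3,3]
  have hK : K' * K = 1 := by decide
  have hrow : ∀ k : ℕ, (zv (fun _ => 1) ᵥ* (CZ ^ k)) ᵥ* U = zv ![1,1,1,2] ᵥ* (CZ ^ k) := by
    intro k
    have hc : CZ ^ k * U = U * CZ ^ k := by
      have : Commute CZ U := hU.symm
      exact (this.pow_left k)
    rw [Matrix.vecMul_vecMul, hc, ← Matrix.vecMul_vecMul, h]
  have h0 := hrow 0
  have h1 := hrow 1
  have h2 := hrow 2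
  have h3 := hrow 3
  have hKU : K * U = L := by
    funext i
    have key : (K * U) i = K i ᵥ* U := rfl
    rw [key]
    fin_cases i
    · have a : zv (fun _ => 1) ᵥ* (CZ ^ 0) = K 0 := by decide
      have b : zv ![1,1,1,2] ᵥ* (CZ ^ 0) = L 0 := by decide
      rw [a, b] at h0; exact h0
    · have a : zv (fun _ => 1) ᵥ* (CZ ^ 1) = K 1 := by decide
      have b : zv ![1,1,1,2] ᵥ* (CZ ^ 1) = L 1 := by decide
      rw [a, b] at h1; exact h1
    · have a : zv (fun _ => 1) ᵥ* (CZ ^ 2) = K 2 := by decide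
      have b : zv ![1,1,1,2] ᵥ* (CZ ^ 2) = L 2 := by decide
      rw [a, b] at h2; exact h2
    · have a : zv (fun _ => 1) ᵥ* (CZ ^ 3) = K 3 := by decide
      have b : zv ![1,1,1,2] ᵥ* (CZ ^ 3) = L 3 := by decide
      rw [a, b] at h3; exact h3
  calc U = (K' * K) * U := by rw [hK, Matrix.one_mul]
    _ = K' * L := by rw [Matrix.mul_assoc, hKU]
    _ = nu := by decide

/-- The two weighted matrices are not strong shift equivalent. -/
theorem not_sse : ¬ Relation.EqvGen WM.Step ⟨4, CE, fun _ => 1⟩ ⟨5, CF, fun _ => 1⟩ := by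
  intro h
  have hs : WM.Step ⟨5, CF, fun _ => 1⟩ ⟨4, CE, ![1,1,1,2]⟩ := by
    refine ⟨!![1,0,0,0; 0,1,0,0; 0,0,1,0; 0,0,0,1; 0,0,0,1],
      !![0,1,0,0,0; 0,0,1,0,0; 0,0,0,1,0; 1,1,0,0,0], ?_, ?_, ?_⟩ <;> decide
  have h2 : Relation.EqvGen WM.Step ⟨4, CE, fun _ => 1⟩ ⟨4, CE, ![1,1,1,2]⟩ :=
    h.trans _ _ _ (Relation.EqvGen.rel _ _ hs)
  obtain ⟨U, U', hU, hU', hc, hu, hs⟩ := sse_invariant CE (fun _ => 1) CE ![1,1,1,2] CZinv
    (by rw [zm_CE, CZ_inv]) (by rw [zm_CE, CZ_inv']) CZinv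
    (by rw [zm_CE, CZ_inv]) (by rw [zm_CE, CZ_inv']) (by decide) (by decide) h2
  rw [zm_CE] at hc hs
  have e : U = nu := nu_unique U hc hu
  subst e
  have e' : U' = nuinv := by
    calc U' = U' * (nu * nuinv) := by rw [nu_inv, Matrix.mul_one]
      _ = nuinv := by rw [← Matrix.mul_assoc, hU', Matrix.one_mul]
  rw [e', sgc_nu] at hs
  exact absurd hs (by decide)

end Pool.Agent.Y83
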