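import Pool.Agent.Y83.Tr1
import Pool.Agent.Y83.Sgc8

/-!
# Cuntz-Krieger families and the chain lemma
-/

namespace Pool.Agent.Y83

open Matrix

/-- A finite directed graph. -/
structure FGraph where
  /-- vertices -/
  V : Type
  /-- edges -/
  E : Type
  [fV : Fintype V]
  [dV : DecidableEq V]
  [fE : Fintype E]
  [dE : DecidableEq E]
  /-- source -/
  s : E → V
  /-- range -/
  r : E → V

attribute [instance] FGraph.fV FGraph.dV FGraph.fE FGraph.dE

/-- A unital Cuntz-Krieger family of a finite graph without sinks. -/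
structure CKF (G : FGraph) (B : Type) [Ring B] where
  q : G.V → B
  z : G.E → B
  w : G.E → B
  qq : ∀ u v, q u * q v = if u = v then q u else 0
  sz : ∀ e, q (G.s e) * z e = z e
  zr : ∀ e, z e * q (G.r e) = z e
  rw' : ∀ e, q (G.r e) * w e = w e
  ws : ∀ e, w e * q (G.s e) = w e
  ck1 : ∀ e f, w e * z f = if e = f then q (G.r e) else 0
  ck2 : ∀ v, ∑ e with G.s e = v, z e * w e = q v
  one : ∑ v, q v = 1

namespace CKF

variable {G : FGraph} {B : Type} [Ring B] (η : CKF G B)

theorem sum_zw : ∑ e, η.z e * η.w e = 1 := by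
  rw [← η.one, ← Finset.sum_fiberwise (s := Finset.univ) (g := G.s)]
  exact Finset.sum_congr rfl fun v _ => η.ck2 v

variable {K : Type} [Field K] [Algebra K B]

/-- the compression matrix -/
def tm {T' T : Subalgebra K B} (h : ∀ t ∈ T', ∀ e f, η.w e * t * η.z f ∈ T) (t : T') :
    Matrix G.E G.E T := fun e f => ⟨η.w e * t * η.z f, h t t.2 e f⟩

theorem tm_mul {T' T : Subalgebra K B} (h : ∀ t ∈ T', ∀ e f, η.w e * t * η.z f ∈ T) (t t' : T') :
    η.tm h (t * t') = η.tm h t * η.tm h t' := by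
  ext e f
  simp only [tm, Matrix.mul_apply, AddSubmonoidClass.coe_finsetSum, MulMemClass.coe_mul]
  calc η.w e * (t * t') * η.z f = η.w e * t * 1 * (t' * η.z f) := by
        simp only [mul_assoc, one_mul]
    _ = ∑ g, η.w e * t * (η.z g * η.w g) * (t' * η.z f) := by
        rw [← η.sum_zw, Finset.mul_sum, Finset.sum_mul]
    _ = ∑ g, η.w e * t * η.z g * (η.w g * t' * η.z f) := by
        refine Finset.sum_congr rfl fun g _ => ?_
        simp only [mul_assoc]

/-- the trace of the compression matrix -/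
def trm {T' T : Subalgebra K B} (h : ∀ t ∈ T', ∀ e f, η.w e * t * η.z f ∈ T) : T' →ₗ[K] T where
  toFun t := (η.tm h t).trace
  map_add' t t' := by
    rw [← Matrix.trace_add]
    congr 1
    ext e f
    simp [tm, mul_add, add_mul]
  map_smul' c t := by
    rw [← Matrix.trace_smul]
    congr 1
    ext e f
    simp [tm]

theorem trm_coe {T' T : Subalgebra K B} (h : ∀ t ∈ T', ∀ e f, η.w e * t * η.z f ∈ T) (t : T') :
    ((η.trm h t : T) : B) = ∑ e, η.w e * t * η.z e := by
  simp [trm, tm, Matrix.trace]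

theorem tm_pow {T' T : Subalgebra K B} (h : ∀ t ∈ T', ∀ e f, η.w e * t * η.z f ∈ T) (t : T')
    (k : ℕ) : (η.tm h t) ^ (k + 1) = η.tm h (t ^ (k + 1)) := by
  induction k with
  | zero => simp
  | succ k ih => rw [pow_succ, ih, ← tm_mul, ← pow_succ]

theorem tm_zero {T' T : Subalgebra K B} (h : ∀ t ∈ T', ∀ e f, η.w e * t * η.z f ∈ T) :
    η.tm h 0 = 0 := by
  ext e f
  simp [tm]

/-- A weighted matrix represents the action of the family on the trace data of `T`. -/
def Rep (T : Subalgebra K B) (X : WM) : Prop :=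
  ∃ (h : ∀ t ∈ T, ∀ e f, η.w e * t * η.z f ∈ T) (D : TraceData K T X.n),
    (∀ a b, (X.A a b : K) = D.τ b (η.trm h (D.p a))) ∧ ∀ a, (X.u a : K) = D.τ a 1

theorem _root_.Pool.Agent.Y83.TraceData.nat {T : Type} [Ring T] [Algebra K T] {n : ℕ}
    (D : TraceData K T n)
    (a : Fin n) (x : T) (hx : x * x = x) : ∃ k : ℕ, D.τ a x = k := by
  obtain ⟨k, hk⟩ := D.idem a Unit (Matrix.diagonal fun _ => x)
    (by rw [Matrix.diagonal_mul_diagonal]; simp only [hx])
  exact ⟨k, by rw [← hk, Matrix.trace_diagonal]; simp⟩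

theorem exists_rep [IsAlgClosed K] (T : Subalgebra K B)
    [FiniteDimensional K T] (h : ∀ t ∈ T, ∀ e f, η.w e * t * η.z f ∈ T) :
    ∃ X : WM, η.Rep T X := by
  obtain ⟨n, ⟨D⟩⟩ := exists_traceData K T
  have h1 : ∀ a b, ∃ k : ℕ, D.τ b (η.trm h (D.p a)) = k := by
    intro a b
    refine D.idem b G.E (η.tm h (D.p a)) ?_
    rw [← tm_mul, D.p_idem]
  have h2 : ∀ a, ∃ k : ℕ, D.τ a 1 = k := fun a => D.nat a 1 (mul_one 1)
  choose A hA using h1
  choose u hu using h2
  exact ⟨⟨n, A, u⟩, h, D, fun a b => (hA a b).symm, fun a => (hu a).symm⟩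

/-- functionals of the compressed trace are trace functionals -/
theorem tau_trm_comm {T' T : Subalgebra K B} (h : ∀ t ∈ T', ∀ e f, η.w e * t * η.z f ∈ T)
    {n : ℕ} (D : TraceData K T n) (a : Fin n) (x y : T') :
    D.τ a (η.trm h (x * y)) = D.τ a (η.trm h (y * x)) := by
  have key : ∀ x y : T', D.τ a (η.trm h (x * y)) =
      ∑ e, ∑ f, D.τ a (η.tm h x e f * η.tm h y f e) := by
    intro x y
    change D.τ a ((η.tm h (x * y)).trace) = _
    rw [tm_mul]
    simp only [Matrix.trace, Matrix.diag_apply, Matrix.mul_apply, map_sum]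
  rw [key, key, Finset.sum_comm]
  refine Finset.sum_congr rfl fun e _ => Finset.sum_congr rfl fun f _ => ?_
  exact D.comm a _ _

theorem tau_trm_nil {T' T : Subalgebra K B} (h : ∀ t ∈ T', ∀ e f, η.w e * t * η.z f ∈ T)
    {n : ℕ} (D : TraceData K T n) (a : Fin n) (x : T') (hx : IsNilpotent x) :
    D.τ a (η.trm h x) = 0 := by
  refine D.nil a G.E (η.tm h x) ?_
  obtain ⟨k, hk⟩ := hx
  refine ⟨k + 1, ?_⟩
  rw [tm_pow, pow_succ, hk, zero_mul, tm_zero]

theorem tau_incl_nil {T' T : Subalgebra K B} (h : T ≤ T') {n : ℕ} (D : TraceData K T' n)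
    (a : Fin n) (x : T) (hx : IsNilpotent x) : D.τ a (Subalgebra.inclusion h x) = 0 := by
  have := D.nil a Unit (Matrix.diagonal fun _ => Subalgebra.inclusion h x) (by
    obtain ⟨k, hk⟩ := hx
    refine ⟨k, ?_⟩
    rw [Matrix.diagonal_pow]
    have e : (fun _ : Unit => Subalgebra.inclusion h x) ^ k = 0 := by
      funext _
      simp only [Pi.pow_apply, Pi.zero_apply]
      rw [← map_pow, hk, map_zero]
    rw [e]
    exact Matrix.diagonal_zero)
  rw [Matrix.trace_diagonal] at this
  simpa using this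

variable [CharZero K]

/-- The step lemma. -/
theorem Rep.step {T T' : Subalgebra K B} (hTT' : T ≤ T')
    (h' : ∀ t ∈ T', ∀ e f, η.w e * t * η.z f ∈ T) {X Y : WM}
    (hX : η.Rep T X) (hY : η.Rep T' Y) : X.Step Y := by
  obtain ⟨h1, D, hA, hu⟩ := hX
  obtain ⟨h2, D', hA', hu'⟩ := hY
  let i := Subalgebra.inclusion hTT'
  have hR : ∀ a b, ∃ k : ℕ, D'.τ b (i (D.p a)) = k := fun a b =>
    D'.nat b _ (by rw [← map_mul, D.p_idem])
  have hS : ∀ b a, ∃ k : ℕ, D.τ a (η.trm h' (D'.p b)) = k := by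
    intro b a
    refine D.idem a G.E (η.tm h' (D'.p b)) ?_
    rw [← tm_mul, D'.p_idem]
  choose R hR using hR
  choose S hS using hS
  have hinc : ∀ t : T, η.trm h' (i t) = η.trm h1 t := by
    intro t
    apply Subtype.ext
    rw [trm_coe, trm_coe]
    rfl
  have hinc' : ∀ t : T', i (η.trm h' t) = η.trm h2 t := by
    intro t
    apply Subtype.ext
    rw [trm_coe]
    change ((η.trm h' t : T) : B) = _
    rw [trm_coe]
  have span' : ∀ (b : Fin Y.n) (t : T), D'.τ b (i t) = ∑ a, (R a b : K) * D.τ a t := by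
    intro b t
    have := D.span (D'.τ b ∘ₗ i.toLinearMap) (by
      intro x y
      simp only [LinearMap.comp_apply, AlgHom.toLinearMap_apply, map_mul]
      exact D'.comm b _ _) (fun x hx => tau_incl_nil hTT' D' b x hx) t
    simp only [LinearMap.comp_apply, AlgHom.toLinearMap_apply] at this
    rw [this]
    exact Finset.sum_congr rfl fun a _ => by rw [hR]
  have span'' : ∀ (a : Fin X.n) (t : T'), D.τ a (η.trm h' t) = ∑ b, (S b a : K) * D'.τ b t := by
    intro a t
    have := D'.span (D.τ a ∘ₗ η.trm h') (fun x y => η.tau_trm_comm h' D a x y)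
      (fun x hx => η.tau_trm_nil h' D a x hx) t
    simp only [LinearMap.comp_apply] at this
    rw [this]
    exact Finset.sum_congr rfl fun b _ => by rw [hS]
  refine ⟨Matrix.of R, Matrix.of S, ?_, ?_, ?_⟩
  · ext a a'
    have : ((X.A a a' : ℕ) : K) = ((Matrix.of R * Matrix.of S) a a' : ℕ) := by
      rw [hA, ← hinc, span'', Matrix.mul_apply, Nat.cast_sum]
      refine Finset.sum_congr rfl fun b _ => ?_
      rw [hR, Nat.cast_mul, mul_comm, Matrix.of_apply, Matrix.of_apply]
    exact_mod_cast this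
  · ext b b'
    have : ((Y.A b b' : ℕ) : K) = ((Matrix.of S * Matrix.of R) b b' : ℕ) := by
      rw [hA', ← hinc', span', Matrix.mul_apply, Nat.cast_sum]
      refine Finset.sum_congr rfl fun a _ => ?_
      rw [hS, Nat.cast_mul, mul_comm, Matrix.of_apply, Matrix.of_apply]
    exact_mod_cast this
  · funext b
    have : ((Y.u b : ℕ) : K) = ((X.u ᵥ* (Matrix.of R)) b : ℕ) := by
      have e1 : (1 : T') = i 1 := (map_one i).symm
      rw [hu', e1, span']
      simp only [Matrix.vecMul, dotProduct, Nat.cast_sum, Nat.cast_mul]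
      refine Finset.sum_congr rfl fun a _ => ?_
      rw [hu, mul_comm, Matrix.of_apply]
    exact_mod_cast this

end CKF

end Pool.Agent.Y83
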