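import Pool.Agent.Y83.Ch1

/-!
# The level subalgebras of a Cuntz-Krieger family; the main chain theorem
-/

namespace Pool.Agent.Y83

open Matrix

namespace CKF

variable {G : FGraph} {B : Type} [Ring B] (η : CKF G B)

theorem q_z (u : G.V) (e : G.E) : η.q u * η.z e = if u = G.s e then η.z e else 0 := by
  rw [← η.sz e, ← mul_assoc, η.qq]
  split_ifs with h
  · rw [h]
  · rw [zero_mul]

theorem z_q (u : G.V) (e : G.E) : η.z e * η.q u = if G.r e = u then η.z e else 0 := by
  conv_lhs => rw [← η.zr e, mul_assoc, η.qq]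
  split_ifs with h
  · rw [η.zr]
  · rw [mul_zero]

theorem q_w (u : G.V) (e : G.E) : η.q u * η.w e = if u = G.r e then η.w e else 0 := by
  rw [← η.rw' e, ← mul_assoc, η.qq]
  split_ifs with h
  · rw [h]
  · rw [zero_mul]

theorem w_q (u : G.V) (e : G.E) : η.w e * η.q u = if G.s e = u then η.w e else 0 := by
  conv_lhs => rw [← η.ws e, mul_assoc, η.qq]
  split_ifs with h
  · rw [η.ws]
  · rw [mul_zero]

variable (K : Type) [Field K] [Algebra K B]

/-- `t ↦ z e * t * w f` -/
def zw (p : G.E × G.E) : B →ₗ[K] B :=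
  (LinearMap.mulLeft K (η.z p.1)) ∘ₗ (LinearMap.mulRight K (η.w p.2))

/-- `t ↦ w e * t * z f` -/
def wz (p : G.E × G.E) : B →ₗ[K] B :=
  (LinearMap.mulLeft K (η.w p.1)) ∘ₗ (LinearMap.mulRight K (η.z p.2))

/-- The span of the products of `i` edges times the adjoint of `i` edges. -/
def levS : ℕ → Submodule K B
  | 0 => Submodule.span K (Set.range η.q)
  | i + 1 => ⨆ p : G.E × G.E, (levS i).map (η.zw K p)

theorem zw_mem {i : ℕ} {t : B} (ht : t ∈ η.levS K i) (e f : G.E) :
    η.z e * t * η.w f ∈ η.levS K (i + 1) := by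
  have h : (η.levS K i).map (η.zw K (e, f)) ≤ η.levS K (i + 1) :=
    le_iSup (fun p : G.E × G.E => (η.levS K i).map (η.zw K p)) (e, f)
  apply h
  refine ⟨t, ht, ?_⟩
  simp [zw, mul_assoc]

/-- induction principle -/
theorem levS_succ_le {i : ℕ} {N : Submodule K B}
    (h : ∀ t ∈ η.levS K i, ∀ e f, η.z e * t * η.w f ∈ N) : η.levS K (i + 1) ≤ N := by
  refine iSup_le fun p => ?_
  rintro _ ⟨t, ht, rfl⟩
  have := h t ht p.1 p.2
  simpa [zw, mul_assoc] using this

theorem q_mem_levS_zero (v : G.V) : η.q v ∈ η.levS K 0 := Submodule.subset_span ⟨v, rfl⟩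

theorem q_mul_mem (i : ℕ) : ∀ t ∈ η.levS K i, ∀ u, η.q u * t ∈ η.levS K i := by
  cases i with
  | zero =>
    intro t ht u
    have h : η.levS K 0 ≤ (η.levS K 0).comap (LinearMap.mulLeft K (η.q u)) := by
      refine Submodule.span_le.mpr ?_
      rintro _ ⟨v, rfl⟩
      simp only [SetLike.mem_coe, Submodule.mem_comap, LinearMap.mulLeft_apply, η.qq]
      split_ifs
      · exact η.q_mem_levS_zero K u
      · exact Submodule.zero_mem _
    exact h ht
  | succ i =>
    intro t ht u
    have h : η.levS K (i + 1) ≤ (η.levS K (i + 1)).comap (LinearMap.mulLeft K (η.q u)) := by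
      refine η.levS_succ_le K fun t ht e f => ?_
      simp only [Submodule.mem_comap, LinearMap.mulLeft_apply]
      rw [← mul_assoc, ← mul_assoc, η.q_z]
      split_ifs
      · exact η.zw_mem K ht e f
      · simp
    exact h ht

theorem mul_q_mem (i : ℕ) : ∀ t ∈ η.levS K i, ∀ u, t * η.q u ∈ η.levS K i := by
  cases i with
  | zero =>
    intro t ht u
    have h : η.levS K 0 ≤ (η.levS K 0).comap (LinearMap.mulRight K (η.q u)) := by
      refine Submodule.span_le.mpr ?_
      rintro _ ⟨v, rfl⟩
      simp only [SetLike.mem_coe, Submodule.mem_comap, LinearMap.mulRight_apply, η.qq]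
      split_ifs
      · exact η.q_mem_levS_zero K _
      · exact Submodule.zero_mem _
    exact h ht
  | succ i =>
    intro t ht u
    have h : η.levS K (i + 1) ≤ (η.levS K (i + 1)).comap (LinearMap.mulRight K (η.q u)) := by
      refine η.levS_succ_le K fun t ht e f => ?_
      simp only [Submodule.mem_comap, LinearMap.mulRight_apply]
      rw [mul_assoc, η.w_q]
      split_ifs
      · exact η.zw_mem K ht e f
      · simp
    exact h ht

theorem wz_mem (i : ℕ) : ∀ t ∈ η.levS K (i + 1), ∀ e f, η.w e * t * η.z f ∈ η.levS K i := by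
  intro t ht e f
  have h : η.levS K (i + 1) ≤ (η.levS K i).comap (η.wz K (e, f)) := by
    refine η.levS_succ_le K fun t ht e' f' => ?_
    simp only [Submodule.mem_comap, wz, LinearMap.comp_apply, LinearMap.mulLeft_apply,
      LinearMap.mulRight_apply]
    have e1 : η.w e * (η.z e' * t * η.w f' * η.z f) =
        (η.w e * η.z e') * t * (η.w f' * η.z f) := by simp only [mul_assoc]
    rw [e1, η.ck1, η.ck1]
    split_ifs
    · exact η.mul_q_mem K i _ (η.q_mul_mem K i t ht _) _
    · simp
    · simp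
    · simp
  have := h ht
  simpa [wz, mul_assoc] using this

theorem sum_decomp (t : B) : t = ∑ e, ∑ f, η.z e * (η.w e * t * η.z f) * η.w f := by
  calc t = 1 * t * 1 := by rw [one_mul, mul_one]
    _ = (∑ e, η.z e * η.w e) * t * (∑ f, η.z f * η.w f) := by rw [η.sum_zw]
    _ = _ := by
      rw [Finset.sum_mul, Finset.sum_mul]
      refine Finset.sum_congr rfl fun e _ => ?_
      rw [Finset.mul_sum]
      refine Finset.sum_congr rfl fun f _ => ?_
      simp only [mul_assoc]

theorem wz_levS_zero : ∀ t ∈ η.levS K 0, ∀ e f, η.w e * t * η.z f ∈ η.levS K 0 := by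
  intro t ht e f
  have h : η.levS K 0 ≤ (η.levS K 0).comap (η.wz K (e, f)) := by
    refine Submodule.span_le.mpr ?_
    rintro _ ⟨v, rfl⟩
    simp only [SetLike.mem_coe, Submodule.mem_comap, wz, LinearMap.comp_apply,
      LinearMap.mulLeft_apply, LinearMap.mulRight_apply]
    rw [η.q_z]
    split_ifs
    · rw [η.ck1]
      split_ifs
      · exact η.q_mem_levS_zero K _
      · exact Submodule.zero_mem _
    · simp
  have := h ht
  simpa [wz, mul_assoc] using this

theorem levS_aux (i : ℕ) : (∀ t ∈ η.levS K i, ∀ e f, η.w e * t * η.z f ∈ η.levS K i) ∧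
    η.levS K i ≤ η.levS K (i + 1) := by
  have key : ∀ i, (∀ t ∈ η.levS K i, ∀ e f, η.w e * t * η.z f ∈ η.levS K i) →
      η.levS K i ≤ η.levS K (i + 1) := by
    intro i h t ht
    rw [η.sum_decomp t]
    exact Submodule.sum_mem _ fun e _ => Submodule.sum_mem _ fun f _ =>
      η.zw_mem K (h t ht e f) e f
  induction i with
  | zero => exact ⟨η.wz_levS_zero K, key 0 (η.wz_levS_zero K)⟩
  | succ i ih =>
    have h1 : ∀ t ∈ η.levS K (i + 1), ∀ e f, η.w e * t * η.z f ∈ η.levS K (i + 1) :=
      fun t ht e f => ih.2 (η.wz_mem K i t ht e f)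
    exact ⟨h1, key _ h1⟩

theorem levS_mono : Monotone (η.levS K) := monotone_nat_of_le_succ fun i => (η.levS_aux K i).2

theorem mul_mem_levS (i : ℕ) : ∀ t ∈ η.levS K i, ∀ t' ∈ η.levS K i, t * t' ∈ η.levS K i := by
  induction i with
  | zero =>
    intro t ht t' ht'
    have h : η.levS K 0 ≤ (η.levS K 0).comap (LinearMap.mulRight K t') := by
      refine Submodule.span_le.mpr ?_
      rintro _ ⟨v, rfl⟩
      exact η.q_mul_mem K 0 t' ht' v
    exact h ht
  | succ i ih =>
    intro t ht t' ht'
    have h : η.levS K (i + 1) ≤ (η.levS K (i + 1)).comap (LinearMap.mulRight K t') := by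
      refine η.levS_succ_le K fun t ht e f => ?_
      have h' : η.levS K (i + 1) ≤
          (η.levS K (i + 1)).comap (LinearMap.mulLeft K (η.z e * t * η.w f)) := by
        refine η.levS_succ_le K fun t' ht' e' f' => ?_
        simp only [Submodule.mem_comap, LinearMap.mulLeft_apply]
        have e1 : η.z e * t * η.w f * (η.z e' * t' * η.w f') =
            η.z e * (t * (η.w f * η.z e') * t') * η.w f' := by simp only [mul_assoc]
        rw [e1, η.ck1]
        split_ifs
        · exact η.zw_mem K (ih _ (η.mul_q_mem K i t ht _) _ ht') _ _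
        · simp
      exact h' ht'
    exact h ht

theorem one_mem_levS (i : ℕ) : (1 : B) ∈ η.levS K i := by
  apply η.levS_mono K (Nat.zero_le i)
  rw [← η.one]
  exact Submodule.sum_mem _ fun v _ => η.q_mem_levS_zero K v

/-- The level subalgebra. -/
def lev (i : ℕ) : Subalgebra K B :=
  (η.levS K i).toSubalgebra (η.one_mem_levS K i) (fun x y hx hy => η.mul_mem_levS K i x hx y hy)

theorem mem_lev {i : ℕ} {t : B} : t ∈ η.lev K i ↔ t ∈ η.levS K i := Iff.rfl

instance levS_fin (i : ℕ) : FiniteDimensional K (η.levS K i) := by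
  induction i with
  | zero => exact FiniteDimensional.span_of_finite K (Set.finite_range _)
  | succ i ih =>
    change FiniteDimensional K (⨆ p : G.E × G.E, (η.levS K i).map (η.zw K p) : Submodule K B)
    infer_instance

instance lev_fin (i : ℕ) : FiniteDimensional K (η.lev K i) := η.levS_fin K i

variable {K}

/-- The chain theorem. -/
theorem chain [IsAlgClosed K] [CharZero K] (T : ℕ → Subalgebra K B)
    (hfin : ∀ i, FiniteDimensional K (T i)) (hmono : ∀ i, T i ≤ T (i + 1))
    (h0 : ∀ t ∈ T 0, ∀ e f, η.w e * t * η.z f ∈ T 0)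
    (h : ∀ i, ∀ t ∈ T (i + 1), ∀ e f, η.w e * t * η.z f ∈ T i)
    {X : WM} (hX : η.Rep (T 0) X) (i : ℕ) :
    ∀ {Y : WM}, η.Rep (T i) Y → Relation.EqvGen WM.Step X Y := by
  induction i with
  | zero =>
    intro Y hY
    exact Relation.EqvGen.rel _ _ (hX.step η le_rfl h0 hY)
  | succ i ih =>
    intro Y hY
    have hc : ∀ t ∈ T i, ∀ e f, η.w e * t * η.z f ∈ T i := by
      cases i with
      | zero => exact h0
      | succ i => exact fun t ht e f => hmono i (h i t ht e f)
    have := hfin i
    obtain ⟨Z, hZ⟩ := η.exists_rep (T i) hc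
    exact Relation.EqvGen.trans _ _ _ (ih hZ)
      (Relation.EqvGen.rel _ _ (hZ.step η (hmono i) (h i) hY))

end CKF

end Pool.Agent.Y83
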