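import Pool.Agent.Y83.Ch2

/-!
# Two Cuntz-Krieger families: strong shift equivalence of the graphs
-/

namespace Pool.Agent.Y83

open Matrix

/-- Trace data of a finite product of copies of the field. -/
noncomputable def TraceData.pi (K : Type) [Field K] (V : Type) [Fintype V] [DecidableEq V]
    {n : ℕ} (σ : Fin n ≃ V) : TraceData K (V → K) n where
  τ a := LinearMap.proj (σ a)
  p a := Pi.single (σ a) 1
  comm a x y := by rw [mul_comm]
  idem a ι _ _ M hM := by
    obtain ⟨k, hk⟩ := trace_idem_nat (M.map (Pi.evalRingHom (fun _ => K) (σ a))) (by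
      rw [← Matrix.map_mul, hM])
    refine ⟨k, ?_⟩
    rw [← hk]
    simp [Matrix.trace]
  nil a ι _ _ M hM := by
    have hk := trace_nil_zero ((Pi.evalRingHom (fun _ => K) (σ a)).mapMatrix M) (hM.map _)
    rw [← hk]
    simp [Matrix.trace]
  p_idem a := by rw [← Pi.single_mul, mul_one]
  dual a b := by
    simp only [LinearMap.proj_apply, Pi.single_apply, EmbeddingLike.apply_eq_iff_eq]
    split_ifs with h1 h2 h2
    · rfl
    · exact absurd h1.symm h2
    · exact absurd h2.symm h1
    · rfl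
  span θ _ _ t := by
    have h1 : t = ∑ v, t v • (Pi.single v (1 : K) : V → K) := by
      funext w
      simp [Finset.sum_apply, Pi.single_apply]
    conv_lhs => rw [h1]
    rw [map_sum, ← Equiv.sum_comp σ]
    refine Finset.sum_congr rfl fun a _ => ?_
    rw [map_smul, smul_eq_mul, mul_comm]
    rfl

/-- Transport of trace data along an isomorphism. -/
noncomputable def TraceData.map {K T T' : Type} [Field K] [Ring T] [Algebra K T] [Ring T']
    [Algebra K T'] {n : ℕ} (D : TraceData K T n) (e : T ≃ₐ[K] T') : TraceData K T' n where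
  τ a := D.τ a ∘ₗ e.symm.toLinearMap
  p a := e (D.p a)
  comm a x y := by
    simp only [LinearMap.comp_apply, AlgEquiv.toLinearMap_apply, map_mul]
    exact D.comm _ _ _
  idem a ι _ _ M hM := by
    obtain ⟨k, hk⟩ := D.idem a ι (M.map e.symm) (by rw [← Matrix.map_mul, hM])
    refine ⟨k, ?_⟩
    rw [← hk]
    simp [Matrix.trace]
  nil a ι _ _ M hM := by
    have hk := D.nil a ι ((e.symm : T' →+* T).mapMatrix M) (hM.map _)
    rw [← hk]
    simp [Matrix.trace]
  p_idem a := by rw [← map_mul, D.p_idem]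
  dual a b := by
    simp only [LinearMap.comp_apply, AlgEquiv.toLinearMap_apply, AlgEquiv.symm_apply_apply]
    exact D.dual a b
  span θ h1 h2 t := by
    have := D.span (θ ∘ₗ e.toLinearMap) (by
      intro x y
      simp only [LinearMap.comp_apply, AlgEquiv.toLinearMap_apply, map_mul]
      exact h1 _ _) (by
      intro x hx
      exact h2 _ (hx.map e)) (e.symm t)
    simpa using this

/-- The weighted adjacency matrix of a graph, all weights one, for an enumeration of the
vertices. -/
def FGraph.wm (G : FGraph) {n : ℕ} (σ : Fin n ≃ G.V) : WM where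
  n := n
  A := fun a b => (Finset.univ.filter fun e => G.s e = σ a ∧ G.r e = σ b).card
  u := fun _ => 1

namespace CKF

variable {G : FGraph} {B : Type} [Ring B] (η : CKF G B) (K : Type) [Field K] [Algebra K B]

/-- linear combinations of the vertex idempotents -/
def qlin : (G.V → K) →ₐ[K] B where
  toFun c := ∑ v, c v • η.q v
  map_one' := by simp [η.one]
  map_mul' c c' := by
    rw [Finset.sum_mul]
    refine Finset.sum_congr rfl fun v _ => ?_
    rw [Finset.mul_sum, Finset.sum_eq_single v]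
    · simp [η.qq, smul_smul, mul_comm]
    · intro w _ hw
      rw [smul_mul_smul_comm, η.qq, if_neg (Ne.symm hw), smul_zero]
    · intro h; exact absurd (Finset.mem_univ _) h
  map_zero' := by simp
  map_add' c c' := by simp [add_smul, Finset.sum_add_distrib]
  commutes' c := by
    simp only [Pi.algebraMap_apply, Algebra.algebraMap_self, RingHom.id_apply]
    rw [← Finset.smul_sum, η.one, Algebra.algebraMap_eq_smul_one]

theorem qlin_apply (c : G.V → K) : η.qlin K c = ∑ v, c v • η.q v := rfl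

theorem q_mul_qlin (c : G.V → K) (u : G.V) : η.q u * η.qlin K c = c u • η.q u := by
  rw [qlin_apply, Finset.mul_sum, Finset.sum_eq_single u]
  · simp [η.qq]
  · intro w _ hw
    rw [mul_smul_comm, η.qq, if_neg (Ne.symm hw), smul_zero]
  · intro h; exact absurd (Finset.mem_univ _) h

theorem qlin_single (u : G.V) : η.qlin K (Pi.single u 1) = η.q u := by
  rw [qlin_apply, Finset.sum_eq_single u]
  · simp
  · intro w _ hw
    simp [Pi.single_apply, hw]
  · intro h; exact absurd (Finset.mem_univ _) h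

theorem qlin_injective (hq : ∀ v, η.q v ≠ 0) : Function.Injective (η.qlin K) := by
  intro c c' h
  funext u
  have h1 := congrArg (fun x => η.q u * x) h
  simp only [q_mul_qlin] at h1
  have h2 : (c u - c' u) • η.q u = 0 := by rw [sub_smul, h1, sub_self]
  rcases smul_eq_zero.mp h2 with h3 | h3
  · exact sub_eq_zero.mp h3
  · exact absurd h3 (hq u)

theorem qlin_mem (c : G.V → K) : η.qlin K c ∈ η.lev K 0 :=
  Submodule.sum_mem _ fun v _ => Submodule.smul_mem _ _ (η.q_mem_levS_zero K v)

theorem qlin_surj (t : B) (ht : t ∈ η.lev K 0) : ∃ c, η.qlin K c = t := by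
  have h : η.levS K 0 ≤ LinearMap.range (η.qlin K).toLinearMap := by
    refine Submodule.span_le.mpr ?_
    rintro _ ⟨v, rfl⟩
    exact ⟨Pi.single v 1, η.qlin_single K v⟩
  exact h ht

/-- The zeroth level is a product of copies of the field. -/
noncomputable def lev0Equiv (hq : ∀ v, η.q v ≠ 0) : (G.V → K) ≃ₐ[K] η.lev K 0 :=
  AlgEquiv.ofBijective ((η.qlin K).codRestrict (η.lev K 0) (η.qlin_mem K)) (by
    constructor
    · intro c c' h
      exact η.qlin_injective K hq (congrArg Subtype.val h)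
    · rintro ⟨t, ht⟩
      obtain ⟨c, hc⟩ := η.qlin_surj K t ht
      exact ⟨c, Subtype.ext hc⟩)

theorem lev0Equiv_coe (hq : ∀ v, η.q v ≠ 0) (c : G.V → K) :
    ((η.lev0Equiv K hq c : η.lev K 0) : B) = η.qlin K c := rfl

theorem rep_zero (hq : ∀ v, η.q v ≠ 0) {n : ℕ} (σ : Fin n ≃ G.V) :
    η.Rep (η.lev K 0) (G.wm σ) := by
  have hz : ∀ t ∈ η.lev K 0, ∀ e f, η.w e * t * η.z f ∈ η.lev K 0 := η.wz_levS_zero K
  refine ⟨hz, (TraceData.pi K G.V σ).map (η.lev0Equiv K hq), ?_, ?_⟩
  · intro a b
    have h1 : η.trm hz (η.lev0Equiv K hq (Pi.single (σ a) (1 : K))) =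
        η.lev0Equiv K hq (fun v => ((Finset.univ.filter fun e => G.s e = σ a ∧ G.r e = v).card : K))
        := by
      apply Subtype.ext
      rw [trm_coe, lev0Equiv_coe, lev0Equiv_coe, qlin_single, qlin_apply]
      have h2 : ∀ e, η.w e * η.q (σ a) * η.z e = if G.s e = σ a then η.q (G.r e) else 0 := by
        intro e
        rw [η.w_q]
        split_ifs
        · rw [η.ck1, if_pos rfl]
        · rw [zero_mul]
      rw [Finset.sum_congr rfl fun e _ => h2 e, ← Finset.sum_filter,
        ← Finset.sum_fiberwise (s := Finset.univ.filter fun e => G.s e = σ a) (g := G.r)]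
      refine Finset.sum_congr rfl fun v _ => ?_
      rw [Finset.filter_filter]
      rw [Finset.sum_congr rfl (g := fun _ => η.q v)]
      · rw [Finset.sum_const, Nat.cast_smul_eq_nsmul]
      · intro e he
        rw [Finset.mem_filter] at he
        rw [he.2.2]
    change ((Finset.univ.filter fun e => G.s e = σ a ∧ G.r e = σ b).card : K) =
      (TraceData.pi K G.V σ).τ b ((η.lev0Equiv K hq).symm
        (η.trm hz (η.lev0Equiv K hq (Pi.single (σ a) (1 : K)))))
    rw [h1, AlgEquiv.symm_apply_apply]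
    rfl
  · intro a
    change ((1 : ℕ) : K) = (TraceData.pi K G.V σ).τ a ((η.lev0Equiv K hq).symm 1)
    rw [map_one]
    simp [TraceData.pi]

variable {K}

/-- If two families are related through a subalgebra, they have the same representing weighted
matrices on it. -/
theorem Rep.transfer {H : FGraph} {γ : CKF H B} {η : CKF G B} {T : Subalgebra K B} {X : WM}
    (h : ∀ t ∈ T, ∀ e f, γ.w e * t * γ.z f ∈ T)
    (h1 : ∀ e f, γ.w e * η.z f ∈ T) (h2 : ∀ e f, η.w e * γ.z f ∈ T)
    (hX : η.Rep T X) : γ.Rep T X := by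
  obtain ⟨h', D, hA, hu⟩ := hX
  refine ⟨h, D, fun a b => ?_, hu⟩
  rw [hA]
  -- `τ (η.trm t) = τ (γ.trm t)`
  set t : T := D.p a
  let m : H.E → G.E → T := fun e f => ⟨γ.w e * η.z f, h1 e f⟩
  let m' : G.E → H.E → T := fun e f => ⟨η.w e * γ.z f, h2 e f⟩
  have e1 : η.trm h' t = ∑ f : G.E, ∑ e : H.E, ∑ e' : H.E,
      m' f e * (γ.tm h t e e' * m e' f) := by
    apply Subtype.ext
    rw [trm_coe]
    simp only [AddSubmonoidClass.coe_finsetSum, MulMemClass.coe_mul]
    refine Finset.sum_congr rfl fun f _ => ?_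
    conv_lhs => rw [γ.sum_decomp (t : B)]
    rw [Finset.mul_sum, Finset.sum_mul]
    refine Finset.sum_congr rfl fun e _ => ?_
    rw [Finset.mul_sum, Finset.sum_mul]
    refine Finset.sum_congr rfl fun e' _ => ?_
    simp only [m, m', tm, mul_assoc]
  have e2 : γ.trm h t = ∑ f : G.E, ∑ e : H.E, ∑ e' : H.E,
      (γ.tm h t e e' * m e' f) * m' f e := by
    apply Subtype.ext
    rw [trm_coe]
    simp only [AddSubmonoidClass.coe_finsetSum, MulMemClass.coe_mul]
    rw [Finset.sum_comm]
    refine Finset.sum_congr rfl fun e _ => ?_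
    rw [Finset.sum_comm]
    have e3 : ∀ e', ∑ f : G.E, γ.w e * ↑t * γ.z e' * (γ.w e' * η.z f) * (η.w f * γ.z e) =
        γ.w e * ↑t * γ.z e' * (γ.w e' * γ.z e) := by
      intro e'
      calc _ = γ.w e * ↑t * γ.z e' * (γ.w e' * (∑ f, η.z f * η.w f) * γ.z e) := by
            rw [Finset.mul_sum, Finset.sum_mul, Finset.mul_sum]
            refine Finset.sum_congr rfl fun f _ => ?_
            simp only [mul_assoc]
        _ = _ := by rw [η.sum_zw, mul_one]
    simp only [m, m', tm]
    rw [Finset.sum_congr rfl fun e' _ => e3 e']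
    calc γ.w e * ↑t * γ.z e = γ.w e * ↑t * (∑ e', γ.z e' * γ.w e') * γ.z e := by
          rw [γ.sum_zw, mul_one]
      _ = _ := by
          rw [Finset.mul_sum, Finset.sum_mul]
          refine Finset.sum_congr rfl fun f _ => ?_
          simp only [mul_assoc]
  rw [e1, e2]
  simp only [map_sum]
  refine Finset.sum_congr rfl fun f _ => Finset.sum_congr rfl fun e _ =>
    Finset.sum_congr rfl fun e' _ => ?_
  exact D.comm _ _ _

/-- Two families with intertwined filtrations: the graphs are strong shift equivalent. -/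
theorem sse_of_families [IsAlgClosed K] [CharZero K] {H : FGraph} (γ : CKF G B) (η : CKF H B)
    (hγ : ∀ v, γ.q v ≠ 0) (hη : ∀ v, η.q v ≠ 0) (n M : ℕ)
    (h1 : ∀ v, η.q v ∈ γ.lev K n)
    (h2 : ∀ e f, γ.w e * η.z f ∈ γ.lev K n) (h3 : ∀ e f, η.w e * γ.z f ∈ γ.lev K n)
    (h4 : γ.lev K n ≤ η.lev K M)
    {a b : ℕ} (σ : Fin a ≃ G.V) (ρ : Fin b ≃ H.V) :
    Relation.EqvGen WM.Step (G.wm σ) (H.wm ρ) := by
  have hc : ∀ t ∈ γ.lev K n, ∀ e f, γ.w e * t * γ.z f ∈ γ.lev K n := (γ.levS_aux K n).1
  obtain ⟨Y, hY⟩ := γ.exists_rep (γ.lev K n) hc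
  -- the chain for `γ`
  have c1 : Relation.EqvGen WM.Step (G.wm σ) Y :=
    γ.chain (fun i => γ.lev K i) (fun i => inferInstance) (fun i => γ.levS_mono K (Nat.le_succ i))
      (γ.wz_levS_zero K) (fun i t ht e f => γ.wz_mem K i t ht e f) (γ.rep_zero K hγ σ) n hY
  -- the chain for `η`
  have hd : ∀ t ∈ γ.lev K n, ∀ e f, η.w e * t * η.z f ∈ γ.lev K n := by
    intro t ht e f
    rw [γ.sum_decomp t, Finset.mul_sum, Finset.sum_mul]
    refine Subalgebra.sum_mem _ fun e' _ => ?_
    rw [Finset.mul_sum, Finset.sum_mul]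
    refine Subalgebra.sum_mem _ fun f' _ => ?_
    have e1 : η.w e * (γ.z e' * (γ.w e' * t * γ.z f') * γ.w f') * η.z f =
        (η.w e * γ.z e') * (γ.w e' * t * γ.z f') * (γ.w f' * η.z f) := by
      simp only [mul_assoc]
    rw [e1]
    exact mul_mem (mul_mem (h3 _ _) (hc t ht _ _)) (h2 _ _)
  have c2 : Relation.EqvGen WM.Step (H.wm ρ) Y := by
    have hT0 : γ.lev K n ⊓ η.lev K 0 = η.lev K 0 := by
      refine inf_eq_right.mpr ?_
      have : η.levS K 0 ≤ γ.levS K n := by
        refine Submodule.span_le.mpr ?_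
        rintro _ ⟨v, rfl⟩
        exact h1 v
      exact this
    have hTM : γ.lev K n ⊓ η.lev K M = γ.lev K n := inf_eq_left.mpr h4
    refine η.chain (fun i => γ.lev K n ⊓ η.lev K i) (fun i => ?_)
      (fun i => inf_le_inf_left _ (η.levS_mono K (Nat.le_succ i)))
      (fun t ht e f => ⟨hd t ht.1 e f, η.wz_levS_zero K t ht.2 e f⟩)
      (fun i t ht e f => ⟨hd t ht.1 e f, η.wz_mem K i t ht.2 e f⟩)
      (X := H.wm ρ) ?_ M (Y := Y) ?_
    · have : FiniteDimensional K (Subalgebra.toSubmodule (γ.lev K n)) := γ.levS_fin K n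
      exact Submodule.finiteDimensional_of_le
        (S₁ := Subalgebra.toSubmodule (γ.lev K n ⊓ η.lev K i))
        (S₂ := Subalgebra.toSubmodule (γ.lev K n)) inf_le_left
    · change η.Rep (γ.lev K n ⊓ η.lev K 0) (H.wm ρ)
      rw [hT0]
      exact η.rep_zero K hη ρ
    · change η.Rep (γ.lev K n ⊓ η.lev K M) Y
      rw [hTM]
      exact hY.transfer hd h3 h2
  exact Relation.EqvGen.trans _ _ _ c1 (Relation.EqvGen.symm _ _ c2)

end CKF

end Pool.Agent.Y83
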