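import Pool.Agent.Y83.Lpa3

/-!
# The two graphs
-/

namespace Pool.Agent.Y83

/-- The graph with vertices `0,1,2,3` and edges `0 → 1`, `1 → 2`, `2 → 3`, `3 → 0`, `3 → 1`. -/
def graphE : FGraph where
  V := Fin 4
  E := Fin 5
  s := ![0, 1, 2, 3, 3]
  r := ![1, 2, 3, 0, 1]

/-- The graph with vertices `0,1,2,3,4` and edges `0 → 1`, `1 → 2`, `2 → 3`, `3 → 0`, `3 → 1`,
`4 → 0`, `4 → 1`. -/
def graphF : FGraph where
  V := Fin 5
  E := Fin 7
  s := ![0, 1, 2, 3, 3, 4, 4]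
  r := ![1, 2, 3, 0, 1, 0, 1]

theorem graphE_noSinks : graphE.NoSinks := by
  change ∀ v : Fin 4, ∃ e : Fin 5, (![0, 1, 2, 3, 3] : Fin 5 → Fin 4) e = v
  decide

theorem graphF_noSinks : graphF.NoSinks := by
  change ∀ v : Fin 5, ∃ e : Fin 7, (![0, 1, 2, 3, 3, 4, 4] : Fin 7 → Fin 5) e = v
  decide

theorem graphE_wm : graphE.wm (Equiv.refl (Fin 4)) = ⟨4, CE, fun _ => 1⟩ := by
  have : (Matrix.of fun a b : Fin 4 => (Finset.univ.filter fun e : Fin 5 =>
      (![0, 1, 2, 3, 3] : Fin 5 → Fin 4) e = a ∧ (![1, 2, 3, 0, 1] : Fin 5 → Fin 4) e = b).card) =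
      CE := by
    decide
  unfold FGraph.wm
  rw [← this]
  rfl

theorem graphF_wm : graphF.wm (Equiv.refl (Fin 5)) = ⟨5, CF, fun _ => 1⟩ := by
  have : (Matrix.of fun a b : Fin 5 => (Finset.univ.filter fun e : Fin 7 =>
      (![0, 1, 2, 3, 3, 4, 4] : Fin 7 → Fin 5) e = a ∧
      (![1, 2, 3, 0, 1, 0, 1] : Fin 7 → Fin 5) e = b).card) = CF := by
    decide
  unfold FGraph.wm
  rw [← this]
  rfl

/-- The Leavitt path algebras of the two graphs are not graded isomorphic. -/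
theorem not_gradedIso (K : Type) [Field K] [IsAlgClosed K] [CharZero K] :
    ¬ GradedIso K graphE graphF := by
  intro h
  have h1 := sse_of_gradedIso K graphE_noSinks graphF_noSinks h
    (Equiv.refl (Fin 4)) (Equiv.refl (Fin 5))
  rw [graphE_wm, graphF_wm] at h1
  exact not_sse h1

end Pool.Agent.Y83
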