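import Pool.Agent.Y83.Lk5

set_option linter.unusedSectionVars false
set_option linter.unusedVariables false

/-!
# The class homomorphism and pointed isomorphisms of graded Grothendieck groups
-/

namespace Pool.Agent.Y83

open Matrix

noncomputable section

namespace LPA

variable (K : Type) [Field K] [CharZero K] {G : FGraph} (hG : G.NoSinks)
variable {d : ℕ} (S : Pres G d)

/-- The value of a module is determined. -/
def HasVal (P : GrMod (grading K G)) (x : Fin d → ℤ) : Prop :=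
  ∃ (κ : Type) (_ : Fintype κ) (_ : DecidableEq κ) (β : κ → G.V) (k : ℤ),
    P.Iso (Std K hG β k) ∧ x = S.val β k

theorem HasVal.unique {P Q : GrMod (grading K G)} {x y : Fin d → ℤ} (h : HasVal K hG S P x)
    (h' : HasVal K hG S Q y) (hPQ : P.Iso Q) : x = y := by
  obtain ⟨κ, _, _, β, k, h1, rfl⟩ := h
  obtain ⟨κ', _, _, β', k', h1', rfl⟩ := h'
  exact val_eq_of_MvN K hG S β β' k k'
    ((Std_iso_iff K hG β β' k k').mp ((h1.symm.trans hPQ).trans h1'))

theorem HasVal.iso {P Q : GrMod (grading K G)} {x : Fin d → ℤ} (h : HasVal K hG S P x)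
    (h' : HasVal K hG S Q x) : P.Iso Q := by
  obtain ⟨κ, _, _, β, k, h1, h2⟩ := h
  obtain ⟨κ', _, _, β', k', h1', h2'⟩ := h'
  exact (h1.trans ((Std_iso_iff K hG β β' k k').mpr
    (MvN_of_val_eq K hG S β β' k k' (h2.symm.trans h2')))).trans h1'.symm

theorem HasVal.exists {P : GrMod (grading K G)} (hP : P.IsFGProj) :
    ∃ x, HasVal K hG S P x := by
  obtain ⟨κ, _, _, β, k, h⟩ := exists_Std K hG hP
  exact ⟨_, κ, inferInstance, inferInstance, β, k, h, rfl⟩

theorem HasVal.shift {P : GrMod (grading K G)} {x : Fin d → ℤ} (h : HasVal K hG S P x) :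
    HasVal K hG S (P.shift 1) (x ᵥ* S.C.1) := by
  obtain ⟨κ, _, _, β, k, h1, rfl⟩ := h
  refine ⟨κ, inferInstance, inferInstance, β, k + 1, (h1.shift 1).trans (Std_shift K hG β k), ?_⟩
  unfold Pres.val
  rw [Matrix.vecMul_vecMul, ← Units.val_mul, _root_.zpow_add_one]

/-- lowering the degree of the presentation -/
theorem HasVal.lower {P : GrMod (grading K G)} {x : Fin d → ℤ}
    {κ : Type} [Fintype κ] [DecidableEq κ] {β : κ → G.V} {k : ℤ}
    (h1 : P.Iso (Std K hG β k)) (a : ℕ) :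
    ∃ (κ' : Type) (_ : Fintype κ') (_ : DecidableEq κ') (β' : κ' → G.V),
      P.Iso (Std K hG β' (k - a)) ∧ S.val β' (k - a) = S.val β k := by
  obtain ⟨κ', _, _, β', m1, c1⟩ := raise K hG a β k
  refine ⟨κ', inferInstance, inferInstance, β', h1.trans ((Std_iso_iff K hG _ _ _ _).mpr m1), ?_⟩
  exact (val_eq_of_MvN K hG S β β' k (k - a) m1).symm

theorem cnt_sum {V ι κ : Type} [Fintype ι] [Fintype κ] [DecidableEq V] (α : ι → V) (β : κ → V) :
    cnt (Sum.elim α β) = cnt α + cnt β := by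
  funext v
  unfold cnt
  simp only [Pi.add_apply]
  rw [Finset.card_filter, Finset.card_filter, Finset.card_filter, Fintype.sum_sum_type]
  rfl

theorem HasVal.dsum {P Q : GrMod (grading K G)} {x y : Fin d → ℤ} (h : HasVal K hG S P x)
    (h' : HasVal K hG S Q y) : HasVal K hG S (P.dsum Q) (x + y) := by
  obtain ⟨κ, _, _, β, k, h1, rfl⟩ := h
  obtain ⟨κ', _, _, β', k', h1', rfl⟩ := h'
  obtain ⟨a, b, hab⟩ : ∃ a b : ℕ, k - a = k' - b := by
    rcases le_total k k' with h | h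
    · exact ⟨0, (k' - k).toNat, by rw [Int.toNat_of_nonneg (by omega)]; simp⟩
    · exact ⟨(k - k').toNat, 0, by rw [Int.toNat_of_nonneg (by omega)]; simp⟩
  obtain ⟨κ₁, _, _, γ, g1, g2⟩ := HasVal.lower K hG S (x := 0) h1 a
  obtain ⟨κ₂, _, _, γ', g1', g2'⟩ := HasVal.lower K hG S (x := 0) h1' b
  rw [← hab] at g1' g2'
  refine ⟨κ₁ ⊕ κ₂, inferInstance, inferInstance, Sum.elim γ γ', k - a,
    (g1.dsum g1').trans (Std_dsum K hG γ γ' _), ?_⟩
  rw [← g2, ← g2']
  unfold Pres.val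
  rw [cnt_sum, ← Matrix.add_vecMul]
  congr 1
  unfold Pres.sm
  rw [← Finset.sum_add_distrib]
  refine Finset.sum_congr rfl fun v _ => ?_
  rw [Pi.add_apply, add_smul]

theorem HasVal.zero {ι : Type} [IsEmpty ι] [Finite ι] (δ : ι → ℤ) :
    HasVal K hG S (GrMod.free (grading K G) δ) 0 := by
  refine ⟨Empty, inferInstance, inferInstance, fun x => x.elim, 0, ?_, ?_⟩
  · have u1 : Subsingleton (GrMod.free (grading K G) δ).carrier :=
      inferInstanceAs (Subsingleton (ι → LPA K G))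
    have u2 : Subsingleton (Std K hG (fun x : Empty => (x.elim : G.V)) 0).carrier :=
      ⟨fun a b => Subtype.ext (funext fun x => x.elim)⟩
    refine ⟨LinearEquiv.ofSubsingleton _ _, fun i m => ?_⟩
    constructor
    · intro _ j _
      exact j.elim
    · intro _ j _
      exact isEmptyElim j
  · unfold Pres.val Pres.sm cnt
    simp

/-- The class homomorphism. -/
def cl : Vgr (grading K G) →+ (Fin d → ℤ) where
  toFun := Quotient.lift (fun P : FGP (grading K G) => (HasVal.exists K hG S P.2).choose)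
    (fun P Q h => HasVal.unique K hG S (HasVal.exists K hG S P.2).choose_spec
      (HasVal.exists K hG S Q.2).choose_spec h)
  map_zero' := HasVal.unique K hG S (HasVal.exists K hG S (GrMod.IsFGProj.free _)).choose_spec
    (HasVal.zero K hG S (fun x : Empty => x.elim)) (GrMod.Iso.refl _)
  map_add' := by
    rintro ⟨P⟩ ⟨Q⟩
    exact HasVal.unique K hG S (HasVal.exists K hG S (P.2.dsum Q.2)).choose_spec
      ((HasVal.exists K hG S P.2).choose_spec.dsum K hG S (HasVal.exists K hG S Q.2).choose_spec)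
      (GrMod.Iso.refl _)

theorem cl_of_hasVal {P : GrMod (grading K G)} (hP : P.IsFGProj) {x : Fin d → ℤ}
    (h : HasVal K hG S P x) : cl K hG S (Vgr.mk P hP) = x :=
  HasVal.unique K hG S (HasVal.exists K hG S hP).choose_spec h (GrMod.Iso.refl _)

theorem cl_spec {P : GrMod (grading K G)} (hP : P.IsFGProj) :
    HasVal K hG S P (cl K hG S (Vgr.mk P hP)) := (HasVal.exists K hG S hP).choose_spec

theorem cl_injective : Function.Injective (cl K hG S) := by
  rintro ⟨P⟩ ⟨Q⟩ h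
  have h1 := cl_spec K hG S P.2
  have h2 := cl_spec K hG S Q.2
  have h3 : cl K hG S (Vgr.mk P.1 P.2) = cl K hG S (Vgr.mk Q.1 Q.2) := h
  rw [h3] at h1
  exact Quotient.sound (HasVal.iso K hG S h1 h2)

theorem cl_shift (v : Vgr (grading K G)) : cl K hG S (Vgr.shift v) = cl K hG S v ᵥ* S.C.1 := by
  obtain ⟨P⟩ := v
  exact cl_of_hasVal K hG S (P.2.shift 1) ((cl_spec K hG S P.2).shift K hG S)

theorem cl_unit : cl K hG S (Vgr.mk (GrMod.regular (grading K G)) GrMod.IsFGProj.regular) =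
    ∑ v, S.Θ v := by
  apply cl_of_hasVal
  refine ⟨G.V, inferInstance, inferInstance, id, 0, regular_Std K hG, ?_⟩
  unfold Pres.val Pres.sm
  rw [zpow_zero, Units.val_one, Matrix.vecMul_one]
  refine Finset.sum_congr rfl fun v _ => ?_
  have : cnt (id : G.V → G.V) v = 1 := by
    unfold cnt
    simp [Finset.filter_eq']
  rw [this, one_smul]

/-- The image of the class homomorphism. -/
theorem cl_image (x : Fin d → ℤ) : (∃ v, cl K hG S v = x) ↔
    ∃ (n : G.V → ℕ) (k : ℤ), x = S.sm n ᵥ* (S.C ^ k).1 := by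
  constructor
  · rintro ⟨⟨P⟩, rfl⟩
    obtain ⟨κ, _, _, β, k, h1, h2⟩ := cl_spec K hG S P.2
    exact ⟨cnt β, k, h2⟩
  · rintro ⟨n, k, rfl⟩
    refine ⟨Vgr.mk (Std K hG (fun p : Σ v, Fin (n v) => p.1) k) (Std_proj K hG _ k), ?_⟩
    apply cl_of_hasVal
    refine ⟨_, inferInstance, inferInstance, _, k, GrMod.Iso.refl _, ?_⟩
    unfold Pres.val
    congr 2
    funext v
    unfold cnt
    rw [Finset.card_filter, Fintype.sum_sigma, Finset.sum_eq_single v]
    · simp
    · intro u _ hu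
      simp [hu]
    · intro h; exact absurd (Finset.mem_univ _) h

end LPA

theorem K0gr.lift_cls {A : Type} [Ring A] {𝒜 : ℤ → AddSubgroup A} [GradedRing 𝒜]
    {H : Type 1} [AddCommGroup H] (f : Vgr 𝒜 →+ H) (v : Vgr 𝒜) :
    K0gr.lift f (K0gr.cls v) = f v :=
  DFunLike.congr_fun (Algebra.GrothendieckAddGroup.lift.symm_apply_apply f) v

theorem K0gr.hom_ext {A : Type} [Ring A] {𝒜 : ℤ → AddSubgroup A} [GradedRing 𝒜]
    {H : Type 1} [AddCommGroup H] {f g : K0gr 𝒜 →+ H} (h : ∀ v, f (K0gr.cls v) = g (K0gr.cls v)) :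
    f = g := by
  apply (Algebra.GrothendieckAddGroup.lift (M := Vgr 𝒜) (G := H)).symm.injective
  ext v
  exact h v

/-- Isomorphic monoids have isomorphic Grothendieck groups. -/
theorem exists_groth_equiv {A B : Type} [Ring A] [Ring B] {𝒜 : ℤ → AddSubgroup A}
    {ℬ : ℤ → AddSubgroup B} [GradedRing 𝒜] [GradedRing ℬ] (F : Vgr 𝒜 ≃+ Vgr ℬ) :
    ∃ f : K0gr 𝒜 ≃+ K0gr ℬ, ∀ v, f (K0gr.cls v) = K0gr.cls (F v) := by
  let f : K0gr 𝒜 →+ K0gr ℬ := K0gr.lift (K0gr.cls.comp F.toAddMonoidHom)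
  let g : K0gr ℬ →+ K0gr 𝒜 := K0gr.lift (K0gr.cls.comp F.symm.toAddMonoidHom)
  have hf : ∀ v, f (K0gr.cls v) = K0gr.cls (F v) := fun v => K0gr.lift_cls _ v
  have hg : ∀ v, g (K0gr.cls v) = K0gr.cls (F.symm v) := fun v => K0gr.lift_cls _ v
  have h1 : g.comp f = AddMonoidHom.id _ := by
    apply K0gr.hom_ext
    intro v
    change g (f (K0gr.cls v)) = K0gr.cls v
    rw [hf, hg, AddEquiv.symm_apply_apply]
  have h2 : f.comp g = AddMonoidHom.id _ := by
    apply K0gr.hom_ext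
    intro v
    change f (g (K0gr.cls v)) = K0gr.cls v
    rw [hg, hf, AddEquiv.apply_symm_apply]
  exact ⟨f.toAddEquiv g h1 h2, hf⟩

/-- A shift and unit preserving isomorphism of the monoids of classes gives a pointed
isomorphism of graded Grothendieck groups. -/
theorem exists_pointedK0Iso {A B : Type} [Ring A] [Ring B] {𝒜 : ℤ → AddSubgroup A}
    {ℬ : ℤ → AddSubgroup B} [GradedRing 𝒜] [GradedRing ℬ] (F : Vgr 𝒜 ≃+ Vgr ℬ)
    (h1 : ∀ v, F (Vgr.shift v) = Vgr.shift (F v))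
    (h2 : F (Vgr.mk (GrMod.regular 𝒜) GrMod.IsFGProj.regular) =
      Vgr.mk (GrMod.regular ℬ) GrMod.IsFGProj.regular) :
    ∃ f : K0gr 𝒜 ≃+ K0gr ℬ, IsPointedK0Iso f := by
  obtain ⟨f, hf⟩ := exists_groth_equiv F
  have hs : ∀ {A : Type} [Ring A] {𝒜 : ℤ → AddSubgroup A} [GradedRing 𝒜] (v : Vgr 𝒜),
      K0gr.shift (K0gr.cls v) = K0gr.cls (Vgr.shift v) := fun v => K0gr.lift_cls _ v
  refine ⟨f, ?_, ?_, ?_⟩
  · intro x
    have h3 : (f : K0gr 𝒜 →+ K0gr ℬ).comp K0gr.shift =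
        K0gr.shift.comp (f : K0gr 𝒜 →+ K0gr ℬ) := by
      apply K0gr.hom_ext
      intro v
      change f (K0gr.shift (K0gr.cls v)) = K0gr.shift (f (K0gr.cls v))
      rw [hs, hf, hf, hs, h1]
    exact DFunLike.congr_fun h3 x
  · ext y
    constructor
    · rintro ⟨_, ⟨v, rfl⟩, rfl⟩
      exact ⟨F v, (hf v).symm⟩
    · rintro ⟨w, rfl⟩
      refine ⟨_, ⟨F.symm w, rfl⟩, ?_⟩
      rw [hf, AddEquiv.apply_symm_apply]
  · exact (hf _).trans (congrArg _ h2)

end

end Pool.Agent.Y83
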