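import Pool.Agent.Y83.Ex1
import Pool.Agent.Y83.Lk6

set_option linter.unusedSectionVars false
set_option linter.unusedVariables false

/-!
# The pointed isomorphism of graded Grothendieck groups for the two graphs
-/

namespace Pool.Agent.Y83

open Matrix

noncomputable section

/-- The cast of a vector. -/
def zvec {V : Type} (n : V → ℕ) : V → ℤ := fun v => (n v : ℤ)

theorem zvec_vecMul {V W : Type} [Fintype V] (n : V → ℕ) (R : Matrix V W ℕ) :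
    zvec (n ᵥ* R) = zvec n ᵥ* zm R := by
  funext j
  simp [zvec, zm, Matrix.vecMul, dotProduct]

theorem zvec_injective {V : Type} : Function.Injective (zvec (V := V)) := by
  intro n n' h
  funext v
  have := congrFun h v
  simpa [zvec] using this

/-- Presentations from nonnegative matrices. -/
def Pres.ofNat {G : FGraph} {d : ℕ} (R : Matrix G.V (Fin d) ℕ) (S : Matrix (Fin d) G.V ℕ)
    (CN : Matrix (Fin d) (Fin d) ℕ) (C : (Matrix (Fin d) (Fin d) ℤ)ˣ) (hC : C.1 = zm CN)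
    (h1 : G.adj * R = R * CN) (l : ℕ) (h2 : R * S = G.adj ^ l) : Pres G d where
  Θ v := zvec (R v)
  C := C
  comm u := by
    rw [hC]
    have h3 := congrFun h1 u
    have h4 : (G.adj * R) u = ∑ v, G.adj u v • R v := by
      funext j
      rw [Matrix.mul_apply, Finset.sum_apply]
      rfl
    have h5 : (R * CN) u = R u ᵥ* CN := rfl
    rw [h4, h5] at h3
    rw [← zvec_vecMul, ← h3]
    funext j
    simp [zvec, Finset.sum_apply]
  inj n n' h := by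
    refine ⟨l, ?_⟩
    have key : ∀ n : G.V → ℕ, ∑ v, n v • zvec (R v) = zvec (n ᵥ* R) := by
      intro n
      funext j
      simp [zvec, Finset.sum_apply, Matrix.vecMul, dotProduct]
    rw [key, key] at h
    have h3 := zvec_injective h
    rw [← h2, ← Matrix.vecMul_vecMul, ← Matrix.vecMul_vecMul, h3]

theorem Pres.ofNat_sm {G : FGraph} {d : ℕ} (R : Matrix G.V (Fin d) ℕ) (S : Matrix (Fin d) G.V ℕ)
    (CN : Matrix (Fin d) (Fin d) ℕ) (C : (Matrix (Fin d) (Fin d) ℤ)ˣ) (hC : C.1 = zm CN)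
    (h1 : G.adj * R = R * CN) (l : ℕ) (h2 : R * S = G.adj ^ l) (n : G.V → ℕ) :
    (Pres.ofNat R S CN C hC h1 l h2).sm n = zvec (n ᵥ* R) := by
  unfold Pres.sm
  funext j
  simp [Pres.ofNat, zvec, Finset.sum_apply, Matrix.vecMul, dotProduct]

/-- the unit `CZ` -/
def CU : (Matrix (Fin 4) (Fin 4) ℤ)ˣ := ⟨CZ, CZinv, CZ_inv, CZ_inv'⟩

theorem CU_val : CU.1 = zm CE := zm_CE.symm

theorem adjE : graphE.adj = CE := by
  have : (Matrix.of fun a b : Fin 4 => (Finset.univ.filter fun e : Fin 5 =>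
      (![0, 1, 2, 3, 3] : Fin 5 → Fin 4) e = a ∧ (![1, 2, 3, 0, 1] : Fin 5 → Fin 4) e = b).card) =
      CE := by
    decide
  exact this

theorem adjF : graphF.adj = CF := by
  have : (Matrix.of fun a b : Fin 5 => (Finset.univ.filter fun e : Fin 7 =>
      (![0, 1, 2, 3, 3, 4, 4] : Fin 7 → Fin 5) e = a ∧
      (![1, 2, 3, 0, 1, 0, 1] : Fin 7 → Fin 5) e = b).card) = CF := by
    decide
  exact this

def RE : Matrix graphE.V (Fin 4) ℕ := (1 : Matrix (Fin 4) (Fin 4) ℕ)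
def SE : Matrix (Fin 4) graphE.V ℕ := (1 : Matrix (Fin 4) (Fin 4) ℕ)
def RF : Matrix graphF.V (Fin 4) ℕ :=
  (!![1,0,0,0; 0,1,0,0; 0,0,1,0; 0,0,0,1; 0,0,0,1] : Matrix (Fin 5) (Fin 4) ℕ)
def SF : Matrix (Fin 4) graphF.V ℕ :=
  (!![0,1,0,0,0; 0,0,1,0,0; 0,0,0,1,0; 1,1,0,0,0] : Matrix (Fin 4) (Fin 5) ℕ)

def presE : Pres graphE 4 := Pres.ofNat RE SE CE CU CU_val
  (by
    rw [adjE]
    change CE * (1 : Matrix (Fin 4) (Fin 4) ℕ) = (1 : Matrix (Fin 4) (Fin 4) ℕ) * CE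
    rw [Matrix.mul_one, Matrix.one_mul]) 0
  (by
    rw [pow_zero]
    change (1 : Matrix (Fin 4) (Fin 4) ℕ) * (1 : Matrix (Fin 4) (Fin 4) ℕ) = _
    rw [Matrix.mul_one]
    rfl)

def presF : Pres graphF 4 := Pres.ofNat RF SF CE CU CU_val
  (by
    rw [adjF]
    change CF * (!![1,0,0,0; 0,1,0,0; 0,0,1,0; 0,0,0,1; 0,0,0,1] : Matrix (Fin 5) (Fin 4) ℕ) =
      (!![1,0,0,0; 0,1,0,0; 0,0,1,0; 0,0,0,1; 0,0,0,1] : Matrix (Fin 5) (Fin 4) ℕ) * CE
    decide) 1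
  (by
    rw [adjF]
    have h : (!![1,0,0,0; 0,1,0,0; 0,0,1,0; 0,0,0,1; 0,0,0,1] : Matrix (Fin 5) (Fin 4) ℕ) *
      (!![0,1,0,0,0; 0,0,1,0,0; 0,0,0,1,0; 1,1,0,0,0] : Matrix (Fin 4) (Fin 5) ℕ) = CF := by
      decide
    exact h.trans (pow_one CF).symm)

theorem presE_sm (n : Fin 4 → ℕ) : presE.sm n = zvec n := by
  have := Pres.ofNat_sm RE SE CE CU CU_val
    (by
      rw [adjE]
      change CE * (1 : Matrix (Fin 4) (Fin 4) ℕ) = (1 : Matrix (Fin 4) (Fin 4) ℕ) * CE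
      rw [Matrix.mul_one, Matrix.one_mul]) 0
    (by
      rw [pow_zero]
      change (1 : Matrix (Fin 4) (Fin 4) ℕ) * (1 : Matrix (Fin 4) (Fin 4) ℕ) = _
      rw [Matrix.mul_one]
      rfl) n
  refine this.trans ?_
  congr 1
  exact Matrix.vecMul_one n

theorem presF_sm (n : Fin 5 → ℕ) : presF.sm n = zvec (n ᵥ* RF) :=
  Pres.ofNat_sm RF SF CE CU CU_val _ 1 _ n

/-- The automorphism `nu`. -/
def nuEquiv : (Fin 4 → ℤ) ≃+ (Fin 4 → ℤ) where
  toFun x := x ᵥ* nu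
  invFun x := x ᵥ* nuinv
  left_inv x := by
    change (x ᵥ* nu) ᵥ* nuinv = x
    rw [Matrix.vecMul_vecMul, nu_inv, Matrix.vecMul_one]
  right_inv x := by
    have : nuinv * nu = 1 := by decide
    change (x ᵥ* nuinv) ᵥ* nu = x
    rw [Matrix.vecMul_vecMul, this, Matrix.vecMul_one]
  map_add' x y := Matrix.add_vecMul _ _ _

/-- `nu * CZ ^ 10` -/
def M10 : Matrix (Fin 4) (Fin 4) ℕ := !![1,0,1,4; 4,5,0,1; 1,5,5,0; 0,1,5,5]

/-- `nuinv * CZ ^ 6` -/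
def M6 : Matrix (Fin 4) (Fin 4) ℕ := !![1,0,1,0; 0,1,0,1; 1,1,1,0; 0,1,1,1]

theorem nu_comm : nu * CZ = CZ * nu := by decide

theorem nuinv_comm : nuinv * CZ = CZ * nuinv := by decide

theorem nu_pow : nu * CZ ^ 10 = zm M10 := by
  have h5 : CZ ^ 5 = !![0,1,1,0; 0,0,1,1; 1,1,0,1; 1,2,1,0] := by
    simp only [pow_succ, pow_zero]
    decide
  rw [show (10 : ℕ) = 5 + 5 by norm_num, pow_add, h5]
  decide

theorem nuinv_pow : nuinv * CZ ^ 6 = zm M6 := by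
  have h5 : CZ ^ 3 = !![0,0,0,1; 1,1,0,0; 0,1,1,0; 0,0,1,1] := by
    simp only [pow_succ, pow_zero]
    decide
  rw [show (6 : ℕ) = 3 + 3 by norm_num, pow_add, h5]
  decide

theorem comm_zpow {N : Matrix (Fin 4) (Fin 4) ℤ} (h : N * CZ = CZ * N) (k : ℤ) :
    (CU ^ k).1 * N = N * (CU ^ k).1 := by
  have h1 : Commute N CU.1 := h
  exact (h1.units_zpow_right k).symm

theorem split_zpow (k : ℤ) (m : ℕ) : (CU ^ k).1 = CZ ^ m * (CU ^ (k - m)).1 := by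
  have : CU ^ k = CU ^ m * CU ^ (k - m) := by
    rw [← zpow_natCast, ← _root_.zpow_add]
    congr 1
    ring
  rw [this, Units.val_mul, Units.val_pow_eq_pow_val]
  rfl

theorem pointedK0Iso (K : Type) [Field K] [CharZero K] :
    ∃ f : K0gr (LPA.grading K graphE) ≃+ K0gr (LPA.grading K graphF), IsPointedK0Iso f := by
  let φ := LPA.cl K graphE_noSinks presE
  let ψ := LPA.cl K graphF_noSinks presF
  have h1 : ∀ x, ∃ y, ψ y = nuEquiv (φ x) := by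
    intro x
    obtain ⟨n, k, hx⟩ := (LPA.cl_image K graphE_noSinks presE (φ x)).mp ⟨x, rfl⟩
    refine (LPA.cl_image K graphF_noSinks presF _).mpr ?_
    let m : Fin 4 → ℕ := n ᵥ* M10
    let n' : Fin 5 → ℕ :=
      m ᵥ* (!![1,0,0,0,0; 0,1,0,0,0; 0,0,1,0,0; 0,0,0,1,0] : Matrix (Fin 4) (Fin 5) ℕ)
    refine ⟨n', k - 10, ?_⟩
    have e1 : n' ᵥ* RF = m := by
      have : (!![1,0,0,0,0; 0,1,0,0,0; 0,0,1,0,0; 0,0,0,1,0] : Matrix (Fin 4) (Fin 5) ℕ) *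
          (!![1,0,0,0; 0,1,0,0; 0,0,1,0; 0,0,0,1; 0,0,0,1] : Matrix (Fin 5) (Fin 4) ℕ) = 1 := by
        decide
      change (m ᵥ* (!![1,0,0,0,0; 0,1,0,0,0; 0,0,1,0,0; 0,0,0,1,0] : Matrix (Fin 4) (Fin 5) ℕ)) ᵥ*
        (!![1,0,0,0; 0,1,0,0; 0,0,1,0; 0,0,0,1; 0,0,0,1] : Matrix (Fin 5) (Fin 4) ℕ) = m
      rw [Matrix.vecMul_vecMul, this, Matrix.vecMul_one]
    have e2 : presF.sm n' = zvec m := (presF_sm n').trans (congrArg zvec e1)
    have e3 : φ x = @zvec (Fin 4) n ᵥ* (CU ^ k).1 :=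
      hx.trans (congrArg (fun z => z ᵥ* (CU ^ k).1) (presE_sm n))
    rw [e2]
    change (φ x) ᵥ* nu = zvec m ᵥ* (CU ^ (k - 10)).1
    rw [e3, Matrix.vecMul_vecMul, comm_zpow nu_comm, split_zpow k 10, ← Matrix.mul_assoc, nu_pow,
      ← Matrix.vecMul_vecMul]
    exact congrArg (fun z => z ᵥ* (CU ^ (k - 10)).1) (zvec_vecMul (V := Fin 4) n M10).symm
  have h2 : ∀ y, ∃ x, φ x = nuEquiv.symm (ψ y) := by
    intro y
    obtain ⟨n, k, hx⟩ := (LPA.cl_image K graphF_noSinks presF (ψ y)).mp ⟨y, rfl⟩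
    refine (LPA.cl_image K graphE_noSinks presE _).mpr ?_
    let m : Fin 4 → ℕ := n ᵥ* RF
    let n' : Fin 4 → ℕ := m ᵥ* M6
    refine ⟨n', k - 6, ?_⟩
    have e2 : presE.sm n' = zvec n' := presE_sm n'
    have e3 : ψ y = zvec m ᵥ* (CU ^ k).1 :=
      hx.trans (congrArg (fun z => z ᵥ* (CU ^ k).1) (presF_sm n))
    rw [e2]
    change (ψ y) ᵥ* nuinv = zvec n' ᵥ* (CU ^ (k - 6)).1
    rw [e3, Matrix.vecMul_vecMul, comm_zpow nuinv_comm, split_zpow k 6, ← Matrix.mul_assoc, nuinv_pow,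
      ← Matrix.vecMul_vecMul, ← zvec_vecMul]
    rfl
  obtain ⟨F, hF⟩ := exists_addEquiv φ ψ (LPA.cl_injective K graphE_noSinks presE)
    (LPA.cl_injective K graphF_noSinks presF) nuEquiv h1 h2
  refine exists_pointedK0Iso F ?_ ?_
  · intro v
    apply LPA.cl_injective K graphF_noSinks presF
    change ψ (F (Vgr.shift v)) = ψ (Vgr.shift (F v))
    rw [hF]
    change (φ (Vgr.shift v)) ᵥ* nu = _
    have s1 : φ (Vgr.shift v) = φ v ᵥ* CZ := LPA.cl_shift K graphE_noSinks presE v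
    have s2 : ψ (Vgr.shift (F v)) = ψ (F v) ᵥ* CZ := LPA.cl_shift K graphF_noSinks presF (F v)
    rw [s1, s2, hF]
    change _ = ((φ v) ᵥ* nu) ᵥ* CZ
    rw [Matrix.vecMul_vecMul, Matrix.vecMul_vecMul, nu_comm]
  · apply LPA.cl_injective K graphF_noSinks presF
    change ψ (F _) = ψ _
    rw [hF]
    have s1 : φ (Vgr.mk (GrMod.regular (LPA.grading K graphE)) GrMod.IsFGProj.regular) =
        ∑ v, presE.Θ v := LPA.cl_unit K graphE_noSinks presE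
    have s2 : ψ (Vgr.mk (GrMod.regular (LPA.grading K graphF)) GrMod.IsFGProj.regular) =
        ∑ v, presF.Θ v := LPA.cl_unit K graphF_noSinks presF
    rw [s1, s2]
    have e1 : ∑ v, presE.Θ v = (![1, 1, 1, 1] : Fin 4 → ℤ) := by
      change ∑ v : Fin 4, zvec ((1 : Matrix (Fin 4) (Fin 4) ℕ) v) = _
      decide
    have e2 : ∑ v, presF.Θ v = (![1, 1, 1, 2] : Fin 4 → ℤ) := by
      change ∑ v : Fin 5, zvec ((!![1,0,0,0; 0,1,0,0; 0,0,1,0; 0,0,0,1; 0,0,0,1] :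
        Matrix (Fin 5) (Fin 4) ℕ) v) = _
      decide
    rw [e1, e2]
    change (![1, 1, 1, 1] : Fin 4 → ℤ) ᵥ* nu = _
    decide

end

end Pool.Agent.Y83
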