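import Pool.Agent.Y83.Sgc8

set_option linter.unusedSectionVars false
set_option linter.unusedVariables false

/-!
# The six by six matrix with an automorphism of nontrivial cocycle
-/

namespace Pool.Agent.Y83

open Module Matrix

/-- adjacency matrix -/
def DN : Matrix (Fin 6) (Fin 6) ℕ :=
  !![0,0,0,0,1,0; 0,0,1,0,0,0; 0,0,0,1,1,0; 0,1,0,0,0,0; 0,0,0,0,0,1; 1,1,0,0,0,0]

/-- the same matrix over the integers -/
def DZ : Matrix (Fin 6) (Fin 6) ℤ :=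
  !![0,0,0,0,1,0; 0,0,1,0,0,0; 0,0,0,1,1,0; 0,1,0,0,0,0; 0,0,0,0,0,1; 1,1,0,0,0,0]

/-- the inverse -/
def DZinv : Matrix (Fin 6) (Fin 6) ℤ :=
  !![0,0,0,-1,0,1; 0,0,0,1,0,0; 0,1,0,0,0,0; -1,0,1,0,0,0; 1,0,0,0,0,0; 0,0,0,0,1,0]

/-- the automorphism -/
def DW : Matrix (Fin 6) (Fin 6) ℤ :=
  !![0,0,-1,1,0,1; -1,-1,0,1,2,0; 0,1,-1,0,-1,2; 1,0,1,0,0,-1; 1,2,0,-1,-1,0; 
     0,-1,2,0,1,-1]

/-- its inverse -/
def DWinv : Matrix (Fin 6) (Fin 6) ℤ :=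
  !![-4,2,3,5,-2,-3; 3,-1,-2,-3,2,2; 2,-1,-1,-2,1,2; 5,-2,-3,-4,2,3; -3,2,2,3,-1,-2; 
     -2,1,2,2,-1,-1]

/-- the weight -/
def Du : Fin 6 → ℕ := ![1,4,3,3,3,2]

/-- the image of the weight -/
def Dw : Fin 6 → ℕ := ![2,3,3,2,4,2]

theorem zm_DN : zm DN = DZ := by decide

theorem DZ_inv : DZ * DZinv = 1 := by decide

theorem DZ_inv' : DZinv * DZ = 1 := by decide

theorem DW_inv : DW * DWinv = 1 := by decide

theorem DW_inv' : DWinv * DW = 1 := by decide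

theorem DW_comm : DW * DZ = DZ * DW := by decide

theorem DWinv_comm : DWinv * DZ = DZ * DWinv := by decide

theorem DW_unit : (fun _ => 1 : Fin 6 → ℤ) ᵥ* DW = fun _ => 1 := by decide

theorem Du_DW : zv Du ᵥ* DW = zv Dw := by decide

theorem sgc_DW : sgc DW (DWinv * DZ) = 1 := by
  have : DWinv * DZ =
    !![-3,2,2,3,-1,-2; 2,-1,-1,-2,1,2; 2,0,-1,-1,1,1; 3,-1,-2,-3,2,2; -2,1,2,2,-1,-1; 
     -1,1,1,2,0,-1] := by decide
  rw [this]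
  decide +kernel

/-- `DZ ^ 3` -/
def DZ3 : Matrix (Fin 6) (Fin 6) ℤ :=
  !![1,1,0,0,0,0; 0,1,0,0,0,1; 1,1,1,0,0,0; 0,0,0,1,1,0; 0,0,1,0,1,0; 0,0,0,1,1,1]

/-- `DZ ^ 6` -/
def DZ6 : Matrix (Fin 6) (Fin 6) ℤ :=
  !![1,2,0,0,0,1; 0,1,0,1,1,2; 2,3,1,0,0,1; 0,0,1,1,2,0; 1,1,2,0,1,0; 0,0,1,2,3,1]

/-- `DZ ^ 12` -/
def DZ12 : Matrix (Fin 6) (Fin 6) ℤ :=
  !![1,4,1,4,5,6; 1,2,5,6,10,4; 4,10,2,5,6,10; 4,5,6,1,4,1; 6,10,4,1,2,5; 
     5,6,10,4,10,2]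

/-- `DZ ^ 24` -/
def DZ24 : Matrix (Fin 6) (Fin 6) ℤ :=
  !![85,128,127,66,137,73; 127,212,137,73,139,128; 128,201,212,137,264,139; 
     66,137,73,85,128,127; 73,139,128,127,212,137; 137,264,139,128,201,212]

/-- `DW * DZ ^ 24` -/
def DM24 : Matrix (Fin 6) (Fin 6) ℕ :=
  !![75,200,0,76,65,200; 0,75,65,200,276,200; 200,400,75,65,65,276; 
     76,65,200,75,200,0; 200,276,200,0,75,65; 65,65,276,200,400,75]

/-- `DWinv * DZ ^ 5` -/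
def DM5 : Matrix (Fin 6) (Fin 6) ℕ :=
  !![0,1,1,1,0,0; 1,1,0,0,1,1; 1,1,1,0,1,1; 1,0,0,0,1,1; 0,1,1,1,1,0; 0,1,1,1,1,1]

theorem DZ_pow3 : DZ ^ 3 = DZ3 := by
  rw [pow_succ, pow_two]
  decide

theorem DZ_pow24 : DZ ^ 24 = DZ24 := by
  have h6 : DZ3 * DZ3 = DZ6 := by decide
  have h12 : DZ6 * DZ6 = DZ12 := by decide
  have h24 : DZ12 * DZ12 = DZ24 := by decide
  have : DZ ^ 24 = ((DZ ^ 3 * DZ ^ 3) * (DZ ^ 3 * DZ ^ 3)) *
      ((DZ ^ 3 * DZ ^ 3) * (DZ ^ 3 * DZ ^ 3)) := by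
    norm_num [← pow_add]
  rw [this, DZ_pow3, h6, h12, h24]

theorem DW_pow : DW * DZ ^ 24 = zm DM24 := by
  rw [DZ_pow24]
  decide

theorem DWinv_pow : DWinv * DZ ^ 5 = zm DM5 := by
  have : DZ ^ 5 = DZ ^ 3 * (DZ * DZ) := by norm_num [← pow_add, ← pow_succ', ← pow_two]
  rw [this, DZ_pow3]
  decide

theorem DW_unique (U : Matrix (Fin 6) (Fin 6) ℤ) (hU : U * DZ = DZ * U)
    (h : zv Du ᵥ* U = zv Dw) : U = DW := by
  let K : Matrix (Fin 6) (Fin 6) ℤ :=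
    !![1,4,3,3,3,2; 2,5,4,3,4,3; 3,6,5,4,6,4; 4,8,6,5,8,6; 6,11,8,6,10,8; 
     8,14,11,8,14,10]
  let K' : Matrix (Fin 6) (Fin 6) ℤ :=
    !![0,-2,3,-2,2,-1; 2,0,-4,0,-1,2; -2,2,2,0,0,-1; 0,-2,4,-1,2,-2; 1,0,-3,1,-2,2; 
     -2,1,2,1,1,-2]
  let L : Matrix (Fin 6) (Fin 6) ℤ :=
    !![2,3,3,2,4,2; 2,4,3,3,5,4; 4,7,4,3,5,5; 5,8,7,4,8,5; 5,9,8,7,12,8; 
     8,15,9,8,13,12]
  have hK : K' * K = 1 := by decide
  have hrow : ∀ x y : Fin 6 → ℤ, x ᵥ* U = y → (x ᵥ* DZ) ᵥ* U = y ᵥ* DZ := by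
    intro x y hxy
    rw [Matrix.vecMul_vecMul, ← hU, ← Matrix.vecMul_vecMul, hxy]
  have h0 : K 0 ᵥ* U = L 0 := by
    have a : zv Du = K 0 := by decide
    have b : zv Dw = L 0 := by decide
    rw [← a, ← b]; exact h
  have h1 : K 1 ᵥ* U = L 1 := by
    have a : K 0 ᵥ* DZ = K 1 := by decide
    have b : L 0 ᵥ* DZ = L 1 := by decide
    rw [← a, ← b]; exact hrow _ _ h0
  have h2 : K 2 ᵥ* U = L 2 := by
    have a : K 1 ᵥ* DZ = K 2 := by decide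
    have b : L 1 ᵥ* DZ = L 2 := by decide
    rw [← a, ← b]; exact hrow _ _ h1
  have h3 : K 3 ᵥ* U = L 3 := by
    have a : K 2 ᵥ* DZ = K 3 := by decide
    have b : L 2 ᵥ* DZ = L 3 := by decide
    rw [← a, ← b]; exact hrow _ _ h2
  have h4 : K 4 ᵥ* U = L 4 := by
    have a : K 3 ᵥ* DZ = K 4 := by decide
    have b : L 3 ᵥ* DZ = L 4 := by decide
    rw [← a, ← b]; exact hrow _ _ h3
  have h5 : K 5 ᵥ* U = L 5 := by
    have a : K 4 ᵥ* DZ = K 5 := by decide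
    have b : L 4 ᵥ* DZ = L 5 := by decide
    rw [← a, ← b]; exact hrow _ _ h4
  have hKU : K * U = L := by
    funext i
    have key : (K * U) i = K i ᵥ* U := rfl
    rw [key]
    fin_cases i
    · exact h0
    · exact h1
    · exact h2
    · exact h3
    · exact h4
    · exact h5
  calc U = (K' * K) * U := by rw [hK, Matrix.one_mul]
    _ = K' * L := by rw [Matrix.mul_assoc, hKU]
    _ = DW := by decide

/-- The matrix with the two weights: no chain of elementary strong shift equivalences. -/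
theorem not_sse6 : ¬ Relation.EqvGen WM.Step ⟨6, DN, Du⟩ ⟨6, DN, Dw⟩ := by
  intro h
  obtain ⟨U, U', hU, hU', hc, hu, hs⟩ := sse_invariant DN Du DN Dw DZinv
    (by rw [zm_DN, DZ_inv]) (by rw [zm_DN, DZ_inv']) DZinv
    (by rw [zm_DN, DZ_inv]) (by rw [zm_DN, DZ_inv']) (by decide) (by decide) h
  rw [zm_DN] at hc hs
  have e : U = DW := DW_unique U hc hu
  subst e
  have e' : U' = DWinv := by
    calc U' = U' * (DW * DWinv) := by rw [DW_inv, Matrix.mul_one]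
      _ = DWinv := by rw [← Matrix.mul_assoc, hU', Matrix.one_mul]
  rw [e', sgc_DW] at hs
  exact absurd hs (by decide)

end Pool.Agent.Y83
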