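import Pool.Agent.Y83.Ma2
import Pool.Agent.Y83.Ma3
import Pool.Agent.Y83.Ex2

set_option linter.unusedSectionVars false
set_option linter.unusedVariables false

/-!
# An automorphism of the pointed ordered graded Grothendieck group which does not lift
-/

namespace Pool.Agent.Y83

open Matrix

noncomputable section

/-- The strongly connected graph with vertices `0, …, 5` and edges `0 → 4`, `1 → 2`, `2 → 3`,
`2 → 4`, `3 → 1`, `4 → 5`, `5 → 0`, `5 → 1`. -/
def graphS : FGraph where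
  V := Fin 6
  E := Fin 8
  s := ![0, 1, 2, 2, 3, 4, 5, 5]
  r := ![4, 2, 3, 4, 1, 5, 0, 1]

theorem graphS_noSinks : graphS.NoSinks := by
  change ∀ v : Fin 6, ∃ e : Fin 8, (![0, 1, 2, 2, 3, 4, 5, 5] : Fin 8 → Fin 6) e = v
  decide

theorem graphS_adj : graphS.adj = DN := by
  change (Matrix.of fun a b : Fin 6 => (Finset.univ.filter fun e : Fin 8 =>
      (![0, 1, 2, 2, 3, 4, 5, 5] : Fin 8 → Fin 6) e = a ∧
      (![4, 2, 3, 4, 1, 5, 0, 1] : Fin 8 → Fin 6) e = b).card) = DN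
  decide

/-- the unit `DZ` -/
def DU : (Matrix (Fin 6) (Fin 6) ℤ)ˣ := ⟨DZ, DZinv, DZ_inv, DZ_inv'⟩

theorem DU_val : DU.1 = zm DN := zm_DN.symm

/-- the identity matrix, with vertices as row indices -/
def RS6 : Matrix graphS.V (Fin 6) ℕ := (1 : Matrix (Fin 6) (Fin 6) ℕ)
/-- the identity matrix, with vertices as column indices -/
def SS6 : Matrix (Fin 6) graphS.V ℕ := (1 : Matrix (Fin 6) (Fin 6) ℕ)

theorem presS_aux1 : graphS.adj * RS6 = RS6 * DN := by
  rw [graphS_adj]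
  change DN * (1 : Matrix (Fin 6) (Fin 6) ℕ) = (1 : Matrix (Fin 6) (Fin 6) ℕ) * DN
  rw [Matrix.mul_one, Matrix.one_mul]

theorem presS_aux2 : RS6 * SS6 = graphS.adj ^ 0 := by
  rw [pow_zero]
  change (1 : Matrix (Fin 6) (Fin 6) ℕ) * (1 : Matrix (Fin 6) (Fin 6) ℕ) = _
  rw [Matrix.mul_one]
  rfl

/-- The presentation. -/
def presS : Pres graphS 6 := Pres.ofNat RS6 SS6 DN DU DU_val presS_aux1 0 presS_aux2

theorem presS_sm (n : Fin 6 → ℕ) : presS.sm n = zvec n := by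
  have := Pres.ofNat_sm RS6 SS6 DN DU DU_val presS_aux1 0 presS_aux2 n
  refine this.trans ?_
  congr 1
  exact Matrix.vecMul_one n

/-- The automorphism `DW`. -/
def dwEquiv : (Fin 6 → ℤ) ≃+ (Fin 6 → ℤ) where
  toFun x := x ᵥ* DW
  invFun x := x ᵥ* DWinv
  left_inv x := by
    change (x ᵥ* DW) ᵥ* DWinv = x
    rw [Matrix.vecMul_vecMul, DW_inv, Matrix.vecMul_one]
  right_inv x := by
    change (x ᵥ* DWinv) ᵥ* DW = x
    rw [Matrix.vecMul_vecMul, DW_inv', Matrix.vecMul_one]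
  map_add' x y := Matrix.add_vecMul _ _ _

theorem comm_zpow6 {N : Matrix (Fin 6) (Fin 6) ℤ} (h : N * DZ = DZ * N) (k : ℤ) :
    (DU ^ k).1 * N = N * (DU ^ k).1 := by
  have h1 : Commute N DU.1 := h
  exact (h1.units_zpow_right k).symm

theorem split_zpow6 (k : ℤ) (m : ℕ) : (DU ^ k).1 = DZ ^ m * (DU ^ (k - m)).1 := by
  have : DU ^ k = DU ^ m * DU ^ (k - m) := by
    rw [← zpow_natCast, ← _root_.zpow_add]
    congr 1
    ring
  rw [this, Units.val_mul, Units.val_pow_eq_pow_val]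
  rfl

theorem image_step {N : Matrix (Fin 6) (Fin 6) ℤ} (h : N * DZ = DZ * N) {m : ℕ}
    {M : Matrix (Fin 6) (Fin 6) ℕ} (hM : N * DZ ^ m = zm M) (n : Fin 6 → ℕ) (k : ℤ) :
    (zvec n ᵥ* (DU ^ k).1) ᵥ* N = zvec (n ᵥ* M) ᵥ* (DU ^ (k - m)).1 := by
  rw [Matrix.vecMul_vecMul, comm_zpow6 h, split_zpow6 k m, ← Matrix.mul_assoc, hM,
    ← Matrix.vecMul_vecMul, ← zvec_vecMul]

/-- the multiplicities of the tautological family -/
theorem cnt_sigma' {V : Type} [Fintype V] [DecidableEq V] (n : V → ℕ) :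
    cnt (fun x : Σ v, Fin (n v) => x.1) = n := by
  funext v
  unfold cnt
  rw [Finset.card_filter, Fintype.sum_sigma, Finset.sum_eq_single v]
  · simp
  · intro b _ hb
    simp [hb]
  · simp

theorem exists_F (K : Type) [Field K] [CharZero K] :
    ∃ F : Vgr (LPA.grading K graphS) ≃+ Vgr (LPA.grading K graphS),
      ∀ x, LPA.cl K graphS_noSinks presS (F x) = LPA.cl K graphS_noSinks presS x ᵥ* DW := by
  let φ := LPA.cl K graphS_noSinks presS
  have h1 : ∀ x, ∃ y, φ y = dwEquiv (φ x) := by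
    intro x
    obtain ⟨n, k, hx⟩ := (LPA.cl_image K graphS_noSinks presS (φ x)).mp ⟨x, rfl⟩
    refine (LPA.cl_image K graphS_noSinks presS _).mpr ⟨n ᵥ* DM24, k - 24, ?_⟩
    have e3 : φ x = @zvec (Fin 6) n ᵥ* (DU ^ k).1 :=
      hx.trans (congrArg (fun z => z ᵥ* (DU ^ k).1) (presS_sm n))
    exact (congrArg (fun z => z ᵥ* DW) e3).trans ((image_step DW_comm DW_pow n k).trans
      (congrArg (fun z => z ᵥ* (DU ^ (k - 24)).1) (presS_sm (n ᵥ* DM24)).symm))
  have h2 : ∀ y, ∃ x, φ x = dwEquiv.symm (φ y) := by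
    intro x
    obtain ⟨n, k, hx⟩ := (LPA.cl_image K graphS_noSinks presS (φ x)).mp ⟨x, rfl⟩
    refine (LPA.cl_image K graphS_noSinks presS _).mpr ⟨n ᵥ* DM5, k - 5, ?_⟩
    have e3 : φ x = @zvec (Fin 6) n ᵥ* (DU ^ k).1 :=
      hx.trans (congrArg (fun z => z ᵥ* (DU ^ k).1) (presS_sm n))
    exact (congrArg (fun z => z ᵥ* DWinv) e3).trans ((image_step DWinv_comm DWinv_pow n k).trans
      (congrArg (fun z => z ᵥ* (DU ^ (k - 5)).1) (presS_sm (n ᵥ* DM5)).symm))
  obtain ⟨F, hF⟩ := exists_addEquiv φ φ (LPA.cl_injective K graphS_noSinks presS)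
    (LPA.cl_injective K graphS_noSinks presS) dwEquiv h1 h2
  exact ⟨F, hF⟩

/-- A pointed isomorphism of graded Grothendieck groups extending a given isomorphism of the
monoids of classes. -/
theorem exists_pointedK0Iso' {A B : Type} [Ring A] [Ring B] {𝒜 : ℤ → AddSubgroup A}
    {ℬ : ℤ → AddSubgroup B} [GradedRing 𝒜] [GradedRing ℬ] (F : Vgr 𝒜 ≃+ Vgr ℬ)
    (h1 : ∀ v, F (Vgr.shift v) = Vgr.shift (F v))
    (h2 : F (Vgr.mk (GrMod.regular 𝒜) GrMod.IsFGProj.regular) =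
      Vgr.mk (GrMod.regular ℬ) GrMod.IsFGProj.regular) :
    ∃ f : K0gr 𝒜 ≃+ K0gr ℬ, IsPointedK0Iso f ∧ ∀ v, f (K0gr.cls v) = K0gr.cls (F v) := by
  obtain ⟨f, hf⟩ := exists_groth_equiv F
  have hs : ∀ {A : Type} [Ring A] {𝒜 : ℤ → AddSubgroup A} [GradedRing 𝒜] (v : Vgr 𝒜),
      K0gr.shift (K0gr.cls v) = K0gr.cls (Vgr.shift v) := fun v => K0gr.lift_cls _ v
  refine ⟨f, ⟨?_, ?_, ?_⟩, hf⟩
  · intro x
    have h3 : (f : K0gr 𝒜 →+ K0gr ℬ).comp K0gr.shift =
        K0gr.shift.comp (f : K0gr 𝒜 →+ K0gr ℬ) := by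
      apply K0gr.hom_ext
      intro v
      change f (K0gr.shift (K0gr.cls v)) = K0gr.shift (f (K0gr.cls v))
      rw [hs, hf, hf, hs, h1]
    exact DFunLike.congr_fun h3 x
  · ext y
    constructor
    · rintro ⟨_, ⟨v, rfl⟩, rfl⟩
      exact ⟨F v, (hf v).symm⟩
    · rintro ⟨w, rfl⟩
      refine ⟨_, ⟨F.symm w, rfl⟩, ?_⟩
      rw [hf, AddEquiv.apply_symm_apply]
  · exact (hf _).trans (congrArg _ h2)

/-- The copy graph of the tautological family of a positive vector. -/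
theorem copy_step6 (n : Fin 6 → ℕ) (hn : ∀ v, 0 < n v) :
    WM.Step ((graphS.copy (fun x : Σ v : Fin 6, Fin (n v) => x.1)
      (fun v => ⟨v, ⟨0, hn v⟩⟩)).wm (Fintype.equivFin _).symm) ⟨6, DN, n⟩ := by
  have s1 := copy_step (H := graphS) (fun x : Σ v : Fin 6, Fin (n v) => x.1)
    (fun v => ⟨v, ⟨0, hn v⟩⟩) (fun _ _ _ => rfl) (Fintype.equivFin _).symm (d := 6)
    (fun a => a) (fun _ _ h => h) (fun i => ⟨i.1, rfl⟩) (fun a => ⟨⟨a, ⟨0, hn a⟩⟩, rfl⟩)
  have h7 : (Matrix.of fun a a' : Fin 6 => graphS.adj a a') = DN := by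
    rw [← graphS_adj]; rfl
  rw [h7] at s1
  exact (congrArg (fun w => WM.Step ((graphS.copy (fun x : Σ v : Fin 6, Fin (n v) => x.1)
      (fun v => ⟨v, ⟨0, hn v⟩⟩)).wm (Fintype.equivFin _).symm) ⟨6, DN, w⟩) (cnt_sigma' n)).mp s1

/-- No graded automorphism maps the first standard module to the second. -/
theorem not_extend (K : Type) [Field K] [IsAlgClosed K] [CharZero K]
    (ψ : LPA K graphS ≃ₐ[K] LPA K graphS)
    (hψ : ∀ n x, x ∈ LPA.grading K graphS n ↔
      (ψ : LPA K graphS ≃+* LPA K graphS) x ∈ LPA.grading K graphS n)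
    (h : ((LPA.Std K graphS_noSinks (fun x : Σ v : Fin 6, Fin (Du v) => x.1) 0).extend
      (ψ : LPA K graphS ≃+* LPA K graphS) hψ).Iso
      (LPA.Std K graphS_noSinks (fun x : Σ v : Fin 6, Fin (Dw v) => x.1) 0)) : False := by
  have pu : ∀ v : Fin 6, 0 < Du v := by decide
  have pw : ∀ v : Fin 6, 0 < Dw v := by decide
  have h1 := LPA.sse_of_extend K graphS_noSinks graphS_noSinks ψ hψ _ _ 0 0
    (fun v => ⟨v, ⟨0, pu v⟩⟩) (fun _ _ _ => rfl) (fun v => ⟨v, ⟨0, pw v⟩⟩) (fun _ _ _ => rfl) h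
    (Fintype.equivFin _).symm (Fintype.equivFin _).symm
  exact not_sse6 (((Relation.EqvGen.rel _ _ (copy_step6 Du pu)).symm _ _).trans _ _ _
    (h1.trans _ _ _ (Relation.EqvGen.rel _ _ (copy_step6 Dw pw))))

/-- The class of a standard module. -/
theorem cl_std (K : Type) [Field K] [CharZero K] (n : Fin 6 → ℕ) :
    LPA.cl K graphS_noSinks presS (Vgr.mk
      (LPA.Std K graphS_noSinks (fun x : Σ v : Fin 6, Fin (n v) => (x.1 : graphS.V)) 0)
      (LPA.Std_proj K graphS_noSinks _ 0)) = zvec n := by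
  apply LPA.cl_of_hasVal
  refine ⟨_, inferInstance, inferInstance, _, 0, GrMod.Iso.refl _, ?_⟩
  unfold Pres.val
  rw [zpow_zero, Units.val_one, Matrix.vecMul_one]
  exact ((presS_sm n).symm).trans (congrArg presS.sm (cnt_sigma' n).symm)

/-- The main theorem: an automorphism of the pointed ordered group which is not induced. -/
theorem exists_not_lift (K : Type) [Field K] [IsAlgClosed K] [CharZero K] :
    ∃ f : K0gr (LPA.grading K graphS) ≃+ K0gr (LPA.grading K graphS), IsPointedK0Iso f ∧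
      ∀ (ψ : LPA K graphS ≃ₐ[K] LPA K graphS)
        (hψ : ∀ n x, x ∈ LPA.grading K graphS n ↔
          (ψ : LPA K graphS ≃+* LPA K graphS) x ∈ LPA.grading K graphS n),
        K0gr.map (ψ : LPA K graphS ≃+* LPA K graphS) hψ ≠ f.toAddMonoidHom := by
  obtain ⟨F, hF⟩ := exists_F K
  have inj := LPA.cl_injective K graphS_noSinks presS
  obtain ⟨f, hf, hfF⟩ := exists_pointedK0Iso' F
    (by
      intro v
      apply inj
      rw [hF]
      have s1 : LPA.cl K graphS_noSinks presS (Vgr.shift v) =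
        LPA.cl K graphS_noSinks presS v ᵥ* DZ := LPA.cl_shift K graphS_noSinks presS v
      have s2 : LPA.cl K graphS_noSinks presS (Vgr.shift (F v)) =
        LPA.cl K graphS_noSinks presS (F v) ᵥ* DZ := LPA.cl_shift K graphS_noSinks presS (F v)
      rw [s1, s2, hF, Matrix.vecMul_vecMul, Matrix.vecMul_vecMul, DW_comm])
    (by
      apply inj
      rw [hF]
      have s1 : LPA.cl K graphS_noSinks presS
          (Vgr.mk (GrMod.regular (LPA.grading K graphS)) GrMod.IsFGProj.regular) =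
          ∑ v, presS.Θ v := LPA.cl_unit K graphS_noSinks presS
      have e1 : ∑ v, presS.Θ v = (fun _ => 1 : Fin 6 → ℤ) := by
        change ∑ v : Fin 6, zvec ((1 : Matrix (Fin 6) (Fin 6) ℕ) v) = _
        decide
      rw [s1, e1, DW_unit])
  refine ⟨f, hf, fun ψ hψ h => ?_⟩
  let P := LPA.Std K graphS_noSinks (fun x : Σ v : Fin 6, Fin (Du v) => (x.1 : graphS.V)) 0
  let Q := LPA.Std K graphS_noSinks (fun x : Σ v : Fin 6, Fin (Dw v) => (x.1 : graphS.V)) 0
  have hP : P.IsFGProj := LPA.Std_proj K graphS_noSinks _ 0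
  have hQ : Q.IsFGProj := LPA.Std_proj K graphS_noSinks _ 0
  have h1 := DFunLike.congr_fun h (K0gr.cls (Vgr.mk P hP))
  rw [K0gr.map_cls] at h1
  have h2 : K0gr.cls (Vgr.mk (P.extend (ψ : LPA K graphS ≃+* LPA K graphS) hψ)
      (hP.extend (ψ : LPA K graphS ≃+* LPA K graphS) hψ)) = K0gr.cls (F (Vgr.mk P hP)) :=
    h1.trans (hfF _)
  have h3 := K0gr.cls_injective _ inj h2
  have h4 : F (Vgr.mk P hP) = Vgr.mk Q hQ := by
    apply inj
    rw [hF]
    exact (congrArg (fun z => z ᵥ* DW) (cl_std K Du)).trans (Du_DW.trans (cl_std K Dw).symm)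
  rw [h4] at h3
  exact not_extend K ψ hψ (Vgr.mk_eq_iff.mp h3)

/-- The graph is strongly connected. -/
theorem graphS_connected (v w : graphS.V) : Relation.TransGen graphS.Edge v w := by
  have e (a b : Fin 6) (e : Fin 8) (h : (![0, 1, 2, 2, 3, 4, 5, 5] : Fin 8 → Fin 6) e = a ∧
      (![4, 2, 3, 4, 1, 5, 0, 1] : Fin 8 → Fin 6) e = b) :
      Relation.TransGen graphS.Edge a b := Relation.TransGen.single ⟨e, h.1, h.2⟩
  have h45 := e 4 5 5 (by decide)
  have h05 := (e 0 4 0 (by decide)).trans h45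
  have h25 := (e 2 4 3 (by decide)).trans h45
  have h15 := (e 1 2 1 (by decide)).trans h25
  have h35 := (e 3 1 4 (by decide)).trans h15
  have h50 := e 5 0 6 (by decide)
  have h51 := e 5 1 7 (by decide)
  have h52 := h51.trans (e 1 2 1 (by decide))
  have h53 := h52.trans (e 2 3 2 (by decide))
  have h54 := h50.trans (e 0 4 0 (by decide))
  have h55 := h50.trans h05
  have hv : Relation.TransGen graphS.Edge v (5 : Fin 6) := by
    change Fin 6 at v
    fin_cases v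
    · exact h05
    · exact h15
    · exact h25
    · exact h35
    · exact h45
    · exact h55
  have hw : Relation.TransGen graphS.Edge (5 : Fin 6) w := by
    change Fin 6 at w
    fin_cases w
    · exact h50
    · exact h51
    · exact h52
    · exact h53
    · exact h54
    · exact h55
  exact hv.trans hw

/-- The isomorphism `f` is the map `K_0^gr(ψ)`. -/
def IsK0Map {A B : Type} [Ring A] [Ring B] {𝒜 : ℤ → AddSubgroup A} {ℬ : ℤ → AddSubgroup B}
    [GradedRing 𝒜] [GradedRing ℬ] (ψ : A ≃+* B) (hψ : ∀ n x, x ∈ 𝒜 n ↔ ψ x ∈ ℬ n)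
    (f : K0gr 𝒜 ≃+ K0gr ℬ) : Prop := ∀ x, f x = K0gr.map ψ hψ x

/-- A degree preserving isomorphism of `K`-algebras from `L(G)` to `L(H)`. -/
structure GrIso (K : Type) [Field K] (G H : FGraph) where
  alg : LPA K G ≃ₐ[K] LPA K H
  deg : ∀ (n : ℤ) (x : LPA K G), x ∈ LPA.gr K G n ↔ alg x ∈ LPA.gr K H n

/-- The underlying ring isomorphism. -/
def GrIso.ring {K : Type} [Field K] {G H : FGraph} (ψ : GrIso K G H) : LPA K G ≃+* LPA K H :=
  ψ.alg.toRingEquiv

theorem GrIso.ring_deg {K : Type} [Field K] {G H : FGraph} (ψ : GrIso K G H) (n : ℤ)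
    (x : LPA K G) : x ∈ LPA.grading K G n ↔ ψ.ring x ∈ LPA.grading K H n := ψ.deg n x

/-- The isomorphism `f` is of the form `K_0^gr(ψ)` for a degree preserving isomorphism `ψ` of
`K`-algebras from `L(G)` to `L(H)`. -/
def IsInduced (K : Type) [Field K] {G H : FGraph}
    (f : K0gr (LPA.grading K G) ≃+ K0gr (LPA.grading K H)) : Prop :=
  ∃ ψ : GrIso K G H, IsK0Map ψ.ring ψ.ring_deg f

theorem exists_not_induced (K : Type) [Field K] [IsAlgClosed K] [CharZero K] :
    ∃ f : K0gr (LPA.grading K graphS) ≃+ K0gr (LPA.grading K graphS),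
      IsPointedK0Iso f ∧ ¬ IsInduced K f := by
  obtain ⟨f, h1, h2⟩ := exists_not_lift K
  refine ⟨f, h1, ?_⟩
  rintro ⟨ψ, h⟩
  exact h2 ψ.alg ψ.deg (AddMonoidHom.ext fun x => (h x).symm)

end

end Pool.Agent.Y83
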