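import Mathlib

set_option linter.style.haveILetI false

/-!
# A criterion for internal direct sums
-/

namespace Pool.Agent.Y83

open DirectSum

/-- A criterion for a family of subgroups to be an internal direct sum decomposition. -/
theorem isInternal_of_proj {M : Type*} [AddCommGroup M] (gr : ℤ → AddSubgroup M)
    (p : ℤ → M → M) (h0 : ∀ n, p n 0 = 0) (hadd : ∀ n x y, p n (x + y) = p n x + p n y)
    (h1 : ∀ n x, p n x ∈ gr n) (h2 : ∀ n m x, x ∈ gr m → p n x = if m = n then x else 0)
    (h3 : ∀ x, ∃ s : Finset ℤ, ∑ n ∈ s, p n x = x) : DirectSum.IsInternal gr := by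
  classical
  let P : ℤ → M →+ M := fun n => ⟨⟨p n, h0 n⟩, hadd n⟩
  constructor
  · rw [injective_iff_map_eq_zero]
    intro z hz
    have key : ∀ (z : ⨁ i, gr i) n, P n (DirectSum.coeAddMonoidHom gr z) = z n := by
      intro z n
      induction z using DirectSum.induction_on with
      | zero => simp
      | of i x =>
        rw [DirectSum.coeAddMonoidHom_of]
        change p n x = _
        rw [h2 n i x x.2]
        split_ifs with h
        · subst h
          rw [DirectSum.of_eq_same]
        · rw [DirectSum.of_eq_of_ne _ _ _ (Ne.symm h)]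
          rfl
      | add x y hx hy => rw [map_add, map_add, hx, hy]; simp
    refine DFinsupp.ext fun n => ?_
    apply Subtype.ext
    rw [← key, hz, map_zero]
    rfl
  · intro x
    obtain ⟨s, hs⟩ := h3 x
    refine ⟨∑ n ∈ s, DirectSum.of (fun i => gr i) n ⟨p n x, h1 n x⟩, ?_⟩
    rw [map_sum]
    simp only [DirectSum.coeAddMonoidHom_of]
    exact hs

/-- The projections of an internal direct sum decomposition. -/
noncomputable def iproj {M : Type*} [AddCommGroup M] {gr : ℤ → AddSubgroup M}
    (h : DirectSum.IsInternal gr) (n : ℤ) : M →+ M :=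
  letI := h.chooseDecomposition gr
  { toFun := fun x => (decompose gr x n : M)
    map_zero' := by simp
    map_add' := fun x y => by simp }

section

variable {M : Type*} [AddCommGroup M] {gr : ℤ → AddSubgroup M} (h : DirectSum.IsInternal gr)

theorem iproj_mem (n : ℤ) (x : M) : iproj h n x ∈ gr n := by
  letI := h.chooseDecomposition gr
  exact (decompose gr x n).2

theorem iproj_of_mem {m : ℤ} {x : M} (hx : x ∈ gr m) (n : ℤ) :
    iproj h n x = if m = n then x else 0 := by
  letI := h.chooseDecomposition gr
  change (decompose gr x n : M) = _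
  split_ifs with hmn
  · subst hmn; exact decompose_of_mem_same gr hx
  · exact decompose_of_mem_ne gr hx hmn

theorem iproj_finite (x : M) : ∃ s : Finset ℤ, (∀ n ∉ s, iproj h n x = 0) ∧
    ∀ t, s ⊆ t → ∑ n ∈ t, iproj h n x = x := by
  classical
  letI := h.chooseDecomposition gr
  refine ⟨(decompose gr x).support, ?_, ?_⟩
  · intro n hn
    change (decompose gr x n : M) = 0
    have := DFinsupp.notMem_support_iff.mp hn
    rw [this]; rfl
  · intro t ht
    have h1 := sum_support_decompose gr x
    conv_rhs => rw [← h1]
    symm
    refine Finset.sum_subset ht fun n _ hn => ?_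
    have := DFinsupp.notMem_support_iff.mp hn
    rw [this]; rfl

theorem iproj_ext {x y : M} (hxy : ∀ n, iproj h n x = iproj h n y) : x = y := by
  classical
  obtain ⟨s, -, hs⟩ := iproj_finite h x
  obtain ⟨t, -, ht⟩ := iproj_finite h y
  rw [← hs (s ∪ t) Finset.subset_union_left, ← ht (s ∪ t) Finset.subset_union_right]
  exact Finset.sum_congr rfl fun n _ => hxy n

theorem mem_iff_iproj {x : M} {m : ℤ} : x ∈ gr m ↔ ∀ n, iproj h n x = if m = n then x else 0 := by
  constructor
  · exact fun hx n => iproj_of_mem h hx n
  · intro hx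
    have := hx m
    rw [if_pos rfl] at this
    rw [← this]
    exact iproj_mem h m x

/-- every element is a sum of homogeneous elements: induction principle -/
theorem internal_induction (h : DirectSum.IsInternal gr) {P : M → Prop} (x : M) (h0 : P 0)
    (hadd : ∀ x y, P x → P y → P (x + y)) (hom : ∀ n, ∀ x ∈ gr n, P x) : P x := by
  obtain ⟨s, -, hs⟩ := iproj_finite h x
  rw [← hs s (Finset.Subset.refl s)]
  exact Finset.sum_induction _ P hadd h0 fun n _ => hom n _ (iproj_mem h n x)

end

end Pool.Agent.Y83
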