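import Pool.Agent.Y83.GrDefs

/-!
# Graded projective modules and homogeneous idempotent matrices
-/

namespace Pool.Agent.Y83

open MulOpposite Matrix

variable {A : Type} [Ring A]

/-- Left multiplication by a matrix as a right linear map. -/
def mvl {ι κ : Type} [Fintype κ] (X : Matrix ι κ A) : (κ → A) →ₗ[Aᵐᵒᵖ] (ι → A) where
  toFun x := X.mulVec x
  map_add' x y := Matrix.mulVec_add _ _ _
  map_smul' a x := by
    funext i
    simp only [Matrix.mulVec, dotProduct, Pi.smul_apply, RingHom.id_apply, MulOpposite.smul_eq_mul_unop,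
      Finset.sum_mul]
    refine Finset.sum_congr rfl fun j _ => ?_
    rw [mul_assoc]

theorem mvl_apply {ι κ : Type} [Fintype κ] (X : Matrix ι κ A) (x : κ → A) :
    mvl X x = X.mulVec x := rfl

theorem mvl_mul {ι κ μ : Type} [Fintype κ] [Fintype μ] (X : Matrix ι κ A) (Y : Matrix κ μ A)
    (x : μ → A) : mvl (X * Y) x = mvl X (mvl Y x) := (Matrix.mulVec_mulVec _ _ _).symm

theorem mvl_single {ι κ : Type} [Fintype κ] [DecidableEq κ] (X : Matrix ι κ A) (j : κ) (i : ι) :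
    mvl X (Pi.single j 1) i = X i j := by
  simp [mvl_apply, Matrix.mulVec, dotProduct, Pi.single_apply]

/-- The matrix of a right linear map. -/
def rmat {ι κ : Type} [DecidableEq κ] (φ : (κ → A) →ₗ[Aᵐᵒᵖ] (ι → A)) : Matrix ι κ A :=
  Matrix.of fun i j => φ (Pi.single j 1) i

theorem mvl_rmat {ι κ : Type} [Fintype κ] [DecidableEq κ] (φ : (κ → A) →ₗ[Aᵐᵒᵖ] (ι → A))
    (u : κ → A) : mvl (rmat φ) u = φ u := by
  have h1 : u = ∑ j, op (u j) • (Pi.single j (1 : A) : κ → A) := by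
    funext i
    simp [Finset.sum_apply, Pi.single_apply]
  conv_rhs => rw [h1]
  rw [map_sum]
  funext i
  rw [Finset.sum_apply, mvl_apply]
  simp only [Matrix.mulVec, dotProduct, rmat, Matrix.of_apply, map_smul, Pi.smul_apply,
    MulOpposite.smul_eq_mul_unop, unop_op]

theorem mvl_injective {ι κ : Type} [Fintype κ] [DecidableEq κ] {X Y : Matrix ι κ A}
    (h : ∀ x, mvl X x = mvl Y x) : X = Y := by
  ext i j
  calc X i j = mvl X (Pi.single j 1) i := (mvl_single X j i).symm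
    _ = mvl Y (Pi.single j 1) i := by rw [h]
    _ = Y i j := mvl_single Y j i

theorem iproj_map {M N : Type*} [AddCommGroup M] [AddCommGroup N] {gr : ℤ → AddSubgroup M}
    {gr' : ℤ → AddSubgroup N} (h : DirectSum.IsInternal gr) (h' : DirectSum.IsInternal gr')
    (f : M →+ N) (hf : ∀ n, ∀ x ∈ gr n, f x ∈ gr' n) (n : ℤ) (x : M) :
    iproj h' n (f x) = f (iproj h n x) := by
  induction x using internal_induction h with
  | h0 => simp
  | hadd x y hx hy => rw [map_add, map_add, hx, hy, map_add, map_add]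
  | hom m x hx =>
    rw [iproj_of_mem h' (hf m x hx), iproj_of_mem h hx]
    split_ifs <;> simp

variable {𝒜 : ℤ → AddSubgroup A} [GradedRing 𝒜]

/-- Homogeneous matrices. -/
def Homog (𝒜 : ℤ → AddSubgroup A) {ι κ : Type} (δ : ι → ℤ) (δ' : κ → ℤ) (X : Matrix ι κ A) :
    Prop := ∀ i j, X i j ∈ 𝒜 (δ i - δ' j)

theorem Homog.mvl {ι κ : Type} [Finite ι] [Fintype κ] {δ : ι → ℤ} {δ' : κ → ℤ} {X : Matrix ι κ A}
    (hX : Homog 𝒜 δ δ' X) (n : ℤ) (x : κ → A) (hx : x ∈ (GrMod.free 𝒜 δ').deg n) :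
    mvl X x ∈ (GrMod.free 𝒜 δ).deg n := by
  intro i _
  change ∑ j, X i j * x j ∈ 𝒜 (n + δ i)
  refine AddSubgroup.sum_mem _ fun j _ => ?_
  have h1 : x j ∈ 𝒜 (n + δ' j) := hx j (Set.mem_univ _)
  have h2 := SetLike.mul_mem_graded (hX i j) h1
  rwa [show δ i - δ' j + (n + δ' j) = n + δ i by ring] at h2

theorem Homog.mul {ι κ μ : Type} [Fintype κ] {δ : ι → ℤ} {δ' : κ → ℤ} {δ'' : μ → ℤ}
    {X : Matrix ι κ A} {Y : Matrix κ μ A}
    (hX : Homog 𝒜 δ δ' X) (hY : Homog 𝒜 δ' δ'' Y) : Homog 𝒜 δ δ'' (X * Y) := by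
  intro i j
  rw [Matrix.mul_apply]
  refine AddSubgroup.sum_mem _ fun k _ => ?_
  have h2 := SetLike.mul_mem_graded (hX i k) (hY k j)
  rwa [show δ i - δ' k + (δ' k - δ'' j) = δ i - δ'' j by ring] at h2

theorem single_mem_free {ι : Type} [Finite ι] [DecidableEq ι] (δ : ι → ℤ) (i : ι) :
    (Pi.single i (1 : A) : ι → A) ∈ (GrMod.free 𝒜 δ).deg (-δ i) := by
  intro j _
  change (Pi.single i (1 : A) : ι → A) j ∈ 𝒜 (-δ i + δ j)
  by_cases h : j = i
  · subst h
    rw [Pi.single_eq_same, neg_add_cancel]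
    exact SetLike.one_mem_graded 𝒜
  · rw [Pi.single_eq_of_ne h]
    exact AddSubgroup.zero_mem _

theorem homog_rmat {ι κ : Type} [Finite ι] [Finite κ] [DecidableEq κ]
    {δ : ι → ℤ} {δ' : κ → ℤ}
    (φ : (κ → A) →ₗ[Aᵐᵒᵖ] (ι → A))
    (hφ : ∀ n, ∀ x ∈ (GrMod.free 𝒜 δ').deg n, φ x ∈ (GrMod.free 𝒜 δ).deg n) :
    Homog 𝒜 δ δ' (rmat φ) := by
  intro i j
  have h1 := hφ _ _ (single_mem_free (𝒜 := 𝒜) δ' j) i (Set.mem_univ _)
  have h2 : φ (Pi.single j 1) i ∈ 𝒜 (-δ' j + δ i) := h1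
  rwa [show -δ' j + δ i = δ i - δ' j by ring] at h2

variable (𝒜)

/-- The graded module of fixed vectors of a homogeneous idempotent matrix. -/
def GrMod.ofIdem {ι : Type} [Fintype ι] (δ : ι → ℤ) (e : Matrix ι ι A)
    (he : e * e = e) (hom : Homog 𝒜 δ δ e) : GrMod 𝒜 where
  carrier := LinearMap.eqLocus (mvl e) LinearMap.id
  deg := fun n => ((GrMod.free 𝒜 δ).deg n).comap
    (LinearMap.eqLocus (mvl e) LinearMap.id).subtype.toAddMonoidHom
  internal := by
    have hI := (GrMod.free 𝒜 δ).internal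
    have hcomm : ∀ (n : ℤ) (x : ι → A), iproj hI n (mvl e x) = mvl e (iproj hI n x) := fun n x =>
      iproj_map hI hI (mvl e).toAddMonoidHom (fun n x hx => hom.mvl n x hx) n x
    refine isInternal_of_proj _ (fun n x => ⟨iproj hI n x.1, ?_⟩) ?_ ?_ ?_ ?_ ?_
    · change mvl e (iproj hI n x.1) = iproj hI n x.1
      rw [← hcomm]
      congr 1
      exact x.2
    · intro n; apply Subtype.ext; exact map_zero (iproj hI n)
    · intro n x y; apply Subtype.ext; exact map_add (iproj hI n) _ _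
    · intro n x; exact iproj_mem hI n x.1
    · intro n m x hx
      apply Subtype.ext
      refine (iproj_of_mem hI (x := x.1) hx n).trans ?_
      by_cases h : m = n
      · rw [if_pos h (α := LinearMap.eqLocus (mvl e) LinearMap.id)]
        exact if_pos h
      · rw [if_neg h (α := LinearMap.eqLocus (mvl e) LinearMap.id)]
        exact if_neg h
    · intro x
      obtain ⟨s, -, hs⟩ := iproj_finite hI x.1
      refine ⟨s, ?_⟩
      apply Subtype.ext
      rw [AddSubmonoidClass.coe_finsetSum]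
      exact hs s (Finset.Subset.refl s)
  smul_mem := fun i j m a hm ha => (GrMod.free 𝒜 δ).smul_mem i j m.1 a hm ha

variable {𝒜}

section

variable {ι κ : Type} [Fintype ι] [Fintype κ] {δ : ι → ℤ} {δ' : κ → ℤ}
  {e : Matrix ι ι A} {he : e * e = e} {hom : Homog 𝒜 δ δ e}
  {f : Matrix κ κ A} {hf : f * f = f} {hom' : Homog 𝒜 δ' δ' f}

/-- Equivalent homogeneous idempotents give isomorphic modules. -/
theorem GrMod.ofIdem_iso (x : Matrix ι κ A) (y : Matrix κ ι A) (hx : Homog 𝒜 δ δ' x)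
    (hy : Homog 𝒜 δ' δ y) (hxy : x * y = e) (hyx : y * x = f) :
    Iso (GrMod.ofIdem 𝒜 δ e he hom) (GrMod.ofIdem 𝒜 δ' f hf hom') := by
  have h1 : ∀ u : ι → A, mvl e u = u → mvl f (mvl y u) = mvl y u := by
    intro u hu
    rw [← mvl_mul, ← hyx, Matrix.mul_assoc, hxy, mvl_mul, hu]
  have h2 : ∀ u : κ → A, mvl f u = u → mvl e (mvl x u) = mvl x u := by
    intro u hu
    rw [← mvl_mul, ← hxy, Matrix.mul_assoc, hyx, mvl_mul, hu]
  let φ : (GrMod.ofIdem 𝒜 δ e he hom).carrier ≃ₗ[Aᵐᵒᵖ] (GrMod.ofIdem 𝒜 δ' f hf hom').carrier :=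
    { toFun := fun u => ⟨mvl y u.1, h1 u.1 u.2⟩
      map_add' := fun u v => Subtype.ext (map_add _ _ _)
      map_smul' := fun a u => Subtype.ext (map_smul _ _ _)
      invFun := fun u => ⟨mvl x u.1, h2 u.1 u.2⟩
      left_inv := fun u => by
        apply Subtype.ext
        change mvl x (mvl y u.1) = u.1
        rw [← mvl_mul, hxy]
        exact u.2
      right_inv := fun u => by
        apply Subtype.ext
        change mvl y (mvl x u.1) = u.1
        rw [← mvl_mul, hyx]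
        exact u.2 }
  refine ⟨φ, fun n u => ⟨fun hu => hy.mvl n u.1 hu, fun hu => ?_⟩⟩
  have h3 := hx.mvl n _ hu
  change mvl x (mvl y u.1) ∈ _ at h3
  rw [← mvl_mul, hxy] at h3
  have h4 : mvl e u.1 = u.1 := u.2
  rw [h4] at h3
  exact h3

/-- Isomorphic modules come from equivalent homogeneous idempotents. -/
theorem GrMod.exists_of_ofIdem_iso [DecidableEq ι] [DecidableEq κ]
    (h : Iso (GrMod.ofIdem 𝒜 δ e he hom) (GrMod.ofIdem 𝒜 δ' f hf hom')) :
    ∃ (x : Matrix ι κ A) (y : Matrix κ ι A), Homog 𝒜 δ δ' x ∧ Homog 𝒜 δ' δ y ∧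
      x * y = e ∧ y * x = f := by
  obtain ⟨φ, hφ⟩ := h
  have hee : ∀ u, mvl e (mvl e u) = mvl e u := fun u => by rw [← mvl_mul, he]
  have hff : ∀ u, mvl f (mvl f u) = mvl f u := fun u => by rw [← mvl_mul, hf]
  let ce : (ι → A) →ₗ[Aᵐᵒᵖ] (GrMod.ofIdem 𝒜 δ e he hom).carrier :=
    (mvl e).codRestrict (LinearMap.eqLocus (mvl e) LinearMap.id) hee
  let cf : (κ → A) →ₗ[Aᵐᵒᵖ] (GrMod.ofIdem 𝒜 δ' f hf hom').carrier :=
    (mvl f).codRestrict (LinearMap.eqLocus (mvl f) LinearMap.id) hff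
  let ie : (GrMod.ofIdem 𝒜 δ e he hom).carrier →ₗ[Aᵐᵒᵖ] (ι → A) :=
    (LinearMap.eqLocus (mvl e) LinearMap.id).subtype
  let jf : (GrMod.ofIdem 𝒜 δ' f hf hom').carrier →ₗ[Aᵐᵒᵖ] (κ → A) :=
    (LinearMap.eqLocus (mvl f) LinearMap.id).subtype
  let Y : (ι → A) →ₗ[Aᵐᵒᵖ] (κ → A) := jf ∘ₗ φ.toLinearMap ∘ₗ ce
  let X : (κ → A) →ₗ[Aᵐᵒᵖ] (ι → A) := ie ∘ₗ φ.symm.toLinearMap ∘ₗ cf
  have c1 : ∀ u, cf (jf u) = u := by
    intro u
    apply Subtype.ext
    exact u.2
  have c2 : ∀ u, ce (ie u) = u := by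
    intro u
    apply Subtype.ext
    exact u.2
  refine ⟨rmat X, rmat Y, homog_rmat X ?_, homog_rmat Y ?_, ?_, ?_⟩
  · intro n u hu
    have h1 : cf u ∈ (GrMod.ofIdem 𝒜 δ' f hf hom').deg n := hom'.mvl n u hu
    have h2 : φ (φ.symm (cf u)) ∈ (GrMod.ofIdem 𝒜 δ' f hf hom').deg n := by
      rw [LinearEquiv.apply_symm_apply]; exact h1
    exact (hφ n (φ.symm (cf u))).mpr h2
  · intro n u hu
    have h1 : ce u ∈ (GrMod.ofIdem 𝒜 δ e he hom).deg n := hom.mvl n u hu
    exact (hφ n (ce u)).mp h1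
  · apply mvl_injective
    intro u
    rw [mvl_mul, mvl_rmat, mvl_rmat]
    change ie (φ.symm (cf (jf (φ (ce u))))) = _
    rw [c1, LinearEquiv.symm_apply_apply]
    rfl
  · apply mvl_injective
    intro u
    rw [mvl_mul, mvl_rmat, mvl_rmat]
    change jf (φ (ce (ie (φ.symm (cf u))))) = _
    rw [c2, LinearEquiv.apply_symm_apply]
    rfl

end

/-- Every finitely generated graded projective module comes from a homogeneous idempotent. -/
theorem GrMod.IsFGProj.exists_idem {P : GrMod 𝒜} (hP : P.IsFGProj) :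
    ∃ (n : ℕ) (δ : Fin n → ℤ) (e : Matrix (Fin n) (Fin n) A) (he : e * e = e)
      (hom : Homog 𝒜 δ δ e), Iso P (GrMod.ofIdem 𝒜 δ e he hom) := by
  obtain ⟨Q, n, δ, θ, hθ⟩ := hP
  let ip : P.carrier →ₗ[Aᵐᵒᵖ] (P.dsum Q).carrier := LinearMap.inl Aᵐᵒᵖ P.carrier Q.carrier
  let pp : (P.dsum Q).carrier →ₗ[Aᵐᵒᵖ] P.carrier := LinearMap.fst Aᵐᵒᵖ P.carrier Q.carrier
  have hpi : ∀ u, pp (ip u) = u := fun u => rfl
  let π : (Fin n → A) →ₗ[Aᵐᵒᵖ] (Fin n → A) :=
    θ.toLinearMap ∘ₗ ip ∘ₗ pp ∘ₗ θ.symm.toLinearMap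
  have hπ : ∀ u, π (π u) = π u := by
    intro u
    change θ (ip (pp (θ.symm (θ (ip (pp (θ.symm u))))))) = θ (ip (pp (θ.symm u)))
    rw [LinearEquiv.symm_apply_apply, hpi]
  have hθ' : ∀ m, ∀ u ∈ (GrMod.free 𝒜 δ).deg m, θ.symm u ∈ (P.dsum Q).deg m := by
    intro m u hu
    rw [hθ, LinearEquiv.apply_symm_apply]
    exact hu
  have hπg : ∀ m, ∀ u ∈ (GrMod.free 𝒜 δ).deg m, π u ∈ (GrMod.free 𝒜 δ).deg m := by
    intro m u hu
    have h1 := hθ' m u hu
    have h2 : ip (pp (θ.symm u)) ∈ (P.dsum Q).deg m := ⟨h1.1, AddSubgroup.zero_mem _⟩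
    exact (hθ m _).mp h2
  have he : rmat π * rmat π = rmat π := by
    apply mvl_injective
    intro u
    rw [mvl_mul, mvl_rmat, mvl_rmat, hπ]
  refine ⟨n, δ, rmat π, he, homog_rmat π hπg, ?_⟩
  have fix : ∀ u, mvl (rmat π) (θ (ip u)) = θ (ip u) := by
    intro u
    refine (mvl_rmat π (θ (ip u))).trans ?_
    change θ (ip (pp (θ.symm (θ (ip u))))) = θ (ip u)
    rw [LinearEquiv.symm_apply_apply, hpi]
  let φ : P.carrier ≃ₗ[Aᵐᵒᵖ]
      (GrMod.ofIdem 𝒜 δ (rmat π) he (homog_rmat π hπg)).carrier :=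
    { toFun := fun u => ⟨θ (ip u), fix u⟩
      map_add' := fun u v => Subtype.ext
        ((congrArg θ (map_add ip u v)).trans (map_add θ (ip u) (ip v)))
      map_smul' := fun a u => Subtype.ext
        ((congrArg θ (map_smul ip a u)).trans (map_smul θ a (ip u)))
      invFun := fun v => pp (θ.symm v.1)
      left_inv := fun u => by
        change pp (θ.symm (θ (ip u))) = u
        rw [LinearEquiv.symm_apply_apply, hpi]
      right_inv := fun v => by
        apply Subtype.ext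
        have h1 : mvl (rmat π) v.1 = v.1 := v.2
        rw [mvl_rmat] at h1
        exact h1 }
  refine ⟨φ, fun m u => ⟨fun hu => ?_, fun hu => ?_⟩⟩
  · have h2 : ip u ∈ (P.dsum Q).deg m := ⟨hu, AddSubgroup.zero_mem _⟩
    exact (hθ m _).mp h2
  · have h1 : θ (ip u) ∈ (GrMod.free 𝒜 δ).deg m := hu
    exact ((hθ m (ip u)).mpr h1).1

/-- Modules of homogeneous idempotents are finitely generated graded projective. -/
theorem GrMod.isFGProj_ofIdem {ι : Type} [Fintype ι] [DecidableEq ι] {δ : ι → ℤ}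
    {e : Matrix ι ι A} (he : e * e = e) (hom : Homog 𝒜 δ δ e) :
    (GrMod.ofIdem 𝒜 δ e he hom).IsFGProj := by
  have he' : (1 - e) * (1 - e) = 1 - e := by
    rw [Matrix.sub_mul, Matrix.one_mul, Matrix.mul_sub, Matrix.mul_one, he, sub_self, sub_zero]
  have h1 : Homog 𝒜 δ δ (1 : Matrix ι ι A) := by
    intro i j
    by_cases h : i = j
    · subst h
      rw [Matrix.one_apply_eq, sub_self]
      exact SetLike.one_mem_graded 𝒜
    · rw [Matrix.one_apply_ne h]
      exact AddSubgroup.zero_mem _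
  have hom' : Homog 𝒜 δ δ (1 - e) := fun i j => AddSubgroup.sub_mem _ (h1 i j) (hom i j)
  refine IsFGProj.of_finite (Q := GrMod.ofIdem 𝒜 δ (1 - e) he' hom') (δ := δ) ?_
  have hee : ∀ u, mvl e (mvl e u) = mvl e u := fun u => by rw [← mvl_mul, he]
  have hee' : ∀ u, mvl (1 - e) (mvl (1 - e) u) = mvl (1 - e) u := fun u => by
    rw [← mvl_mul, he']
  have hsum : ∀ u, mvl e u + mvl (1 - e) u = u := by
    intro u
    simp only [mvl_apply, Matrix.sub_mulVec, Matrix.one_mulVec]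
    abel
  have h01 : ∀ u : ι → A, mvl e u = u → mvl (1 - e) u = 0 := by
    intro u hu
    simp only [mvl_apply, Matrix.sub_mulVec, Matrix.one_mulVec] at hu ⊢
    rw [hu, sub_self]
  have h10 : ∀ u : ι → A, mvl (1 - e) u = u → mvl e u = 0 := by
    intro u hu
    simp only [mvl_apply, Matrix.sub_mulVec, Matrix.one_mulVec] at hu ⊢
    rw [sub_eq_self] at hu
    exact hu
  let φ : ((GrMod.ofIdem 𝒜 δ e he hom).dsum (GrMod.ofIdem 𝒜 δ (1 - e) he' hom')).carrier ≃ₗ[Aᵐᵒᵖ]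
      (GrMod.free 𝒜 δ).carrier :=
    { toFun := fun u => (u.1.1 : ι → A) + u.2.1
      map_add' := fun u v => by
        change (u.1.1 + v.1.1) + (u.2.1 + v.2.1) = (u.1.1 + u.2.1) + (v.1.1 + v.2.1)
        abel
      map_smul' := fun a u => (smul_add a (u.1.1 : ι → A) u.2.1).symm
      invFun := fun u => (⟨mvl e u, hee u⟩, ⟨mvl (1 - e) u, hee' u⟩)
      left_inv := fun u => by
        have u1 : mvl e u.1.1 = u.1.1 := u.1.2
        have u2 : mvl (1 - e) u.2.1 = u.2.1 := u.2.2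
        apply Prod.ext
        · apply Subtype.ext
          change mvl e (u.1.1 + u.2.1) = u.1.1
          rw [map_add, u1, h10 _ u2, add_zero]
        · apply Subtype.ext
          change mvl (1 - e) (u.1.1 + u.2.1) = u.2.1
          rw [map_add, u2, h01 _ u1, zero_add]
      right_inv := fun u => hsum u }
  refine ⟨φ, fun m u => ⟨fun hu => AddSubgroup.add_mem _ hu.1 hu.2, fun hu => ?_⟩⟩
  have u1 : mvl e u.1.1 = u.1.1 := u.1.2
  have u2 : mvl (1 - e) u.2.1 = u.2.1 := u.2.2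
  have h2 : (u.1.1 : ι → A) + u.2.1 ∈ (GrMod.free 𝒜 δ).deg m := hu
  constructor
  · have h3 := hom.mvl m _ h2
    rw [map_add, u1, h10 _ u2, add_zero] at h3
    exact h3
  · have h3 := hom'.mvl m _ h2
    rw [map_add, u2, h01 _ u1, zero_add] at h3
    exact h3

/-- Direct sums correspond to block diagonal idempotents. -/
theorem GrMod.dsum_ofIdem {ι κ : Type} [Fintype ι] [Fintype κ] {δ : ι → ℤ} {δ' : κ → ℤ}
    {e : Matrix ι ι A} {he : e * e = e} {hom : Homog 𝒜 δ δ e}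
    {f : Matrix κ κ A} {hf : f * f = f} {hom' : Homog 𝒜 δ' δ' f}
    (hg : (Matrix.fromBlocks e 0 0 f) * (Matrix.fromBlocks e 0 0 f) = Matrix.fromBlocks e 0 0 f)
    (homg : Homog 𝒜 (Sum.elim δ δ') (Sum.elim δ δ') (Matrix.fromBlocks e 0 0 f)) :
    Iso ((GrMod.ofIdem 𝒜 δ e he hom).dsum (GrMod.ofIdem 𝒜 δ' f hf hom'))
      (GrMod.ofIdem 𝒜 (Sum.elim δ δ') (Matrix.fromBlocks e 0 0 f) hg homg) := by
  have hmv : ∀ (u : ι → A) (v : κ → A), mvl (Matrix.fromBlocks e 0 0 f) (Sum.elim u v) =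
      Sum.elim (mvl e u) (mvl f v) := by
    intro u v
    simp only [mvl_apply, Matrix.fromBlocks_mulVec]
    simp
  let φ : ((GrMod.ofIdem 𝒜 δ e he hom).dsum (GrMod.ofIdem 𝒜 δ' f hf hom')).carrier ≃ₗ[Aᵐᵒᵖ]
      (GrMod.ofIdem 𝒜 (Sum.elim δ δ') (Matrix.fromBlocks e 0 0 f) hg homg).carrier :=
    { toFun := fun u => ⟨Sum.elim u.1.1 u.2.1, by
        have u1 : mvl e u.1.1 = u.1.1 := u.1.2
        have u2 : mvl f u.2.1 = u.2.1 := u.2.2
        change mvl (Matrix.fromBlocks e 0 0 f) (Sum.elim u.1.1 u.2.1) = Sum.elim u.1.1 u.2.1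
        rw [hmv, u1, u2]⟩
      map_add' := fun u v => by
        apply Subtype.ext
        funext j
        cases j <;> rfl
      map_smul' := fun a u => by
        apply Subtype.ext
        funext j
        cases j <;> rfl
      invFun := fun w => (⟨fun i => w.1 (Sum.inl i), by
          have h1 : mvl (Matrix.fromBlocks e 0 0 f) w.1 = w.1 := w.2
          have h2 : w.1 = Sum.elim (fun i => w.1 (Sum.inl i)) (fun j => w.1 (Sum.inr j)) := by
            funext j; cases j <;> rfl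
          rw [h2, hmv] at h1
          funext i
          exact congrFun h1 (Sum.inl i)⟩, ⟨fun j => w.1 (Sum.inr j), by
          have h1 : mvl (Matrix.fromBlocks e 0 0 f) w.1 = w.1 := w.2
          have h2 : w.1 = Sum.elim (fun i => w.1 (Sum.inl i)) (fun j => w.1 (Sum.inr j)) := by
            funext j; cases j <;> rfl
          rw [h2, hmv] at h1
          funext i
          exact congrFun h1 (Sum.inr i)⟩)
      left_inv := fun u => rfl
      right_inv := fun w => by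
        apply Subtype.ext
        funext j
        cases j <;> rfl }
  refine ⟨φ, fun m u => ⟨?_, ?_⟩⟩
  · rintro ⟨h1, h2⟩ j _
    cases j with
    | inl j => exact h1 j (Set.mem_univ _)
    | inr j => exact h2 j (Set.mem_univ _)
  · intro h
    exact ⟨fun j _ => h (Sum.inl j) (Set.mem_univ _), fun j _ => h (Sum.inr j) (Set.mem_univ _)⟩

end Pool.Agent.Y83
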