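import Pool.Agent.Y83.Gm1

set_option linter.style.haveILetI false

/-!
# Graded modules over a graded ring and the graded Grothendieck group
-/

namespace Pool.Agent.Y83

open MulOpposite

variable {A : Type} [Ring A]

/-- A graded right module over the ring `A` graded by `𝒜`. -/
structure GrMod (𝒜 : ℤ → AddSubgroup A) : Type 1 where
  carrier : Type
  [grp : AddCommGroup carrier]
  [mod : Module Aᵐᵒᵖ carrier]
  deg : ℤ → AddSubgroup carrier
  internal : DirectSum.IsInternal deg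
  smul_mem : ∀ (i j : ℤ) (m : carrier) (a : A), m ∈ deg i → a ∈ 𝒜 j → op a • m ∈ deg (i + j)

attribute [instance] GrMod.grp GrMod.mod

namespace GrMod

variable {𝒜 : ℤ → AddSubgroup A}

/-- Graded isomorphism: a linear bijection preserving the degrees. -/
def Iso (M N : GrMod 𝒜) : Prop :=
  ∃ f : M.carrier ≃ₗ[Aᵐᵒᵖ] N.carrier, ∀ (i : ℤ) (m : M.carrier), m ∈ M.deg i ↔ f m ∈ N.deg i

/-- The shifted module `M(k)`, with `M(k)_n = M_{n+k}`. -/
def shift (M : GrMod 𝒜) (k : ℤ) : GrMod 𝒜 where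
  carrier := M.carrier
  deg := fun n => M.deg (n + k)
  internal := by
    refine isInternal_of_proj _ (fun n => iproj M.internal (n + k)) (fun n => map_zero _)
      (fun n => map_add _) (fun n x => iproj_mem M.internal _ x) ?_ ?_
    · intro n m x hx
      rw [iproj_of_mem M.internal hx]
      simp
    · intro x
      obtain ⟨s, h0, hs⟩ := iproj_finite M.internal x
      refine ⟨s.map (Equiv.addRight (-k)).toEmbedding, ?_⟩
      rw [Finset.sum_map]
      simpa using hs s (Finset.Subset.refl s)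
  smul_mem := fun i j m a hm ha => by
    have := M.smul_mem (i + k) j m a hm ha
    rwa [show i + k + j = i + j + k by ring] at this

/-- The direct sum of two graded modules. -/
def dsum (M N : GrMod 𝒜) : GrMod 𝒜 where
  carrier := M.carrier × N.carrier
  deg := fun n => (M.deg n).prod (N.deg n)
  internal := by
    classical
    refine isInternal_of_proj _ (fun n x => (iproj M.internal n x.1, iproj N.internal n x.2))
      (fun n => by simp) (fun n x y => by simp)
      (fun n x => ⟨iproj_mem M.internal n x.1, iproj_mem N.internal n x.2⟩) ?_ ?_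
    · rintro n m ⟨x, y⟩ ⟨hx, hy⟩
      rw [iproj_of_mem M.internal hx, iproj_of_mem N.internal hy]
      split_ifs <;> rfl
    · rintro ⟨x, y⟩
      obtain ⟨s, -, hs⟩ := iproj_finite M.internal x
      obtain ⟨t, -, ht⟩ := iproj_finite N.internal y
      refine ⟨s ∪ t, ?_⟩
      apply Prod.ext
      · rw [Prod.fst_sum]; exact hs _ Finset.subset_union_left
      · rw [Prod.snd_sum]; exact ht _ Finset.subset_union_right
  smul_mem := fun i j m a hm ha => ⟨M.smul_mem i j m.1 a hm.1 ha, N.smul_mem i j m.2 a hm.2 ha⟩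

variable (𝒜)

/-- The graded free module `⨁ A(δ_j)`, `j` in a finite index set. -/
def free [GradedRing 𝒜] {ι : Type} [Finite ι] (δ : ι → ℤ) : GrMod 𝒜 where
  carrier := ι → A
  deg := fun n => AddSubgroup.pi Set.univ (fun j => 𝒜 (n + δ j))
  internal := by
    classical
    have := Fintype.ofFinite ι
    have hI : DirectSum.IsInternal 𝒜 := DirectSum.Decomposition.isInternal 𝒜
    refine isInternal_of_proj _ (fun n x j => iproj hI (n + δ j) (x j))
      (fun n => by funext j; simp) (fun n x y => by funext j; simp)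
      (fun n x j _ => iproj_mem hI _ (x j)) ?_ ?_
    · intro n m x hx
      funext j
      have hj : x j ∈ 𝒜 (m + δ j) := hx j (Set.mem_univ j)
      rw [iproj_of_mem hI hj]
      simp only [add_left_inj]
      split_ifs <;> rfl
    · intro x
      have hf := fun j => iproj_finite hI (x j)
      choose s h0 hs using hf
      refine ⟨Finset.univ.biUnion fun j => (s j).map (Equiv.addRight (-δ j)).toEmbedding, ?_⟩
      funext j
      rw [Finset.sum_apply]
      have h1 : ∑ n ∈ (s j).map (Equiv.addRight (-δ j)).toEmbedding,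
          iproj hI (n + δ j) (x j) = x j := by
        rw [Finset.sum_map]
        simpa using hs j (s j) (Finset.Subset.refl _)
      conv_rhs => rw [← h1]
      symm
      refine Finset.sum_subset ?_ ?_
      · intro n hn
        exact Finset.mem_biUnion.mpr ⟨j, Finset.mem_univ j, hn⟩
      · intro n _ hn
        apply h0 j
        intro hn'
        apply hn
        rw [Finset.mem_map]
        exact ⟨n + δ j, hn', by simp⟩
  smul_mem := fun i j m a hm ha l _ => by
    have h1 : m l ∈ 𝒜 (i + δ l) := hm l (Set.mem_univ l)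
    have h2 := SetLike.mul_mem_graded h1 ha
    rwa [show i + δ l + j = i + j + δ l by ring] at h2

/-- The ring as a graded right module over itself. -/
def regular [GradedRing 𝒜] : GrMod 𝒜 where
  carrier := A
  deg := 𝒜
  internal := DirectSum.Decomposition.isInternal 𝒜
  smul_mem := fun _ _ _ _ hm ha => SetLike.mul_mem_graded hm ha

variable {𝒜}

/-- Finitely generated graded projective: a graded direct summand of a finite direct sum of
shifts of the graded ring. -/
def IsFGProj [GradedRing 𝒜] (P : GrMod 𝒜) : Prop :=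
  ∃ (Q : GrMod 𝒜) (n : ℕ) (δ : Fin n → ℤ), Iso (P.dsum Q) (free 𝒜 δ)

/-! ### Elementary properties -/

theorem Iso.refl (M : GrMod 𝒜) : Iso M M := ⟨LinearEquiv.refl _ _, fun _ _ => Iff.rfl⟩

theorem Iso.symm {M N : GrMod 𝒜} (h : Iso M N) : Iso N M := by
  obtain ⟨f, hf⟩ := h
  refine ⟨f.symm, fun i m => ?_⟩
  rw [hf, LinearEquiv.apply_symm_apply]

theorem Iso.trans {M N P : GrMod 𝒜} (h : Iso M N) (h' : Iso N P) : Iso M P := by
  obtain ⟨f, hf⟩ := h
  obtain ⟨g, hg⟩ := h'
  refine ⟨f.trans g, fun i m => ?_⟩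
  rw [hf, hg]; rfl

theorem Iso.dsum {M N M' N' : GrMod 𝒜} (h : Iso M N) (h' : Iso M' N') :
    Iso (M.dsum M') (N.dsum N') := by
  obtain ⟨f, hf⟩ := h
  obtain ⟨g, hg⟩ := h'
  refine ⟨f.prodCongr g, fun i m => ?_⟩
  change m.1 ∈ M.deg i ∧ m.2 ∈ M'.deg i ↔ f m.1 ∈ N.deg i ∧ g m.2 ∈ N'.deg i
  rw [hf, hg]

theorem Iso.shift {M N : GrMod 𝒜} (h : Iso M N) (k : ℤ) : Iso (M.shift k) (N.shift k) := by
  obtain ⟨f, hf⟩ := h
  exact ⟨f, fun i m => hf _ _⟩

theorem dsum_comm (M N : GrMod 𝒜) : Iso (M.dsum N) (N.dsum M) :=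
  ⟨LinearEquiv.prodComm _ _ _, fun _ _ => and_comm⟩

theorem dsum_assoc (M N P : GrMod 𝒜) : Iso ((M.dsum N).dsum P) (M.dsum (N.dsum P)) :=
  ⟨LinearEquiv.prodAssoc _ _ _ _, fun _ _ => and_assoc⟩

theorem dsum_shift (M N : GrMod 𝒜) (k : ℤ) : Iso ((M.dsum N).shift k)
    ((M.shift k).dsum (N.shift k)) :=
  ⟨LinearEquiv.refl _ _, fun _ _ => Iff.rfl⟩

theorem shift_shift (M : GrMod 𝒜) (k l : ℤ) : Iso ((M.shift k).shift l) (M.shift (k + l)) :=
  ⟨LinearEquiv.refl _ _, fun i m => by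
    change m ∈ M.deg (i + l + k) ↔ m ∈ M.deg (i + (k + l))
    rw [show i + l + k = i + (k + l) by ring]⟩

theorem shift_zero (M : GrMod 𝒜) : Iso (M.shift 0) M :=
  ⟨LinearEquiv.refl _ _, fun i m => by
    change m ∈ M.deg (i + 0) ↔ m ∈ M.deg i
    rw [add_zero]⟩

variable [GradedRing 𝒜]

theorem free_reindex {ι κ : Type} [Finite ι] [Finite κ] (e : ι ≃ κ) (δ : κ → ℤ) :
    Iso (free 𝒜 δ) (free 𝒜 (δ ∘ e)) := by
  refine ⟨LinearEquiv.funCongrLeft Aᵐᵒᵖ A e, fun i m => ?_⟩
  constructor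
  · intro hm j _
    exact hm (e j) (Set.mem_univ _)
  · intro hm j _
    have := hm (e.symm j) (Set.mem_univ _)
    have h2 : m (e (e.symm j)) ∈ 𝒜 (i + δ (e (e.symm j))) := this
    rwa [Equiv.apply_symm_apply] at h2

theorem free_sum {ι κ : Type} [Finite ι] [Finite κ] (δ : ι → ℤ) (δ' : κ → ℤ) :
    Iso ((free 𝒜 δ).dsum (free 𝒜 δ')) (free 𝒜 (Sum.elim δ δ')) := by
  refine ⟨(LinearEquiv.sumArrowLequivProdArrow ι κ Aᵐᵒᵖ A).symm, fun i m => ?_⟩
  constructor
  · rintro ⟨h1, h2⟩ j _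
    cases j with
    | inl j => exact h1 j (Set.mem_univ _)
    | inr j => exact h2 j (Set.mem_univ _)
  · intro h
    exact ⟨fun j _ => h (Sum.inl j) (Set.mem_univ _), fun j _ => h (Sum.inr j) (Set.mem_univ _)⟩

theorem free_shift {ι : Type} [Finite ι] (δ : ι → ℤ) (k : ℤ) :
    Iso ((free 𝒜 δ).shift k) (free 𝒜 (fun j => δ j + k)) := by
  refine ⟨LinearEquiv.refl _ _, fun i m => ?_⟩
  have e : ∀ j, i + k + δ j = i + (δ j + k) := fun j => by ring
  constructor
  · intro h j hj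
    have := h j hj
    change m j ∈ 𝒜 (i + (δ j + k))
    rw [← e]; exact this
  · intro h j hj
    have := h j hj
    change m j ∈ 𝒜 (i + k + δ j)
    rw [e]; exact this

theorem dsum_free_empty {ι : Type} [IsEmpty ι] (M : GrMod 𝒜) (δ : ι → ℤ) :
    Iso (M.dsum (free 𝒜 δ)) M := by
  have : Unique ((free 𝒜 δ).carrier) := inferInstanceAs (Unique (ι → A))
  refine ⟨LinearEquiv.prodUnique, fun i m => ?_⟩
  constructor
  · exact fun h => h.1
  · exact fun h => ⟨h, fun j _ => isEmptyElim j⟩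

theorem regular_iso : Iso (regular 𝒜) (free 𝒜 (fun _ : Unit => 0)) := by
  refine ⟨(LinearEquiv.funUnique Unit Aᵐᵒᵖ A).symm, fun i m => ?_⟩
  constructor
  · intro h j _
    change m ∈ 𝒜 (i + 0)
    rw [add_zero]; exact h
  · intro h
    have := h () (Set.mem_univ _)
    change m ∈ 𝒜 (i + 0) at this
    rwa [add_zero] at this

theorem IsFGProj.of_finite {P Q : GrMod 𝒜} {ι : Type} [Finite ι] {δ : ι → ℤ}
    (h : Iso (P.dsum Q) (free 𝒜 δ)) : P.IsFGProj := by
  obtain ⟨n, ⟨e⟩⟩ := Finite.exists_equiv_fin ι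
  exact ⟨Q, n, δ ∘ e.symm, h.trans (free_reindex e.symm δ)⟩

theorem IsFGProj.of_iso {P Q : GrMod 𝒜} (h : Iso P Q) (hP : P.IsFGProj) : Q.IsFGProj := by
  obtain ⟨R, n, δ, hR⟩ := hP
  exact ⟨R, n, δ, (h.symm.dsum (Iso.refl R)).trans hR⟩

theorem IsFGProj.free {ι : Type} [Finite ι] (δ : ι → ℤ) : (free 𝒜 δ).IsFGProj :=
  IsFGProj.of_finite (dsum_free_empty (GrMod.free 𝒜 δ) (fun x : Empty => x.elim))

theorem IsFGProj.regular : (regular 𝒜).IsFGProj :=
  IsFGProj.of_iso regular_iso.symm (IsFGProj.free _)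

theorem IsFGProj.dsum {P Q : GrMod 𝒜} (hP : P.IsFGProj) (hQ : Q.IsFGProj) :
    (P.dsum Q).IsFGProj := by
  obtain ⟨P', n, δ, h⟩ := hP
  obtain ⟨Q', m, δ', h'⟩ := hQ
  refine IsFGProj.of_finite (Q := P'.dsum Q') (δ := Sum.elim δ δ') ?_
  have h1 : Iso ((P.dsum Q).dsum (P'.dsum Q')) ((P.dsum P').dsum (Q.dsum Q')) := by
    refine ⟨LinearEquiv.prodProdProdComm _ _ _ _ _, fun i m => ?_⟩
    change (m.1.1 ∈ P.deg i ∧ m.1.2 ∈ Q.deg i) ∧ (m.2.1 ∈ P'.deg i ∧ m.2.2 ∈ Q'.deg i) ↔
      (m.1.1 ∈ P.deg i ∧ m.2.1 ∈ P'.deg i) ∧ (m.1.2 ∈ Q.deg i ∧ m.2.2 ∈ Q'.deg i)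
    tauto
  exact h1.trans ((h.dsum h').trans (free_sum δ δ'))

theorem IsFGProj.shift {P : GrMod 𝒜} (hP : P.IsFGProj) (k : ℤ) : (P.shift k).IsFGProj := by
  obtain ⟨P', n, δ, h⟩ := hP
  exact IsFGProj.of_finite (Q := P'.shift k)
    ((dsum_shift P P' k).symm.trans ((h.shift k).trans (free_shift δ k)))

end GrMod

section Groth

variable (𝒜 : ℤ → AddSubgroup A) [GradedRing 𝒜]

/-- Finitely generated graded projective modules. -/
def FGP : Type 1 := {P : GrMod 𝒜 // P.IsFGProj}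

instance FGP.setoid : Setoid (FGP 𝒜) where
  r P Q := P.1.Iso Q.1
  iseqv := ⟨fun P => GrMod.Iso.refl P.1, fun h => h.symm, fun h h' => h.trans h'⟩

/-- Graded isomorphism classes of finitely generated graded projective modules. -/
def Vgr : Type 1 := Quotient (FGP.setoid 𝒜)

variable {𝒜}

/-- The class of a module. -/
def Vgr.mk (P : GrMod 𝒜) (hP : P.IsFGProj) : Vgr 𝒜 := Quotient.mk _ ⟨P, hP⟩

theorem Vgr.mk_eq_iff {P Q : GrMod 𝒜} {hP : P.IsFGProj} {hQ : Q.IsFGProj} :
    Vgr.mk P hP = Vgr.mk Q hQ ↔ P.Iso Q := Quotient.eq (r := FGP.setoid 𝒜)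

instance : Add (Vgr 𝒜) where
  add := Quotient.map₂ (fun P Q => ⟨P.1.dsum Q.1, P.2.dsum Q.2⟩)
    (fun _ _ h _ _ h' => GrMod.Iso.dsum h h')

instance : Zero (Vgr 𝒜) where
  zero := Vgr.mk (GrMod.free 𝒜 (fun x : Empty => x.elim)) (GrMod.IsFGProj.free _)

/-- The sum of classes is the class of the direct sum. -/
instance : AddCommMonoid (Vgr 𝒜) where
  add_assoc := by
    rintro ⟨P⟩ ⟨Q⟩ ⟨R⟩
    exact Quotient.sound (GrMod.dsum_assoc _ _ _)
  zero_add := by
    rintro ⟨P⟩
    exact Quotient.sound ((GrMod.dsum_comm _ _).trans (GrMod.dsum_free_empty _ _))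
  add_zero := by
    rintro ⟨P⟩
    exact Quotient.sound (GrMod.dsum_free_empty _ _)
  add_comm := by
    rintro ⟨P⟩ ⟨Q⟩
    exact Quotient.sound (GrMod.dsum_comm _ _)
  nsmul := nsmulRec

/-- The shift `[P] ↦ [P(1)]` on isomorphism classes. -/
def Vgr.shift : Vgr 𝒜 →+ Vgr 𝒜 where
  toFun := Quotient.map (fun P => ⟨P.1.shift 1, P.2.shift 1⟩) (fun _ _ h => GrMod.Iso.shift h 1)
  map_zero' := Quotient.sound ((GrMod.free_shift _ 1).trans (by
    refine ⟨LinearEquiv.refl _ _, fun i m => ?_⟩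
    exact ⟨fun _ j => j.elim, fun _ j => j.elim⟩))
  map_add' := by
    rintro ⟨P⟩ ⟨Q⟩
    exact Quotient.sound (GrMod.dsum_shift _ _ _)

variable (𝒜)

/-- The graded Grothendieck group: the group completion of the monoid of graded isomorphism
classes of finitely generated graded projective right modules. -/
def K0gr : Type 1 := Algebra.GrothendieckAddGroup (Vgr 𝒜)

instance K0gr.group : AddCommGroup (K0gr 𝒜) :=
  Algebra.GrothendieckAddGroup.instAddCommGroup (M := Vgr 𝒜)

variable {𝒜}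

/-- The class `[P]` in the graded Grothendieck group. -/
def K0gr.cls : Vgr 𝒜 →+ K0gr 𝒜 := Algebra.GrothendieckAddGroup.of (M := Vgr 𝒜)

/-- The universal property of the group completion. -/
noncomputable def K0gr.lift {H : Type 1} [AddCommGroup H] (f : Vgr 𝒜 →+ H) : K0gr 𝒜 →+ H :=
  Algebra.GrothendieckAddGroup.lift (M := Vgr 𝒜) f

/-- The action of the generator: `x • [P] = [P(1)]`. -/
noncomputable def K0gr.shift : K0gr 𝒜 →+ K0gr 𝒜 := K0gr.lift (K0gr.cls.comp Vgr.shift)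

variable (𝒜)

/-- The class of the ring itself. -/
def K0gr.unit : K0gr 𝒜 := K0gr.cls (Vgr.mk (GrMod.regular 𝒜) GrMod.IsFGProj.regular)

/-- The positive cone: the classes of finitely generated graded projective modules. -/
def K0gr.cone : Set (K0gr 𝒜) := Set.range K0gr.cls

end Groth

/-- An isomorphism of graded Grothendieck groups which commutes with the shifts, maps the
positive cone onto the positive cone and the class of the ring to the class of the ring. -/
structure IsPointedK0Iso {A B : Type} [Ring A] [Ring B] {𝒜 : ℤ → AddSubgroup A}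
    {ℬ : ℤ → AddSubgroup B} [GradedRing 𝒜] [GradedRing ℬ] (f : K0gr 𝒜 ≃+ K0gr ℬ) : Prop where
  map_shift : ∀ x, f (K0gr.shift x) = K0gr.shift (f x)
  map_cone : f '' K0gr.cone 𝒜 = K0gr.cone ℬ
  map_unit : f (K0gr.unit 𝒜) = K0gr.unit ℬ

/-- There is a pointed ordered isomorphism of graded Grothendieck groups. -/
def PointedK0Iso {A B : Type} [Ring A] [Ring B] (𝒜 : ℤ → AddSubgroup A)
    (ℬ : ℤ → AddSubgroup B) [GradedRing 𝒜] [GradedRing ℬ] : Prop :=
  ∃ f : K0gr 𝒜 ≃+ K0gr ℬ, IsPointedK0Iso f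

end Pool.Agent.Y83
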