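import Pool.Agent.Y83.Lpa2

/-!
# The degree zero part of a Leavitt path algebra; graded isomorphisms
-/

namespace Pool.Agent.Y83

open Matrix

namespace CKF

variable {G : FGraph} {B : Type} [Ring B] (η : CKF G B) (K : Type) [Field K] [Algebra K B]

/-- The monomial `z_l q_v w_l'` (with the ghost path reversed). -/
def mono (l : List G.E) (v : G.V) (l' : List G.E) : B :=
  (l.map η.z).prod * η.q v * ((l'.map η.w).reverse).prod

/-- The span of the monomials with `a` edges and `b` ghost edges. -/
def Mab (a b : ℕ) : Submodule K B :=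
  Submodule.span K {x | ∃ l v l', l.length = a ∧ l'.length = b ∧ x = η.mono l v l'}

theorem mono_mem (l : List G.E) (v : G.V) (l' : List G.E) :
    η.mono l v l' ∈ η.Mab K l.length l'.length :=
  Submodule.subset_span ⟨l, v, l', rfl, rfl, rfl⟩

theorem Mab_le_succ (a b : ℕ) : η.Mab K a b ≤ η.Mab K (a + 1) (b + 1) := by
  refine Submodule.span_le.mpr ?_
  rintro _ ⟨l, v, l', rfl, rfl, rfl⟩
  have h1 : η.mono l v l' = ∑ e with G.s e = v, η.mono (l ++ [e]) (G.r e) (l' ++ [e]) := by
    unfold mono
    rw [← η.ck2 v, Finset.mul_sum, Finset.sum_mul]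
    refine Finset.sum_congr rfl fun e _ => ?_
    simp only [List.map_append, List.map_cons, List.map_nil, List.prod_append, List.prod_cons,
      List.prod_nil, mul_one, List.reverse_append, List.reverse_cons, List.reverse_nil,
      List.nil_append]
    calc _ = (List.map η.z l).prod * ((η.z e * η.q (G.r e)) * η.w e) *
          (List.map η.w l').reverse.prod := by rw [η.zr]
      _ = _ := by simp only [mul_assoc]
  rw [SetLike.mem_coe, h1]
  refine Submodule.sum_mem _ fun e _ => ?_
  have := η.mono_mem K (l ++ [e]) (G.r e) (l' ++ [e])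
  simpa using this

theorem q_mul_Mab (u : G.V) (a b : ℕ) : ∀ x ∈ η.Mab K a b, η.q u * x ∈ η.Mab K a b := by
  intro x hx
  have h : η.Mab K a b ≤ (η.Mab K a b).comap (LinearMap.mulLeft K (η.q u)) := by
    refine Submodule.span_le.mpr ?_
    rintro _ ⟨l, v, l', rfl, rfl, rfl⟩
    simp only [SetLike.mem_coe, Submodule.mem_comap, LinearMap.mulLeft_apply]
    cases l with
    | nil =>
      have : η.q u * η.mono [] v l' = if u = v then η.mono [] u l' else 0 := by
        unfold mono
        simp only [List.map_nil, List.prod_nil, one_mul]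
        rw [← mul_assoc, η.qq]
        split_ifs <;> simp
      rw [this]
      split_ifs
      · exact η.mono_mem K [] u l'
      · exact Submodule.zero_mem _
    | cons e l =>
      have : η.q u * η.mono (e :: l) v l' = if u = G.s e then η.mono (e :: l) v l' else 0 := by
        unfold mono
        simp only [List.map_cons, List.prod_cons]
        rw [← mul_assoc, ← mul_assoc, ← mul_assoc, η.q_z]
        split_ifs <;> simp
      rw [this]
      split_ifs
      · exact η.mono_mem K (e :: l) v l'
      · exact Submodule.zero_mem _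
  exact h hx

theorem z_mul_Mab (e : G.E) (a b : ℕ) : ∀ x ∈ η.Mab K a b, η.z e * x ∈ η.Mab K (a + 1) b := by
  intro x hx
  have h : η.Mab K a b ≤ (η.Mab K (a + 1) b).comap (LinearMap.mulLeft K (η.z e)) := by
    refine Submodule.span_le.mpr ?_
    rintro _ ⟨l, v, l', rfl, rfl, rfl⟩
    simp only [SetLike.mem_coe, Submodule.mem_comap, LinearMap.mulLeft_apply]
    have : η.z e * η.mono l v l' = η.mono (e :: l) v l' := by
      unfold mono
      simp only [List.map_cons, List.prod_cons, mul_assoc]
    rw [this]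
    exact η.mono_mem K (e :: l) v l'
  exact h hx

theorem w_mul_Mab (e : G.E) (a b : ℕ) : ∀ x ∈ η.Mab K (a + 1) b, η.w e * x ∈ η.Mab K a b := by
  intro x hx
  have h : η.Mab K (a + 1) b ≤ (η.Mab K a b).comap (LinearMap.mulLeft K (η.w e)) := by
    refine Submodule.span_le.mpr ?_
    rintro _ ⟨l, v, l', hl, rfl, rfl⟩
    simp only [SetLike.mem_coe, Submodule.mem_comap, LinearMap.mulLeft_apply]
    cases l with
    | nil => simp at hl
    | cons f l =>
      have hl' : l.length = a := by simpa using hl
      have : η.w e * η.mono (f :: l) v l' =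
          if e = f then η.q (G.r e) * η.mono l v l' else 0 := by
        unfold mono
        simp only [List.map_cons, List.prod_cons]
        rw [← mul_assoc, ← mul_assoc, ← mul_assoc, η.ck1]
        split_ifs
        · simp only [mul_assoc]
        · simp
      rw [this]
      split_ifs
      · rw [← hl']
        exact η.q_mul_Mab K _ _ _ _ (η.mono_mem K l v l')
      · exact Submodule.zero_mem _
  exact h hx

theorem z_levS_w (i : ℕ) : ∀ (l : List G.E) (v : G.V) (l' : List G.E), l.length = i →
    l'.length = i → η.mono l v l' ∈ η.levS K i := by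
  induction i with
  | zero =>
    intro l v l' hl hl'
    rw [List.length_eq_zero_iff] at hl hl'
    subst hl hl'
    simpa [mono] using η.q_mem_levS_zero K v
  | succ i ih =>
    intro l v l' hl hl'
    cases l with
    | nil => simp at hl
    | cons e l =>
      cases l' with
      | nil => simp at hl'
      | cons f l' =>
        have := η.zw_mem K (ih l v l' (by simpa using hl) (by simpa using hl')) e f
        have h2 : η.mono (e :: l) v (f :: l') = η.z e * η.mono l v l' * η.w f := by
          unfold mono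
          simp [mul_assoc]
        rw [h2]
        exact this

theorem Mab_le_levS (i : ℕ) : η.Mab K i i ≤ η.levS K i := by
  refine Submodule.span_le.mpr ?_
  rintro _ ⟨l, v, l', hl, hl', rfl⟩
  exact η.z_levS_w K i l v l' hl hl'

end CKF

namespace LPA

variable (K : Type) [Field K] {G : FGraph} (hG : G.NoSinks)

/-- the tautological Cuntz-Krieger family -/
noncomputable def ck (hG : G.NoSinks) : CKF G (LPA K G) := (fam K G).toCKF hG

theorem word_mem_Mab (l : List (LGen G)) : ∃ a b : ℕ, (a : ℤ) - b = (l.map LGen.deg).sum ∧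
    word (K := K) l ∈ (ck K hG).Mab K a b := by
  induction l with
  | nil =>
    refine ⟨0, 0, by simp, ?_⟩
    rw [word_nil, ← (ck K hG).one]
    refine Submodule.sum_mem _ fun v _ => ?_
    have := (ck K hG).mono_mem K [] v []
    simpa [CKF.mono] using this
  | cons g l ih =>
    obtain ⟨a, b, hab, h⟩ := ih
    rw [word_cons]
    cases g with
    | vt v => exact ⟨a, b, by simp [hab, LGen.deg], (ck K hG).q_mul_Mab K v a b _ h⟩
    | ed e =>
      refine ⟨a + 1, b, ?_, (ck K hG).z_mul_Mab K e a b _ h⟩
      simp only [List.map_cons, List.sum_cons, LGen.deg, ← hab]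
      push_cast; ring
    | gh e =>
      refine ⟨a, b + 1, ?_, (ck K hG).w_mul_Mab K e a (b + 1) _ ((ck K hG).Mab_le_succ K a b h)⟩
      simp only [List.map_cons, List.sum_cons, LGen.deg, ← hab]
      push_cast; ring

theorem gr_zero_le : gr K G 0 ≤ ⨆ i, (ck K hG).levS K i := by
  refine Submodule.span_le.mpr ?_
  rintro _ ⟨l, hl, rfl⟩
  obtain ⟨a, b, hab, h⟩ := word_mem_Mab K hG l
  rw [hl] at hab
  have : a = b := by omega
  subst this
  exact Submodule.mem_iSup_of_mem a ((ck K hG).Mab_le_levS K a h)

theorem exists_lev_of_mem {x : LPA K G} (hx : x ∈ gr K G 0) : ∃ i, x ∈ (ck K hG).levS K i := by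
  have h := gr_zero_le K hG hx
  exact (Submodule.mem_iSup_of_directed _ ((ck K hG).levS_mono K).directed_le).mp h

theorem levS_le_gr (i : ℕ) : (ck K hG).levS K i ≤ gr K G 0 := by
  induction i with
  | zero =>
    refine Submodule.span_le.mpr ?_
    rintro _ ⟨v, rfl⟩
    exact gen_mem_gr K (.vt v)
  | succ i ih =>
    refine (ck K hG).levS_succ_le K fun t ht e f => ?_
    have h1 := mul_mem_gr K (mul_mem_gr K (gen_mem_gr K (.ed e)) (ih ht)) (gen_mem_gr K (.gh f))
    have h2 : (LGen.ed e : LGen G).deg + 0 + (LGen.gh f : LGen G).deg = 0 := by simp [LGen.deg]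
    rw [h2] at h1
    exact h1

/-- a finite dimensional subspace of the degree zero part lies in one level -/
theorem exists_lev_of_le {N : Submodule K (LPA K G)} (hN : N.FG) (h : N ≤ gr K G 0) :
    ∃ i, N ≤ (ck K hG).levS K i := by
  obtain ⟨S, rfl⟩ := hN
  have h1 : ∀ x ∈ S, ∃ i, x ∈ (ck K hG).levS K i := fun x hx =>
    exists_lev_of_mem K hG (h (Submodule.subset_span hx))
  choose! i hi using h1
  refine ⟨S.sup i, Submodule.span_le.mpr fun x hx => ?_⟩
  exact (ck K hG).levS_mono K (Finset.le_sup hx) (hi x hx)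

end LPA

/-- Graded isomorphism of Leavitt path algebras: an isomorphism of algebras preserving
degrees. -/
def GradedIso (K : Type) [Field K] (G H : FGraph) : Prop :=
  ∃ φ : LPA K G ≃ₐ[K] LPA K H, ∀ (n : ℤ) (x : LPA K G), x ∈ LPA.gr K G n ↔ φ x ∈ LPA.gr K H n

theorem LFam.map_val {G : FGraph} {B B' : Type} [Ring B] [Ring B'] (η : LFam G B) (f : B →+* B')
    (g : LGen G) : (η.map f).val g = f (η.val g) := by cases g <;> rfl

/-- Graded isomorphic Leavitt path algebras come from strong shift equivalent graphs. -/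
theorem sse_of_gradedIso (K : Type) [Field K] [IsAlgClosed K] [CharZero K] {G H : FGraph}
    (hG : G.NoSinks) (hH : H.NoSinks) (h : GradedIso K G H) {a b : ℕ} (σ : Fin a ≃ G.V)
    (ρ : Fin b ≃ H.V) : Relation.EqvGen WM.Step (G.wm σ) (H.wm ρ) := by
  obtain ⟨φ, hφ⟩ := h
  let γ : CKF G (LPA K H) := ((LPA.fam K G).map (φ : LPA K G →+* LPA K H)).toCKF hG
  let η : CKF H (LPA K H) := LPA.ck K hH
  -- the levels of `γ`
  have hlev : ∀ i, γ.levS K i = ((LPA.ck K hG).levS K i).map φ.toLinearMap := by
    intro i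
    induction i with
    | zero =>
      simp only [CKF.levS, Submodule.map_span]
      congr 1
      rw [← Set.range_comp]
      rfl
    | succ i ih =>
      simp only [CKF.levS, Submodule.map_iSup, ih]
      refine iSup_congr fun p => ?_
      rw [← Submodule.map_comp, ← Submodule.map_comp]
      congr 1
      refine LinearMap.ext fun x => ?_
      change γ.z p.1 * (φ x * γ.w p.2) =
        φ ((LPA.ck K hG).z p.1 * (x * (LPA.ck K hG).w p.2))
      rw [map_mul, map_mul]
      rfl
  have hmem : ∀ y ∈ LPA.gr K H 0, ∃ i, y ∈ γ.levS K i := by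
    intro y hy
    have h1 : φ.symm y ∈ LPA.gr K G 0 := by rw [hφ, AlgEquiv.apply_symm_apply]; exact hy
    obtain ⟨i, hi⟩ := LPA.exists_lev_of_mem K hG h1
    refine ⟨i, ?_⟩
    rw [hlev]
    exact ⟨φ.symm y, hi, by simp⟩
  have hγ : ∀ v, γ.q v ≠ 0 := by
    intro v hv
    apply LPA.q_ne_zero K hG v
    apply φ.injective
    rw [map_zero]
    exact hv
  have hη : ∀ v, η.q v ≠ 0 := LPA.q_ne_zero K hH
  -- the finitely many elements
  have d1 : ∀ v, ∃ i, η.q v ∈ γ.levS K i := fun v => hmem _ (LPA.gen_mem_gr K (.vt v))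
  have d2 : ∀ e f, ∃ i, γ.w e * η.z f ∈ γ.levS K i := by
    intro e f
    refine hmem _ ?_
    have h1 : γ.w e ∈ LPA.gr K H (-1) := (hφ _ _).mp (LPA.gen_mem_gr K (.gh e))
    have h2 : η.z f ∈ LPA.gr K H 1 := LPA.gen_mem_gr K (.ed f)
    simpa using LPA.mul_mem_gr K h1 h2
  have d3 : ∀ e f, ∃ i, η.w e * γ.z f ∈ γ.levS K i := by
    intro e f
    refine hmem _ ?_
    have h1 : η.w e ∈ LPA.gr K H (-1) := LPA.gen_mem_gr K (.gh e)
    have h2 : γ.z f ∈ LPA.gr K H 1 := (hφ _ _).mp (LPA.gen_mem_gr K (.ed f))
    simpa using LPA.mul_mem_gr K h1 h2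
  choose i1 hi1 using d1
  choose i2 hi2 using d2
  choose i3 hi3 using d3
  let n : ℕ := (Finset.univ.sup i1) ⊔ (Finset.univ.sup fun p : G.E × H.E => i2 p.1 p.2) ⊔
    (Finset.univ.sup fun p : H.E × G.E => i3 p.1 p.2)
  have n1 : ∀ v, i1 v ≤ n := fun v =>
    le_trans (Finset.le_sup (Finset.mem_univ v)) (le_trans le_sup_left le_sup_left)
  have n2 : ∀ e f, i2 e f ≤ n := fun e f =>
    le_trans (Finset.le_sup (f := fun p : G.E × H.E => i2 p.1 p.2) (Finset.mem_univ (e, f)))
      (le_trans le_sup_right le_sup_left)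
  have n3 : ∀ e f, i3 e f ≤ n := fun e f =>
    le_trans (Finset.le_sup (f := fun p : H.E × G.E => i3 p.1 p.2) (Finset.mem_univ (e, f)))
      le_sup_right
  -- the top level
  obtain ⟨M, hM⟩ : ∃ M, γ.levS K n ≤ η.levS K M := by
    refine LPA.exists_lev_of_le K hH ?_ ?_
    · have := γ.levS_fin K n
      exact Module.Finite.iff_fg.mp this
    · rw [hlev]
      rintro _ ⟨x, hx, rfl⟩
      exact (hφ _ _).mp (LPA.levS_le_gr K hG n hx)
  exact CKF.sse_of_families (K := K) γ η hγ hη n M (fun v => γ.levS_mono K (n1 v) (hi1 v))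
    (fun e f => γ.levS_mono K (n2 e f) (hi2 e f)) (fun e f => γ.levS_mono K (n3 e f) (hi3 e f))
    hM σ ρ

end Pool.Agent.Y83
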