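import Pool.Agent.Y83.Gm2
import Pool.Agent.Y83.Lpa3

/-!
# Leavitt path algebras: words of edges and blow ups of idempotents
-/

namespace Pool.Agent.Y83

open Matrix

/-- Words of `n` edges. -/
def FGraph.LW (G : FGraph) : ℕ → Type
  | 0 => Unit
  | n + 1 => G.E × FGraph.LW G n

instance FGraph.LW.fintype (G : FGraph) : (n : ℕ) → Fintype (G.LW n)
  | 0 => inferInstanceAs (Fintype Unit)
  | n + 1 => by
      have := FGraph.LW.fintype G n
      exact inferInstanceAs (Fintype (G.E × G.LW n))

instance FGraph.LW.decEq (G : FGraph) : (n : ℕ) → DecidableEq (G.LW n)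
  | 0 => inferInstanceAs (DecidableEq Unit)
  | n + 1 => by
      have := FGraph.LW.decEq G n
      exact inferInstanceAs (DecidableEq (G.E × G.LW n))

namespace CKF

variable {G : FGraph} {B : Type} [Ring B] (η : CKF G B)

/-- product of edges -/
def zl : (n : ℕ) → G.LW n → B
  | 0, _ => 1
  | n + 1, l => η.z l.1 * zl n l.2

/-- product of ghost edges in the reverse order -/
def wl : (n : ℕ) → G.LW n → B
  | 0, _ => 1
  | n + 1, l => wl n l.2 * η.w l.1

theorem sum_LW_succ {M : Type*} [AddCommMonoid M] (n : ℕ) (f : G.LW (n + 1) → M) :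
    ∑ l, f l = ∑ e : G.E, ∑ l : G.LW n, f (e, l) :=
  Fintype.sum_prod_type (f := fun p : G.E × G.LW n => f p)

theorem sum_zl_wl (n : ℕ) : ∑ l, η.zl n l * η.wl n l = 1 := by
  induction n with
  | zero =>
    change ∑ l : Unit, (1 : B) * 1 = 1
    simp
  | succ n ih =>
    rw [sum_LW_succ]
    calc _ = ∑ e, η.z e * (∑ l, η.zl n l * η.wl n l) * η.w e := by
          refine Finset.sum_congr rfl fun e _ => ?_
          rw [Finset.mul_sum, Finset.sum_mul]
          refine Finset.sum_congr rfl fun l _ => ?_
          simp only [zl, wl, mul_assoc]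
      _ = 1 := by rw [ih]; simp only [mul_one]; exact η.sum_zw

variable (K : Type) [Field K] [Algebra K B]

theorem wz_mem' (j : ℕ) : ∀ t ∈ η.levS K j, ∀ e f, η.w e * t * η.z f ∈ η.levS K (j - 1) := by
  cases j with
  | zero => exact η.wz_levS_zero K
  | succ j => exact η.wz_mem K j

theorem wl_zl_mem (n : ℕ) : ∀ (j : ℕ) (t : B), t ∈ η.levS K j → ∀ l l' : G.LW n,
    η.wl n l * t * η.zl n l' ∈ η.levS K (j - n) := by
  induction n with
  | zero =>
    intro j t ht l l'
    simpa [wl, zl] using ht
  | succ n ih =>
    intro j t ht l l'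
    have h1 := ih (j - 1) _ (η.wz_mem' K j t ht l.1 l'.1) l.2 l'.2
    have h2 : η.wl (n + 1) l * t * η.zl (n + 1) l' =
        η.wl n l.2 * (η.w l.1 * t * η.z l'.1) * η.zl n l'.2 := by
      simp only [wl, zl, mul_assoc]
    rw [h2, show j - (n + 1) = j - 1 - n by omega]
    exact h1

end CKF

noncomputable section

variable (K : Type) [Field K] (G : FGraph)

/-- The grading of the Leavitt path algebra. -/
def LPA.grading (n : ℤ) : AddSubgroup (LPA K G) := (LPA.gr K G n).toAddSubgroup

instance LPA.gradedMonoid : SetLike.GradedMonoid (LPA.grading K G) where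
  one_mem := LPA.one_mem_gr K
  mul_mem _ _ _ _ hx hy := LPA.mul_mem_gr K hx hy

theorem LPA.grading_internal : DirectSum.IsInternal (LPA.grading K G) := by
  refine isInternal_of_proj _ (fun n => LPA.comp K n) (fun n => map_zero _) (fun n => map_add _)
    (fun n x => LPA.comp_mem K n x) (fun n m x hx => LPA.comp_of_mem K hx n) ?_
  intro x
  exact ⟨(LPA.coact K x).coeff.support, LPA.sum_comp K x⟩

/-- The decomposition into homogeneous components. -/
instance LPA.decomposition : DirectSum.Decomposition (LPA.grading K G) :=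
  (LPA.grading_internal K G).chooseDecomposition (LPA.grading K G)

/-- The Leavitt path algebra is a graded ring. -/
instance LPA.gradedRing : GradedRing (LPA.grading K G) :=
  { toGradedMonoid := LPA.gradedMonoid K G, toDecomposition := LPA.decomposition K G }

variable {G}
variable (hG : G.NoSinks)

namespace LPA


end LPA

end

end Pool.Agent.Y83
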