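import Pool.Agent.Y83.Lk1

set_option linter.unusedSectionVars false
set_option linter.unusedVariables false

/-!
# Leavitt path algebras: homogeneous idempotents up to equivalence
-/

namespace Pool.Agent.Y83

open Matrix

noncomputable section

/-- Equivalence of homogeneous idempotents. -/
def MvN {A : Type} [Ring A] (𝒜 : ℤ → AddSubgroup A) {ι κ : Type} [Fintype ι] [Fintype κ]
    (δ : ι → ℤ) (e : Matrix ι ι A) (δ' : κ → ℤ) (f : Matrix κ κ A) : Prop :=
  ∃ (x : Matrix ι κ A) (y : Matrix κ ι A), Homog 𝒜 δ δ' x ∧ Homog 𝒜 δ' δ y ∧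
    x * y = e ∧ y * x = f

section generic

variable {A : Type} [Ring A] {𝒜 : ℤ → AddSubgroup A} [GradedRing 𝒜]
variable {ι κ μ : Type} [Fintype ι] [Fintype κ] [Fintype μ] {δ : ι → ℤ} {δ' : κ → ℤ}
  {δ'' : μ → ℤ} {e : Matrix ι ι A} {f : Matrix κ κ A} {g : Matrix μ μ A}

theorem MvN.homog_left (h : MvN 𝒜 δ e δ' f) : Homog 𝒜 δ δ e := by
  obtain ⟨x, y, hx, hy, rfl, rfl⟩ := h
  exact hx.mul hy

theorem MvN.homog_right (h : MvN 𝒜 δ e δ' f) : Homog 𝒜 δ' δ' f := by
  obtain ⟨x, y, hx, hy, rfl, rfl⟩ := h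
  exact hy.mul hx

theorem MvN.symm (h : MvN 𝒜 δ e δ' f) : MvN 𝒜 δ' f δ e := by
  obtain ⟨x, y, hx, hy, h1, h2⟩ := h
  exact ⟨y, x, hy, hx, h2, h1⟩

theorem MvN.refl [DecidableEq ι] (he : e * e = e) (hom : Homog 𝒜 δ δ e) : MvN 𝒜 δ e δ e :=
  ⟨e, e, hom, hom, he, he⟩

theorem MvN.trans (he : e * e = e) (hf : f * f = f) (hg : g * g = g)
    (h : MvN 𝒜 δ e δ' f) (h' : MvN 𝒜 δ' f δ'' g) : MvN 𝒜 δ e δ'' g := by
  obtain ⟨x, y, hx, hy, h1, h2⟩ := h
  obtain ⟨x', y', hx', hy', h1', h2'⟩ := h'
  refine ⟨x * x', y' * y, hx.mul hx', hy'.mul hy, ?_, ?_⟩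
  · calc x * x' * (y' * y) = x * (x' * y') * y := by simp only [Matrix.mul_assoc]
      _ = x * (y * x) * y := by rw [h1', h2]
      _ = (x * y) * (x * y) := by simp only [Matrix.mul_assoc]
      _ = e := by rw [h1, he]
  · calc y' * y * (x * x') = y' * (y * x) * x' := by simp only [Matrix.mul_assoc]
      _ = y' * (x' * y') * x' := by rw [h2, h1']
      _ = (y' * x') * (y' * x') := by simp only [Matrix.mul_assoc]
      _ = g := by rw [h2', hg]

end generic

variable (K : Type) [Field K] {G : FGraph} (hG : G.NoSinks)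

namespace LPA

theorem zl_mem (n : ℕ) : ∀ l : G.LW n, (ck K hG).zl n l ∈ grading K G n := by
  induction n with
  | zero =>
    intro l
    exact one_mem_gr K
  | succ n ih =>
    intro l
    have h1 := mul_mem_gr K (gen_mem_gr K (LGen.ed l.1)) (ih l.2)
    rw [show (LGen.ed l.1 : LGen G).deg + (n : ℤ) = ((n + 1 : ℕ) : ℤ) by
      simp [LGen.deg]; ring] at h1
    exact h1

theorem wl_mem (n : ℕ) : ∀ l : G.LW n, (ck K hG).wl n l ∈ grading K G (-n) := by
  induction n with
  | zero =>
    intro l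
    exact one_mem_gr K
  | succ n ih =>
    intro l
    have h1 := mul_mem_gr K (ih l.2) (gen_mem_gr K (LGen.gh l.1))
    rw [show -(n : ℤ) + (LGen.gh l.1 : LGen G).deg = -((n + 1 : ℕ) : ℤ) by
      simp [LGen.deg]; ring] at h1
    exact h1

section blow

variable {ι : Type} [Fintype ι] [DecidableEq ι] (a : ι → ℕ)

/-- the row matrix of edges words -/
def Zm : Matrix ι (Σ i, G.LW (a i)) (LPA K G) :=
  Matrix.of fun i p => if i = p.1 then (ck K hG).zl (a p.1) p.2 else 0

/-- the column matrix of ghost edge words -/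
def Wm : Matrix (Σ i, G.LW (a i)) ι (LPA K G) :=
  Matrix.of fun p i => if i = p.1 then (ck K hG).wl (a p.1) p.2 else 0

theorem Zm_mul_Wm : Zm K hG a * Wm K hG a = 1 := by
  ext i j
  rw [Matrix.mul_apply, Fintype.sum_sigma]
  simp only [Zm, Wm, Matrix.of_apply]
  rw [Finset.sum_eq_single i]
  · by_cases h : i = j
    · subst h
      simp only [if_true, Matrix.one_apply_eq]
      exact (ck K hG).sum_zl_wl (a i)
    · rw [Matrix.one_apply_ne h]
      refine Finset.sum_eq_zero fun l _ => ?_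
      rw [if_neg (Ne.symm h), mul_zero]
  · intro b _ hb
    refine Finset.sum_eq_zero fun l _ => ?_
    rw [if_neg (Ne.symm hb), zero_mul]
  · intro h; exact absurd (Finset.mem_univ _) h

theorem homog_Zm (δ : ι → ℤ) : Homog (grading K G) δ (fun p : Σ i, G.LW (a i) => δ p.1 - a p.1)
    (Zm K hG a) := by
  intro i p
  simp only [Zm, Matrix.of_apply]
  split_ifs with h
  · subst h
    rw [show δ p.1 - (δ p.1 - (a p.1 : ℤ)) = a p.1 by ring]
    exact zl_mem K hG _ _
  · exact AddSubgroup.zero_mem _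

theorem homog_Wm (δ : ι → ℤ) : Homog (grading K G) (fun p : Σ i, G.LW (a i) => δ p.1 - a p.1) δ
    (Wm K hG a) := by
  intro p i
  simp only [Wm, Matrix.of_apply]
  split_ifs with h
  · subst h
    rw [show δ p.1 - (a p.1 : ℤ) - δ p.1 = -(a p.1 : ℤ) by ring]
    exact wl_mem K hG _ _
  · exact AddSubgroup.zero_mem _

/-- The blow up of an idempotent. -/
def blow (e : Matrix ι ι (LPA K G)) : Matrix (Σ i, G.LW (a i)) (Σ i, G.LW (a i)) (LPA K G) :=
  Wm K hG a * e * Zm K hG a

theorem blow_idem {e : Matrix ι ι (LPA K G)} (he : e * e = e) :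
    blow K hG a e * blow K hG a e = blow K hG a e := by
  unfold blow
  calc _ = Wm K hG a * e * (Zm K hG a * Wm K hG a) * e * Zm K hG a := by
        simp only [Matrix.mul_assoc]
    _ = Wm K hG a * (e * e) * Zm K hG a := by
        rw [Zm_mul_Wm, Matrix.mul_one, Matrix.mul_assoc (Wm K hG a)]
    _ = _ := by rw [he]

theorem blow_MvN {δ : ι → ℤ} {e : Matrix ι ι (LPA K G)} (he : e * e = e)
    (hom : Homog (grading K G) δ δ e) :
    MvN (grading K G) δ e (fun p : Σ i, G.LW (a i) => δ p.1 - a p.1) (blow K hG a e) := by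
  refine ⟨e * Zm K hG a, Wm K hG a * e, hom.mul (homog_Zm K hG a δ), (homog_Wm K hG a δ).mul hom,
    ?_, ?_⟩
  · calc _ = e * (Zm K hG a * Wm K hG a) * e := by simp only [Matrix.mul_assoc]
      _ = e := by rw [Zm_mul_Wm, Matrix.mul_one, he]
  · calc _ = Wm K hG a * (e * e) * Zm K hG a := by simp only [Matrix.mul_assoc]
      _ = _ := by rw [he]; rfl

theorem blow_apply (e : Matrix ι ι (LPA K G)) (p p' : Σ i, G.LW (a i)) :
    blow K hG a e p p' =
      (ck K hG).wl (a p.1) p.2 * e p.1 p'.1 * (ck K hG).zl (a p'.1) p'.2 := by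
  unfold blow
  rw [Matrix.mul_apply]
  simp only [Matrix.mul_apply, Zm, Wm, Matrix.of_apply]
  rw [Finset.sum_eq_single p'.1]
  · rw [if_pos rfl, Finset.sum_eq_single p.1]
    · rw [if_pos rfl]
    · intro b _ hb
      rw [if_neg hb, zero_mul]
    · intro h; exact absurd (Finset.mem_univ _) h
  · intro b _ hb
    rw [if_neg hb, mul_zero]
  · intro h; exact absurd (Finset.mem_univ _) h

end blow

/-- The standard idempotent. -/
def Est {ι : Type} [DecidableEq ι] (α : ι → G.V) : Matrix ι ι (LPA K G) :=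
  Matrix.diagonal fun i => (ck K hG).q (α i)

theorem Est_idem {ι : Type} [Fintype ι] [DecidableEq ι] (α : ι → G.V) :
    Est K hG α * Est K hG α = Est K hG α := by
  unfold Est
  rw [Matrix.diagonal_mul_diagonal]
  congr 1
  funext i
  rw [(ck K hG).qq, if_pos rfl]

theorem q_mem (v : G.V) : (ck K hG).q v ∈ grading K G 0 := gen_mem_gr K (LGen.vt v)

theorem Est_homog {ι : Type} [DecidableEq ι] (α : ι → G.V) (k : ℤ) :
    Homog (grading K G) (fun _ : ι => k) (fun _ : ι => k) (Est K hG α) := by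
  intro i j
  simp only [sub_self]
  by_cases h : i = j
  · subst h
    rw [Est, Matrix.diagonal_apply_eq]
    exact q_mem K hG _
  · rw [Est, Matrix.diagonal_apply_ne _ h]
    exact AddSubgroup.zero_mem _

/-- The relation coming from the Cuntz-Krieger relations. -/
theorem Est_MvN_succ {ι : Type} [Fintype ι] [DecidableEq ι] (α : ι → G.V) (k : ℤ) :
    MvN (grading K G) (fun _ : ι => k) (Est K hG α)
      (fun _ : {p : ι × G.E // G.s p.2 = α p.1} => k - 1)
      (Est K hG (fun p : {p : ι × G.E // G.s p.2 = α p.1} => G.r p.1.2)) := by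
  refine ⟨Matrix.of fun i p => if i = p.1.1 then (ck K hG).z p.1.2 else 0,
    Matrix.of fun p i => if i = p.1.1 then (ck K hG).w p.1.2 else 0, ?_, ?_, ?_, ?_⟩
  · intro i p
    simp only [Matrix.of_apply]
    rw [show k - (k - 1) = 1 by ring]
    split_ifs
    · exact gen_mem_gr K (LGen.ed p.1.2)
    · exact AddSubgroup.zero_mem _
  · intro p i
    simp only [Matrix.of_apply]
    rw [show k - 1 - k = -1 by ring]
    split_ifs
    · exact gen_mem_gr K (LGen.gh p.1.2)
    · exact AddSubgroup.zero_mem _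
  · ext i j
    rw [Matrix.mul_apply]
    simp only [Matrix.of_apply]
    have h1 : ∀ p : {p : ι × G.E // G.s p.2 = α p.1},
        (if i = p.1.1 then (ck K hG).z p.1.2 else 0) *
          (if j = p.1.1 then (ck K hG).w p.1.2 else 0) =
        (fun p : ι × G.E => if i = p.1 ∧ j = p.1 then (ck K hG).z p.2 * (ck K hG).w p.2 else 0)
          p.1 := by
      intro p
      change _ = if i = p.1.1 ∧ j = p.1.1 then (ck K hG).z p.1.2 * (ck K hG).w p.1.2 else 0
      by_cases h1 : i = p.1.1
      · by_cases h2 : j = p.1.1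
        · rw [if_pos h1, if_pos h2, if_pos ⟨h1, h2⟩]
        · rw [if_pos h1, if_neg h2, if_neg (fun h => h2 h.2), mul_zero]
      · rw [if_neg h1, zero_mul, if_neg (fun h => h1 h.1)]
    rw [Finset.sum_congr rfl fun p _ => h1 p]
    refine (Finset.sum_subtype (p := fun p : ι × G.E => G.s p.2 = α p.1)
      (Finset.univ.filter fun p : ι × G.E => G.s p.2 = α p.1) (by simp)
      (fun p : ι × G.E => if i = p.1 ∧ j = p.1 then (ck K hG).z p.2 * (ck K hG).w p.2
        else 0)).symm.trans ?_
    rw [Finset.sum_filter, Fintype.sum_prod_type]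
    by_cases hij : i = j
    · subst hij
      rw [Est, Matrix.diagonal_apply_eq, Finset.sum_eq_single i]
      · rw [← (ck K hG).ck2 (α i), Finset.sum_filter]
        refine Finset.sum_congr rfl fun e _ => ?_
        simp
      · intro b _ hb
        refine Finset.sum_eq_zero fun e _ => ?_
        simp [Ne.symm hb]
      · intro h; exact absurd (Finset.mem_univ _) h
    · rw [Est, Matrix.diagonal_apply_ne _ hij]
      refine Finset.sum_eq_zero fun b _ => Finset.sum_eq_zero fun e _ => ?_
      have : ¬ (i = b ∧ j = b) := fun h => hij (h.1.trans h.2.symm)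
      simp [this]
  · ext p p'
    rw [Matrix.mul_apply]
    simp only [Matrix.of_apply]
    rw [Finset.sum_eq_single p.1.1]
    · rw [if_pos rfl]
      by_cases h : p = p'
      · subst h
        rw [Est, Matrix.diagonal_apply_eq, if_pos rfl, (ck K hG).ck1, if_pos rfl]
      · rw [Est, Matrix.diagonal_apply_ne _ h]
        split_ifs with h1
        · rw [(ck K hG).ck1, if_neg]
          intro h2
          exact h (Subtype.ext (Prod.ext h1 h2))
        · rw [mul_zero]
    · intro b _ hb
      rw [if_neg hb, zero_mul]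
    · intro h; exact absurd (Finset.mem_univ _) h

end LPA

end

end Pool.Agent.Y83
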