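import Pool.Agent.Y83.Lk2

set_option linter.unusedSectionVars false
set_option linter.unusedVariables false

/-!
# Homogeneous idempotents over Leavitt path algebras are standard
-/

namespace Pool.Agent.Y83

open Matrix

noncomputable section

/-- rank factorisation of an idempotent matrix over a field -/
theorem rank_factor {K : Type*} [Field K] {ι : Type*} [Fintype ι] [DecidableEq ι]
    (M : Matrix ι ι K) (hM : M * M = M) : ∃ (r : ℕ) (x : Matrix ι (Fin r) K)
      (y : Matrix (Fin r) ι K), x * y = M ∧ y * x = 1 := by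
  let f := M.toLin'
  have hf : ∀ u, f (f u) = f u := by
    intro u
    have : (M * M).toLin' u = M.toLin' u := by rw [hM]
    rw [Matrix.toLin'_mul] at this
    exact this
  let b := Module.finBasis K (LinearMap.range f)
  let P := Pi.basisFun K ι
  refine ⟨_, LinearMap.toMatrix b P (LinearMap.range f).subtype,
    LinearMap.toMatrix P b f.rangeRestrict, ?_, ?_⟩
  · rw [← LinearMap.toMatrix_comp P b P]
    have : (LinearMap.range f).subtype ∘ₗ f.rangeRestrict = f := by ext; rfl
    rw [this, LinearMap.toMatrix_eq_toMatrix']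
    exact LinearMap.toMatrix'_toLin' M
  · rw [← LinearMap.toMatrix_comp b P b]
    have : f.rangeRestrict ∘ₗ (LinearMap.range f).subtype = LinearMap.id := by
      apply LinearMap.ext
      rintro ⟨_, u, rfl⟩
      apply Subtype.ext
      exact hf u
    rw [this, LinearMap.toMatrix_id]

namespace LPA

variable (K : Type) [Field K] {G : FGraph} (hG : G.NoSinks)

/-- idempotents over the zeroth level are standard -/
theorem MvN_Est_of_lev0 {ι : Type} [Fintype ι] [DecidableEq ι] (k : ℤ)
    (e : Matrix ι ι (LPA K G)) (he : e * e = e) (h0 : ∀ i j, e i j ∈ (ck K hG).levS K 0) :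
    ∃ r : G.V → ℕ, MvN (grading K G) (fun _ : ι => k) e
      (fun _ : (Σ v, Fin (r v)) => k) (Est K hG (fun p : Σ v, Fin (r v) => p.1)) := by
  have hq : ∀ v, (ck K hG).q v ≠ 0 := q_ne_zero K hG
  have h1 : ∀ i j, ∃ c, (ck K hG).qlin K c = e i j := fun i j =>
    (ck K hG).qlin_surj K _ (h0 i j)
  choose c hc using h1
  have hcc : ∀ i j, ∑ l, c i l * c l j = c i j := by
    intro i j
    apply (ck K hG).qlin_injective K hq
    rw [map_sum, hc]
    simp only [map_mul, hc]
    rw [← Matrix.mul_apply, he]
  have hM : ∀ v, (Matrix.of fun i j => c i j v) * (Matrix.of fun i j => c i j v) =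
      (Matrix.of fun i j => c i j v) := by
    intro v
    ext i j
    rw [Matrix.mul_apply, Matrix.of_apply, ← hcc i j, Finset.sum_apply]
    rfl
  have hr := fun v => rank_factor _ (hM v)
  choose r x y hxy hyx using hr
  refine ⟨r, Matrix.of fun i p => x p.1 i p.2 • (ck K hG).q p.1,
    Matrix.of fun p j => y p.1 p.2 j • (ck K hG).q p.1, ?_, ?_, ?_, ?_⟩
  · intro i p
    rw [sub_self]
    exact Submodule.smul_mem (gr K G 0) _ (q_mem K hG p.1)
  · intro p i
    rw [sub_self]
    exact Submodule.smul_mem (gr K G 0) _ (q_mem K hG p.1)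
  · ext i j
    rw [Matrix.mul_apply, Fintype.sum_sigma]
    simp only [Matrix.of_apply]
    have h2 : ∀ v, ∑ a : Fin (r v), (x v i a • (ck K hG).q v) * (y v a j • (ck K hG).q v) =
        c i j v • (ck K hG).q v := by
      intro v
      have h3 : ∀ a, (x v i a • (ck K hG).q v) * (y v a j • (ck K hG).q v) =
          (x v i a * y v a j) • (ck K hG).q v := by
        intro a
        rw [smul_mul_smul_comm, (ck K hG).qq, if_pos rfl]
      rw [Finset.sum_congr rfl fun a _ => h3 a, ← Finset.sum_smul]
      congr 1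
      have h4 := congrFun (congrFun (hxy v) i) j
      rw [Matrix.mul_apply] at h4
      exact h4
    rw [Finset.sum_congr rfl fun v _ => h2 v, ← hc i j]
    rfl
  · ext p p'
    rw [Matrix.mul_apply]
    simp only [Matrix.of_apply]
    have h3 : ∀ i, (y p.1 p.2 i • (ck K hG).q p.1) * (x p'.1 i p'.2 • (ck K hG).q p'.1) =
        (y p.1 p.2 i * x p'.1 i p'.2) • (if p.1 = p'.1 then (ck K hG).q p.1 else 0) := by
      intro i
      rw [smul_mul_smul_comm, (ck K hG).qq]
    rw [Finset.sum_congr rfl fun i _ => h3 i, ← Finset.sum_smul]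
    obtain ⟨v, a⟩ := p
    obtain ⟨v', a'⟩ := p'
    by_cases hv : v = v'
    · subst hv
      have h4 := congrFun (congrFun (hyx v) a) a'
      rw [Matrix.mul_apply] at h4
      simp only [if_true]
      rw [h4]
      by_cases ha : a = a'
      · subst ha
        rw [Matrix.one_apply_eq, one_smul, Est, Matrix.diagonal_apply_eq]
      · rw [Matrix.one_apply_ne ha, zero_smul, Est, Matrix.diagonal_apply_ne]
        intro h
        apply ha
        exact eq_of_heq (Sigma.mk.inj h).2
    · rw [if_neg hv, smul_zero, Est, Matrix.diagonal_apply_ne]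
      intro h
      exact hv (Sigma.mk.inj h).1

/-- Every homogeneous idempotent is standard. -/
theorem exists_MvN_Est {ι : Type} [Fintype ι] [DecidableEq ι] (δ : ι → ℤ)
    (e : Matrix ι ι (LPA K G)) (he : e * e = e) (hom : Homog (grading K G) δ δ e) :
    ∃ (κ : Type) (_ : Fintype κ) (_ : DecidableEq κ) (β : κ → G.V) (k : ℤ),
      MvN (grading K G) δ e (fun _ : κ => k) (Est K hG β) := by
  -- make the degrees equal
  let N : ℕ := ∑ i, (δ i).natAbs
  let a : ι → ℕ := fun i => (δ i + N).toNat
  have ha : ∀ i, δ i - a i = -N := by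
    intro i
    have h1 : (δ i).natAbs ≤ N := Finset.single_le_sum (f := fun i => (δ i).natAbs)
      (fun _ _ => Nat.zero_le _) (Finset.mem_univ i)
    have h2 : (0 : ℤ) ≤ δ i + N := by omega
    change δ i - ((δ i + N).toNat : ℤ) = -N
    rw [Int.toNat_of_nonneg h2]
    ring
  have m1 := blow_MvN K hG a he hom
  have hd : (fun p : Σ i, G.LW (a i) => δ p.1 - (a p.1 : ℤ)) = fun _ => -(N : ℤ) :=
    funext fun p => ha p.1
  rw [hd] at m1
  have hom1 := m1.homog_right
  have he1 := blow_idem K hG a he
  -- all entries lie in one level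
  have h1 : ∀ p p', ∃ j, blow K hG a e p p' ∈ (ck K hG).levS K j := by
    intro p p'
    apply exists_lev_of_mem
    have := hom1 p p'
    rw [sub_self] at this
    exact this
  choose j hj using h1
  let J : ℕ := Finset.univ.sup fun pp : (Σ i, G.LW (a i)) × (Σ i, G.LW (a i)) => j pp.1 pp.2
  have hJ : ∀ p p', blow K hG a e p p' ∈ (ck K hG).levS K J := fun p p' =>
    (ck K hG).levS_mono K (Finset.le_sup (f := fun pp : (Σ i, G.LW (a i)) × (Σ i, G.LW (a i)) =>
      j pp.1 pp.2) (Finset.mem_univ (p, p'))) (hj p p')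
  have m2 := blow_MvN K hG (fun _ => J) he1 hom1
  have he2 := blow_idem K hG (fun _ => J) he1
  have h0 : ∀ p p', blow K hG (fun _ => J) (blow K hG a e) p p' ∈ (ck K hG).levS K 0 := by
    intro p p'
    rw [blow_apply]
    have := (ck K hG).wl_zl_mem K J J _ (hJ p.1 p'.1) p.2 p'.2
    rwa [Nat.sub_self] at this
  obtain ⟨r, m3⟩ := MvN_Est_of_lev0 K hG (-(N : ℤ) - J) _ he2 h0
  exact ⟨_, inferInstance, inferInstance, _, _,
    (m1.trans he he1 he2 m2).trans he he2 (Est_idem K hG _) m3⟩

end LPA

end

end Pool.Agent.Y83
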