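import Pool.Agent.Y83.Lk3

set_option linter.unusedSectionVars false
set_option linter.unusedVariables false

/-!
# Injectivity: the multiplicities of standard idempotents
-/

namespace Pool.Agent.Y83

open Matrix

noncomputable section

/-- The adjacency matrix. -/
def FGraph.adj (G : FGraph) : Matrix G.V G.V ℕ :=
  Matrix.of fun u v => (Finset.univ.filter fun e => G.s e = u ∧ G.r e = v).card

/-- The multiplicities of a family of vertices. -/
def cnt {V ι : Type} [Fintype ι] [DecidableEq V] (α : ι → V) (v : V) : ℕ :=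
  (Finset.univ.filter fun i => α i = v).card

theorem sum_cnt {V ι M : Type} [Fintype ι] [DecidableEq V] [Fintype V] [AddCommMonoid M]
    (α : ι → V) (f : V → M) : ∑ i, f (α i) = ∑ v, cnt α v • f v := by
  rw [← Finset.sum_fiberwise (s := Finset.univ) (g := α)]
  refine Finset.sum_congr rfl fun v _ => ?_
  rw [Finset.sum_congr rfl (g := fun _ => f v)]
  · rw [Finset.sum_const]; rfl
  · intro i hi
    rw [(Finset.mem_filter.mp hi).2]

theorem cnt_succ {G : FGraph} {ι : Type} [Fintype ι] [DecidableEq ι] (α : ι → G.V) :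
    cnt (fun p : {p : ι × G.E // G.s p.2 = α p.1} => G.r p.1.2) = cnt α ᵥ* G.adj := by
  funext v
  simp only [Matrix.vecMul, dotProduct, FGraph.adj, Matrix.of_apply]
  have h1 := sum_cnt α (fun u => (Finset.univ.filter fun e => G.s e = u ∧ G.r e = v).card)
  simp only [smul_eq_mul] at h1
  rw [← h1]
  unfold cnt
  rw [Finset.card_filter]
  rw [← Finset.sum_subtype (p := fun p : ι × G.E => G.s p.2 = α p.1)
      (Finset.univ.filter fun p : ι × G.E => G.s p.2 = α p.1) (by simp)
      (fun p : ι × G.E => if G.r p.2 = v then 1 else 0)]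
  rw [Finset.sum_filter, Fintype.sum_prod_type]
  refine Finset.sum_congr rfl fun i _ => ?_
  rw [Finset.card_filter]
  refine Finset.sum_congr rfl fun e _ => ?_
  rw [ite_and]

namespace CKF

variable {G : FGraph} {B : Type} [Ring B] (η : CKF G B)

/-- The iterated compression trace. -/
def Tr (j : ℕ) (t : B) : B := ∑ l, η.wl j l * t * η.zl j l

theorem Tr_add (j : ℕ) (t t' : B) : η.Tr j (t + t') = η.Tr j t + η.Tr j t' := by
  unfold Tr
  rw [← Finset.sum_add_distrib]
  refine Finset.sum_congr rfl fun l _ => ?_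
  rw [mul_add, add_mul]

theorem Tr_zero (j : ℕ) : η.Tr j 0 = 0 := by
  unfold Tr
  simp

theorem Tr_sum {ι : Type} (s : Finset ι) (j : ℕ) (t : ι → B) :
    η.Tr j (∑ i ∈ s, t i) = ∑ i ∈ s, η.Tr j (t i) := by
  classical
  induction s using Finset.induction_on with
  | empty => simp [Tr_zero]
  | insert a s ha ih => rw [Finset.sum_insert ha, Finset.sum_insert ha, Tr_add, ih]

theorem Tr_succ (j : ℕ) (t : B) : η.Tr (j + 1) t = ∑ e, η.Tr j (η.w e * t * η.z e) := by
  unfold Tr
  rw [sum_LW_succ]
  refine Finset.sum_congr rfl fun e _ => Finset.sum_congr rfl fun l _ => ?_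
  simp only [wl, zl, mul_assoc]

theorem Tr_q (j : ℕ) : ∀ u, η.Tr j (η.q u) = ∑ v, (G.adj ^ j) u v • η.q v := by
  induction j with
  | zero =>
    intro u
    have : η.Tr 0 (η.q u) = η.q u := by
      change ∑ l : Unit, 1 * η.q u * 1 = η.q u
      simp
    rw [this, pow_zero, Finset.sum_eq_single u]
    · simp
    · intro v _ hv
      rw [Matrix.one_apply_ne (Ne.symm hv), zero_smul]
    · intro h; exact absurd (Finset.mem_univ _) h
  | succ j ih =>
    intro u
    rw [Tr_succ]
    have h1 : ∀ e, η.Tr j (η.w e * η.q u * η.z e) =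
        if G.s e = u then ∑ v, (G.adj ^ j) (G.r e) v • η.q v else 0 := by
      intro e
      rw [η.w_q]
      split_ifs
      · rw [η.ck1, if_pos rfl, ih]
      · rw [zero_mul, Tr_zero]
    rw [Finset.sum_congr rfl fun e _ => h1 e, ← Finset.sum_filter,
      ← Finset.sum_fiberwise (s := Finset.univ.filter fun e => G.s e = u) (g := G.r)]
    have h2 : ∀ x, (∑ e ∈ (Finset.univ.filter fun e => G.s e = u).filter (fun e => G.r e = x),
        ∑ v, (G.adj ^ j) (G.r e) v • η.q v) =
        ∑ v, (G.adj u x * (G.adj ^ j) x v) • η.q v := by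
      intro x
      rw [Finset.filter_filter, Finset.sum_congr rfl (g := fun _ => ∑ v, (G.adj ^ j) x v • η.q v)]
      · rw [Finset.sum_const, Finset.smul_sum]
        refine Finset.sum_congr rfl fun v _ => ?_
        rw [smul_smul]
        rfl
      · intro e he
        rw [(Finset.mem_filter.mp he).2.2]
    rw [Finset.sum_congr rfl fun x _ => h2 x, Finset.sum_comm]
    refine Finset.sum_congr rfl fun v _ => ?_
    rw [← Finset.sum_smul, pow_succ', Matrix.mul_apply]

variable (K : Type) [Field K] [Algebra K B]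

theorem lev0_comm {x y : B} (hx : x ∈ η.levS K 0) (hy : y ∈ η.levS K 0) : x * y = y * x := by
  obtain ⟨c, rfl⟩ := η.qlin_surj K x hx
  obtain ⟨d, rfl⟩ := η.qlin_surj K y hy
  rw [← map_mul, ← map_mul, mul_comm]

theorem Tr_comm (j : ℕ) {x y : B} (hx : x ∈ η.levS K j) (hy : y ∈ η.levS K j) :
    η.Tr j (x * y) = η.Tr j (y * x) := by
  have key : ∀ x y : B, η.Tr j (x * y) =
      ∑ l, ∑ l', (η.wl j l * x * η.zl j l') * (η.wl j l' * y * η.zl j l) := by
    intro x y
    unfold Tr
    refine Finset.sum_congr rfl fun l _ => ?_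
    calc η.wl j l * (x * y) * η.zl j l = η.wl j l * x * 1 * (y * η.zl j l) := by
          simp only [mul_one, mul_assoc]
      _ = _ := by
          rw [← η.sum_zl_wl j, Finset.mul_sum, Finset.sum_mul]
          refine Finset.sum_congr rfl fun l' _ => ?_
          simp only [mul_assoc]
  rw [key, key, Finset.sum_comm]
  refine Finset.sum_congr rfl fun l _ => Finset.sum_congr rfl fun l' _ => ?_
  apply η.lev0_comm K
  · have := η.wl_zl_mem K j j x hx l' l
    rwa [Nat.sub_self] at this
  · have := η.wl_zl_mem K j j y hy l l'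
    rwa [Nat.sub_self] at this

end CKF

namespace LPA

variable (K : Type) [Field K] [CharZero K] {G : FGraph} (hG : G.NoSinks)

/-- Equivalent standard idempotents of the same degree have eventually the same multiplicities. -/
theorem cnt_of_MvN {ι κ : Type} [Fintype ι] [DecidableEq ι] [Fintype κ] [DecidableEq κ]
    (α : ι → G.V) (β : κ → G.V) (k : ℤ)
    (h : MvN (grading K G) (fun _ : ι => k) (Est K hG α) (fun _ : κ => k) (Est K hG β)) :
    ∃ j, cnt α ᵥ* (G.adj ^ j) = cnt β ᵥ* (G.adj ^ j) := by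
  obtain ⟨x, y, hx, hy, hxy, hyx⟩ := h
  have h1 : ∀ i p, ∃ j, x i p ∈ (ck K hG).levS K j := by
    intro i p
    apply exists_lev_of_mem
    have := hx i p
    rw [sub_self] at this
    exact this
  have h2 : ∀ p i, ∃ j, y p i ∈ (ck K hG).levS K j := by
    intro i p
    apply exists_lev_of_mem
    have := hy i p
    rw [sub_self] at this
    exact this
  choose j1 hj1 using h1
  choose j2 hj2 using h2
  let J : ℕ := (Finset.univ.sup fun p : ι × κ => j1 p.1 p.2) ⊔
    (Finset.univ.sup fun p : κ × ι => j2 p.1 p.2)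
  have g1 : ∀ i p, x i p ∈ (ck K hG).levS K J := fun i p =>
    (ck K hG).levS_mono K (le_trans (Finset.le_sup (f := fun p : ι × κ => j1 p.1 p.2)
      (Finset.mem_univ (i, p))) le_sup_left) (hj1 i p)
  have g2 : ∀ p i, y p i ∈ (ck K hG).levS K J := fun p i =>
    (ck K hG).levS_mono K (le_trans (Finset.le_sup (f := fun p : κ × ι => j2 p.1 p.2)
      (Finset.mem_univ (p, i))) le_sup_right) (hj2 p i)
  refine ⟨J, ?_⟩
  -- equality of traces
  have t1 : ∀ {μ : Type} [Fintype μ] [DecidableEq μ] (γ : μ → G.V),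
      ∑ i, (ck K hG).Tr J (Est K hG γ i i) =
      (ck K hG).qlin K (fun v => (((cnt γ ᵥ* (G.adj ^ J)) v : ℕ) : K)) := by
    intro μ _ _ γ
    have h3 : ∀ i, (ck K hG).Tr J (Est K hG γ i i) =
        ∑ v, (G.adj ^ J) (γ i) v • (ck K hG).q v := by
      intro i
      rw [Est, Matrix.diagonal_apply_eq, CKF.Tr_q]
    rw [Finset.sum_congr rfl fun i _ => h3 i, Finset.sum_comm]
    rw [CKF.qlin_apply]
    refine Finset.sum_congr rfl fun v _ => ?_
    rw [← Finset.sum_smul]
    have h4 := sum_cnt γ (fun u => (G.adj ^ J) u v)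
    simp only [smul_eq_mul] at h4
    rw [h4, Nat.cast_smul_eq_nsmul]
    rfl
  have t2 : ∑ i, (ck K hG).Tr J (Est K hG α i i) = ∑ p, (ck K hG).Tr J (Est K hG β p p) := by
    rw [← hxy, ← hyx]
    simp only [Matrix.mul_apply, CKF.Tr_sum]
    rw [Finset.sum_comm]
    refine Finset.sum_congr rfl fun p _ => Finset.sum_congr rfl fun i _ => ?_
    exact (ck K hG).Tr_comm K J (g1 i p) (g2 p i)
  rw [t1, t1] at t2
  have t3 := (ck K hG).qlin_injective K (q_ne_zero K hG) t2
  funext v
  have := congrFun t3 v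
  exact_mod_cast this

end LPA

end

end Pool.Agent.Y83
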