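import Pool.Agent.Y83.Lk4

set_option linter.unusedSectionVars false
set_option linter.unusedVariables false

/-!
# The class of a graded projective module over a Leavitt path algebra
-/

namespace Pool.Agent.Y83

open Matrix

noncomputable section

theorem exists_equiv_of_cnt {V ι κ : Type} [Fintype ι] [Fintype κ] [DecidableEq V]
    (α : ι → V) (β : κ → V) (h : cnt α = cnt β) : ∃ σ : ι ≃ κ, ∀ i, β (σ i) = α i := by
  have h1 : ∀ v, Nonempty ({i // α i = v} ≃ {j // β j = v}) := by
    intro v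
    refine Fintype.card_eq.mp ?_
    have := congrFun h v
    unfold cnt at this
    rw [Fintype.card_subtype, Fintype.card_subtype]
    exact this
  refine ⟨(Equiv.sigmaFiberEquiv α).symm.trans
    ((Equiv.sigmaCongrRight fun v => (h1 v).some).trans (Equiv.sigmaFiberEquiv β)), fun i => ?_⟩
  exact ((h1 (α i)).some ⟨i, rfl⟩).2

/-- Equivalences of monoids from equal images. -/
theorem exists_addEquiv {V W : Type 1} {M : Type} [AddCommMonoid V] [AddCommMonoid W]
    [AddCommMonoid M] (φ : V →+ M) (ψ : W →+ M) (hφ : Function.Injective φ)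
    (hψ : Function.Injective ψ) (N : M ≃+ M) (h1 : ∀ x, ∃ y, ψ y = N (φ x))
    (h2 : ∀ y, ∃ x, φ x = N.symm (ψ y)) : ∃ F : V ≃+ W, ∀ x, ψ (F x) = N (φ x) := by
  choose f hf using h1
  choose g hg using h2
  refine ⟨{ toFun := f, invFun := g, left_inv := ?_, right_inv := ?_, map_add' := ?_ }, hf⟩
  · intro x
    apply hφ
    rw [hg, hf, AddEquiv.symm_apply_apply]
  · intro y
    apply hψ
    rw [hf, hg, AddEquiv.apply_symm_apply]
  · intro x y
    apply hψ
    rw [hf, map_add, map_add, map_add, hf, hf]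

/-- Data computing the monoid of graded projective modules. -/
structure Pres (G : FGraph) (d : ℕ) where
  Θ : G.V → (Fin d → ℤ)
  C : (Matrix (Fin d) (Fin d) ℤ)ˣ
  comm : ∀ u, ∑ v, G.adj u v • Θ v = Θ u ᵥ* C.1
  inj : ∀ n n' : G.V → ℕ, ∑ v, n v • Θ v = ∑ v, n' v • Θ v →
    ∃ l, n ᵥ* (G.adj ^ l) = n' ᵥ* (G.adj ^ l)

namespace Pres

variable {G : FGraph} {d : ℕ} (S : Pres G d)

/-- weights to vectors -/
def sm (n : G.V → ℕ) : Fin d → ℤ := ∑ v, n v • S.Θ v

theorem sm_adj (n : G.V → ℕ) : S.sm (n ᵥ* G.adj) = S.sm n ᵥ* S.C.1 := by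
  unfold sm
  have h1 : ∀ v, (n ᵥ* G.adj) v • S.Θ v = ∑ u, (n u * G.adj u v) • S.Θ v := by
    intro v
    rw [← Finset.sum_smul]
    rfl
  rw [Finset.sum_congr rfl fun v _ => h1 v, Finset.sum_comm, Matrix.sum_vecMul]
  refine Finset.sum_congr rfl fun u _ => ?_
  have h2 : (n u • S.Θ u) ᵥ* S.C.1 = n u • (S.Θ u ᵥ* S.C.1) := by
    rw [Matrix.smul_vecMul]
  rw [h2, ← S.comm, Finset.smul_sum]
  refine Finset.sum_congr rfl fun v _ => ?_
  rw [smul_smul]

theorem sm_adj_pow (n : G.V → ℕ) (m : ℕ) :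
    S.sm (n ᵥ* (G.adj ^ m)) = S.sm n ᵥ* (S.C ^ m).1 := by
  induction m with
  | zero => simp
  | succ m ih =>
    rw [pow_succ, ← Matrix.vecMul_vecMul, sm_adj, ih, Matrix.vecMul_vecMul, pow_succ]
    rfl

/-- The value of a standard idempotent. -/
def val {ι : Type} [Fintype ι] (α : ι → G.V) (k : ℤ) : Fin d → ℤ := S.sm (cnt α) ᵥ* (S.C ^ k).1

end Pres

namespace LPA

variable (K : Type) [Field K] {G : FGraph} (hG : G.NoSinks)

/-- Raising the level. -/
theorem raise (m : ℕ) : ∀ {ι : Type} [Fintype ι] [DecidableEq ι] (α : ι → G.V) (k : ℤ),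
    ∃ (κ : Type) (_ : Fintype κ) (_ : DecidableEq κ) (β : κ → G.V),
      MvN (grading K G) (fun _ : ι => k) (Est K hG α) (fun _ : κ => k - m) (Est K hG β) ∧
      cnt β = cnt α ᵥ* (G.adj ^ m) := by
  induction m with
  | zero =>
    intro ι _ _ α k
    refine ⟨ι, inferInstance, inferInstance, α, ?_, by simp⟩
    rw [Nat.cast_zero, sub_zero]
    exact MvN.refl (Est_idem K hG α) (Est_homog K hG α k)
  | succ m ih =>
    intro ι _ _ α k
    obtain ⟨κ, _, _, β, h1, h2⟩ := ih α k
    refine ⟨{p : κ × G.E // G.s p.2 = β p.1}, inferInstance, inferInstance,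
      fun p => G.r p.1.2, ?_, ?_⟩
    · have h3 := Est_MvN_succ K hG β (k - m)
      rw [show k - ((m + 1 : ℕ) : ℤ) = k - m - 1 by push_cast; ring]
      exact h1.trans (Est_idem K hG α) (Est_idem K hG β) (Est_idem K hG _) h3
    · rw [cnt_succ, h2, Matrix.vecMul_vecMul, pow_succ]

theorem MvN_of_cnt {ι κ : Type} [Fintype ι] [DecidableEq ι] [Fintype κ] [DecidableEq κ]
    (α : ι → G.V) (β : κ → G.V) (k : ℤ) (h : cnt α = cnt β) :
    MvN (grading K G) (fun _ : ι => k) (Est K hG α) (fun _ : κ => k) (Est K hG β) := by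
  obtain ⟨σ, hσ⟩ := exists_equiv_of_cnt α β h
  refine ⟨Matrix.of fun i p => if σ i = p then (ck K hG).q (α i) else 0,
    Matrix.of fun p i => if σ i = p then (ck K hG).q (α i) else 0, ?_, ?_, ?_, ?_⟩
  · intro i p
    simp only [Matrix.of_apply, sub_self]
    split_ifs
    · exact q_mem K hG _
    · exact AddSubgroup.zero_mem _
  · intro p i
    simp only [Matrix.of_apply, sub_self]
    split_ifs
    · exact q_mem K hG _
    · exact AddSubgroup.zero_mem _
  · ext i j
    rw [Matrix.mul_apply]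
    simp only [Matrix.of_apply]
    rw [Finset.sum_eq_single (σ i)]
    · rw [if_pos rfl]
      by_cases hij : i = j
      · subst hij
        rw [if_pos rfl, Est, Matrix.diagonal_apply_eq, (ck K hG).qq, if_pos rfl]
      · rw [if_neg (fun h => hij (σ.injective h).symm), Est, Matrix.diagonal_apply_ne _ hij,
          mul_zero]
    · intro p _ hp
      rw [if_neg (Ne.symm hp), zero_mul]
    · intro h; exact absurd (Finset.mem_univ _) h
  · ext p p'
    rw [Matrix.mul_apply]
    simp only [Matrix.of_apply]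
    rw [Finset.sum_eq_single (σ.symm p)]
    · have h1 : σ (σ.symm p) = p := σ.apply_symm_apply p
      rw [h1, if_pos rfl]
      have h2 : α (σ.symm p) = β p := by rw [← hσ, h1]
      rw [h2]
      by_cases hp : p = p'
      · subst hp
        rw [if_pos rfl, Est, Matrix.diagonal_apply_eq, (ck K hG).qq, if_pos rfl]
      · rw [if_neg hp, Est, Matrix.diagonal_apply_ne _ hp, mul_zero]
    · intro i _ hi
      rw [if_neg, zero_mul]
      intro h
      apply hi
      rw [← h, Equiv.symm_apply_apply]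
    · intro h; exact absurd (Finset.mem_univ _) h

variable {d : ℕ} (S : Pres G d)

theorem vecMul_unit_cancel {d : ℕ} (C : (Matrix (Fin d) (Fin d) ℤ)ˣ) {x y : Fin d → ℤ}
    (h : x ᵥ* C.1 = y ᵥ* C.1) : x = y := by
  have h1 := congrArg (fun z => z ᵥ* (C⁻¹).1) h
  simp only [Matrix.vecMul_vecMul] at h1
  rw [← Units.val_mul, mul_inv_cancel, Units.val_one, Matrix.vecMul_one, Matrix.vecMul_one] at h1
  exact h1

theorem val_eq_of_MvN [CharZero K] {ι κ : Type} [Fintype ι] [DecidableEq ι] [Fintype κ]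
    [DecidableEq κ] (α : ι → G.V) (β : κ → G.V) (k k' : ℤ)
    (h : MvN (grading K G) (fun _ : ι => k) (Est K hG α) (fun _ : κ => k') (Est K hG β)) :
    S.val α k = S.val β k' := by
  obtain ⟨a, b, hab⟩ : ∃ a b : ℕ, k - a = k' - b := by
    rcases le_total k k' with h | h
    · exact ⟨0, (k' - k).toNat, by rw [Int.toNat_of_nonneg (by omega)]; simp⟩
    · exact ⟨(k - k').toNat, 0, by rw [Int.toNat_of_nonneg (by omega)]; simp⟩
  obtain ⟨ι', _, _, α', m1, c1⟩ := raise K hG a α k
  obtain ⟨κ', _, _, β', m2, c2⟩ := raise K hG b β k'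
  have m3 := (m1.symm.trans (Est_idem K hG _) (Est_idem K hG _) (Est_idem K hG _) h).trans
    (Est_idem K hG _) (Est_idem K hG _) (Est_idem K hG _) m2
  rw [hab] at m3
  obtain ⟨j, hj⟩ := cnt_of_MvN K hG α' β' (k' - b) m3
  have h1 := congrArg S.sm hj
  rw [c1, c2, Pres.sm_adj_pow, Pres.sm_adj_pow, Pres.sm_adj_pow, Pres.sm_adj_pow] at h1
  have h2 := vecMul_unit_cancel _ h1
  unfold Pres.val
  have e1 : S.C ^ k = S.C ^ a * S.C ^ (k - a) := by
    rw [← zpow_natCast, ← _root_.zpow_add]; congr 1; ring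
  have e2 : S.C ^ k' = S.C ^ b * S.C ^ (k - a) := by
    rw [← zpow_natCast, ← _root_.zpow_add]; congr 1; rw [hab]; ring
  rw [e1, e2, Units.val_mul, Units.val_mul, ← Matrix.vecMul_vecMul, ← Matrix.vecMul_vecMul, h2]

theorem MvN_of_val_eq {ι κ : Type} [Fintype ι] [DecidableEq ι] [Fintype κ]
    [DecidableEq κ] (α : ι → G.V) (β : κ → G.V) (k k' : ℤ)
    (h : S.val α k = S.val β k') :
    MvN (grading K G) (fun _ : ι => k) (Est K hG α) (fun _ : κ => k') (Est K hG β) := by
  obtain ⟨a, b, hab⟩ : ∃ a b : ℕ, k - a = k' - b := by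
    rcases le_total k k' with h | h
    · exact ⟨0, (k' - k).toNat, by rw [Int.toNat_of_nonneg (by omega)]; simp⟩
    · exact ⟨(k - k').toNat, 0, by rw [Int.toNat_of_nonneg (by omega)]; simp⟩
  obtain ⟨ι', _, _, α', m1, c1⟩ := raise K hG a α k
  obtain ⟨κ', _, _, β', m2, c2⟩ := raise K hG b β k'
  have e1 : S.C ^ k = S.C ^ a * S.C ^ (k - a) := by
    rw [← zpow_natCast, ← _root_.zpow_add]; congr 1; ring
  have e2 : S.C ^ k' = S.C ^ b * S.C ^ (k - a) := by
    rw [← zpow_natCast, ← _root_.zpow_add]; congr 1; rw [hab]; ring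
  unfold Pres.val at h
  rw [e1, e2, Units.val_mul, Units.val_mul, ← Matrix.vecMul_vecMul, ← Matrix.vecMul_vecMul,
    ← S.sm_adj_pow, ← S.sm_adj_pow, ← c1, ← c2] at h
  have h1 := vecMul_unit_cancel _ h
  obtain ⟨l, hl⟩ := S.inj _ _ h1
  obtain ⟨ι'', _, _, α'', m1', c1'⟩ := raise K hG l α' (k - a)
  obtain ⟨κ'', _, _, β'', m2', c2'⟩ := raise K hG l β' (k' - b)
  have hc : cnt α'' = cnt β'' := by rw [c1', c2', hl]
  have m3 := MvN_of_cnt K hG α'' β'' (k - a - l) hc
  rw [show k' - b - (l : ℤ) = k - a - l by rw [hab]] at m2'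
  have i := fun {μ : Type} [Fintype μ] [DecidableEq μ] (γ : μ → G.V) => Est_idem K hG γ
  exact ((((m1.trans (i _) (i _) (i _) m1').trans (i _) (i _) (i _) m3).trans (i _) (i _) (i _)
    m2'.symm).trans (i _) (i _) (i _) m2.symm)

/-- The standard modules. -/
def Std {ι : Type} [Fintype ι] [DecidableEq ι] (α : ι → G.V) (k : ℤ) : GrMod (grading K G) :=
  GrMod.ofIdem (grading K G) (fun _ : ι => k) (Est K hG α) (Est_idem K hG α) (Est_homog K hG α k)

theorem Std_proj {ι : Type} [Fintype ι] [DecidableEq ι] (α : ι → G.V) (k : ℤ) :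
    (Std K hG α k).IsFGProj := GrMod.isFGProj_ofIdem _ _

theorem Std_iso_iff {ι κ : Type} [Fintype ι] [DecidableEq ι] [Fintype κ]
    [DecidableEq κ] (α : ι → G.V) (β : κ → G.V) (k k' : ℤ) :
    (Std K hG α k).Iso (Std K hG β k') ↔
    MvN (grading K G) (fun _ : ι => k) (Est K hG α) (fun _ : κ => k') (Est K hG β) := by
  constructor
  · exact fun h => GrMod.exists_of_ofIdem_iso h
  · rintro ⟨x, y, hx, hy, h1, h2⟩
    exact GrMod.ofIdem_iso x y hx hy h1 h2

theorem exists_Std {P : GrMod (grading K G)} (hP : P.IsFGProj) :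
    ∃ (κ : Type) (_ : Fintype κ) (_ : DecidableEq κ) (β : κ → G.V) (k : ℤ),
      P.Iso (Std K hG β k) := by
  obtain ⟨n, δ, e, he, hom, h⟩ := hP.exists_idem
  obtain ⟨κ, _, _, β, k, x, y, hx, hy, h1, h2⟩ := exists_MvN_Est K hG δ e he hom
  exact ⟨κ, inferInstance, inferInstance, β, k, h.trans (GrMod.ofIdem_iso x y hx hy h1 h2)⟩

theorem Std_dsum {ι κ : Type} [Fintype ι] [DecidableEq ι] [Fintype κ]
    [DecidableEq κ] (α : ι → G.V) (β : κ → G.V) (k : ℤ) :
    ((Std K hG α k).dsum (Std K hG β k)).Iso (Std K hG (Sum.elim α β) k) := by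
  have e1 : Est K hG (Sum.elim α β) = Matrix.fromBlocks (Est K hG α) 0 0 (Est K hG β) := by
    unfold Est
    rw [Matrix.fromBlocks_diagonal]
    congr 1
    funext j
    cases j <;> rfl
  have e2 : (Sum.elim (fun _ : ι => k) (fun _ : κ => k)) = fun _ => k := by
    funext j; cases j <;> rfl
  have hg : (Matrix.fromBlocks (Est K hG α) 0 0 (Est K hG β)) *
      (Matrix.fromBlocks (Est K hG α) 0 0 (Est K hG β)) =
      Matrix.fromBlocks (Est K hG α) 0 0 (Est K hG β) := by
    rw [← e1, Est_idem]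
  have homg : Homog (grading K G) (Sum.elim (fun _ : ι => k) (fun _ : κ => k))
      (Sum.elim (fun _ : ι => k) (fun _ : κ => k))
      (Matrix.fromBlocks (Est K hG α) 0 0 (Est K hG β)) := by
    rw [← e1, e2]
    exact Est_homog K hG _ k
  have h := GrMod.dsum_ofIdem (he := Est_idem K hG α) (hom := Est_homog K hG α k)
    (hf := Est_idem K hG β) (hom' := Est_homog K hG β k) hg homg
  refine h.trans ?_
  unfold Std
  have h3 : MvN (grading K G) (Sum.elim (fun _ : ι => k) (fun _ : κ => k))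
      (Matrix.fromBlocks (Est K hG α) 0 0 (Est K hG β)) (fun _ : ι ⊕ κ => k)
      (Est K hG (Sum.elim α β)) := by
    rw [← e1, e2]
    exact MvN.refl (Est_idem K hG _) (Est_homog K hG _ k)
  obtain ⟨x, y, hx, hy, h1, h2⟩ := h3
  exact GrMod.ofIdem_iso x y hx hy h1 h2

theorem Std_shift {ι : Type} [Fintype ι] [DecidableEq ι] (α : ι → G.V) (k : ℤ) :
    ((Std K hG α k).shift 1).Iso (Std K hG α (k + 1)) := by
  refine ⟨LinearEquiv.refl _ _, fun i m => ?_⟩
  constructor
  · intro h j hj
    have := h j hj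
    change m.1 j ∈ grading K G (i + 1 + k) at this
    change m.1 j ∈ grading K G (i + (k + 1))
    rwa [show i + (k + 1) = i + 1 + k by ring]
  · intro h j hj
    have := h j hj
    change m.1 j ∈ grading K G (i + (k + 1)) at this
    change m.1 j ∈ grading K G (i + 1 + k)
    rwa [show i + 1 + k = i + (k + 1) by ring]

theorem regular_Std : (GrMod.regular (grading K G)).Iso (Std K hG (id : G.V → G.V) 0) := by
  let φ : LPA K G ≃ₗ[(LPA K G)ᵐᵒᵖ] (Std K hG (id : G.V → G.V) 0).carrier :=
    { toFun := fun a => ⟨fun v => (ck K hG).q v * a, by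
        change (Est K hG id).mulVec _ = _
        unfold Est
        funext v
        rw [Matrix.mulVec_diagonal, ← mul_assoc]
        simp only [id]
        rw [(ck K hG).qq, if_pos rfl]
        rfl⟩
      map_add' := fun a b => by
        apply Subtype.ext
        funext v
        exact mul_add _ _ _
      map_smul' := fun a b => by
        apply Subtype.ext
        funext v
        exact (mul_assoc _ _ _).symm
      invFun := fun x => ∑ v, x.1 v
      left_inv := fun a => by
        change ∑ v, (ck K hG).q v * a = a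
        rw [← Finset.sum_mul, (ck K hG).one, one_mul]
      right_inv := fun x => by
        apply Subtype.ext
        funext v
        change (ck K hG).q v * ∑ u, x.1 u = x.1 v
        have hx : ∀ u, (ck K hG).q u * x.1 u = x.1 u := by
          intro u
          have h1 : (Est K hG id).mulVec x.1 = x.1 := x.2
          have h2 := congrFun h1 u
          unfold Est at h2
          rw [Matrix.mulVec_diagonal] at h2
          exact h2
        rw [Finset.mul_sum, Finset.sum_eq_single v]
        · exact hx v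
        · intro u _ hu
          rw [← hx u, ← mul_assoc, (ck K hG).qq, if_neg (Ne.symm hu), zero_mul]
        · intro h; exact absurd (Finset.mem_univ _) h }
  refine ⟨φ, fun n (a : LPA K G) => ⟨fun ha v _ => ?_, fun ha => ?_⟩⟩
  · have h1 : (ck K hG).q v * a ∈ grading K G (0 + n) :=
      SetLike.mul_mem_graded (q_mem K hG v) ha
    rw [zero_add, ← add_zero n] at h1
    exact h1
  · have h1 : ∀ v, (ck K hG).q v * a ∈ grading K G (n + 0) := fun v => ha v (Set.mem_univ _)
    rw [add_zero] at h1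
    have h2 : a = ∑ v, (ck K hG).q v * a := by
      rw [← Finset.sum_mul, (ck K hG).one, one_mul]
    rw [h2]
    exact AddSubgroup.sum_mem _ fun v _ => h1 v

end LPA

end

end Pool.Agent.Y83
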