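import Pool.Agent.Y83.LpaDefs

/-!
# Leavitt path algebras of finite graphs: basic theory
-/

namespace Pool.Agent.Y83

open FreeAlgebra

/-- A family in an algebra satisfying the Leavitt relations. -/
structure LFam (G : FGraph) (B : Type) [Ring B] where
  q : G.V → B
  z : G.E → B
  w : G.E → B
  qq : ∀ u v, q u * q v = if u = v then q u else 0
  sz : ∀ e, q (G.s e) * z e = z e
  zr : ∀ e, z e * q (G.r e) = z e
  rw' : ∀ e, q (G.r e) * w e = w e
  ws : ∀ e, w e * q (G.s e) = w e
  ck1 : ∀ e f, w e * z f = if e = f then q (G.r e) else 0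
  ck2 : ∀ v, (∃ e, G.s e = v) → ∑ e with G.s e = v, z e * w e = q v
  one : ∑ v, q v = 1

/-- A graph without sinks. -/
def FGraph.NoSinks (G : FGraph) : Prop := ∀ v, ∃ e, G.s e = v

/-- A family on a graph without sinks. -/
def LFam.toCKF {G : FGraph} {B : Type} [Ring B] (η : LFam G B) (h : G.NoSinks) : CKF G B where
  q := η.q
  z := η.z
  w := η.w
  qq := η.qq
  sz := η.sz
  zr := η.zr
  rw' := η.rw'
  ws := η.ws
  ck1 := η.ck1
  ck2 v := η.ck2 v (h v)
  one := η.one

/-- the image of a generator -/
def LFam.val {G : FGraph} {B : Type} [Ring B] (η : LFam G B) : LGen G → B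
  | .vt v => η.q v
  | .ed e => η.z e
  | .gh e => η.w e

/-- The image of a family under a ring homomorphism. -/
def LFam.map {G : FGraph} {B B' : Type} [Ring B] [Ring B'] (η : LFam G B) (f : B →+* B') :
    LFam G B' where
  q v := f (η.q v)
  z v := f (η.z v)
  w v := f (η.w v)
  qq u v := by rw [← map_mul, η.qq]; split_ifs <;> simp
  sz e := by rw [← map_mul, η.sz]
  zr e := by rw [← map_mul, η.zr]
  rw' e := by rw [← map_mul, η.rw']
  ws e := by rw [← map_mul, η.ws]
  ck1 e e' := by rw [← map_mul, η.ck1]; split_ifs <;> simp
  ck2 v h := by rw [← η.ck2 v h, map_sum]; simp only [map_mul]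
  one := by rw [← map_sum, η.one, map_one]

noncomputable section

variable (K : Type) [Field K] (G : FGraph)

namespace LPA

/-- the tautological family -/
def fam : LFam G (LPA K G) where
  q v := gen K (.vt v)
  z e := gen K (.ed e)
  w e := gen K (.gh e)
  qq u v := by
    have h := RingQuot.mkAlgHom_rel K (LRel.vv (K := K) (G := G) u v)
    rw [map_mul] at h
    split_ifs with huv
    · rw [if_pos huv] at h; exact h
    · rw [if_neg huv, map_zero] at h; exact h
  sz e := by
    have h := RingQuot.mkAlgHom_rel K (LRel.s_e (K := K) (G := G) e)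
    rw [map_mul] at h; exact h
  zr e := by
    have h := RingQuot.mkAlgHom_rel K (LRel.e_r (K := K) (G := G) e)
    rw [map_mul] at h; exact h
  rw' e := by
    have h := RingQuot.mkAlgHom_rel K (LRel.r_g (K := K) (G := G) e)
    rw [map_mul] at h; exact h
  ws e := by
    have h := RingQuot.mkAlgHom_rel K (LRel.g_s (K := K) (G := G) e)
    rw [map_mul] at h; exact h
  ck1 u v := by
    have h := RingQuot.mkAlgHom_rel K (LRel.ck1 (K := K) (G := G) u v)
    rw [map_mul] at h
    split_ifs with huv
    · rw [if_pos huv] at h; exact h
    · rw [if_neg huv, map_zero] at h; exact h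
  ck2 v hv := by
    have h := RingQuot.mkAlgHom_rel K (LRel.ck2 (K := K) (G := G) v hv)
    rw [map_sum] at h
    simp only [map_mul] at h
    exact h
  one := by
    have h := RingQuot.mkAlgHom_rel K (LRel.sum_v (K := K) (G := G))
    rw [map_sum, map_one] at h
    exact h

theorem fam_val (g : LGen G) : (fam K G).val g = gen K g := by cases g <;> rfl

variable {G}
variable {B : Type} [Ring B] [Algebra K B]

/-- The universal property. -/
def lift (η : LFam G B) : LPA K G →ₐ[K] B :=
  RingQuot.liftAlgHom K ⟨FreeAlgebra.lift K η.val, by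
    intro x y h
    induction h with
    | vv v w =>
      simp only [map_mul, FreeAlgebra.lift_ι_apply, LFam.val, η.qq]
      split_ifs <;> simp [LFam.val]
    | sum_v => simp only [map_sum, FreeAlgebra.lift_ι_apply, LFam.val, η.one, map_one]
    | s_e e => simp only [map_mul, FreeAlgebra.lift_ι_apply, LFam.val, η.sz]
    | e_r e => simp only [map_mul, FreeAlgebra.lift_ι_apply, LFam.val, η.zr]
    | r_g e => simp only [map_mul, FreeAlgebra.lift_ι_apply, LFam.val, η.rw']
    | g_s e => simp only [map_mul, FreeAlgebra.lift_ι_apply, LFam.val, η.ws]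
    | ck1 e f =>
      simp only [map_mul, FreeAlgebra.lift_ι_apply, LFam.val, η.ck1]
      split_ifs <;> simp [LFam.val]
    | ck2 v hv =>
      simp only [map_mul, map_sum, FreeAlgebra.lift_ι_apply, LFam.val]
      exact η.ck2 v hv⟩

theorem lift_gen (η : LFam G B) (g : LGen G) : lift K η (gen K g) = η.val g := by
  unfold lift gen
  erw [RingQuot.liftAlgHom_mkAlgHom_apply]
  simp

/-- The quotient map. -/
def mk : FreeAlgebra K (LGen G) →ₐ[K] LPA K G := RingQuot.mkAlgHom K (LRel K G)

theorem mk_surjective : Function.Surjective (mk (K := K) (G := G)) :=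
  RingQuot.mkAlgHom_surjective K (LRel K G)

theorem mk_ι (g : LGen G) : mk (K := K) (ι K g) = gen K g := rfl

variable {K}

/-- A word in the generators. -/
def word (l : List (LGen G)) : LPA K G := (l.map (gen K)).prod

theorem word_nil : word (K := K) ([] : List (LGen G)) = 1 := by simp [word]

theorem word_cons (g : LGen G) (l : List (LGen G)) :
    word (K := K) (g :: l) = gen K g * word l := by simp [word]

theorem word_append (l l' : List (LGen G)) : word (K := K) (l ++ l') = word l * word l' := by
  simp [word]

variable (K)

theorem span_word : Submodule.span K (Set.range (word (K := K) (G := G))) = ⊤ := by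
  rw [eq_top_iff]
  rintro x -
  obtain ⟨y, rfl⟩ := mk_surjective K x
  have hmul : ∀ a ∈ Submodule.span K (Set.range (word (K := K) (G := G))),
      ∀ b ∈ Submodule.span K (Set.range (word (K := K) (G := G))),
      a * b ∈ Submodule.span K (Set.range (word (K := K) (G := G))) := by
    intro a ha b hb
    have h1 := Submodule.mul_mem_mul ha hb
    rw [Submodule.span_mul_span] at h1
    refine Submodule.span_mono ?_ h1
    rintro _ ⟨_, ⟨l, rfl⟩, _, ⟨l', rfl⟩, rfl⟩
    exact ⟨l ++ l', word_append l l'⟩
  induction y using FreeAlgebra.induction with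
  | grade0 r =>
    rw [AlgHom.commutes, Algebra.algebraMap_eq_smul_one]
    exact Submodule.smul_mem _ _ (Submodule.subset_span ⟨[], word_nil⟩)
  | grade1 g =>
    refine Submodule.subset_span ⟨[g], ?_⟩
    rw [word_cons, word_nil, mul_one]; rfl
  | mul a b ha hb =>
    rw [map_mul]
    exact hmul _ ha _ hb
  | add a b ha hb =>
    rw [map_add]
    exact Submodule.add_mem _ ha hb

theorem word_mem_gr (l : List (LGen G)) : word l ∈ gr K G (l.map LGen.deg).sum :=
  Submodule.subset_span ⟨l, rfl, rfl⟩

theorem gen_mem_gr (g : LGen G) : gen K g ∈ gr K G g.deg := by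
  have := word_mem_gr K [g]
  simpa [word] using this

theorem one_mem_gr : (1 : LPA K G) ∈ gr K G 0 := by
  have := word_mem_gr K ([] : List (LGen G))
  simpa [word] using this

theorem mul_mem_gr {m n : ℤ} {x y : LPA K G} (hx : x ∈ gr K G m) (hy : y ∈ gr K G n) :
    x * y ∈ gr K G (m + n) := by
  have h1 := Submodule.mul_mem_mul hx hy
  unfold gr at h1
  rw [Submodule.span_mul_span] at h1
  refine Submodule.span_mono ?_ h1
  rintro _ ⟨_, ⟨l, hl, rfl⟩, _, ⟨l', hl', rfl⟩, rfl⟩
  exact ⟨l ++ l', by simp [hl, hl'], by simp⟩

theorem single_sum' {ι : Type*} (t : Finset ι) (n : ℤ) (f : ι → LPA K G) :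
    (AddMonoidAlgebra.single n (∑ i ∈ t, f i) : AddMonoidAlgebra (LPA K G) ℤ) =
      ∑ i ∈ t, AddMonoidAlgebra.single n (f i) := by
  have := map_sum (AddMonoidAlgebra.lsingle (R := K) (S := LPA K G) n) f t
  simpa only [AddMonoidAlgebra.lsingle_apply] using this

/-- The coaction recording the degrees. -/
def coact : LPA K G →ₐ[K] AddMonoidAlgebra (LPA K G) ℤ :=
  lift K
    { q := fun v => AddMonoidAlgebra.single 0 (gen K (.vt v))
      z := fun e => AddMonoidAlgebra.single 1 (gen K (.ed e))
      w := fun e => AddMonoidAlgebra.single (-1) (gen K (.gh e))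
      qq := fun u v => by
        rw [AddMonoidAlgebra.single_mul_single, add_zero]
        have := (fam K G).qq u v
        simp only [fam] at this
        rw [this]
        split_ifs <;> simp
      sz := fun e => by
        rw [AddMonoidAlgebra.single_mul_single, zero_add]
        exact congrArg _ ((fam K G).sz e)
      zr := fun e => by
        rw [AddMonoidAlgebra.single_mul_single, add_zero]
        exact congrArg _ ((fam K G).zr e)
      rw' := fun e => by
        rw [AddMonoidAlgebra.single_mul_single, zero_add]
        exact congrArg _ ((fam K G).rw' e)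
      ws := fun e => by
        rw [AddMonoidAlgebra.single_mul_single, add_zero]
        exact congrArg _ ((fam K G).ws e)
      ck1 := fun u v => by
        rw [AddMonoidAlgebra.single_mul_single]
        have := (fam K G).ck1 u v
        simp only [fam] at this
        rw [this]
        split_ifs <;> simp
      ck2 := fun v hv => by
        have h1 := (fam K G).ck2 v hv
        simp only [fam] at h1
        rw [← h1]
        simp only [AddMonoidAlgebra.single_mul_single]
        rw [single_sum']
        simp
      one := by
        have h1 := (fam K G).one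
        simp only [fam] at h1
        rw [← single_sum', h1]
        rfl }

theorem coact_gen (g : LGen G) :
    coact K (gen K g) = AddMonoidAlgebra.single g.deg (gen K g) := by
  unfold coact
  rw [lift_gen]
  cases g <;> rfl

theorem coact_word (l : List (LGen G)) :
    coact K (word l) = AddMonoidAlgebra.single (l.map LGen.deg).sum (word l) := by
  induction l with
  | nil => simp [word]
  | cons g l ih =>
    rw [word_cons, map_mul, ih, coact_gen, AddMonoidAlgebra.single_mul_single]
    simp

theorem coact_of_mem {n : ℤ} {x : LPA K G} (hx : x ∈ gr K G n) :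
    coact K x = AddMonoidAlgebra.single n x := by
  have h : gr K G n ≤ LinearMap.eqLocus (coact K (G := G)).toLinearMap
      (AddMonoidAlgebra.lsingle n) := by
    refine Submodule.span_le.mpr ?_
    rintro _ ⟨l, hl, rfl⟩
    have := coact_word K l
    rw [hl] at this
    exact this
  exact h hx

/-- The component of degree `n`. -/
def comp (n : ℤ) : LPA K G →ₗ[K] LPA K G where
  toFun x := (coact K x).coeff n
  map_add' x y := by simp
  map_smul' c x := by simp

theorem comp_of_mem {n : ℤ} {x : LPA K G} (hx : x ∈ gr K G n) (m : ℤ) :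
    comp K m x = if n = m then x else 0 := by
  change (coact K x).coeff m = _
  rw [coact_of_mem K hx, AddMonoidAlgebra.coeff_single, Finsupp.single_apply]

theorem comp_mem (n : ℤ) (x : LPA K G) : comp K n x ∈ gr K G n := by
  have h : (⊤ : Submodule K (LPA K G)) ≤ (gr K G n).comap (comp K n) := by
    rw [← span_word]
    refine Submodule.span_le.mpr ?_
    rintro _ ⟨l, rfl⟩
    simp only [SetLike.mem_coe, Submodule.mem_comap]
    rw [comp_of_mem K (word_mem_gr K l)]
    split_ifs with h
    · rw [← h]; exact word_mem_gr K l
    · exact Submodule.zero_mem _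
  exact h (Submodule.mem_top (x := x))

theorem sum_comp (x : LPA K G) : (coact K x).coeff.sum (fun _ y => y) = x := by
  let φ : LPA K G →ₗ[K] LPA K G :=
    { toFun := fun x => (coact K x).coeff.sum (fun _ y => y)
      map_add' := fun x y => by
        rw [map_add]
        exact Finsupp.sum_add_index' (fun _ => rfl) (fun _ _ _ => rfl)
      map_smul' := fun c x => by
        rw [map_smul]
        simp only [AddMonoidAlgebra.coeff_smul, RingHom.id_apply]
        rw [Finsupp.sum_smul_index' (fun _ => rfl)]
        exact (Finsupp.smul_sum).symm }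
  have h : (⊤ : Submodule K (LPA K G)) ≤ LinearMap.eqLocus φ LinearMap.id := by
    rw [← span_word]
    refine Submodule.span_le.mpr ?_
    rintro _ ⟨l, rfl⟩
    change (coact K (word l)).coeff.sum (fun _ y => y) = word l
    rw [coact_word, AddMonoidAlgebra.coeff_single]
    exact Finsupp.sum_single_index rfl
  exact h (Submodule.mem_top (x := x))

end LPA

end

end Pool.Agent.Y83
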