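import Pool.Agent.Y83.Lpa1

/-!
# Leavitt path algebras of finite graphs without sinks: nonvanishing of the vertices,
the degree zero part, and graded isomorphisms
-/

namespace Pool.Agent.Y83

/-- Infinite paths. -/
def FGraph.IPath (G : FGraph) : Type := {ξ : ℕ → G.E // ∀ i, G.r (ξ i) = G.s (ξ (i + 1))}

namespace FGraph.IPath

variable {G : FGraph}

def tail (ξ : G.IPath) : G.IPath := ⟨fun i => ξ.1 (i + 1), fun i => ξ.2 (i + 1)⟩

def cons (e : G.E) (ξ : G.IPath) (h : G.r e = G.s (ξ.1 0)) : G.IPath :=
  ⟨fun i => Nat.casesOn i e ξ.1, fun i => by cases i with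
    | zero => exact h
    | succ i => exact ξ.2 i⟩

theorem cons_tail (ξ : G.IPath) (h : G.r (ξ.1 0) = G.s (ξ.tail.1 0)) : cons (ξ.1 0) ξ.tail h = ξ := by
  apply Subtype.ext
  funext i
  cases i <;> rfl

theorem tail_cons (e : G.E) (ξ : G.IPath) (h : G.r e = G.s (ξ.1 0)) : (cons e ξ h).tail = ξ := rfl

theorem cons_zero (e : G.E) (ξ : G.IPath) (h : G.r e = G.s (ξ.1 0)) : (cons e ξ h).1 0 = e := rfl

theorem exists_from (hG : G.NoSinks) (v : G.V) : ∃ ξ : G.IPath, G.s (ξ.1 0) = v := by
  choose c hc using hG
  let vs : ℕ → G.V := fun i => Nat.rec v (fun _ u => G.r (c u)) i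
  exact ⟨⟨fun i => c (vs i), fun i => (hc (vs (i + 1))).symm⟩, hc v⟩

end FGraph.IPath

noncomputable section

open FGraph

variable (K : Type) [Field K] (G : FGraph)

/-- The representation on functions on infinite paths. -/
def pathFam : LFam G (Module.End K (G.IPath → K)) where
  q v :=
    { toFun := fun φ ξ => if G.s (ξ.1 0) = v then φ ξ else 0
      map_add' := fun φ ψ => by funext ξ; simp only [Pi.add_apply]; split_ifs <;> simp
      map_smul' := fun c φ => by funext ξ; simp }
  z e :=
    { toFun := fun φ ξ => if ξ.1 0 = e then φ ξ.tail else 0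
      map_add' := fun φ ψ => by funext ξ; simp only [Pi.add_apply]; split_ifs <;> simp
      map_smul' := fun c φ => by funext ξ; simp }
  w e :=
    { toFun := fun φ ξ => if h : G.r e = G.s (ξ.1 0) then φ (IPath.cons e ξ h) else 0
      map_add' := fun φ ψ => by funext ξ; simp only [Pi.add_apply]; split_ifs <;> simp
      map_smul' := fun c φ => by funext ξ; simp }
  qq u v := by
    refine LinearMap.ext fun φ => funext fun ξ => ?_
    simp only [Module.End.mul_apply, LinearMap.coe_mk, AddHom.coe_mk]
    split_ifs <;> simp_all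
  sz e := by
    refine LinearMap.ext fun φ => funext fun ξ => ?_
    simp only [Module.End.mul_apply, LinearMap.coe_mk, AddHom.coe_mk]
    split_ifs <;> simp_all
  zr e := by
    refine LinearMap.ext fun φ => funext fun ξ => ?_
    simp only [Module.End.mul_apply, LinearMap.coe_mk, AddHom.coe_mk]
    have := ξ.2 0
    by_cases h : ξ.1 0 = e
    · rw [h] at this
      simp [h, this, IPath.tail]
    · simp [h]
  rw' e := by
    refine LinearMap.ext fun φ => funext fun ξ => ?_
    simp only [Module.End.mul_apply, LinearMap.coe_mk, AddHom.coe_mk]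
    by_cases h : G.r e = G.s (ξ.1 0)
    · simp [h]
    · simp [h]
  ws e := by
    refine LinearMap.ext fun φ => funext fun ξ => ?_
    simp only [Module.End.mul_apply, LinearMap.coe_mk, AddHom.coe_mk]
    by_cases h : G.r e = G.s (ξ.1 0)
    · simp [h, IPath.cons_zero]
    · simp [h]
  ck1 e f := by
    refine LinearMap.ext fun φ => funext fun ξ => ?_
    simp only [Module.End.mul_apply, LinearMap.coe_mk, AddHom.coe_mk]
    by_cases hef : e = f
    · subst hef
      by_cases h : G.r e = G.s (ξ.1 0)
      · simp [h, IPath.cons_zero, IPath.tail_cons]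
      · have h' : ¬ G.s (ξ.1 0) = G.r e := fun h' => h h'.symm
        simp [h, h']
    · simp [hef, IPath.cons_zero]
  ck2 v hv := by
    refine LinearMap.ext fun φ => funext fun ξ => ?_
    simp only [LinearMap.sum_apply, Finset.sum_apply, Module.End.mul_apply, LinearMap.coe_mk,
      AddHom.coe_mk]
    have h1 : ∀ e, (if ξ.1 0 = e then (if h : G.r e = G.s (ξ.tail.1 0) then
        φ (IPath.cons e ξ.tail h) else 0) else 0) = if ξ.1 0 = e then φ ξ else 0 := by
      intro e
      by_cases h : ξ.1 0 = e
      · subst h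
        have h2 : G.r (ξ.1 0) = G.s (ξ.tail.1 0) := ξ.2 0
        rw [if_pos rfl, if_pos rfl, dif_pos h2, IPath.cons_tail]
      · rw [if_neg h, if_neg h]
    rw [Finset.sum_congr rfl fun e _ => h1 e, Finset.sum_filter]
    have h3 : ∀ e, (if G.s e = v then (if ξ.1 0 = e then φ ξ else 0) else 0) =
        if ξ.1 0 = e then (if G.s (ξ.1 0) = v then φ ξ else 0) else 0 := by
      intro e
      by_cases h : ξ.1 0 = e
      · subst h; simp
      · simp [h]
    rw [Finset.sum_congr rfl fun e _ => h3 e]
    simp
  one := by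
    refine LinearMap.ext fun φ => funext fun ξ => ?_
    simp only [LinearMap.sum_apply, Finset.sum_apply, LinearMap.coe_mk, AddHom.coe_mk]
    simp

variable {G}

theorem LPA.q_ne_zero (hG : G.NoSinks) (v : G.V) : (LPA.fam K G).q v ≠ 0 := by
  intro h
  have h1 := LPA.lift_gen K (pathFam K G) (.vt v)
  have h2 : LPA.gen K (G := G) (.vt v) = 0 := h
  rw [h2, map_zero] at h1
  obtain ⟨ξ, hξ⟩ := FGraph.IPath.exists_from hG v
  have h3 := congrArg (fun f : Module.End K (G.IPath → K) => f (fun _ => 1) ξ) h1
  simp only [LFam.val, pathFam, LinearMap.coe_mk, AddHom.coe_mk, hξ, if_true] at h3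
  exact one_ne_zero h3.symm

end

end Pool.Agent.Y83
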