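import Pool.Agent.Y83.Ch3

/-!
# Leavitt path algebras of finite graphs: definition and grading
-/

namespace Pool.Agent.Y83

open FreeAlgebra

/-- The generators of the Leavitt path algebra: vertices, edges and ghost edges. -/
inductive LGen (G : FGraph) : Type
  | vt (v : G.V) : LGen G
  | ed (e : G.E) : LGen G
  | gh (e : G.E) : LGen G

/-- The degrees of the generators. -/
def LGen.deg {G : FGraph} : LGen G → ℤ
  | .vt _ => 0
  | .ed _ => 1
  | .gh _ => -1

/-- The defining relations of the Leavitt path algebra. -/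
inductive LRel (K : Type) [Field K] (G : FGraph) :
    FreeAlgebra K (LGen G) → FreeAlgebra K (LGen G) → Prop
  | vv (v w : G.V) : LRel K G (ι K (.vt v) * ι K (.vt w)) (if v = w then ι K (.vt v) else 0)
  | sum_v : LRel K G (∑ v, ι K (.vt v)) 1
  | s_e (e : G.E) : LRel K G (ι K (.vt (G.s e)) * ι K (.ed e)) (ι K (.ed e))
  | e_r (e : G.E) : LRel K G (ι K (.ed e) * ι K (.vt (G.r e))) (ι K (.ed e))
  | r_g (e : G.E) : LRel K G (ι K (.vt (G.r e)) * ι K (.gh e)) (ι K (.gh e))
  | g_s (e : G.E) : LRel K G (ι K (.gh e) * ι K (.vt (G.s e))) (ι K (.gh e))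
  | ck1 (e f : G.E) : LRel K G (ι K (.gh e) * ι K (.ed f))
      (if e = f then ι K (.vt (G.r e)) else 0)
  | ck2 (v : G.V) (hv : ∃ e, G.s e = v) :
      LRel K G (∑ e with G.s e = v, ι K (.ed e) * ι K (.gh e)) (ι K (.vt v))

/-- The Leavitt path algebra of a finite graph. -/
abbrev LPA (K : Type) [Field K] (G : FGraph) : Type := RingQuot (LRel K G)

noncomputable section

variable (K : Type) [Field K] (G : FGraph)

variable {G}

/-- The generators as elements of the Leavitt path algebra. -/
def LPA.gen (g : LGen G) : LPA K G := RingQuot.mkAlgHom K (LRel K G) (ι K g)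

variable (G)

/-- The homogeneous component of degree `n`: the span of the words of degree `n` in the
generators. -/
def LPA.gr (n : ℤ) : Submodule K (LPA K G) :=
  Submodule.span K {x | ∃ l : List (LGen G), (l.map LGen.deg).sum = n ∧
    x = (l.map (LPA.gen K)).prod}

end

end Pool.Agent.Y83
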