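import Pool.Agent.Y83.Lk6

set_option linter.unusedSectionVars false
set_option linter.unusedVariables false
set_option linter.style.haveILetI false

/-!
# The map of graded Grothendieck groups induced by a graded ring isomorphism
-/

namespace Pool.Agent.Y83

open MulOpposite

variable {A B : Type} [Ring A] [Ring B] {𝒜 : ℤ → AddSubgroup A} {ℬ : ℤ → AddSubgroup B}

/-- Extension of scalars `P ⊗_A B` along a degree preserving ring isomorphism `ψ : A ≃ B`: the
same graded group, on which `b ∈ B` acts as `ψ⁻¹ b ∈ A` (the map `x ↦ x ⊗ 1` is bijective and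
satisfies `(x a) ⊗ 1 = (x ⊗ 1) ψ(a)`). -/
def GrMod.extend (ψ : A ≃+* B) (hψ : ∀ n x, x ∈ 𝒜 n ↔ ψ x ∈ ℬ n) (P : GrMod 𝒜) : GrMod ℬ where
  carrier := P.carrier
  grp := P.grp
  mod := Module.compHom P.carrier (RingEquiv.op ψ.symm : Bᵐᵒᵖ →+* Aᵐᵒᵖ)
  deg := P.deg
  internal := P.internal
  smul_mem := fun i j m b hm hb =>
    P.smul_mem i j m (ψ.symm b) hm ((hψ j _).mpr (by rwa [RingEquiv.apply_symm_apply]))

section

variable (ψ : A ≃+* B) (hψ : ∀ n x, x ∈ 𝒜 n ↔ ψ x ∈ ℬ n)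

theorem GrMod.extend_smul (P : GrMod 𝒜) (b : B) (x : (P.extend ψ hψ).carrier) :
    op b • x = (op (ψ.symm b) • (show P.carrier from x) : P.carrier) := rfl

theorem GrMod.Iso.extend {P Q : GrMod 𝒜} (h : P.Iso Q) :
    (P.extend ψ hψ).Iso (Q.extend ψ hψ) := by
  obtain ⟨f, hf⟩ := h
  exact ⟨{ toFun := f, invFun := f.symm, left_inv := f.left_inv, right_inv := f.right_inv,
           map_add' := f.map_add, map_smul' := fun b x => f.map_smul (op (ψ.symm b.unop)) x },
    fun i m => hf i m⟩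

theorem GrMod.dsum_extend (P Q : GrMod 𝒜) :
    ((P.dsum Q).extend ψ hψ).Iso ((P.extend ψ hψ).dsum (Q.extend ψ hψ)) :=
  ⟨{ toFun := fun x => x, invFun := fun x => x, left_inv := fun _ => rfl,
     right_inv := fun _ => rfl, map_add' := fun _ _ => rfl, map_smul' := fun _ _ => rfl },
    fun _ _ => Iff.rfl⟩

theorem GrMod.free_extend [GradedRing 𝒜] [GradedRing ℬ] {ι : Type} [Finite ι] (δ : ι → ℤ) :
    ((GrMod.free 𝒜 δ).extend ψ hψ).Iso (GrMod.free ℬ δ) := by
  refine ⟨{ toFun := fun (x : ι → A) (j : ι) => ψ (x j),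
            invFun := fun (y : ι → B) (j : ι) => ψ.symm (y j),
            left_inv := fun (x : ι → A) => funext fun j => ψ.symm_apply_apply (x j),
            right_inv := fun (y : ι → B) => funext fun j => ψ.apply_symm_apply (y j),
            map_add' := fun (x y : ι → A) => funext fun j => map_add ψ (x j) (y j),
            map_smul' := fun b (x : ι → A) => funext fun j => ?_ }, ?_⟩
  · change ψ (x j * ψ.symm b.unop) = ψ (x j) * b.unop
    rw [map_mul, RingEquiv.apply_symm_apply]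
  · intro i m
    constructor
    · intro h j hj
      exact (hψ _ _).mp (h j hj)
    · intro h j hj
      exact (hψ _ _).mpr (h j hj)

theorem GrMod.IsFGProj.extend [GradedRing 𝒜] [GradedRing ℬ] {P : GrMod 𝒜} (hP : P.IsFGProj) :
    (P.extend ψ hψ).IsFGProj := by
  obtain ⟨Q, n, δ, h⟩ := hP
  exact ⟨Q.extend ψ hψ, n, δ, ((GrMod.dsum_extend ψ hψ P Q).symm.trans (h.extend ψ hψ)).trans
    (GrMod.free_extend ψ hψ δ)⟩

variable [GradedRing 𝒜] [GradedRing ℬ]

/-- The map `[P] ↦ [P ⊗_A B]` on isomorphism classes. -/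
def Vgr.extend : Vgr 𝒜 →+ Vgr ℬ where
  toFun := Quotient.map (fun P => ⟨P.1.extend ψ hψ, P.2.extend ψ hψ⟩)
    (fun _ _ h => GrMod.Iso.extend ψ hψ h)
  map_zero' := Quotient.sound (GrMod.free_extend ψ hψ _)
  map_add' := by
    rintro ⟨P⟩ ⟨Q⟩
    exact Quotient.sound (GrMod.dsum_extend ψ hψ _ _)

/-- The map `K_0^gr(ψ) : [P] ↦ [P ⊗_A B]` induced by a degree preserving ring isomorphism. -/
noncomputable def K0gr.map : K0gr 𝒜 →+ K0gr ℬ := K0gr.lift (K0gr.cls.comp (Vgr.extend ψ hψ))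

theorem K0gr.map_cls (P : GrMod 𝒜) (hP : P.IsFGProj) :
    K0gr.map ψ hψ (K0gr.cls (Vgr.mk P hP)) =
      K0gr.cls (Vgr.mk (P.extend ψ hψ) (hP.extend ψ hψ)) :=
  K0gr.lift_cls _ _

end

/-- The monoid of classes embeds in its group completion when it embeds in some group. -/
theorem K0gr.cls_injective [GradedRing 𝒜] {d : ℕ} (φ : Vgr 𝒜 →+ (Fin d → ℤ))
    (hφ : Function.Injective φ) : Function.Injective (K0gr.cls (𝒜 := 𝒜)) := by
  let g : K0gr 𝒜 →+ ULift.{1} (Fin d → ℤ) :=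
    K0gr.lift ((AddEquiv.ulift.symm : (Fin d → ℤ) ≃+ ULift.{1} (Fin d → ℤ)).toAddMonoidHom.comp φ)
  intro v w h
  have h1 : g (K0gr.cls v) = g (K0gr.cls w) := by rw [h]
  have h2 : ∀ v, g (K0gr.cls v) = ULift.up (φ v) := fun v => K0gr.lift_cls _ v
  rw [h2, h2] at h1
  exact hφ (ULift.up_injective h1)

end Pool.Agent.Y83
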