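import Pool.Agent.Y83.Mc9
import Pool.Agent.Y83.Ma1

set_option linter.unusedSectionVars false
set_option linter.unusedVariables false
set_option linter.style.haveILetI false

/-!
# Graded isomorphisms which map a standard module to a standard module
-/

namespace Pool.Agent.Y83

open MulOpposite

noncomputable section

namespace LPA

open GrMod

attribute [local instance] endAlg

variable (K : Type) [Field K] {G H : FGraph} (hG : G.NoSinks) (hH : H.NoSinks)

section std

variable {P : GrMod (grading K H)}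
variable {κ : Type} [Fintype κ] [DecidableEq κ] (β : κ → H.V) (k : ℤ)
  (φ : P.carrier ≃ₗ[(LPA K H)ᵐᵒᵖ] (Std K hH β k).carrier)
  (hφ : ∀ n x, x ∈ P.deg n ↔ φ x ∈ (Std K hH β k).deg n)
  (σ : H.V → κ) (hσ : ∀ i a, H.s a = β i → β (σ (H.r a)) = H.r a)

/-- The transported family. -/
def trF : CKF (H.copy β σ) (Module.End (LPA K H)ᵐᵒᵖ P.carrier) :=
  (entFam K hH β k σ hσ).map (conjHom K φ : _ →+* _)

include hφ in
theorem conj_homD' {d : ℤ} {g : Module.End (LPA K H)ᵐᵒᵖ (Std K hH β k).carrier}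
    (hg : HomD (Std K hH β k) (Std K hH β k) d g) : HomD P P d (conjHom K φ g) := by
  intro n x hx
  rw [hφ, conjHom_apply, φ.apply_symm_apply]
  exact hg n _ ((hφ n x).mp hx)

include hφ in
theorem trF_exhausting (g : Module.End (LPA K H)ᵐᵒᵖ P.carrier)
    (hg : g ∈ end0 K P) : ∃ i, g ∈ (trF K hH β k φ σ hσ).levS K i := by
  let g' : Module.End (LPA K H)ᵐᵒᵖ (Std K hH β k).carrier := conjHom K φ.symm g
  have h1 : g' ∈ end0 K (Std K hH β k) := by
    intro n x hx
    change φ (g (φ.symm x)) ∈ _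
    rw [← hφ]
    refine hg n _ ?_
    rw [hφ, φ.apply_symm_apply]
    exact hx
  obtain ⟨i, hi⟩ := entFam_exhausting K hH β k σ hσ g' h1
  refine ⟨i, ?_⟩
  have h2 := (entFam K hH β k σ hσ).map_mem_levS (conjHom K φ) i g' hi
  have h3 : conjHom K φ g' = g := by
    refine LinearMap.ext fun x => ?_
    rw [conjHom_apply]
    change φ.symm (φ (g (φ.symm (φ x)))) = g x
    rw [φ.symm_apply_apply, φ.symm_apply_apply]
  rw [h3] at h2
  exact h2

theorem trF_q_ne_zero (i : κ) : (trF K hH β k φ σ hσ).q i ≠ 0 := by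
  intro h
  apply entFam_q_ne_zero K hH β k σ hσ i
  have h1 : conjHom K φ ((entFam K hH β k σ hσ).q i) = 0 := h
  refine LinearMap.ext fun x => ?_
  have h2 := congrArg (fun f : Module.End (LPA K H)ᵐᵒᵖ P.carrier => φ (f (φ.symm x))) h1
  change φ (φ.symm ((entFam K hH β k σ hσ).q i (φ (φ.symm x)))) = φ 0 at h2
  rw [φ.apply_symm_apply, φ.apply_symm_apply, map_zero] at h2
  exact h2

include hφ in
theorem trF_q_hom (i : κ) : HomD P P 0 ((trF K hH β k φ σ hσ).q i) :=
  conj_homD' K hH β k φ hφ (ent_homD K hH β k i i 0 1 (one_mem_gr K))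

include hφ in
theorem trF_z_hom (p : (H.copy β σ).E) : HomD P P 1 ((trF K hH β k φ σ hσ).z p) :=
  conj_homD' K hH β k φ hφ (ent_homD K hH β k _ _ 1 _ (z_mem K hH p.1.2))

include hφ in
theorem trF_w_hom (p : (H.copy β σ).E) : HomD P P (-1) ((trF K hH β k φ σ hσ).w p) :=
  conj_homD' K hH β k φ hφ (ent_homD K hH β k _ _ (-1) _ (w_mem K hH p.1.2))

end std

/-! ### The endomorphism ring of an extended module -/

section ext

variable (ψ : LPA K G ≃ₐ[K] LPA K H)
  (hψ : ∀ n x, x ∈ grading K G n ↔ (ψ : LPA K G ≃+* LPA K H) x ∈ grading K H n)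
  (P : GrMod (grading K G))

/-- Endomorphisms of a module are endomorphisms of the extended module. -/
def extHom : Module.End (LPA K G)ᵐᵒᵖ P.carrier →ₐ[K]
    Module.End (LPA K H)ᵐᵒᵖ (P.extend (ψ : LPA K G ≃+* LPA K H) hψ).carrier where
  toFun g :=
    { toFun := g
      map_add' := g.map_add
      map_smul' := fun b x => g.map_smul (op (ψ.symm b.unop)) x }
  map_one' := rfl
  map_mul' _ _ := rfl
  map_zero' := rfl
  map_add' _ _ := rfl
  commutes' c := LinearMap.ext fun x => by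
    change (op (algebraMap K (LPA K G) c) • (show P.carrier from x) : P.carrier) =
      (op (ψ.symm (algebraMap K (LPA K H) c)) • (show P.carrier from x) : P.carrier)
    rw [AlgEquiv.commutes]

theorem extHom_apply (g : Module.End (LPA K G)ᵐᵒᵖ P.carrier)
    (x : (P.extend (ψ : LPA K G ≃+* LPA K H) hψ).carrier) : extHom K ψ hψ P g x = g x := rfl

/-- every endomorphism of the extended module comes from the module -/
theorem extHom_surj (g : Module.End (LPA K H)ᵐᵒᵖ
    (P.extend (ψ : LPA K G ≃+* LPA K H) hψ).carrier) : ∃ g', extHom K ψ hψ P g' = g := by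
  refine ⟨{ toFun := g, map_add' := g.map_add, map_smul' := fun a x => ?_ }, rfl⟩
  have h1 := g.map_smul (op (ψ a.unop)) x
  change g ((op (ψ.symm (ψ a.unop)) • (show P.carrier from x) : P.carrier)) =
    (op (ψ.symm (ψ a.unop)) • (show P.carrier from g x) : P.carrier) at h1
  rw [AlgEquiv.symm_apply_apply] at h1
  exact h1

end ext

section main

variable (ψ : LPA K G ≃ₐ[K] LPA K H)
  (hψ : ∀ n x, x ∈ grading K G n ↔ (ψ : LPA K G ≃+* LPA K H) x ∈ grading K H n)
variable {ι κ : Type} [Fintype ι] [DecidableEq ι] [Fintype κ] [DecidableEq κ]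
  (α : ι → G.V) (β : κ → H.V) (k k' : ℤ)
  (σ : G.V → ι) (hσ : ∀ i a, G.s a = α i → α (σ (G.r a)) = G.r a)
  (σ' : H.V → κ) (hσ' : ∀ i a, H.s a = β i → β (σ' (H.r a)) = H.r a)

include hG hH hσ hσ' in
/-- A graded isomorphism which maps a standard module to a standard module gives a chain of
strong shift equivalences. -/
theorem sse_of_extend [IsAlgClosed K] [CharZero K]
    (h : ((Std K hG α k).extend (ψ : LPA K G ≃+* LPA K H) hψ).Iso (Std K hH β k'))
    {a b : ℕ} (ρ : Fin a ≃ ι) (ρ' : Fin b ≃ κ) :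
    Relation.EqvGen WM.Step ((G.copy α σ).wm ρ) ((H.copy β σ').wm ρ') := by
  obtain ⟨φ, hφ⟩ := h
  let P := Std K hG α k
  let η := (entFam K hG α k σ hσ).map
    ((extHom K ψ hψ P : Module.End (LPA K G)ᵐᵒᵖ P.carrier →ₐ[K] Module.End (LPA K H)ᵐᵒᵖ
      (P.extend (ψ : LPA K G ≃+* LPA K H) hψ).carrier) :
      Module.End (LPA K G)ᵐᵒᵖ P.carrier →+* Module.End (LPA K H)ᵐᵒᵖ
      (P.extend (ψ : LPA K G ≃+* LPA K H) hψ).carrier)
  have z1 : ∀ p, HomD (P.extend (ψ : LPA K G ≃+* LPA K H) hψ)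
      (P.extend (ψ : LPA K G ≃+* LPA K H) hψ) 1 (η.z p) := fun p =>
    ent_homD K hG α k _ _ 1 _ (z_mem K hG p.1.2)
  have w1 : ∀ p, HomD (P.extend (ψ : LPA K G ≃+* LPA K H) hψ)
      (P.extend (ψ : LPA K G ≃+* LPA K H) hψ) (-1) (η.w p) := fun p =>
    ent_homD K hG α k _ _ (-1) _ (w_mem K hG p.1.2)
  have q1 : ∀ i, HomD (P.extend (ψ : LPA K G ≃+* LPA K H) hψ)
      (P.extend (ψ : LPA K G ≃+* LPA K H) hψ) 0 (η.q i) := fun i =>
    ent_homD K hG α k i i 0 1 (one_mem_gr K)
  refine CKF.sse_of_exhausting (end0 K (P.extend (ψ : LPA K G ≃+* LPA K H) hψ)) η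
    (trF K hH β k' φ σ' hσ') ?_ (trF_q_ne_zero K hH β k' φ σ' hσ') ?_
    (trF_exhausting K hH β k' φ hφ σ' hσ') ?_ ?_ ?_ ?_ ?_ ρ ρ'
  · intro i hi
    apply entFam_q_ne_zero K hG α k σ hσ i
    refine LinearMap.ext fun x => ?_
    exact congrArg (fun f : Module.End (LPA K H)ᵐᵒᵖ
      (P.extend (ψ : LPA K G ≃+* LPA K H) hψ).carrier => f x) hi
  · intro g hg
    obtain ⟨g', rfl⟩ := extHom_surj K ψ hψ P g
    obtain ⟨i, hi⟩ := entFam_exhausting K hG α k σ hσ g' (fun n x hx => hg n x hx)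
    exact ⟨i, (entFam K hG α k σ hσ).map_mem_levS (extHom K ψ hψ P) i g' hi⟩
  · exact fun v => (mem_end0_iff K).mpr (q1 v)
  · exact fun v => (mem_end0_iff K).mpr (trF_q_hom K hH β k' φ hφ σ' hσ' v)
  · exact fun x y => (mem_end0_iff K).mpr (homD_comp K (add_neg_cancel 1)
      (w1 x) (trF_z_hom K hH β k' φ hφ σ' hσ' y))
  · exact fun x y => (mem_end0_iff K).mpr (homD_comp K (add_neg_cancel 1)
      (trF_w_hom K hH β k' φ hφ σ' hσ' x) (z1 y))
  · exact fun g hg x y => (mem_end0_iff K).mpr (homD_comp K (d := 1) (d' := -1)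
      (neg_add_cancel 1)
      (homD_comp K (zero_add 1) (z1 x) ((mem_end0_iff K).mp hg))
      (w1 y))

end main

end LPA

end

end Pool.Agent.Y83
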