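import Pool.Agent.Y83.Sgc8

set_option linter.unusedSectionVars false
set_option linter.unusedVariables false

/-!
# The cocycle of block triangular pairs
-/

namespace Pool.Agent.Y83

open Finset Matrix

variable {n m : ℕ}

theorem lo_ca_ca (i j : Fin n) : lo (Fin.castAdd m i) (Fin.castAdd m j) = lo i j := by
  unfold lo
  simp only [Fin.lt_def, Fin.val_castAdd]

theorem lo_na_na (i j : Fin m) : lo (Fin.natAdd n i) (Fin.natAdd n j) = lo i j := by
  unfold lo
  simp only [Fin.lt_def, Fin.val_natAdd, add_lt_add_iff_left]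

theorem lo_ca_na (i : Fin n) (j : Fin m) : lo (Fin.castAdd m i) (Fin.natAdd n j) = 1 := by
  unfold lo
  rw [if_pos]
  simp only [Fin.lt_def, Fin.val_castAdd, Fin.val_natAdd]
  omega

theorem lo_na_ca (i : Fin m) (j : Fin n) : lo (Fin.natAdd n i) (Fin.castAdd m j) = 0 := by
  unfold lo
  rw [if_neg]
  simp only [Fin.lt_def, Fin.val_castAdd, Fin.val_natAdd]
  omega

theorem Q_block (r s : Fin (n + m) → Fin (n + m) → ZMod 2)
    (hr : ∀ i j, r (Fin.natAdd n i) (Fin.castAdd m j) = 0)
    (hs : ∀ i j, s (Fin.natAdd n i) (Fin.castAdd m j) = 0) :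
    Q r s = Q (fun i j => r (Fin.castAdd m i) (Fin.castAdd m j))
        (fun i j => s (Fin.castAdd m i) (Fin.castAdd m j)) +
      Q (fun i j => r (Fin.natAdd n i) (Fin.natAdd n j))
        (fun i j => s (Fin.natAdd n i) (Fin.natAdd n j)) := by
  unfold Q
  simp only [Fin.sum_univ_add, hr, hs, lo_ca_ca, lo_na_na, lo_ca_na, lo_na_ca, mul_zero, zero_mul,
    Finset.sum_const_zero, add_zero, zero_add]
  abel

theorem sgc_block (R S : Matrix (Fin (n + m)) (Fin (n + m)) ℤ)
    (hR : ∀ i j, R (Fin.natAdd n i) (Fin.castAdd m j) = 0)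
    (hS : ∀ i j, S (Fin.natAdd n i) (Fin.castAdd m j) = 0) :
    sgc R S = sgc (Matrix.of fun i j => R (Fin.castAdd m i) (Fin.castAdd m j))
        (Matrix.of fun i j => S (Fin.castAdd m i) (Fin.castAdd m j)) +
      sgc (Matrix.of fun i j => R (Fin.natAdd n i) (Fin.natAdd n j))
        (Matrix.of fun i j => S (Fin.natAdd n i) (Fin.natAdd n j)) := by
  have h1 := Q_block (md R) (md S) (fun i j => by simp [md, hR]) (fun i j => by simp [md, hS])
  unfold sgc
  rw [h1]
  simp only [Fin.sum_univ_add, hR, hS, c2_zero, zero_mul, Int.cast_zero, mul_zero,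
    Finset.sum_const_zero, add_zero, zero_add]
  simp only [md, Matrix.of_apply]
  have e : ∀ a b c d : ZMod 2, a + b + (c + d) = a + c + (b + d) := by decide
  exact e _ _ _ _

end Pool.Agent.Y83
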