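import Pool.Agent.Y83.Mb1

set_option linter.unusedSectionVars false
set_option linter.unusedVariables false

/-!
# Intertwiners of the two triangular block matrices
-/

namespace Pool.Agent.Y83

open Finset Matrix

theorem mulC (Y : Matrix (Fin 4) (Fin 4) ℤ) (i : Fin 4) :
    (Y * CZ) i 0 = Y i 3 ∧ (Y * CZ) i 1 = Y i 0 + Y i 3 ∧ (Y * CZ) i 2 = Y i 1 ∧
      (Y * CZ) i 3 = Y i 2 := by
  simp [Matrix.mul_apply, Fin.sum_univ_four, CZ]

theorem Cmul (Y : Matrix (Fin 4) (Fin 4) ℤ) (j : Fin 4) :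
    (CZ * Y) 0 j = Y 1 j ∧ (CZ * Y) 1 j = Y 2 j ∧ (CZ * Y) 2 j = Y 3 j ∧
      (CZ * Y) 3 j = Y 0 j + Y 1 j := by
  simp [Matrix.mul_apply, Fin.sum_univ_four, CZ]

theorem mulC0 (Y : Matrix (Fin 4) (Fin 4) ℤ) (i : Fin 4) : (Y * CZ) i 0 = Y i 3 := (mulC Y i).1
theorem mulC1 (Y : Matrix (Fin 4) (Fin 4) ℤ) (i : Fin 4) : (Y * CZ) i 1 = Y i 0 + Y i 3 :=
  (mulC Y i).2.1
theorem mulC2 (Y : Matrix (Fin 4) (Fin 4) ℤ) (i : Fin 4) : (Y * CZ) i 2 = Y i 1 :=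
  (mulC Y i).2.2.1
theorem mulC3 (Y : Matrix (Fin 4) (Fin 4) ℤ) (i : Fin 4) : (Y * CZ) i 3 = Y i 2 :=
  (mulC Y i).2.2.2

theorem trace4 (Y : Matrix (Fin 4) (Fin 4) ℤ) : Y.trace = Y 0 0 + Y 1 1 + Y 2 2 + Y 3 3 := by
  simp [Matrix.trace, Fin.sum_univ_four]

/-- A commutator with `CZ` which commutes with `CZ` vanishes. -/
theorem comm_zero (X Y : Matrix (Fin 4) (Fin 4) ℤ) (h : Y = X * CZ - CZ * X)
    (hc : Y * CZ = CZ * Y) : Y = 0 := by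
  -- the traces
  have ht : ∀ j : ℕ, (Y * CZ ^ j).trace = 0 := by
    intro j
    rw [h, Matrix.sub_mul, Matrix.trace_sub, Matrix.mul_assoc X, Matrix.mul_assoc CZ,
      Matrix.trace_mul_comm CZ, Matrix.mul_assoc X, ← pow_succ, ← pow_succ', sub_self]
  have t0 := ht 0
  have t1 := ht 1
  have t2 := ht 2
  have t3 := ht 3
  rw [pow_zero, Matrix.mul_one, trace4] at t0
  rw [pow_one, trace4] at t1
  rw [pow_succ, pow_one, ← Matrix.mul_assoc, trace4] at t2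
  rw [pow_succ, pow_succ, pow_one, ← Matrix.mul_assoc, ← Matrix.mul_assoc, trace4] at t3
  simp only [mulC0, mulC1, mulC2, mulC3] at t1 t2 t3
  -- the commutation
  have r : ∀ i j, (Y * CZ) i j = (CZ * Y) i j := fun i j => by rw [hc]
  have a0 := r 0 0
  have a1 := r 0 1
  have a2 := r 0 2
  have a3 := r 0 3
  rw [(mulC Y 0).1, (Cmul Y 0).1] at a0
  rw [(mulC Y 0).2.1, (Cmul Y 1).1] at a1
  rw [(mulC Y 0).2.2.1, (Cmul Y 2).1] at a2
  rw [(mulC Y 0).2.2.2, (Cmul Y 3).1] at a3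
  have b0 := r 1 0
  have b1 := r 1 1
  have b2 := r 1 2
  have b3 := r 1 3
  rw [(mulC Y 1).1, (Cmul Y 0).2.1] at b0
  rw [(mulC Y 1).2.1, (Cmul Y 1).2.1] at b1
  rw [(mulC Y 1).2.2.1, (Cmul Y 2).2.1] at b2
  rw [(mulC Y 1).2.2.2, (Cmul Y 3).2.1] at b3
  have c0 := r 2 0
  have c1 := r 2 1
  have c2 := r 2 2
  have c3 := r 2 3
  rw [(mulC Y 2).1, (Cmul Y 0).2.2.1] at c0
  rw [(mulC Y 2).2.1, (Cmul Y 1).2.2.1] at c1
  rw [(mulC Y 2).2.2.1, (Cmul Y 2).2.2.1] at c2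
  rw [(mulC Y 2).2.2.2, (Cmul Y 3).2.2.1] at c3
  clear r ht h hc
  have z0 : Y 0 0 = 0 := by omega
  have z1 : Y 0 1 = 0 := by omega
  have z2 : Y 0 2 = 0 := by omega
  have z3 : Y 0 3 = 0 := by omega
  ext i j
  rw [Matrix.zero_apply]
  fin_cases i <;> fin_cases j <;> (simp only [Fin.mk_one, Fin.zero_eta, Fin.reduceFinMk]; omega)

/-- the unit `1 + CZ ^ 2` -/
def MU : Matrix (Fin 4) (Fin 4) ℤ := !![1,0,1,0; 0,1,0,1; 1,1,1,0; 0,1,1,1]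

/-- its inverse -/
def MUinv : Matrix (Fin 4) (Fin 4) ℤ := !![1,1,0,-1; -1,0,1,0; 0,-1,0,1; 1,1,-1,0]

theorem MU_inv : MU * MUinv = 1 := by decide

theorem MU_comm : MU * CZ = CZ * MU := by decide

theorem sgc_MU : sgc MU (MUinv * CZ) = 1 := by
  have : MUinv * CZ = !![-1,0,1,0; 0,-1,0,1; 1,1,-1,0; 0,1,1,-1] := by decide
  rw [this]
  decide +kernel

theorem inv_comm4 {X Y : Matrix (Fin 4) (Fin 4) ℤ} (h : X * Y = 1) : Y * X = 1 :=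
  mul_eq_one_comm.mp h

theorem blocks_sgc (U1 U2 U3 U4 V1 V2 V3 V4 : Matrix (Fin 4) (Fin 4) ℤ)
    (h : fromBlocks U1 U2 U3 U4 * fromBlocks CZ MU 0 CZ =
      fromBlocks CZ 1 0 CZ * fromBlocks U1 U2 U3 U4)
    (h1 : fromBlocks U1 U2 U3 U4 * fromBlocks V1 V2 V3 V4 = 1) :
    U3 = 0 ∧ V3 = 0 ∧ sgc U1 (V1 * CZ) + sgc U4 (V4 * CZ) = 1 := by
  rw [fromBlocks_multiply, fromBlocks_multiply, fromBlocks_inj] at h
  obtain ⟨a1, a2, a3, a4⟩ := h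
  rw [← fromBlocks_one, fromBlocks_multiply, fromBlocks_inj] at h1
  obtain ⟨b1, b2, b3, b4⟩ := h1
  simp only [Matrix.mul_zero, Matrix.zero_mul, Matrix.one_mul, add_zero, zero_add] at a1 a2 a3 a4
  -- `U3 = 0`
  have u3 : U3 = 0 := by
    refine comm_zero U1 U3 ?_ a3
    rw [a1]; abel
  subst u3
  rw [add_zero] at a1
  rw [Matrix.zero_mul, zero_add] at a4
  -- `U4 = U1 * MU`
  have u4 : U4 - U1 * MU = 0 := by
    refine comm_zero U2 _ ?_ ?_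
    · have : U4 = U1 * MU + U2 * CZ - CZ * U2 := by rw [a2]; abel
      rw [this]; abel
    · rw [Matrix.sub_mul, Matrix.mul_sub, a4, Matrix.mul_assoc, MU_comm, ← Matrix.mul_assoc, a1,
        Matrix.mul_assoc]
  have u4' : U4 = U1 * MU := sub_eq_zero.mp u4
  rw [Matrix.zero_mul, zero_add] at b3 b4
  have v3 : V3 = 0 := by
    calc V3 = (V4 * U4) * V3 := by rw [inv_comm4 b4, Matrix.one_mul]
      _ = 0 := by rw [Matrix.mul_assoc, b3, Matrix.mul_zero]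
  subst v3
  rw [Matrix.mul_zero, add_zero] at b1
  refine ⟨rfl, rfl, ?_⟩
  have v4 : V4 = MUinv * V1 := by
    have h5 : U4 * (MUinv * V1) = 1 := by
      rw [u4', Matrix.mul_assoc, ← Matrix.mul_assoc MU, MU_inv, Matrix.one_mul, b1]
    calc V4 = V4 * (U4 * (MUinv * V1)) := by rw [h5, Matrix.mul_one]
      _ = MUinv * V1 := by rw [← Matrix.mul_assoc, inv_comm4 b4, Matrix.one_mul]
  have t := sgc_triangle U1 MU (V4 * CZ)
  have t1 : MU * (V4 * CZ) = V1 * CZ := by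
    rw [v4, ← Matrix.mul_assoc, ← Matrix.mul_assoc, MU_inv, Matrix.one_mul]
  have t2 : V4 * CZ * U1 = MUinv * CZ := by
    rw [Matrix.mul_assoc, ← a1, ← Matrix.mul_assoc, v4, Matrix.mul_assoc MUinv, inv_comm4 b1,
      Matrix.mul_one]
  rw [u4', t, t1, t2, sgc_MU]
  have e : ∀ a : ZMod 2, a + (a + 1) = 1 := by decide
  exact e _

end Pool.Agent.Y83
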