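import Pool.Agent.Y83.Mb2

set_option linter.unusedSectionVars false
set_option linter.unusedVariables false

/-!
# The two eight by eight matrices are not strong shift equivalent
-/

namespace Pool.Agent.Y83

open Finset Matrix

/-- The first matrix, `[[C, 1], [0, C]]`. -/
def AP : Matrix (Fin 8) (Fin 8) ℕ :=
  !![0,1,0,0,1,0,0,0; 0,0,1,0,0,1,0,0; 0,0,0,1,0,0,1,0; 1,1,0,0,0,0,0,1;
     0,0,0,0,0,1,0,0; 0,0,0,0,0,0,1,0; 0,0,0,0,0,0,0,1; 0,0,0,0,1,1,0,0]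

/-- The second matrix, `[[C, 1 + C^2], [0, C]]`. -/
def AQ : Matrix (Fin 8) (Fin 8) ℕ :=
  !![0,1,0,0,1,0,1,0; 0,0,1,0,0,1,0,1; 0,0,0,1,1,1,1,0; 1,1,0,0,0,1,1,1;
     0,0,0,0,0,1,0,0; 0,0,0,0,0,0,1,0; 0,0,0,0,0,0,0,1; 0,0,0,0,1,1,0,0]

/-- the block indexing -/
def φ8 : Fin 4 ⊕ Fin 4 ≃ Fin 8 := finSumFinEquiv (m := 4) (n := 4)

theorem AP_block : (zm AP).submatrix φ8 φ8 = fromBlocks CZ 1 0 CZ := by decide

theorem AQ_block : (zm AQ).submatrix φ8 φ8 = fromBlocks CZ MU 0 CZ := by decide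

/-- from blocks to matrices -/
def unblock (M : Matrix (Fin 4 ⊕ Fin 4) (Fin 4 ⊕ Fin 4) ℤ) : Matrix (Fin 8) (Fin 8) ℤ :=
  M.submatrix φ8.symm φ8.symm

theorem submatrix_mul8 (M N : Matrix (Fin 8) (Fin 8) ℤ) :
    (M * N).submatrix φ8 φ8 = M.submatrix φ8 φ8 * N.submatrix φ8 φ8 := by
  rw [Matrix.submatrix_mul_equiv]

theorem submatrix_inj8 {M N : Matrix (Fin 8) (Fin 8) ℤ}
    (h : M.submatrix φ8 φ8 = N.submatrix φ8 φ8) : M = N := by
  ext i j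
  have := congrFun (congrFun h (φ8.symm i)) (φ8.symm j)
  simpa using this

theorem submatrix_one8 : (1 : Matrix (Fin 8) (Fin 8) ℤ).submatrix φ8 φ8 = 1 :=
  Matrix.submatrix_one_equiv φ8

/-- inverse of a triangular block matrix -/
theorem tri_inv (X : Matrix (Fin 4) (Fin 4) ℤ) :
    fromBlocks CZ X 0 CZ * fromBlocks CZinv (-(CZinv * X * CZinv)) 0 CZinv = 1 ∧
    fromBlocks CZinv (-(CZinv * X * CZinv)) 0 CZinv * fromBlocks CZ X 0 CZ = 1 := by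
  constructor
  · rw [fromBlocks_multiply, ← fromBlocks_one, fromBlocks_inj]
    refine ⟨by rw [Matrix.mul_zero, add_zero, CZ_inv], ?_, by rw [Matrix.zero_mul,
      Matrix.mul_zero, add_zero], by rw [Matrix.zero_mul, zero_add, CZ_inv]⟩
    rw [Matrix.mul_neg, Matrix.mul_assoc CZinv X, ← Matrix.mul_assoc CZ CZinv, CZ_inv,
      Matrix.one_mul, neg_add_cancel]
  · rw [fromBlocks_multiply, ← fromBlocks_one, fromBlocks_inj]
    refine ⟨by rw [Matrix.mul_zero, add_zero, CZ_inv'], ?_, by rw [Matrix.zero_mul,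
      Matrix.mul_zero, add_zero], by rw [Matrix.zero_mul, zero_add, CZ_inv']⟩
    rw [Matrix.neg_mul, Matrix.mul_assoc (CZinv * X), CZ_inv', Matrix.mul_one, add_neg_cancel]

theorem exists_inv8 {A : Matrix (Fin 8) (Fin 8) ℕ} {X : Matrix (Fin 4) (Fin 4) ℤ}
    (h : (zm A).submatrix φ8 φ8 = fromBlocks CZ X 0 CZ) :
    ∃ A' : Matrix (Fin 8) (Fin 8) ℤ, zm A * A' = 1 ∧ A' * zm A = 1 := by
  have h1 : ∀ M, (unblock M).submatrix φ8 φ8 = M := by
    intro M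
    unfold unblock
    rw [Matrix.submatrix_submatrix]
    simp
  refine ⟨unblock (fromBlocks CZinv (-(CZinv * X * CZinv)) 0 CZinv), ?_, ?_⟩
  · apply submatrix_inj8
    rw [submatrix_mul8, h, h1, (tri_inv X).1, submatrix_one8]
  · apply submatrix_inj8
    rw [submatrix_mul8, h, h1, (tri_inv X).2, submatrix_one8]

theorem not_sse8 (u w : Fin 8 → ℕ) :
    ¬ Relation.EqvGen WM.Step ⟨8, AP, u⟩ ⟨8, AQ, w⟩ := by
  intro h
  obtain ⟨AP', p1, p2⟩ := exists_inv8 AP_block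
  obtain ⟨AQ', q1, q2⟩ := exists_inv8 AQ_block
  obtain ⟨U, U', hU, hU', hc, -, hs⟩ := sse_invariant AP u AQ w AP' p1 p2 AQ' q1 q2
    (by decide) (by decide) h
  let V := U.submatrix φ8 φ8
  let V' := U'.submatrix φ8 φ8
  have hV : V = fromBlocks V.toBlocks₁₁ V.toBlocks₁₂ V.toBlocks₂₁ V.toBlocks₂₂ :=
    (fromBlocks_toBlocks V).symm
  have hV' : V' = fromBlocks V'.toBlocks₁₁ V'.toBlocks₁₂ V'.toBlocks₂₁ V'.toBlocks₂₂ :=
    (fromBlocks_toBlocks V').symm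
  have e1 : V * fromBlocks CZ MU 0 CZ = fromBlocks CZ 1 0 CZ * V := by
    rw [← AQ_block, ← AP_block, ← submatrix_mul8, ← submatrix_mul8, hc]
  have e2 : V * V' = 1 := by
    rw [← submatrix_mul8, hU, submatrix_one8]
  rw [hV] at e1
  rw [hV, hV'] at e2
  obtain ⟨f1, f2, f3⟩ := blocks_sgc _ _ _ _ _ _ _ _ e1 e2
  -- the product
  have e3 : (U' * zm AP).submatrix φ8 φ8 = fromBlocks (V'.toBlocks₁₁ * CZ)
      (V'.toBlocks₁₁ + V'.toBlocks₁₂ * CZ) 0 (V'.toBlocks₂₂ * CZ) := by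
    rw [submatrix_mul8, AP_block]
    change V' * _ = _
    rw [hV', f2, fromBlocks_multiply]
    simp only [Matrix.mul_zero, Matrix.zero_mul, Matrix.mul_one, add_zero, zero_add]
    rfl
  have b1 : ∀ i j : Fin 4, U (Fin.natAdd 4 i) (Fin.castAdd 4 j) = 0 := fun i j =>
    congrFun (congrFun f1 i) j
  have b2 : ∀ i j : Fin 4, (U' * zm AP) (Fin.natAdd 4 i) (Fin.castAdd 4 j) = 0 := fun i j =>
    congrFun (congrFun e3 (Sum.inr i)) (Sum.inl j)
  have b3 := sgc_block (n := 4) (m := 4) U (U' * zm AP) b1 b2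
  have b4 : (Matrix.of fun i j : Fin 4 => (U' * zm AP) (Fin.castAdd 4 i) (Fin.castAdd 4 j)) =
      V'.toBlocks₁₁ * CZ := by
    ext i j
    exact congrFun (congrFun e3 (Sum.inl i)) (Sum.inl j)
  have b5 : (Matrix.of fun i j : Fin 4 => (U' * zm AP) (Fin.natAdd 4 i) (Fin.natAdd 4 j)) =
      V'.toBlocks₂₂ * CZ := by
    ext i j
    exact congrFun (congrFun e3 (Sum.inr i)) (Sum.inr j)
  rw [b4, b5] at b3
  have b6 : sgc U (U' * zm AP) = sgc V.toBlocks₁₁ (V'.toBlocks₁₁ * CZ) +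
      sgc V.toBlocks₂₂ (V'.toBlocks₂₂ * CZ) := b3
  rw [b6, f3] at hs
  exact absurd hs (by decide)

theorem not_sse84 (u : Fin 8 → ℕ) (w : Fin 4 → ℕ) :
    ¬ Relation.EqvGen WM.Step ⟨8, AP, u⟩ ⟨4, CE, w⟩ := by
  intro h
  obtain ⟨AP', p1, p2⟩ := exists_inv8 AP_block
  obtain ⟨U, U', hU, -⟩ := sse_invariant AP u CE w AP' p1 p2 CZinv
    (by rw [zm_CE, CZ_inv]) (by rw [zm_CE, CZ_inv']) (by decide) (by decide) h
  have h1 : (U * U').rank ≤ 4 := (Matrix.rank_mul_le_left U U').trans (by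
    simpa using Matrix.rank_le_card_width U)
  rw [hU, Matrix.rank_one] at h1
  simp at h1

end Pool.Agent.Y83
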