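import Pool.Agent.Y83.GrDefs

set_option linter.unusedSectionVars false
set_option linter.unusedVariables false

/-!
# The category of graded modules
-/

namespace Pool.Agent.Y83

open CategoryTheory

variable {A : Type} [Ring A] {𝒜 : ℤ → AddSubgroup A}

/-- Morphisms of graded right modules: degree preserving linear maps. -/
@[ext] structure GrMod.Hom (P Q : GrMod 𝒜) : Type where
  lin : P.carrier →ₗ[Aᵐᵒᵖ] Q.carrier
  deg_map : ∀ (n : ℤ) (x : P.carrier), x ∈ P.deg n → lin x ∈ Q.deg n

variable (𝒜)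

/-- The category of graded right modules. -/
instance GrMod.category : Category (GrMod 𝒜) where
  Hom P Q := GrMod.Hom P Q
  id P := ⟨LinearMap.id, fun _ _ h => h⟩
  comp f g := ⟨g.lin ∘ₗ f.lin, fun n x h => g.deg_map n _ (f.deg_map n x h)⟩

/-- The degree shift functor `M ↦ M(1)`. -/
def GrMod.shiftFunctor : GrMod 𝒜 ⥤ GrMod 𝒜 where
  obj P := P.shift 1
  map f := ⟨f.lin, fun n x h => f.deg_map (n + 1) x h⟩

/-- Graded Morita equivalence: an equivalence of the categories of graded right modules that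
commutes with the degree shift. -/
def GrMorita {A B : Type} [Ring A] [Ring B] (𝒜 : ℤ → AddSubgroup A) (ℬ : ℤ → AddSubgroup B) :
    Prop :=
  ∃ e : GrMod 𝒜 ≌ GrMod ℬ,
    Nonempty (GrMod.shiftFunctor 𝒜 ⋙ e.functor ≅ e.functor ⋙ GrMod.shiftFunctor ℬ)

end Pool.Agent.Y83
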