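import Pool.Agent.Y83.Mc1

set_option linter.unusedSectionVars false
set_option linter.unusedVariables false

/-!
# The category of graded modules is additive; equivalences are additive
-/

namespace Pool.Agent.Y83

open CategoryTheory CategoryTheory.Limits

variable {A : Type} [Ring A] {𝒜 : ℤ → AddSubgroup A}

namespace GrMod

theorem hom_ext' {P Q : GrMod 𝒜} {f g : P ⟶ Q} (h : ∀ x, f.lin x = g.lin x) : f = g :=
  Hom.ext (LinearMap.ext h)

theorem comp_lin {P Q R : GrMod 𝒜} (f : P ⟶ Q) (g : Q ⟶ R) (x : P.carrier) :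
    (f ≫ g).lin x = g.lin (f.lin x) := rfl

theorem id_lin (P : GrMod 𝒜) (x : P.carrier) : (𝟙 P : P ⟶ P).lin x = x := rfl

instance homAdd (P Q : GrMod 𝒜) : Add (P ⟶ Q) :=
  ⟨fun f g => ⟨f.lin + g.lin, fun n x h =>
    AddSubgroup.add_mem _ (f.deg_map n x h) (g.deg_map n x h)⟩⟩

instance homZero (P Q : GrMod 𝒜) : Zero (P ⟶ Q) :=
  ⟨⟨0, fun n x h => AddSubgroup.zero_mem _⟩⟩

instance homNeg (P Q : GrMod 𝒜) : Neg (P ⟶ Q) :=
  ⟨fun f => ⟨-f.lin, fun n x h => AddSubgroup.neg_mem _ (f.deg_map n x h)⟩⟩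

theorem add_lin {P Q : GrMod 𝒜} (f g : P ⟶ Q) (x : P.carrier) :
    (f + g).lin x = f.lin x + g.lin x := rfl

theorem zero_lin (P Q : GrMod 𝒜) (x : P.carrier) : (0 : P ⟶ Q).lin x = 0 := rfl

theorem neg_lin {P Q : GrMod 𝒜} (f : P ⟶ Q) (x : P.carrier) :
    (-f).lin x = -(f.lin x) := rfl

instance homGroup (P Q : GrMod 𝒜) : AddCommGroup (P ⟶ Q) where
  add_assoc f g h := hom_ext' fun x => by simp only [add_lin, add_assoc]
  zero_add f := hom_ext' fun x => by simp only [add_lin, zero_lin, zero_add]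
  add_zero f := hom_ext' fun x => by simp only [add_lin, zero_lin, add_zero]
  add_comm f g := hom_ext' fun x => by simp only [add_lin, add_comm]
  neg_add_cancel f := hom_ext' fun x => by simp only [add_lin, neg_lin, zero_lin, neg_add_cancel]
  nsmul := nsmulRec
  zsmul := zsmulRec

instance preadditive : Preadditive (GrMod 𝒜) where
  homGroup := homGroup
  add_comp P Q R f f' g := hom_ext' fun x => by
    simp only [add_lin, comp_lin, map_add]
  comp_add P Q R f g g' := hom_ext' fun x => by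
    simp only [add_lin, comp_lin]

/-- The product cone. -/
def prodFan (P Q : GrMod 𝒜) : BinaryFan P Q :=
  BinaryFan.mk (P := P.dsum Q)
    (⟨LinearMap.fst Aᵐᵒᵖ P.carrier Q.carrier, fun n x h => h.1⟩ : P.dsum Q ⟶ P)
    (⟨LinearMap.snd Aᵐᵒᵖ P.carrier Q.carrier, fun n x h => h.2⟩ : P.dsum Q ⟶ Q)

/-- The product cone is a limit. -/
def prodFanIsLimit (P Q : GrMod 𝒜) : IsLimit (prodFan P Q) :=
  BinaryFan.isLimitMk
    (fun s => (⟨(s.fst.lin).prod (s.snd.lin), fun n x h =>
      ⟨s.fst.deg_map n x h, s.snd.deg_map n x h⟩⟩ : s.pt ⟶ P.dsum Q))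
    (fun s => rfl) (fun s => rfl)
    (fun s m h1 h2 => hom_ext' fun x => by
      apply Prod.ext
      · exact congrArg (fun f : s.pt ⟶ P => f.lin x) h1
      · exact congrArg (fun f : s.pt ⟶ Q => f.lin x) h2)

instance hasBinaryProducts : HasBinaryProducts (GrMod 𝒜) :=
  have : ∀ {X Y : GrMod 𝒜}, HasLimit (pair X Y) := fun {X Y} =>
    HasLimit.mk ⟨prodFan X Y, prodFanIsLimit X Y⟩
  hasBinaryProducts_of_hasLimit_pair _

theorem additive_of_equiv {B : Type} [Ring B] {ℬ : ℤ → AddSubgroup B}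
    (e : GrMod 𝒜 ≌ GrMod ℬ) : e.functor.Additive :=
  e.functor.additive_of_preserves_binary_products

end GrMod

end Pool.Agent.Y83
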