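import Pool.Agent.Y83.Mc2
import Pool.Agent.Y83.Gm2

set_option linter.unusedSectionVars false
set_option linter.unusedVariables false

/-!
# Graded submodules; equivalences send the regular module to a finitely generated projective
-/

namespace Pool.Agent.Y83

open CategoryTheory MulOpposite

noncomputable section

variable {A : Type} [Ring A] {𝒜 : ℤ → AddSubgroup A}

namespace GrMod

/-- isomorphisms in the category and graded isomorphisms -/
theorem Iso.nonempty {P Q : GrMod 𝒜} (h : GrMod.Iso P Q) : Nonempty (P ≅ Q) := by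
  obtain ⟨f, hf⟩ := h
  exact ⟨{ hom := ⟨f.toLinearMap, fun n x hx => (hf n x).mp hx⟩
           inv := ⟨f.symm.toLinearMap, fun n x hx => by
             rw [hf]
             change f (f.symm x) ∈ _
             rwa [f.apply_symm_apply]⟩
           hom_inv_id := hom_ext' fun x => f.symm_apply_apply x
           inv_hom_id := hom_ext' fun x => f.apply_symm_apply x }⟩

theorem iso_hom_inv {P Q : GrMod 𝒜} (i : P ≅ Q) (x : P.carrier) :
    i.inv.lin (i.hom.lin x) = x := congrArg (fun f : P ⟶ P => f.lin x) i.hom_inv_id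

theorem iso_inv_hom {P Q : GrMod 𝒜} (i : P ≅ Q) (x : Q.carrier) :
    i.hom.lin (i.inv.lin x) = x := congrArg (fun f : Q ⟶ Q => f.lin x) i.inv_hom_id

theorem Iso.of_iso {P Q : GrMod 𝒜} (i : P ≅ Q) : GrMod.Iso P Q := by
  refine ⟨LinearEquiv.ofLinearMap i.hom.lin i.inv.lin
    (LinearMap.ext fun x => iso_inv_hom i x) (LinearMap.ext fun x => iso_hom_inv i x),
    fun n x => ⟨fun hx => i.hom.deg_map n x hx, fun hx => ?_⟩⟩
  have h1 := i.inv.deg_map n _ hx
  change i.inv.lin (i.hom.lin x) ∈ _ at h1
  rwa [iso_hom_inv] at h1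

/-- The linear map from the ring given by an element. -/
def eltL {M : Type} [AddCommGroup M] [Module Aᵐᵒᵖ M] (x : M) : A →ₗ[Aᵐᵒᵖ] M where
  toFun a := op a • x
  map_add' a b := by rw [MulOpposite.op_add]; exact add_smul (op a) (op b) x
  map_smul' c a := by
    change op (a * c.unop) • x = c • op a • x
    rw [MulOpposite.op_mul, op_unop, mul_smul]

/-- The morphism from a shift of the regular module given by a homogeneous element. -/
def elt [GradedRing 𝒜] (M : GrMod 𝒜) {n : ℤ} {x : M.carrier} (hx : x ∈ M.deg (-n)) :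
    (regular 𝒜).shift n ⟶ M where
  lin := eltL (A := A) x
  deg_map m a ha := by
    have h1 : (show A from a) ∈ 𝒜 (m + n) := ha
    have h2 := M.smul_mem _ _ x _ hx h1
    rw [show -n + (m + n) = m by ring] at h2
    exact h2

theorem elt_one [GradedRing 𝒜] (M : GrMod 𝒜) {n : ℤ} {x : M.carrier} (hx : x ∈ M.deg (-n)) :
    (elt M hx).lin (1 : A) = x := by
  change op (1 : A) • x = x
  rw [MulOpposite.op_one, one_smul]

theorem iproj_smul [GradedRing 𝒜] (M : GrMod 𝒜) (n l : ℤ) (x : M.carrier) (a : A) (ha : a ∈ 𝒜 l) :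
    iproj M.internal n (op a • x) = op a • iproj M.internal (n - l) x := by
  induction x using internal_induction M.internal with
  | h0 => simp
  | hadd x y hx hy => rw [smul_add, map_add, hx, hy, map_add, smul_add]
  | hom m x hx =>
    rw [iproj_of_mem M.internal (M.smul_mem m l x a hx ha), iproj_of_mem M.internal hx]
    by_cases h : m + l = n
    · rw [if_pos h, if_pos (by omega)]
    · rw [if_neg h, if_neg (by omega), smul_zero]

/-- Data of a graded submodule. -/
structure Sub (M : GrMod 𝒜) where
  J : ℤ → AddSubgroup M.carrier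
  le : ∀ n, J n ≤ M.deg n
  smul : ∀ n l x a, x ∈ J n → a ∈ 𝒜 l → op a • x ∈ J (n + l)

/-- The underlying submodule. -/
def Sub.mod [GradedRing 𝒜] {M : GrMod 𝒜} (S : M.Sub) : Submodule Aᵐᵒᵖ M.carrier where
  carrier := {x | ∀ n, iproj M.internal n x ∈ S.J n}
  add_mem' {x y} hx hy n := by rw [map_add]; exact AddSubgroup.add_mem _ (hx n) (hy n)
  zero_mem' n := by rw [map_zero]; exact AddSubgroup.zero_mem _
  smul_mem' c x hx := by
    obtain ⟨a, rfl⟩ : ∃ a, op a = c := ⟨c.unop, op_unop c⟩
    have hI : DirectSum.IsInternal 𝒜 := DirectSum.Decomposition.isInternal 𝒜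
    have key : ∀ n, iproj M.internal n (op a • x) ∈ S.J n := by
      induction a using internal_induction hI with
      | h0 => intro n; rw [op_zero, zero_smul, map_zero]; exact AddSubgroup.zero_mem _
      | hadd a b ha hb =>
        intro n
        rw [MulOpposite.op_add, add_smul, map_add]
        exact AddSubgroup.add_mem _ (ha n) (hb n)
      | hom l a ha =>
        intro n
        rw [iproj_smul M n l x a ha]
        have := S.smul _ _ _ _ (hx (n - l)) ha
        rwa [sub_add_cancel] at this
    exact key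

/-- The graded submodule. -/
def Sub.gr [GradedRing 𝒜] {M : GrMod 𝒜} (S : M.Sub) : GrMod 𝒜 where
  carrier := S.mod
  deg n := (M.deg n).comap S.mod.subtype.toAddMonoidHom
  internal := by
    refine isInternal_of_proj _ (fun n x => ⟨iproj M.internal n x.1, ?_⟩) ?_ ?_ ?_ ?_ ?_
    · intro m
      rw [iproj_of_mem M.internal (iproj_mem M.internal n x.1)]
      split_ifs with h
      · subst h; exact x.2 n
      · exact AddSubgroup.zero_mem _
    · intro n; apply Subtype.ext; exact map_zero (iproj M.internal n)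
    · intro n x y; apply Subtype.ext; exact map_add (iproj M.internal n) _ _
    · intro n x; exact iproj_mem M.internal n x.1
    · intro n m x hx
      apply Subtype.ext
      refine (iproj_of_mem M.internal (x := x.1) hx n).trans ?_
      by_cases h : m = n
      · rw [if_pos h, if_pos h]
      · rw [if_neg h, if_neg h]; rfl
    · intro x
      obtain ⟨s, -, hs⟩ := iproj_finite M.internal x.1
      refine ⟨s, ?_⟩
      apply Subtype.ext
      rw [AddSubmonoidClass.coe_finsetSum]
      exact hs s (Finset.Subset.refl s)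
  smul_mem i j m a hm ha := M.smul_mem i j m.1 a hm ha

/-- The inclusion. -/
def Sub.incl [GradedRing 𝒜] {M : GrMod 𝒜} (S : M.Sub) : S.gr ⟶ M :=
  ⟨S.mod.subtype, fun n x hx => hx⟩

/-- Morphisms factor through the graded submodule. -/
def Sub.lift [GradedRing 𝒜] {M Q : GrMod 𝒜} (S : M.Sub) (g : Q ⟶ M)
    (h : ∀ n x, x ∈ Q.deg n → g.lin x ∈ S.J n) : Q ⟶ S.gr :=
  ⟨g.lin.codRestrict S.mod (fun x n => by
    have h1 := iproj_map Q.internal M.internal g.lin.toAddMonoidHom
      (fun n x hx => g.deg_map n x hx) n x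
    have h2 : iproj M.internal n (g.lin x) = g.lin (iproj Q.internal n x) := h1
    rw [h2]
    exact h n _ (iproj_mem Q.internal n x)), fun n x hx => g.deg_map n x hx⟩

theorem Sub.lift_incl [GradedRing 𝒜] {M Q : GrMod 𝒜} (S : M.Sub) (g : Q ⟶ M)
    (h : ∀ n x, x ∈ Q.deg n → g.lin x ∈ S.J n) : S.lift g h ≫ S.incl = g :=
  hom_ext' fun x => rfl

end GrMod

end

end Pool.Agent.Y83
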