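import Pool.Agent.Y83.Mc3

set_option linter.unusedSectionVars false
set_option linter.unusedVariables false

/-!
# Equivalences send the regular module to a finitely generated projective
-/

namespace Pool.Agent.Y83

open CategoryTheory MulOpposite

noncomputable section

namespace GrMod

/-- Retracts of graded free modules are finitely generated graded projective. -/
theorem isFGProj_of_retract {B : Type} [Ring B] {ℬ : ℤ → AddSubgroup B} [GradedRing ℬ]
    (P : GrMod ℬ) {ι : Type} [Fintype ι] [DecidableEq ι] (δ : ι → ℤ)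
    (u : P.carrier →ₗ[Bᵐᵒᵖ] (ι → B)) (v : (ι → B) →ₗ[Bᵐᵒᵖ] P.carrier)
    (hu : ∀ n x, x ∈ P.deg n → u x ∈ (free ℬ δ).deg n)
    (hv : ∀ n x, x ∈ (free ℬ δ).deg n → v x ∈ P.deg n) (huv : ∀ x, v (u x) = x) :
    P.IsFGProj := by
  let π : (ι → B) →ₗ[Bᵐᵒᵖ] (ι → B) := u ∘ₗ v
  have hπg : ∀ m, ∀ x ∈ (free ℬ δ).deg m, π x ∈ (free ℬ δ).deg m :=
    fun m x hx => hu m _ (hv m x hx)
  have he : rmat π * rmat π = rmat π := by
    apply mvl_injective
    intro x
    rw [mvl_mul, mvl_rmat, mvl_rmat]
    change u (v (u (v x))) = u (v x)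
    rw [huv]
  have fix : ∀ x, mvl (rmat π) (u x) = u x := by
    intro x
    refine (mvl_rmat π (u x)).trans ?_
    change u (v (u x)) = u x
    rw [huv]
  have hiso : Iso P (GrMod.ofIdem ℬ δ (rmat π) he (homog_rmat π hπg)) := by
    let φ : P.carrier ≃ₗ[Bᵐᵒᵖ]
        (GrMod.ofIdem ℬ δ (rmat π) he (homog_rmat π hπg)).carrier :=
      { toFun := fun x => ⟨u x, fix x⟩
        map_add' := fun x y => Subtype.ext (map_add u x y)
        map_smul' := fun a x => Subtype.ext (map_smul u a x)
        invFun := fun y => v y.1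
        left_inv := fun x => huv x
        right_inv := fun y => by
          apply Subtype.ext
          have h1 : mvl (rmat π) y.1 = y.1 := y.2
          rw [mvl_rmat] at h1
          exact h1 }
    refine ⟨φ, fun m x => ⟨fun hx => hu m x hx, fun hx => ?_⟩⟩
    have h1 := hv m _ hx
    change v (u x) ∈ _ at h1
    rwa [huv] at h1
  exact IsFGProj.of_iso hiso.symm (isFGProj_ofIdem he (homog_rmat π hπg))

variable {A B : Type} [Ring A] [Ring B] {𝒜 : ℤ → AddSubgroup A} {ℬ : ℤ → AddSubgroup B}
variable (e : GrMod 𝒜 ≌ GrMod ℬ)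
  (τ : shiftFunctor 𝒜 ⋙ e.functor ≅ e.functor ⋙ shiftFunctor ℬ)

theorem Iso.map {P Q : GrMod 𝒜} (h : Iso P Q) : Iso (e.functor.obj P) (e.functor.obj Q) := by
  obtain ⟨i⟩ := h.nonempty
  exact Iso.of_iso (e.functor.mapIso i)

include τ in
theorem shift_comm (n : ℤ) (M : GrMod 𝒜) :
    Iso (e.functor.obj (M.shift n)) ((e.functor.obj M).shift n) := by
  have h1 : ∀ M : GrMod 𝒜, Iso (e.functor.obj (M.shift 1)) ((e.functor.obj M).shift 1) :=
    fun M => Iso.of_iso (τ.app M)
  induction n with
  | zero => exact (Iso.map e (shift_zero M)).trans (shift_zero _).symm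
  | succ n ih =>
    exact (Iso.map e (shift_shift M n 1).symm).trans ((h1 _).trans
      ((ih.shift 1).trans (shift_shift _ n 1)))
  | pred n ih =>
    have h2 : Iso ((e.functor.obj (M.shift (-n - 1))).shift 1) ((e.functor.obj M).shift (-n)) := by
      have h3 := (h1 (M.shift (-n - 1))).symm.trans (Iso.map e (shift_shift M (-n - 1) 1))
      rw [show -(n : ℤ) - 1 + 1 = -n by ring] at h3
      exact h3.trans ih
    have h4 := (h2.shift (-1)).trans (shift_shift _ (-n) (-1))
    have h5 := (shift_shift (e.functor.obj (M.shift (-n - 1))) 1 (-1))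
    rw [show (1 : ℤ) + -1 = 0 by ring] at h5
    exact ((shift_zero _).symm.trans h5.symm).trans h4

variable [GradedRing 𝒜] [GradedRing ℬ]

/-- the unit element of a shift of the regular module -/
def regOne (ℬ : ℤ → AddSubgroup B) [GradedRing ℬ] (n : ℤ) : ((regular ℬ).shift n).carrier :=
  (1 : B)

theorem elt_regOne (M : GrMod ℬ) {n : ℤ} {x : M.carrier} (hx : x ∈ M.deg (-n)) :
    (elt M hx).lin (regOne ℬ n) = x := elt_one M hx

/-- the preimage of the regular module -/
def pre : GrMod 𝒜 := e.inverse.obj (regular ℬ)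

include τ in
theorem pre_shift (n : ℤ) : Iso (e.functor.obj ((pre e).shift n)) ((regular ℬ).shift n) :=
  (shift_comm e τ n (pre e)).trans ((Iso.of_iso (e.counitIso.app (regular ℬ))).shift n)

/-- The graded submodule generated by the images of the shifts of the preimage. -/
def trSub : (regular 𝒜).Sub where
  J n := AddSubgroup.closure {y | ∃ (k : ℤ) (g : (pre e).shift k ⟶ regular 𝒜)
    (x : ((pre e).shift k).carrier), x ∈ ((pre e).shift k).deg n ∧ g.lin x = y}
  le n := by
    rw [AddSubgroup.closure_le]
    rintro _ ⟨k, g, x, hx, rfl⟩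
    exact g.deg_map n x hx
  smul n l y a hy ha := by
    induction hy using AddSubgroup.closure_induction with
    | mem y hy =>
      obtain ⟨k, g, x, hx, rfl⟩ := hy
      refine AddSubgroup.subset_closure ⟨k, g, op a • x, ?_, ?_⟩
      · exact ((pre e).shift k).smul_mem n l x a hx ha
      · exact map_smul g.lin (op a) x
    | zero => rw [smul_zero]; exact AddSubgroup.zero_mem _
    | add y y' _ _ h h' => rw [smul_add]; exact AddSubgroup.add_mem _ h h'
    | neg y _ h => rw [smul_neg]; exact AddSubgroup.neg_mem _ h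

/-- every morphism from a shift of the preimage factors -/
theorem exists_lift {k : ℤ} (g : (pre e).shift k ⟶ regular 𝒜) :
    ∃ g' : (pre e).shift k ⟶ (trSub e).gr, g' ≫ (trSub e).incl = g :=
  ⟨(trSub e).lift g (fun n x hx => AddSubgroup.subset_closure ⟨k, g, x, hx, rfl⟩),
    (trSub e).lift_incl g _⟩

include τ in
theorem map_incl_surjective : Function.Surjective (e.functor.map (trSub e).incl).lin := by
  have key : ∀ y, ∃ x, (e.functor.map (trSub e).incl).lin x = y := by
    intro y
    induction y using internal_induction (e.functor.obj (regular 𝒜)).internal with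
    | h0 => exact ⟨0, map_zero _⟩
    | hadd y y' h h' =>
      obtain ⟨x, rfl⟩ := h
      obtain ⟨x', rfl⟩ := h'
      exact ⟨x + x', map_add _ _ _⟩
    | hom n y hy =>
      obtain ⟨θ⟩ := (pre_shift e τ (-n)).nonempty
      have hy' : y ∈ (e.functor.obj (regular 𝒜)).deg (-(-n)) := by rwa [neg_neg]
      obtain ⟨g', hg'⟩ := exists_lift e (e.functor.preimage (θ.hom ≫ elt _ hy'))
      have h1 : e.functor.map g' ≫ e.functor.map (trSub e).incl = θ.hom ≫ elt _ hy' := by
        rw [← e.functor.map_comp, hg', e.functor.map_preimage]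
      refine ⟨(e.functor.map g').lin (θ.inv.lin (regOne ℬ (-n))), ?_⟩
      have h2 := congrArg (fun f : e.functor.obj ((pre e).shift (-n)) ⟶
        e.functor.obj (regular 𝒜) => f.lin (θ.inv.lin (regOne ℬ (-n)))) h1
      refine h2.trans ?_
      change (elt _ hy').lin (θ.hom.lin (θ.inv.lin (regOne ℬ (-n)))) = y
      rw [iso_inv_hom]
      exact elt_regOne _ hy'
  exact key

include τ in
theorem map_incl_injective : Function.Injective (e.functor.map (trSub e).incl).lin := by
  have hadd : e.functor.Additive := additive_of_equiv e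
  rw [injective_iff_map_eq_zero]
  intro x hx
  have hI := (e.functor.obj (trSub e).gr).internal
  have hI' := (e.functor.obj (regular 𝒜)).internal
  apply iproj_ext hI
  intro n
  rw [map_zero]
  -- the component of degree `n` is killed
  have h1 : (e.functor.map (trSub e).incl).lin (iproj hI n x) = 0 := by
    have h2 := iproj_map hI hI' (e.functor.map (trSub e).incl).lin.toAddMonoidHom
      (fun n x hx => (e.functor.map (trSub e).incl).deg_map n x hx) n x
    have h3 : iproj hI' n ((e.functor.map (trSub e).incl).lin x) =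
      (e.functor.map (trSub e).incl).lin (iproj hI n x) := h2
    rw [← h3, hx, map_zero]
  have hy := iproj_mem hI n x
  generalize iproj hI n x = y at h1 hy
  obtain ⟨θ⟩ := (pre_shift e τ (-n)).nonempty
  have hy' : y ∈ (e.functor.obj (trSub e).gr).deg (-(-n)) := by rwa [neg_neg]
  let g := e.functor.preimage (θ.hom ≫ elt _ hy')
  have hg : e.functor.map g = θ.hom ≫ elt _ hy' := e.functor.map_preimage _
  have h4 : g ≫ (trSub e).incl = 0 := by
    apply e.functor.map_injective
    rw [e.functor.map_comp, hg, e.functor.map_zero]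
    apply hom_ext'
    intro b
    change (e.functor.map (trSub e).incl).lin (op (show B from θ.hom.lin b) • y) = 0
    rw [map_smul, h1, smul_zero]
  have h5 : g = 0 := by
    apply hom_ext'
    intro b
    apply Subtype.ext
    exact congrArg (fun f : (pre e).shift (-n) ⟶ regular 𝒜 => f.lin b) h4
  rw [h5, e.functor.map_zero] at hg
  have h6 := congrArg (fun f : e.functor.obj ((pre e).shift (-n)) ⟶
    e.functor.obj (trSub e).gr => f.lin (θ.inv.lin (regOne ℬ (-n)))) hg
  change 0 = (elt _ hy').lin (θ.hom.lin (θ.inv.lin (regOne ℬ (-n)))) at h6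
  rw [iso_inv_hom] at h6
  exact (elt_regOne _ hy').symm.trans h6.symm

end GrMod

end

end Pool.Agent.Y83
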