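import Pool.Agent.Y83.Mc4

set_option linter.unusedSectionVars false
set_option linter.unusedVariables false

/-!
# Equivalences send the regular module to a finitely generated projective (conclusion)
-/

namespace Pool.Agent.Y83

open CategoryTheory MulOpposite

noncomputable section

namespace GrMod

/-- Bijective morphisms are isomorphisms. -/
theorem isIso_of_bijective {B : Type} [Ring B] {ℬ : ℤ → AddSubgroup B} {P Q : GrMod ℬ}
    (f : P ⟶ Q) (hf : Function.Bijective f.lin) : IsIso f := by
  let φ := LinearEquiv.ofBijective f.lin hf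
  have hdeg : ∀ n y, y ∈ Q.deg n → φ.symm y ∈ P.deg n := by
    intro n y hy
    rw [mem_iff_iproj P.internal]
    intro m
    apply hf.1
    have h1 := iproj_map P.internal Q.internal f.lin.toAddMonoidHom
      (fun n x hx => f.deg_map n x hx) m (φ.symm y)
    have h2 : iproj Q.internal m (f.lin (φ.symm y)) = f.lin (iproj P.internal m (φ.symm y)) := h1
    have h3 : f.lin (φ.symm y) = y := φ.apply_symm_apply y
    rw [← h2, h3, iproj_of_mem Q.internal hy]
    split_ifs
    · exact h3.symm
    · exact (map_zero f.lin).symm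
  exact ⟨⟨φ.symm.toLinearMap, hdeg⟩, hom_ext' fun x => φ.symm_apply_apply x,
    hom_ext' fun x => φ.apply_symm_apply x⟩

variable {A B : Type} [Ring A] [Ring B] {𝒜 : ℤ → AddSubgroup A} {ℬ : ℤ → AddSubgroup B}
variable (e : GrMod 𝒜 ≌ GrMod ℬ)
  (τ : shiftFunctor 𝒜 ⋙ e.functor ≅ e.functor ⋙ shiftFunctor ℬ)
variable [GradedRing 𝒜] [GradedRing ℬ]

/-- the unit element of the regular module -/
def one0 (𝒜 : ℤ → AddSubgroup A) [GradedRing 𝒜] : (regular 𝒜).carrier := (1 : A)

include τ in
theorem one_mem_trSub : one0 𝒜 ∈ (trSub e).J 0 := by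
  have h1 : IsIso (e.functor.map (trSub e).incl) :=
    isIso_of_bijective _ ⟨map_incl_injective e τ, map_incl_surjective e τ⟩
  have h2 : IsIso (trSub e).incl := isIso_of_reflects_iso _ e.functor
  have h3 := congrArg (fun f : regular 𝒜 ⟶ regular 𝒜 => f.lin (one0 𝒜))
    (IsIso.inv_hom_id (trSub e).incl)
  have h4 : ((inv (trSub e).incl).lin (one0 𝒜) : (trSub e).mod).1 = one0 𝒜 := h3
  have h5 := ((inv (trSub e).incl).lin (one0 𝒜) : (trSub e).mod).2 0
  have h6 : iproj (regular 𝒜).internal 0 (one0 𝒜) = one0 𝒜 := by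
    have h7 : (one0 𝒜) ∈ (regular 𝒜).deg 0 := SetLike.one_mem_graded 𝒜
    rw [iproj_of_mem (regular 𝒜).internal h7, if_pos rfl]
  have h8 : iproj (regular 𝒜).internal 0 (((inv (trSub e).incl).lin (one0 𝒜) :
    (trSub e).mod).1) ∈ (trSub e).J 0 := h5
  rw [h4, h6] at h8
  exact h8

/-- finite sums of values of morphisms at elements of degree zero -/
theorem exists_dual {y : (regular 𝒜).carrier} (hy : y ∈ (trSub e).J 0) :
    ∃ (ι : Type) (_ : Fintype ι) (_ : DecidableEq ι) (k : ι → ℤ)
      (g : ∀ i, (pre e).shift (k i) ⟶ regular 𝒜) (x : ∀ i, ((pre e).shift (k i)).carrier),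
      (∀ i, x i ∈ ((pre e).shift (k i)).deg 0) ∧ ∑ i, (g i).lin (x i) = y := by
  change y ∈ AddSubgroup.closure {y | ∃ (k : ℤ) (g : (pre e).shift k ⟶ regular 𝒜)
    (x : ((pre e).shift k).carrier), x ∈ ((pre e).shift k).deg 0 ∧ g.lin x = y} at hy
  induction hy using AddSubgroup.closure_induction with
  | mem y hy =>
    obtain ⟨k, g, x, hx, rfl⟩ := hy
    exact ⟨Unit, inferInstance, inferInstance, fun _ => k, fun _ => g, fun _ => x, fun _ => hx,
      by simp⟩
  | zero =>
    exact ⟨Empty, inferInstance, inferInstance, fun i => i.elim, fun i => i.elim,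
      fun i => i.elim, fun i => i.elim, by simp⟩
  | add y y' h h' ih ih' =>
    obtain ⟨ι, _, _, k, g, x, hx, h1⟩ := ih
    obtain ⟨ι', _, _, k', g', x', hx', h1'⟩ := ih'
    refine ⟨ι ⊕ ι', inferInstance, inferInstance, Sum.elim k k',
      fun i => match i with
        | Sum.inl i => g i
        | Sum.inr i => g' i,
      fun i => match i with
        | Sum.inl i => x i
        | Sum.inr i => x' i, ?_, ?_⟩
    · rintro (i | i)
      · exact hx i
      · exact hx' i
    · rw [Fintype.sum_sum_type]
      exact congrArg₂ (· + ·) h1 h1'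
  | neg y h ih =>
    obtain ⟨ι, _, _, k, g, x, hx, h1⟩ := ih
    refine ⟨ι, inferInstance, inferInstance, k, g, fun i => -(x i), fun i =>
      AddSubgroup.neg_mem _ (hx i), ?_⟩
    rw [← h1, ← Finset.sum_neg_distrib]
    exact Finset.sum_congr rfl fun i _ => map_neg _ _

/-- The morphism from the regular module given by an element of degree zero. -/
def elt0 (M : GrMod 𝒜) {x : M.carrier} (hx : x ∈ M.deg 0) : regular 𝒜 ⟶ M where
  lin := eltL (A := A) x
  deg_map m a ha := by
    have h1 : (show A from a) ∈ 𝒜 m := ha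
    have h2 := M.smul_mem _ _ x _ hx h1
    rw [zero_add] at h2
    exact h2

theorem sum_lin {P Q : GrMod 𝒜} {ι : Type} (s : Finset ι) (f : ι → (P ⟶ Q)) (x : P.carrier) :
    (∑ i ∈ s, f i).lin x = ∑ i ∈ s, (f i).lin x := by
  classical
  induction s using Finset.induction_on with
  | empty => simp [zero_lin]
  | insert a s ha ih => rw [Finset.sum_insert ha, Finset.sum_insert ha, add_lin, ih]

include τ in
/-- The image of the regular module is finitely generated graded projective. -/
theorem isFGProj_map_regular : (e.functor.obj (regular 𝒜)).IsFGProj := by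
  have hadd : e.functor.Additive := additive_of_equiv e
  obtain ⟨ι, _, _, k, g, x, hx, h1⟩ := exists_dual e (one_mem_trSub e τ)
  have hθ : ∀ i, Nonempty (e.functor.obj ((pre e).shift (k i)) ≅ (regular ℬ).shift (k i)) :=
    fun i => (pre_shift e τ (k i)).nonempty
  let θ := fun i => (hθ i).some
  have h2 : ∑ i, elt0 _ (hx i) ≫ g i = 𝟙 (regular 𝒜) := by
    apply hom_ext'
    intro a
    rw [sum_lin]
    change ∑ i, (g i).lin (op (show A from a) • x i) = a
    change ∑ i, (g i).lin (x i) = one0 𝒜 at h1
    have h3 : ∀ i, (g i).lin (op (show A from a) • x i) =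
        op (show A from a) • (g i).lin (x i) := fun i => map_smul _ _ _
    rw [Finset.sum_congr rfl fun i _ => h3 i, ← Finset.smul_sum, h1]
    change (1 : A) * (show A from a) = a
    exact one_mul _
  let u := fun i => e.functor.map (elt0 _ (hx i)) ≫ (θ i).hom
  let v := fun i => (θ i).inv ≫ e.functor.map (g i)
  have h3 : ∑ i, u i ≫ v i = 𝟙 (e.functor.obj (regular 𝒜)) := by
    rw [← e.functor.map_id, ← h2, e.functor.map_sum]
    refine Finset.sum_congr rfl fun i _ => ?_
    simp only [u, v, Category.assoc, Iso.hom_inv_id_assoc, e.functor.map_comp]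
  let U : (e.functor.obj (regular 𝒜)).carrier →ₗ[Bᵐᵒᵖ] (ι → B) :=
    LinearMap.pi (fun i => (u i).lin)
  let V : (ι → B) →ₗ[Bᵐᵒᵖ] (e.functor.obj (regular 𝒜)).carrier :=
    { toFun := fun y => ∑ i, (v i).lin (y i)
      map_add' := fun y y' => by
        rw [← Finset.sum_add_distrib]
        exact Finset.sum_congr rfl fun i _ => map_add (v i).lin (y i) (y' i)
      map_smul' := fun a y => by
        rw [RingHom.id_apply, Finset.smul_sum]
        exact Finset.sum_congr rfl fun i _ => map_smul (v i).lin a (y i) }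
  refine isFGProj_of_retract _ k U V ?_ ?_ ?_
  · intro n y hy i _
    exact (u i).deg_map n y hy
  · intro n y hy
    refine AddSubgroup.sum_mem _ fun i _ => ?_
    exact (v i).deg_map n (y i) (hy i (Set.mem_univ _))
  · intro y
    have h4 := congrArg (fun f : e.functor.obj (regular 𝒜) ⟶ e.functor.obj (regular 𝒜) =>
      f.lin y) h3
    change (∑ i, u i ≫ v i).lin y = y at h4
    rw [sum_lin] at h4
    exact h4

end GrMod

end

end Pool.Agent.Y83
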