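import Pool.Agent.Y83.Mr3

set_option linter.unusedSectionVars false
set_option linter.unusedVariables false
set_option linter.style.haveILetI false

/-!
# Central elements of exhausting families; transport of families
-/

namespace Pool.Agent.Y83

open MulOpposite

noncomputable section

namespace CKF

variable {K : Type} [Field K] {B : Type} [Ring B] [Algebra K B] {G : FGraph}

theorem map_mem_levS {B' : Type} [Ring B'] [Algebra K B'] (γ : CKF G B) (f : B →ₐ[K] B') (i : ℕ) :
    ∀ t ∈ γ.levS K i, f t ∈ (γ.map (f : B →+* B')).levS K i := by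
  induction i with
  | zero =>
    intro t ht
    have h : γ.levS K 0 ≤ ((γ.map (f : B →+* B')).levS K 0).comap f.toLinearMap := by
      refine Submodule.span_le.mpr ?_
      rintro _ ⟨v, rfl⟩
      exact (γ.map (f : B →+* B')).q_mem_levS_zero K v
    exact h ht
  | succ i ih =>
    intro t ht
    have h : γ.levS K (i + 1) ≤ ((γ.map (f : B →+* B')).levS K (i + 1)).comap f.toLinearMap := by
      refine γ.levS_succ_le K fun t ht e e' => ?_
      change f (γ.z e * t * γ.w e') ∈ (γ.map (f : B →+* B')).levS K (i + 1)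
      rw [map_mul, map_mul]
      exact (γ.map (f : B →+* B')).zw_mem K (ih t ht) e e'
    exact h ht

/-- the edge relation -/
def _root_.Pool.Agent.Y83.FGraph.Edge (G : FGraph) (a b : G.V) : Prop :=
  ∃ e, G.s e = a ∧ G.r e = b

/-- vertices that receive a path of length `j` -/
def _root_.Pool.Agent.Y83.FGraph.Rc (G : FGraph) : ℕ → G.V → Prop
  | 0, _ => True
  | j + 1, v => ∃ e, G.r e = v ∧ FGraph.Rc G j (G.s e)

theorem _root_.Pool.Agent.Y83.FGraph.exists_Rc (G : FGraph) (hG : G.NoSinks) (v0 : G.V)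
    (j : ℕ) : ∃ v, G.Rc j v := by
  induction j with
  | zero => exact ⟨v0, trivial⟩
  | succ j ih =>
    obtain ⟨v, hv⟩ := ih
    obtain ⟨e, he⟩ := hG v
    exact ⟨G.r e, e, rfl, by rw [he]; exact hv⟩

/-- Central elements in a level are scalars. -/
theorem center_scalar (η : CKF G B) (hη : ∀ v, η.q v ≠ 0) (hG : G.NoSinks) (v0 : G.V)
    (hv0 : ∀ v, Relation.ReflTransGen G.Edge v v0) {z : B} {m : ℕ} (hz : z ∈ η.levS K m)
    (hzz : ∀ e, z * η.z e = η.z e * z) (hzw : ∀ e, z * η.w e = η.w e * z) :
    ∃ c : K, z = c • (1 : B) := by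
  -- the scalars at vertices with long incoming paths
  have h1 : ∀ j v, G.Rc j v → z * η.q v ∈ η.levS K (m - j) := by
    intro j
    induction j with
    | zero =>
      intro v _
      rw [Nat.sub_zero]
      exact η.mul_q_mem K m z hz v
    | succ j ih =>
      rintro v ⟨e, rfl, he⟩
      have h2 := η.wz_mem' K (m - j) _ (ih _ he) e e
      have h3 : η.w e * (z * η.q (G.s e)) * η.z e = z * η.q (G.r e) := by
        rw [← mul_assoc, ← hzw, mul_assoc, mul_assoc, η.sz, η.ck1, if_pos rfl]
      rw [h3] at h2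
      rwa [show m - (j + 1) = m - j - 1 by omega]
  have h2 : ∀ v, z * η.q v ∈ η.levS K 0 → ∃ c : K, z * η.q v = c • η.q v := by
    intro v hv
    obtain ⟨c, hc⟩ := η.qlin_surj K _ hv
    refine ⟨c v, ?_⟩
    have h3 : z * η.q v = (z * η.q v) * η.q v := by rw [mul_assoc, η.qq, if_pos rfl]
    rw [h3, ← hc, qlin_apply, Finset.sum_mul, Finset.sum_eq_single v]
    · rw [smul_mul_assoc, η.qq, if_pos rfl]
    · intro w _ hw
      rw [smul_mul_assoc, η.qq, if_neg hw, smul_zero]
    · intro h; exact absurd (Finset.mem_univ _) h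
  -- forward propagation
  have h3 : ∀ (c : K) e, z * η.q (G.s e) = c • η.q (G.s e) → z * η.q (G.r e) = c • η.q (G.r e) := by
    intro c e h
    have h4 : η.w e * (z * η.q (G.s e)) * η.z e = z * η.q (G.r e) := by
      rw [← mul_assoc, ← hzw, mul_assoc, mul_assoc, η.sz, η.ck1, if_pos rfl]
    rw [← h4, h, mul_smul_comm, smul_mul_assoc, η.ws, η.ck1, if_pos rfl]
  have h4 : ∀ (c : K) v w, Relation.ReflTransGen G.Edge v w → z * η.q v = c • η.q v →
      z * η.q w = c • η.q w := by
    intro c v w hvw h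
    induction hvw with
    | refl => exact h
    | tail _ hbc ih =>
      obtain ⟨e, rfl, rfl⟩ := hbc
      exact h3 c e ih
  obtain ⟨v1, hv1⟩ := G.exists_Rc hG v0 m
  obtain ⟨c0, hc0⟩ := h2 v1 (by
    have := h1 m v1 hv1
    rwa [Nat.sub_self] at this)
  have hc00 := h4 c0 v1 v0 (hv0 v1) hc0
  have h5 : ∀ v, G.Rc m v → z * η.q v = c0 • η.q v := by
    intro v hv
    obtain ⟨c, hc⟩ := h2 v (by
      have := h1 m v hv
      rwa [Nat.sub_self] at this)
    have h6 := h4 c v v0 (hv0 v) hc
    rw [hc00] at h6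
    have h7 : (c0 - c) • η.q v0 = 0 := by rw [sub_smul, h6, sub_self]
    rcases smul_eq_zero.mp h7 with h8 | h8
    · rw [hc, sub_eq_zero.mp h8]
    · exact absurd h8 (hη v0)
  -- backward propagation
  have h6 : ∀ i, i ≤ m → ∀ v, G.Rc (m - i) v → z * η.q v = c0 • η.q v := by
    intro i
    induction i with
    | zero => intro _ v hv; exact h5 v hv
    | succ i ih =>
      intro hi v hv
      have h7 : ∀ e, G.s e = v → z * η.q (G.r e) = c0 • η.q (G.r e) := by
        intro e he
        refine ih (by omega) _ ?_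
        rw [show m - i = m - (i + 1) + 1 by omega]
        exact ⟨e, rfl, by rw [he]; exact hv⟩
      rw [← η.ck2 v, Finset.mul_sum, Finset.smul_sum]
      refine Finset.sum_congr rfl fun e he => ?_
      have h8 := h7 e (Finset.mem_filter.mp he).2
      calc z * (η.z e * η.w e) = z * (η.z e * η.q (G.r e)) * η.w e := by
            rw [η.zr, mul_assoc]
        _ = η.z e * (z * η.q (G.r e)) * η.w e := by
            rw [← mul_assoc z, hzz]
            simp only [mul_assoc]
        _ = c0 • (η.z e * η.w e) := by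
            rw [h8, mul_smul_comm, smul_mul_assoc, η.zr]
  refine ⟨c0, ?_⟩
  have h9 : ∀ v, z * η.q v = c0 • η.q v := by
    intro v
    refine h6 m le_rfl v ?_
    rw [Nat.sub_self]
    trivial
  calc z = z * ∑ v, η.q v := by rw [η.one, mul_one]
    _ = c0 • ∑ v, η.q v := by
        rw [Finset.mul_sum, Finset.smul_sum]
        exact Finset.sum_congr rfl fun v _ => h9 v
    _ = c0 • 1 := by rw [η.one]

end CKF

section conj

attribute [local instance] endAlg

variable (K : Type) [Field K] {A : Type} [Ring A] [Algebra K A] {M N : Type} [AddCommGroup M]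
  [Module Aᵐᵒᵖ M] [AddCommGroup N] [Module Aᵐᵒᵖ N]

/-- Conjugation by a linear isomorphism. -/
def conjHom (φ : M ≃ₗ[Aᵐᵒᵖ] N) : Module.End Aᵐᵒᵖ N →ₐ[K] Module.End Aᵐᵒᵖ M where
  toFun g := φ.symm.toLinearMap ∘ₗ g ∘ₗ φ.toLinearMap
  map_one' := LinearMap.ext fun x => φ.symm_apply_apply x
  map_mul' g h := LinearMap.ext fun x => by
    change φ.symm (g (h (φ x))) = φ.symm (g (φ (φ.symm (h (φ x)))))
    rw [φ.apply_symm_apply]
  map_zero' := LinearMap.ext fun x => map_zero φ.symm
  map_add' g h := LinearMap.ext fun x => map_add φ.symm _ _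
  commutes' c := LinearMap.ext fun x => by
    change φ.symm (op (algebraMap K A c) • φ x) = op (algebraMap K A c) • x
    rw [map_smul, φ.symm_apply_apply]

theorem conjHom_apply (φ : M ≃ₗ[Aᵐᵒᵖ] N) (g : Module.End Aᵐᵒᵖ N) (x : M) :
    conjHom K φ g x = φ.symm (g (φ x)) := rfl

end conj

end

end Pool.Agent.Y83
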