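import Pool.Agent.Y83.Mc5
import Pool.Agent.Y83.Mc6

set_option linter.unusedSectionVars false
set_option linter.unusedVariables false

/-!
# The action of a graded ring on the image of its regular module
-/

namespace Pool.Agent.Y83

open CategoryTheory MulOpposite

noncomputable section

namespace GrMod

variable {A B : Type} [Ring A] [Ring B] {𝒜 : ℤ → AddSubgroup A} {ℬ : ℤ → AddSubgroup B}
variable [GradedRing 𝒜] [GradedRing ℬ]

/-- the shift of a morphism -/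
def sh {P Q : GrMod 𝒜} (f : P ⟶ Q) : P.shift 1 ⟶ Q.shift 1 := (shiftFunctor 𝒜).map f

/-- multiplication by an element of degree zero -/
def m0 (a : A) (ha : a ∈ 𝒜 0) : regular 𝒜 ⟶ regular 𝒜 := elt0 (regular 𝒜) ha

/-- multiplication by an element of degree one -/
def m1 (a : A) (ha : a ∈ 𝒜 1) : regular 𝒜 ⟶ (regular 𝒜).shift 1 :=
  elt0 ((regular 𝒜).shift 1) (x := (show ((regular 𝒜).shift 1).carrier from a)) ha

/-- multiplication by an element of degree minus one -/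
def mm (a : A) (ha : a ∈ 𝒜 (-1)) : (regular 𝒜).shift 1 ⟶ regular 𝒜 :=
  elt (regular 𝒜) (x := (show (regular 𝒜).carrier from a)) ha

theorem m0_lin (a : A) (ha : a ∈ 𝒜 0) (x : (regular 𝒜).carrier) :
    (m0 a ha).lin x = (a * (show A from x) : A) := rfl

theorem m1_lin (a : A) (ha : a ∈ 𝒜 1) (x : (regular 𝒜).carrier) :
    (m1 a ha).lin x = (a * (show A from x) : A) := rfl

theorem mm_lin (a : A) (ha : a ∈ 𝒜 (-1)) (x : ((regular 𝒜).shift 1).carrier) :
    (mm a ha).lin x = (a * (show A from x) : A) := rfl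

theorem m0_m0 (a b : A) (ha : a ∈ 𝒜 0) (hb : b ∈ 𝒜 0) (hab : a * b ∈ 𝒜 0) :
    m0 b hb ≫ m0 a ha = m0 (a * b) hab := hom_ext' fun x => (mul_assoc a b _).symm

theorem m0_m1 (a b : A) (ha : a ∈ 𝒜 0) (hb : b ∈ 𝒜 1) (hab : a * b ∈ 𝒜 1) :
    m1 b hb ≫ sh (m0 a ha) = m1 (a * b) hab :=
  hom_ext' fun x => (mul_assoc a b _).symm

theorem m1_m0 (a b : A) (ha : a ∈ 𝒜 1) (hb : b ∈ 𝒜 0) (hab : a * b ∈ 𝒜 1) :
    m0 b hb ≫ m1 a ha = m1 (a * b) hab := hom_ext' fun x => (mul_assoc a b _).symm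

theorem m0_mm (a b : A) (ha : a ∈ 𝒜 0) (hb : b ∈ 𝒜 (-1)) (hab : a * b ∈ 𝒜 (-1)) :
    mm b hb ≫ m0 a ha = mm (a * b) hab := hom_ext' fun x => (mul_assoc a b _).symm

theorem mm_m0 (a b : A) (ha : a ∈ 𝒜 (-1)) (hb : b ∈ 𝒜 0) (hab : a * b ∈ 𝒜 (-1)) :
    sh (m0 b hb) ≫ mm a ha = mm (a * b) hab :=
  hom_ext' fun x => (mul_assoc a b _).symm

theorem mm_m1 (a b : A) (ha : a ∈ 𝒜 (-1)) (hb : b ∈ 𝒜 1) (hab : a * b ∈ 𝒜 0) :
    m1 b hb ≫ mm a ha = m0 (a * b) hab := hom_ext' fun x => (mul_assoc a b _).symm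

theorem m1_mm (a b : A) (ha : a ∈ 𝒜 1) (hb : b ∈ 𝒜 (-1)) (hab : a * b ∈ 𝒜 0) :
    mm b hb ≫ m1 a ha = sh (m0 (a * b) hab) :=
  hom_ext' fun x => (mul_assoc a b _).symm

variable (e : GrMod 𝒜 ≌ GrMod ℬ)
  (τ : shiftFunctor 𝒜 ⋙ e.functor ≅ e.functor ⋙ shiftFunctor ℬ)

/-- the image module -/
abbrev im : GrMod ℬ := e.functor.obj (regular 𝒜)

/-- the comparison morphism -/
def th (P : GrMod 𝒜) : e.functor.obj (P.shift 1) ⟶ (e.functor.obj P).shift 1 := τ.hom.app P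

/-- the inverse comparison morphism -/
def ti (P : GrMod 𝒜) : (e.functor.obj P).shift 1 ⟶ e.functor.obj (P.shift 1) := τ.inv.app P

theorem th_ti (P : GrMod 𝒜) : th e τ P ≫ ti e τ P = 𝟙 _ := τ.hom_inv_id_app P

theorem ti_th (P : GrMod 𝒜) : ti e τ P ≫ th e τ P = 𝟙 _ := τ.inv_hom_id_app P

/-- the action of degree zero elements -/
def Φ0 (a : A) (ha : a ∈ 𝒜 0) : Module.End Bᵐᵒᵖ (im e).carrier := (e.functor.map (m0 a ha)).lin

/-- the action of degree one elements, as a morphism -/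
def M1 (a : A) (ha : a ∈ 𝒜 1) : im e ⟶ (im e).shift 1 :=
  e.functor.map (m1 a ha) ≫ th e τ (regular 𝒜)

/-- the action of degree one elements -/
def Φ1 (a : A) (ha : a ∈ 𝒜 1) : Module.End Bᵐᵒᵖ (im e).carrier := (M1 e τ a ha).lin

/-- the action of degree minus one elements, as a morphism -/
def MM (a : A) (ha : a ∈ 𝒜 (-1)) : (im e).shift 1 ⟶ im e :=
  ti e τ (regular 𝒜) ≫ e.functor.map (mm a ha)

/-- the action of degree minus one elements -/
def Φm (a : A) (ha : a ∈ 𝒜 (-1)) : Module.End Bᵐᵒᵖ (im e).carrier := (MM e τ a ha).lin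

theorem naturality_hom {P Q : GrMod 𝒜} (f : P ⟶ Q) :
    e.functor.map (sh f) ≫ th e τ Q = th e τ P ≫ sh (e.functor.map f) := τ.hom.naturality f

theorem naturality_inv {P Q : GrMod 𝒜} (f : P ⟶ Q) :
    sh (e.functor.map f) ≫ ti e τ Q = ti e τ P ≫ e.functor.map (sh f) := τ.inv.naturality f

theorem hom_inv_app (P : GrMod 𝒜) {R : GrMod ℬ} (g : e.functor.obj (P.shift 1) ⟶ R) :
    th e τ P ≫ (ti e τ P ≫ g) = g := by
  rw [← Category.assoc, th_ti, Category.id_comp]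

theorem inv_hom_app (P : GrMod 𝒜) {R : GrMod ℬ} (g : (e.functor.obj P).shift 1 ⟶ R) :
    ti e τ P ≫ (th e τ P ≫ g) = g := by
  rw [← Category.assoc, ti_th, Category.id_comp]

theorem Φ0_mul (a b : A) (ha : a ∈ 𝒜 0) (hb : b ∈ 𝒜 0) (hab : a * b ∈ 𝒜 0) :
    Φ0 e a ha * Φ0 e b hb = Φ0 e (a * b) hab := by
  have h : e.functor.map (m0 b hb) ≫ e.functor.map (m0 a ha) = e.functor.map (m0 (a * b) hab) := by
    rw [← e.functor.map_comp, m0_m0]
  exact congrArg (fun f : im e ⟶ im e => f.lin) h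

theorem Φ0_Φ1 (a b : A) (ha : a ∈ 𝒜 0) (hb : b ∈ 𝒜 1) (hab : a * b ∈ 𝒜 1) :
    Φ0 e a ha * Φ1 e τ b hb = Φ1 e τ (a * b) hab := by
  have h : M1 e τ b hb ≫ sh (e.functor.map (m0 a ha)) =
      M1 e τ (a * b) hab := by
    unfold M1
    rw [Category.assoc]
    have h1 := naturality_hom e τ (m0 a ha)
    rw [← h1, ← Category.assoc, ← e.functor.map_comp, m0_m1]
  exact congrArg (fun f : im e ⟶ (im e).shift 1 => f.lin) h

theorem Φ1_Φ0 (a b : A) (ha : a ∈ 𝒜 1) (hb : b ∈ 𝒜 0) (hab : a * b ∈ 𝒜 1) :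
    Φ1 e τ a ha * Φ0 e b hb = Φ1 e τ (a * b) hab := by
  have h : e.functor.map (m0 b hb) ≫ M1 e τ a ha = M1 e τ (a * b) hab := by
    unfold M1
    rw [← Category.assoc, ← e.functor.map_comp, m1_m0]
  exact congrArg (fun f : im e ⟶ (im e).shift 1 => f.lin) h

theorem Φ0_Φm (a b : A) (ha : a ∈ 𝒜 0) (hb : b ∈ 𝒜 (-1)) (hab : a * b ∈ 𝒜 (-1)) :
    Φ0 e a ha * Φm e τ b hb = Φm e τ (a * b) hab := by
  have h : MM e τ b hb ≫ e.functor.map (m0 a ha) = MM e τ (a * b) hab := by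
    unfold MM
    rw [Category.assoc, ← e.functor.map_comp, m0_mm]
  exact congrArg (fun f : (im e).shift 1 ⟶ im e => f.lin) h

theorem Φm_Φ0 (a b : A) (ha : a ∈ 𝒜 (-1)) (hb : b ∈ 𝒜 0) (hab : a * b ∈ 𝒜 (-1)) :
    Φm e τ a ha * Φ0 e b hb = Φm e τ (a * b) hab := by
  have h : sh (e.functor.map (m0 b hb)) ≫ MM e τ a ha =
      MM e τ (a * b) hab := by
    unfold MM
    have h1 := naturality_inv e τ (m0 b hb)
    rw [← Category.assoc, h1, Category.assoc, ← e.functor.map_comp, mm_m0]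
  exact congrArg (fun f : (im e).shift 1 ⟶ im e => f.lin) h

theorem Φm_Φ1 (a b : A) (ha : a ∈ 𝒜 (-1)) (hb : b ∈ 𝒜 1) (hab : a * b ∈ 𝒜 0) :
    Φm e τ a ha * Φ1 e τ b hb = Φ0 e (a * b) hab := by
  have h : M1 e τ b hb ≫ MM e τ a ha = e.functor.map (m0 (a * b) hab) := by
    unfold MM M1
    rw [Category.assoc, hom_inv_app, ← e.functor.map_comp, mm_m1]
  exact congrArg (fun f : im e ⟶ im e => f.lin) h

theorem Φ1_Φm (a b : A) (ha : a ∈ 𝒜 1) (hb : b ∈ 𝒜 (-1)) (hab : a * b ∈ 𝒜 0) :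
    Φ1 e τ a ha * Φm e τ b hb = Φ0 e (a * b) hab := by
  have h : MM e τ b hb ≫ M1 e τ a ha =
      sh (e.functor.map (m0 (a * b) hab)) := by
    unfold MM M1
    rw [Category.assoc, ← Category.assoc (e.functor.map _), ← e.functor.map_comp, m1_mm,
      naturality_hom e τ, inv_hom_app]
  exact congrArg (fun f : (im e).shift 1 ⟶ (im e).shift 1 => f.lin) h

theorem Φ0_add (a b : A) (ha : a ∈ 𝒜 0) (hb : b ∈ 𝒜 0) (hab : a + b ∈ 𝒜 0) :
    Φ0 e (a + b) hab = Φ0 e a ha + Φ0 e b hb := by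
  have hadd : e.functor.Additive := additive_of_equiv e
  have h : m0 (a + b) hab = m0 a ha + m0 b hb := hom_ext' fun x => add_mul a b _
  unfold Φ0
  rw [h, e.functor.map_add]
  rfl

theorem Φ0_congr {a b : A} (h : a = b) (ha : a ∈ 𝒜 0) (hb : b ∈ 𝒜 0) :
    Φ0 e a ha = Φ0 e b hb := by
  subst h; rfl

theorem Φ0_zero (h0 : (0 : A) ∈ 𝒜 0) : Φ0 e 0 h0 = 0 := by
  have h1 := Φ0_add e 0 0 h0 h0 (by rw [add_zero]; exact h0)
  have h2 : Φ0 e (0 + 0) (by rw [add_zero]; exact h0) = Φ0 e 0 h0 := by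
    congr 1
    exact add_zero 0
  rw [h2] at h1
  exact left_eq_add.mp h1

theorem Φ0_one (h1 : (1 : A) ∈ 𝒜 0) : Φ0 e 1 h1 = 1 := by
  have h : m0 1 h1 = 𝟙 (regular 𝒜) := hom_ext' fun x => one_mul (M := A) _
  unfold Φ0
  rw [h, e.functor.map_id]
  rfl

theorem Φ0_sum {ι : Type} (s : Finset ι) (a : ι → A) (ha : ∀ i, a i ∈ 𝒜 0)
    (hs : ∑ i ∈ s, a i ∈ 𝒜 0) : Φ0 e (∑ i ∈ s, a i) hs = ∑ i ∈ s, Φ0 e (a i) (ha i) := by
  classical
  induction s using Finset.induction_on with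
  | empty => exact Φ0_zero e _
  | insert j s hj ih =>
    have h1 : ∑ i ∈ s, a i ∈ 𝒜 0 := AddSubgroup.sum_mem _ fun i _ => ha i
    have h2 : a j + ∑ i ∈ s, a i ∈ 𝒜 0 := AddSubgroup.add_mem _ (ha j) h1
    rw [Φ0_congr e (Finset.sum_insert hj) hs h2, Finset.sum_insert hj, ← ih h1,
      ← Φ0_add e _ _ (ha j) h1 h2]

/-- every degree preserving endomorphism is given by an element of degree zero -/
theorem exists_Φ0 (g : Module.End Bᵐᵒᵖ (im e).carrier)
    (hg : ∀ n x, x ∈ (im e).deg n → g x ∈ (im e).deg n) :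
    ∃ (a : A) (ha : a ∈ 𝒜 0), g = Φ0 e a ha := by
  let g' := e.functor.preimage (⟨g, hg⟩ : im e ⟶ im e)
  have h1 : e.functor.map g' = ⟨g, hg⟩ := e.functor.map_preimage _
  have h2 : (show A from g'.lin (one0 𝒜)) ∈ 𝒜 0 :=
    g'.deg_map 0 (one0 𝒜) (SetLike.one_mem_graded 𝒜)
  refine ⟨(show A from g'.lin (one0 𝒜)), h2, ?_⟩
  have h3 : g' = m0 (show A from g'.lin (one0 𝒜)) h2 := by
    apply hom_ext'
    intro x
    change g'.lin x = op (show A from x) • g'.lin (one0 𝒜)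
    rw [← map_smul]
    congr 1
    exact (one_mul (M := A) x).symm
  unfold Φ0
  rw [← h3, h1]

/-- central elements of degree zero commute with endomorphisms of degree zero -/
theorem central_0 (c : A) (hc : c ∈ 𝒜 0) (hcc : ∀ x, c * x = x * c) (g : im e ⟶ im e) :
    Φ0 e c hc * g.lin = g.lin * Φ0 e c hc := by
  obtain ⟨g', rfl⟩ := e.functor.map_surjective g
  have h : g' ≫ m0 c hc = m0 c hc ≫ g' := by
    apply hom_ext'
    intro x
    change (c * (show A from g'.lin x) : A) = g'.lin (c * (show A from x) : A)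
    rw [hcc, hcc]
    exact (map_smul g'.lin (op c) x).symm
  have h1 : e.functor.map g' ≫ e.functor.map (m0 c hc) =
      e.functor.map (m0 c hc) ≫ e.functor.map g' := by
    rw [← e.functor.map_comp, h, e.functor.map_comp]
  exact congrArg (fun f : im e ⟶ im e => f.lin) h1

include τ in
theorem central_1 (c : A) (hc : c ∈ 𝒜 0) (hcc : ∀ x, c * x = x * c) (g : im e ⟶ (im e).shift 1) :
    (Φ0 e c hc * (show Module.End Bᵐᵒᵖ (im e).carrier from g.lin)) =
      (show Module.End Bᵐᵒᵖ (im e).carrier from g.lin) * Φ0 e c hc := by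
  obtain ⟨g', hg'⟩ := e.functor.map_surjective (g ≫ ti e τ (regular 𝒜))
  have h : g' ≫ sh (m0 c hc) = m0 c hc ≫ g' := by
    apply hom_ext'
    intro x
    change (c * (show A from g'.lin x) : A) = g'.lin (c * (show A from x) : A)
    rw [hcc, hcc]
    exact (map_smul g'.lin (op c) x).symm
  have h2 : g = e.functor.map g' ≫ th e τ (regular 𝒜) := by
    rw [hg', Category.assoc, ti_th, Category.comp_id]
  have h1 : g ≫ sh (e.functor.map (m0 c hc)) =
      e.functor.map (m0 c hc) ≫ g := by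
    rw [h2, Category.assoc, ← naturality_hom e τ, ← Category.assoc, ← e.functor.map_comp, h,
      e.functor.map_comp, Category.assoc]
  exact congrArg (fun f : im e ⟶ (im e).shift 1 => f.lin) h1

include τ in
theorem central_m (c : A) (hc : c ∈ 𝒜 0) (hcc : ∀ x, c * x = x * c) (g : (im e).shift 1 ⟶ im e) :
    (Φ0 e c hc * (show Module.End Bᵐᵒᵖ (im e).carrier from g.lin)) =
      (show Module.End Bᵐᵒᵖ (im e).carrier from g.lin) * Φ0 e c hc := by
  obtain ⟨g', hg'⟩ := e.functor.map_surjective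
    (th e τ (regular 𝒜) ≫ g)
  have h : g' ≫ m0 c hc = sh (m0 c hc) ≫ g' := by
    apply hom_ext'
    intro x
    change (c * (show A from g'.lin x) : A) = g'.lin (c * (show A from x) : A)
    rw [hcc, hcc]
    exact (map_smul g'.lin (op c) x).symm
  have h2 : g = ti e τ (regular 𝒜) ≫ e.functor.map g' := by
    rw [hg']
    exact (inv_hom_app e τ (regular 𝒜) g).symm
  have h1 : g ≫ e.functor.map (m0 c hc) =
      sh (e.functor.map (m0 c hc)) ≫ g := by
    rw [h2, Category.assoc, ← e.functor.map_comp, h, e.functor.map_comp, ← Category.assoc,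
      ← naturality_inv e τ, Category.assoc]
  exact congrArg (fun f : (im e).shift 1 ⟶ im e => f.lin) h1

end GrMod

end

end Pool.Agent.Y83
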