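import Pool.Agent.Y83.Mc7

set_option linter.unusedSectionVars false
set_option linter.unusedVariables false
set_option linter.style.haveILetI false

/-!
# Graded Morita equivalence of Leavitt path algebras: strong shift equivalence
-/

namespace Pool.Agent.Y83

open CategoryTheory MulOpposite

noncomputable section

namespace GrMod

variable {A B : Type} [Ring A] [Ring B] {𝒜 : ℤ → AddSubgroup A} {ℬ : ℤ → AddSubgroup B}
variable [GradedRing 𝒜] [GradedRing ℬ]
variable (e : GrMod 𝒜 ≌ GrMod ℬ)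
  (τ : shiftFunctor 𝒜 ⋙ e.functor ≅ e.functor ⋙ shiftFunctor ℬ)

theorem Φ1_congr {a b : A} (h : a = b) (ha : a ∈ 𝒜 1) (hb : b ∈ 𝒜 1) :
    Φ1 e τ a ha = Φ1 e τ b hb := by
  subst h; rfl

theorem Φm_congr {a b : A} (h : a = b) (ha : a ∈ 𝒜 (-1)) (hb : b ∈ 𝒜 (-1)) :
    Φm e τ a ha = Φm e τ b hb := by
  subst h; rfl

end GrMod

namespace LPA

open GrMod

attribute [local instance] endAlg

variable (K : Type) [Field K] {G H : FGraph} (hG : G.NoSinks) (hH : H.NoSinks)

theorem z_mem (a : G.E) : (ck K hG).z a ∈ grading K G 1 := gen_mem_gr K (LGen.ed a)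

theorem w_mem (a : G.E) : (ck K hG).w a ∈ grading K G (-1) := gen_mem_gr K (LGen.gh a)

theorem mul_mem_of {i j k : ℤ} (h : i + j = k) {x y : LPA K G} (hx : x ∈ grading K G i)
    (hy : y ∈ grading K G j) : x * y ∈ grading K G k := by
  have := mul_mem_gr K hx hy
  rwa [h] at this

variable (e : GrMod (grading K G) ≌ GrMod (grading K H))
  (τ : shiftFunctor (grading K G) ⋙ e.functor ≅ e.functor ⋙ shiftFunctor (grading K H))

/-- The family of the first graph acting on the image of the regular module. -/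
def imFam : CKF G (Module.End (LPA K H)ᵐᵒᵖ (im e).carrier) where
  q v := Φ0 e ((ck K hG).q v) (q_mem K hG v)
  z a := Φ1 e τ ((ck K hG).z a) (z_mem K hG a)
  w a := Φm e τ ((ck K hG).w a) (w_mem K hG a)
  qq u v := by
    rw [Φ0_mul e _ _ _ _ (mul_mem_of K (add_zero 0) (q_mem K hG u) (q_mem K hG v))]
    have h1 := (ck K hG).qq u v
    split_ifs with h
    · rw [if_pos h] at h1
      exact Φ0_congr e h1 _ _
    · rw [if_neg h] at h1
      exact (Φ0_congr e h1 _ (AddSubgroup.zero_mem _)).trans (Φ0_zero e _)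
  sz a := (Φ0_Φ1 e τ _ _ _ _ (mul_mem_of K (zero_add 1) (q_mem K hG _) (z_mem K hG _))).trans
    (Φ1_congr e τ ((ck K hG).sz a) _ _)
  zr a := (Φ1_Φ0 e τ _ _ _ _ (mul_mem_of K (add_zero 1) (z_mem K hG _) (q_mem K hG _))).trans
    (Φ1_congr e τ ((ck K hG).zr a) _ _)
  rw' a := (Φ0_Φm e τ _ _ _ _ (mul_mem_of K (zero_add (-1)) (q_mem K hG _)
    (w_mem K hG _))).trans (Φm_congr e τ ((ck K hG).rw' a) _ _)
  ws a := (Φm_Φ0 e τ _ _ _ _ (mul_mem_of K (add_zero (-1)) (w_mem K hG _)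
    (q_mem K hG _))).trans (Φm_congr e τ ((ck K hG).ws a) _ _)
  ck1 a b := by
    rw [Φm_Φ1 e τ _ _ _ _ (mul_mem_of K (neg_add_cancel 1) (w_mem K hG a) (z_mem K hG b))]
    have h1 := (ck K hG).ck1 a b
    split_ifs with h
    · rw [if_pos h] at h1
      exact Φ0_congr e h1 _ _
    · rw [if_neg h] at h1
      exact (Φ0_congr e h1 _ (AddSubgroup.zero_mem _)).trans (Φ0_zero e _)
  ck2 v := by
    have hm : ∀ a, (ck K hG).z a * (ck K hG).w a ∈ grading K G 0 := fun a =>
      mul_mem_of K (add_neg_cancel 1) (z_mem K hG a) (w_mem K hG a)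
    rw [Finset.sum_congr rfl fun a _ => Φ1_Φm e τ _ _ _ _ (hm a),
      ← Φ0_sum e _ _ hm (AddSubgroup.sum_mem _ fun a _ => hm a)]
    exact Φ0_congr e ((ck K hG).ck2 v) _ _
  one := by
    rw [← Φ0_sum e _ _ (q_mem K hG) (AddSubgroup.sum_mem _ fun a _ => q_mem K hG a)]
    exact (Φ0_congr e (ck K hG).one _ (one_mem_gr K)).trans (Φ0_one e _)

theorem imFam_q_ne_zero (v : G.V) : (imFam K hG e τ).q v ≠ 0 := by
  intro h
  have hadd : e.functor.Additive := additive_of_equiv e
  have h1 : e.functor.map (m0 ((ck K hG).q v) (q_mem K hG v)) = e.functor.map 0 := by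
    rw [e.functor.map_zero]
    exact GrMod.Hom.ext h
  have h2 := e.functor.map_injective h1
  have h3 := congrArg (fun f : regular (grading K G) ⟶ regular (grading K G) =>
    f.lin (one0 (grading K G))) h2
  have h4 : (ck K hG).q v * 1 = 0 := h3
  rw [mul_one] at h4
  exact q_ne_zero K hG v h4

/-- homogeneous endomorphisms compose -/
theorem homD_comp {P : GrMod (grading K H)} {d d' k : ℤ} (hk : d' + d = k)
    {f g : Module.End (LPA K H)ᵐᵒᵖ P.carrier}
    (hf : HomD P P d f) (hg : HomD P P d' g) : HomD P P k (f * g) := by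
  intro n x hx
  have h1 := hf _ _ (hg n x hx)
  rwa [add_assoc, hk] at h1

theorem mem_end0_iff {P : GrMod (grading K H)} {f : Module.End (LPA K H)ᵐᵒᵖ P.carrier} :
    f ∈ end0 K P ↔ HomD P P 0 f := by
  constructor
  · intro h n x hx
    rw [add_zero]
    exact h n x hx
  · intro h n x hx
    have := h n x hx
    rwa [add_zero] at this

theorem imFam_q_hom (v : G.V) : HomD (im e) (im e) 0 ((imFam K hG e τ).q v) := by
  intro n x hx
  rw [add_zero]
  exact (e.functor.map (m0 ((ck K hG).q v) (q_mem K hG v))).deg_map n x hx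

theorem imFam_z_hom (a : G.E) : HomD (im e) (im e) 1 ((imFam K hG e τ).z a) := by
  intro n x hx
  exact (M1 e τ ((ck K hG).z a) (z_mem K hG a)).deg_map n x hx

theorem imFam_w_hom (a : G.E) : HomD (im e) (im e) (-1) ((imFam K hG e τ).w a) := by
  intro n x hx
  refine (MM e τ ((ck K hG).w a) (w_mem K hG a)).deg_map (n + -1) x ?_
  change x ∈ (im e).deg (n + -1 + 1)
  rwa [neg_add_cancel_right]

section std

variable {κ : Type} [Fintype κ] [DecidableEq κ] (β : κ → H.V) (k : ℤ)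
  (φ : (im e).carrier ≃ₗ[(LPA K H)ᵐᵒᵖ] (Std K hH β k).carrier)
  (hφ : ∀ n x, x ∈ (im e).deg n ↔ φ x ∈ (Std K hH β k).deg n)
  (σ : H.V → κ) (hσ : ∀ i a, H.s a = β i → β (σ (H.r a)) = H.r a)

/-- The family of the second graph. -/
def trFam : CKF (H.copy β σ) (Module.End (LPA K H)ᵐᵒᵖ (im e).carrier) :=
  (entFam K hH β k σ hσ).map (conjHom K φ : _ →+* _)

include hφ in
theorem conj_homD {d : ℤ} {g : Module.End (LPA K H)ᵐᵒᵖ (Std K hH β k).carrier}
    (hg : HomD (Std K hH β k) (Std K hH β k) d g) : HomD (im e) (im e) d (conjHom K φ g) := by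
  intro n x hx
  rw [hφ, conjHom_apply, φ.apply_symm_apply]
  exact hg n _ ((hφ n x).mp hx)

include hφ in
theorem trFam_exhausting (g : Module.End (LPA K H)ᵐᵒᵖ (im e).carrier)
    (hg : g ∈ end0 K (im e)) : ∃ i, g ∈ (trFam K hH e β k φ σ hσ).levS K i := by
  let g' : Module.End (LPA K H)ᵐᵒᵖ (Std K hH β k).carrier := conjHom K φ.symm g
  have h1 : g' ∈ end0 K (Std K hH β k) := by
    intro n x hx
    change φ (g (φ.symm x)) ∈ _
    rw [← hφ]
    refine hg n _ ?_
    rw [hφ, φ.apply_symm_apply]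
    exact hx
  obtain ⟨i, hi⟩ := entFam_exhausting K hH β k σ hσ g' h1
  refine ⟨i, ?_⟩
  have h2 := (entFam K hH β k σ hσ).map_mem_levS (conjHom K φ) i g' hi
  have h3 : conjHom K φ g' = g := by
    refine LinearMap.ext fun x => ?_
    rw [conjHom_apply]
    change φ.symm (φ (g (φ.symm (φ x)))) = g x
    rw [φ.symm_apply_apply, φ.symm_apply_apply]
  rw [h3] at h2
  exact h2

theorem trFam_q_ne_zero (i : κ) : (trFam K hH e β k φ σ hσ).q i ≠ 0 := by
  intro h
  apply entFam_q_ne_zero K hH β k σ hσ i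
  have h1 : conjHom K φ ((entFam K hH β k σ hσ).q i) = 0 := h
  refine LinearMap.ext fun x => ?_
  have h2 := congrArg (fun f : Module.End (LPA K H)ᵐᵒᵖ (im e).carrier => φ (f (φ.symm x))) h1
  change φ (φ.symm ((entFam K hH β k σ hσ).q i (φ (φ.symm x)))) = φ 0 at h2
  rw [φ.apply_symm_apply, φ.apply_symm_apply, map_zero] at h2
  exact h2

include hφ in
theorem trFam_q_hom (i : κ) : HomD (im e) (im e) 0 ((trFam K hH e β k φ σ hσ).q i) :=
  conj_homD K hH e β k φ hφ (ent_homD K hH β k i i 0 1 (one_mem_gr K))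

include hφ in
theorem trFam_z_hom (p : (H.copy β σ).E) :
    HomD (im e) (im e) 1 ((trFam K hH e β k φ σ hσ).z p) :=
  conj_homD K hH e β k φ hφ (ent_homD K hH β k _ _ 1 _ (z_mem K hH p.1.2))

include hφ in
theorem trFam_w_hom (p : (H.copy β σ).E) :
    HomD (im e) (im e) (-1) ((trFam K hH e β k φ σ hσ).w p) :=
  conj_homD K hH e β k φ hφ (ent_homD K hH β k _ _ (-1) _ (w_mem K hH p.1.2))

include hH in
theorem copy_noSinks : (H.copy β σ).NoSinks := by
  intro i
  obtain ⟨a, ha⟩ := hH (β i)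
  exact ⟨⟨(i, a), ha⟩, rfl⟩

variable (i0 : κ) (hi0 : ∀ i, Relation.ReflTransGen (H.copy β σ).Edge i i0)

include hφ hσ hi0 τ in
/-- The scalars of the first algebra act by scalars. -/
theorem exists_scal (c : K) : ∃ c' : K,
    Φ0 e (algebraMap K (LPA K G) c) (algebraMap_mem K c) =
      c' • (1 : Module.End (LPA K H)ᵐᵒᵖ (im e).carrier) := by
  have hcc : ∀ x : LPA K G, algebraMap K (LPA K G) c * x = x * algebraMap K (LPA K G) c :=
    Algebra.commutes c
  have hend : Φ0 e (algebraMap K (LPA K G) c) (algebraMap_mem K c) ∈ end0 K (im e) := by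
    intro n x hx
    exact (e.functor.map (m0 (algebraMap K (LPA K G) c) (algebraMap_mem K c))).deg_map n x hx
  obtain ⟨m, hm⟩ := trFam_exhausting K hH e β k φ hφ σ hσ _ hend
  refine (trFam K hH e β k φ σ hσ).center_scalar (trFam_q_ne_zero K hH e β k φ σ hσ)
    (copy_noSinks hH β σ) i0 hi0 hm ?_ ?_
  · intro p
    exact central_1 e τ _ _ hcc ⟨(trFam K hH e β k φ σ hσ).z p,
      fun n x hx => trFam_z_hom K hH e β k φ hφ σ hσ p n x hx⟩
  · intro p
    exact central_m e τ _ _ hcc ⟨(trFam K hH e β k φ σ hσ).w p,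
      fun n x hx => by
        have h1 := trFam_w_hom K hH e β k φ hφ σ hσ p (n + 1) x hx
        rwa [add_neg_cancel_right] at h1⟩

include hφ hσ hi0 in
theorem Φ0_levS (m : ℕ) : ∀ a ∈ (ck K hG).levS K m, ∃ ha : a ∈ grading K G 0,
    Φ0 e a ha ∈ (imFam K hG e τ).levS K m := by
  -- the set of good elements is a subspace
  have hN : ∀ m, ∃ N : Submodule K (LPA K G), ∀ a, a ∈ N ↔ ∃ ha : a ∈ grading K G 0,
      Φ0 e a ha ∈ (imFam K hG e τ).levS K m := by
    intro m
    refine ⟨{ carrier := {a | ∃ ha : a ∈ grading K G 0,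
                Φ0 e a ha ∈ (imFam K hG e τ).levS K m}
              add_mem' := ?_, zero_mem' := ?_, smul_mem' := ?_ }, fun a => Iff.rfl⟩
    · rintro a b ⟨ha, h1⟩ ⟨hb, h2⟩
      refine ⟨AddSubgroup.add_mem _ ha hb, ?_⟩
      rw [Φ0_add e a b ha hb]
      exact Submodule.add_mem _ h1 h2
    · refine ⟨AddSubgroup.zero_mem _, ?_⟩
      rw [Φ0_zero e]
      exact Submodule.zero_mem _
    · rintro c a ⟨ha, h1⟩
      obtain ⟨c', hc'⟩ := exists_scal K hH e τ β k φ hφ σ hσ i0 hi0 c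
      have h2 : c • a = algebraMap K (LPA K G) c * a := Algebra.smul_def c a
      have h3 : algebraMap K (LPA K G) c * a ∈ grading K G 0 :=
        mul_mem_of K (add_zero 0) (algebraMap_mem K c) ha
      refine ⟨by rw [h2]; exact h3, ?_⟩
      rw [Φ0_congr e h2 _ h3, ← Φ0_mul e _ _ (algebraMap_mem K c) ha h3, hc', smul_mul_assoc,
        one_mul]
      exact Submodule.smul_mem _ _ h1
  induction m with
  | zero =>
    intro a ha
    obtain ⟨N, hN⟩ := hN 0
    rw [← hN]
    have h : (ck K hG).levS K 0 ≤ N := by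
      refine Submodule.span_le.mpr ?_
      rintro _ ⟨v, rfl⟩
      rw [SetLike.mem_coe, hN]
      exact ⟨q_mem K hG v, (imFam K hG e τ).q_mem_levS_zero K v⟩
    exact h ha
  | succ m ih =>
    intro a ha
    obtain ⟨N, hN⟩ := hN (m + 1)
    rw [← hN]
    have h : (ck K hG).levS K (m + 1) ≤ N := by
      refine (ck K hG).levS_succ_le K fun t ht a b => ?_
      rw [hN]
      obtain ⟨h1, h2⟩ := ih t ht
      have h3 : (ck K hG).z a * t ∈ grading K G 1 := mul_mem_of K (add_zero 1) (z_mem K hG a) h1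
      have h4 : (ck K hG).z a * t * (ck K hG).w b ∈ grading K G 0 :=
        mul_mem_of K (add_neg_cancel 1) h3 (w_mem K hG b)
      refine ⟨h4, ?_⟩
      rw [← Φ1_Φm e τ _ _ h3 (w_mem K hG b), ← Φ1_Φ0 e τ _ _ (z_mem K hG a) h1]
      exact (imFam K hG e τ).zw_mem K h2 a b
    exact h ha

include hG τ hφ hσ hi0 in
/-- The chain of strong shift equivalences coming from an equivalence of categories. -/
theorem sse_of_equiv [IsAlgClosed K] [CharZero K] {a b : ℕ} (ρ : Fin a ≃ G.V)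
    (ρ' : Fin b ≃ κ) : Relation.EqvGen WM.Step (G.wm ρ) ((H.copy β σ).wm ρ') := by
  refine CKF.sse_of_exhausting (end0 K (im e)) (imFam K hG e τ) (trFam K hH e β k φ σ hσ)
    (imFam_q_ne_zero K hG e τ) (trFam_q_ne_zero K hH e β k φ σ hσ) ?_
    (trFam_exhausting K hH e β k φ hφ σ hσ) ?_ ?_ ?_ ?_ ?_ ρ ρ'
  · intro g hg
    obtain ⟨a, ha, rfl⟩ := exists_Φ0 e g hg
    obtain ⟨m, hm⟩ := exists_lev_of_mem K hG ha
    obtain ⟨h1, h2⟩ := Φ0_levS K hG hH e τ β k φ hφ σ hσ i0 hi0 m a hm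
    exact ⟨m, h2⟩
  · exact fun v => (mem_end0_iff K).mpr (imFam_q_hom K hG e τ v)
  · exact fun v => (mem_end0_iff K).mpr (trFam_q_hom K hH e β k φ hφ σ hσ v)
  · exact fun x y => (mem_end0_iff K).mpr (homD_comp K (add_neg_cancel 1)
      (imFam_w_hom K hG e τ x) (trFam_z_hom K hH e β k φ hφ σ hσ y))
  · exact fun x y => (mem_end0_iff K).mpr (homD_comp K (add_neg_cancel 1)
      (trFam_w_hom K hH e β k φ hφ σ hσ x) (imFam_z_hom K hG e τ y))
  · exact fun g hg x y => (mem_end0_iff K).mpr (homD_comp K (d := 1) (d' := -1)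
      (neg_add_cancel 1)
      (homD_comp K (zero_add 1) (imFam_z_hom K hG e τ x) ((mem_end0_iff K).mp hg))
      (imFam_w_hom K hG e τ y))

end std

end LPA

end

end Pool.Agent.Y83
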