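import Pool.Agent.Y83.Mc8

set_option linter.unusedSectionVars false
set_option linter.unusedVariables false
set_option linter.style.haveILetI false

/-!
# Graded Morita equivalence of Leavitt path algebras: reduction to weighted matrices
-/

namespace Pool.Agent.Y83

open CategoryTheory MulOpposite Matrix

noncomputable section

/-- Reachability in the copy graph. -/
theorem copy_reach {H : FGraph} {κ : Type} [Fintype κ] [DecidableEq κ] (β : κ → H.V)
    (σ : H.V → κ) (hσ : ∀ i a, H.s a = β i → β (σ (H.r a)) = H.r a) {v w : H.V}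
    (h : Relation.TransGen H.Edge v w) : ∀ i, β i = v →
      Relation.TransGen (H.copy β σ).Edge i (σ w) ∧ β (σ w) = w := by
  induction h with
  | single hvw =>
    rintro i rfl
    obtain ⟨a, ha, rfl⟩ := hvw
    exact ⟨Relation.TransGen.single ⟨(⟨(i, a), ha⟩ : (H.copy β σ).E), rfl, rfl⟩, hσ i a ha⟩
  | tail _ hbc ih =>
    rintro i rfl
    obtain ⟨h1, h2⟩ := ih i rfl
    obtain ⟨a, ha, rfl⟩ := hbc
    have h3 : H.s a = β (σ (H.s a)) := by rw [ha]; exact h2.symm
    refine ⟨Relation.TransGen.tail (b := σ (H.s a)) (by rw [ha]; exact h1)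
      ⟨(⟨(σ (H.s a), a), h3⟩ : (H.copy β σ).E), rfl, rfl⟩, hσ (σ (H.s a)) a h3⟩

/-- The copy graph is elementary strong shift equivalent to the part of the graph in the range. -/
theorem copy_step {H : FGraph} {κ : Type} [Fintype κ] [DecidableEq κ] (β : κ → H.V)
    (σ : H.V → κ) (hσ : ∀ i a, H.s a = β i → β (σ (H.r a)) = H.r a) {b d : ℕ}
    (ρ' : Fin b ≃ κ) (j : Fin d → H.V) (hj : Function.Injective j)
    (h1 : ∀ i, ∃ a, β i = j a) (h2 : ∀ a, ∃ i, β i = j a) :
    WM.Step ((H.copy β σ).wm ρ')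
      ⟨d, Matrix.of fun a a' => H.adj (j a) (j a'), fun a => cnt β (j a)⟩ := by
  have e1 : ∀ x y : Fin b, (Finset.univ.filter fun p : {p : κ × H.E // H.s p.2 = β p.1} =>
        p.1.1 = ρ' x ∧ σ (H.r p.1.2) = ρ' y).card =
      ∑ a : Fin d, (if β (ρ' x) = j a then 1 else 0) *
        (Finset.univ.filter fun e : H.E => H.s e = j a ∧ σ (H.r e) = ρ' y).card := by
    intro x y
    obtain ⟨a0, ha0⟩ := h1 (ρ' x)
    rw [Finset.sum_eq_single a0]
    · rw [if_pos ha0, one_mul]
      refine Finset.card_bij (fun p _ => p.1.2) ?_ ?_ ?_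
      · rintro ⟨⟨i, e⟩, he⟩ hp
        rw [Finset.mem_filter] at hp ⊢
        obtain ⟨-, rfl, h3⟩ := hp
        exact ⟨Finset.mem_univ _, he.trans ha0, h3⟩
      · rintro ⟨⟨i, e⟩, he⟩ hp ⟨⟨i', e'⟩, he'⟩ hp' h
        rw [Finset.mem_filter] at hp hp'
        obtain ⟨-, h4, -⟩ := hp
        obtain ⟨-, h3, -⟩ := hp'
        exact Subtype.ext (Prod.ext (h4.trans h3.symm) h)
      · intro e he
        rw [Finset.mem_filter] at he
        exact ⟨⟨(ρ' x, e), he.2.1.trans ha0.symm⟩, by
          rw [Finset.mem_filter]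
          exact ⟨Finset.mem_univ _, rfl, he.2.2⟩, rfl⟩
    · intro a _ ha
      rw [if_neg, zero_mul]
      intro h
      exact ha (hj (h.symm.trans ha0))
    · intro h; exact absurd (Finset.mem_univ _) h
  have e2 : ∀ a a' : Fin d, (Finset.univ.filter fun e => H.s e = j a ∧ H.r e = j a').card =
      ∑ x : Fin b, (Finset.univ.filter fun e : H.E => H.s e = j a ∧ σ (H.r e) = ρ' x).card *
        (if β (ρ' x) = j a' then 1 else 0) := by
    intro a a'
    simp only [mul_ite, mul_one, mul_zero]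
    rw [← Finset.sum_filter]
    rw [Finset.card_eq_sum_card_fiberwise (f := fun e => ρ'.symm (σ (H.r e)))
      (t := Finset.univ.filter fun x => β (ρ' x) = j a')]
    · refine Finset.sum_congr rfl fun x hx => ?_
      have hx' : β (ρ' x) = j a' := (Finset.mem_filter.mp hx).2
      congr 1
      ext e
      simp only [Finset.mem_filter, Finset.mem_univ, true_and]
      obtain ⟨i, hi⟩ := h2 a
      constructor
      · rintro ⟨⟨h3, h4⟩, h5⟩
        refine ⟨h3, ?_⟩
        rw [← h5, Equiv.apply_symm_apply]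
      · rintro ⟨h3, h4⟩
        refine ⟨⟨h3, ?_⟩, ?_⟩
        · rw [← hσ i e (h3.trans hi.symm), h4, hx']
        · rw [h4, Equiv.symm_apply_apply]
    · intro e he
      rw [Finset.mem_coe, Finset.mem_filter] at he
      obtain ⟨-, h3, h4⟩ := he
      obtain ⟨i, hi⟩ := h2 a
      rw [Finset.mem_coe, Finset.mem_filter]
      refine ⟨Finset.mem_univ _, ?_⟩
      rw [Equiv.apply_symm_apply, hσ i e (h3.trans hi.symm), h4]
  have e3 : ∀ a : Fin d, (Finset.univ.filter fun i => β i = j a).card =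
      ∑ x : Fin b, 1 * (if β (ρ' x) = j a then 1 else 0) := by
    intro a
    simp only [one_mul]
    rw [← Finset.card_filter]
    refine (Finset.card_bij (fun x _ => ρ' x) ?_ ?_ ?_).symm
    · intro x hx
      rw [Finset.mem_filter] at hx ⊢
      exact ⟨Finset.mem_univ _, hx.2⟩
    · intro x _ y _ h
      exact ρ'.injective h
    · intro i hi
      rw [Finset.mem_filter] at hi
      exact ⟨ρ'.symm i, by
        rw [Finset.mem_filter, Equiv.apply_symm_apply]
        exact ⟨Finset.mem_univ _, hi.2⟩, ρ'.apply_symm_apply i⟩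
  exact ⟨Matrix.of fun (x : Fin b) (a : Fin d) => if β (ρ' x) = j a then 1 else 0,
    Matrix.of fun (a : Fin d) (x : Fin b) =>
      (Finset.univ.filter fun e : H.E => H.s e = j a ∧ σ (H.r e) = ρ' x).card,
    Matrix.ext fun x y => e1 x y, Matrix.ext fun a a' => e2 a a', funext fun a => e3 a⟩

namespace LPA

open GrMod

variable (K : Type) [Field K] {G H : FGraph} (hG : G.NoSinks) (hH : H.NoSinks)

include hG hH in
/-- Graded Morita equivalence gives chains of strong shift equivalences. -/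
theorem exists_sse_of_morita [IsAlgClosed K] [CharZero K]
    (h : GrMorita (grading K G) (grading K H)) (v1 : G.V) (v0 : H.V)
    (hv0 : ∀ v, Relation.TransGen H.Edge v v0) :
    ∃ n : H.V → ℕ, n ≠ 0 ∧ ∀ (m : ℕ) (κ : Type) [Fintype κ] [DecidableEq κ] (β : κ → H.V)
      (_ : cnt β = n ᵥ* H.adj ^ m) (σ : H.V → κ)
      (_ : ∀ i a, H.s a = β i → β (σ (H.r a)) = H.r a) {a b : ℕ} (ρ : Fin a ≃ G.V)
      (ρ' : Fin b ≃ κ), Relation.EqvGen WM.Step (G.wm ρ) ((H.copy β σ).wm ρ') := by
  obtain ⟨e, ⟨τ⟩⟩ := h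
  obtain ⟨κ₀, _, _, β₀, k, h0⟩ := exists_Std K hH (isFGProj_map_regular e τ)
  refine ⟨cnt β₀, ?_, ?_⟩
  · intro hz
    have hemp : IsEmpty κ₀ := by
      constructor
      intro i
      have h1 := congrFun hz (β₀ i)
      unfold cnt at h1
      rw [Pi.zero_apply, Finset.card_eq_zero, Finset.filter_eq_empty_iff] at h1
      exact h1 (Finset.mem_univ i) rfl
    obtain ⟨φ, -⟩ := h0
    apply imFam_q_ne_zero K hG e τ v1
    refine LinearMap.ext fun x => ?_
    apply φ.injective
    exact Subtype.ext (funext fun i => isEmptyElim i)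
  · intro m κ _ _ β hβ σ hσ a b ρ ρ'
    obtain ⟨κ', _, _, β', m1, c1⟩ := raise K hH m β₀ k
    have h1 := MvN_of_cnt K hH β' β (k - m) (c1.trans hβ.symm)
    have h2 := h0.trans (((Std_iso_iff K hH _ _ _ _).mpr m1).trans
      ((Std_iso_iff K hH _ _ _ _).mpr h1))
    obtain ⟨φ, hφ⟩ := h2
    refine sse_of_equiv K hG hH e τ β (k - m) φ hφ σ hσ (σ v0) ?_ ρ ρ'
    intro i
    exact (copy_reach β σ hσ (hv0 (β i)) i rfl).1.to_reflTransGen

end LPA

end

end Pool.Agent.Y83
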