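import Pool.Agent.Y83.Lk6

set_option linter.unusedSectionVars false
set_option linter.unusedVariables false

/-!
# Exhausting Cuntz-Krieger families
-/

namespace Pool.Agent.Y83

open Matrix

noncomputable section

namespace CKF

variable {K : Type} [Field K] {B : Type} [Ring B] [Algebra K B] {G H : FGraph}

theorem levS_le_of (γ : CKF G B) (B0 : Submodule K B) (h0 : ∀ v, γ.q v ∈ B0)
    (h1 : ∀ b ∈ B0, ∀ e f, γ.z e * b * γ.w f ∈ B0) (i : ℕ) : γ.levS K i ≤ B0 := by
  induction i with
  | zero =>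
    refine Submodule.span_le.mpr ?_
    rintro _ ⟨v, rfl⟩
    exact h0 v
  | succ i ih => exact γ.levS_succ_le K fun t ht e f => h1 t (ih ht) e f

theorem exists_lev_of_fg (γ : CKF G B) (B0 : Submodule K B)
    (ex : ∀ b ∈ B0, ∃ i, b ∈ γ.levS K i) {N : Submodule K B} (hN : N.FG) (h : N ≤ B0) :
    ∃ i, N ≤ γ.levS K i := by
  obtain ⟨S, rfl⟩ := hN
  have h1 : ∀ x ∈ S, ∃ i, x ∈ γ.levS K i := fun x hx => ex x (h (Submodule.subset_span hx))
  choose! i hi using h1
  refine ⟨S.sup i, Submodule.span_le.mpr fun x hx => ?_⟩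
  exact γ.levS_mono K (Finset.le_sup hx) (hi x hx)

/-- Two exhausting families: the graphs are strong shift equivalent. -/
theorem sse_of_exhausting [IsAlgClosed K] [CharZero K] (B0 : Submodule K B)
    (γ : CKF G B) (η : CKF H B) (hγ : ∀ v, γ.q v ≠ 0) (hη : ∀ v, η.q v ≠ 0)
    (eγ : ∀ b ∈ B0, ∃ i, b ∈ γ.levS K i) (eη : ∀ b ∈ B0, ∃ i, b ∈ η.levS K i)
    (m0 : ∀ v, γ.q v ∈ B0) (m1 : ∀ v, η.q v ∈ B0)
    (m2 : ∀ e f, γ.w e * η.z f ∈ B0) (m3 : ∀ e f, η.w e * γ.z f ∈ B0)
    (m4 : ∀ b ∈ B0, ∀ e f, γ.z e * b * γ.w f ∈ B0)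
    {a b : ℕ} (σ : Fin a ≃ G.V) (ρ : Fin b ≃ H.V) :
    Relation.EqvGen WM.Step (G.wm σ) (H.wm ρ) := by
  have d1 : ∀ v, ∃ i, η.q v ∈ γ.levS K i := fun v => eγ _ (m1 v)
  have d2 : ∀ e f, ∃ i, γ.w e * η.z f ∈ γ.levS K i := fun e f => eγ _ (m2 e f)
  have d3 : ∀ e f, ∃ i, η.w e * γ.z f ∈ γ.levS K i := fun e f => eγ _ (m3 e f)
  choose i1 hi1 using d1
  choose i2 hi2 using d2
  choose i3 hi3 using d3
  let n : ℕ := (Finset.univ.sup i1) ⊔ (Finset.univ.sup fun p : G.E × H.E => i2 p.1 p.2) ⊔
    (Finset.univ.sup fun p : H.E × G.E => i3 p.1 p.2)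
  have n1 : ∀ v, i1 v ≤ n := fun v =>
    le_trans (Finset.le_sup (Finset.mem_univ v)) (le_trans le_sup_left le_sup_left)
  have n2 : ∀ e f, i2 e f ≤ n := fun e f =>
    le_trans (Finset.le_sup (f := fun p : G.E × H.E => i2 p.1 p.2) (Finset.mem_univ (e, f)))
      (le_trans le_sup_right le_sup_left)
  have n3 : ∀ e f, i3 e f ≤ n := fun e f =>
    le_trans (Finset.le_sup (f := fun p : H.E × G.E => i3 p.1 p.2) (Finset.mem_univ (e, f)))
      le_sup_right
  obtain ⟨M, hM⟩ : ∃ M, γ.levS K n ≤ η.levS K M := by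
    refine η.exists_lev_of_fg B0 eη ?_ (γ.levS_le_of B0 m0 m4 n)
    have := γ.levS_fin K n
    exact Module.Finite.iff_fg.mp this
  exact sse_of_families γ η hγ hη n M
    (fun v => γ.levS_mono K (n1 v) (hi1 v))
    (fun e f => γ.levS_mono K (n2 e f) (hi2 e f))
    (fun e f => γ.levS_mono K (n3 e f) (hi3 e f)) hM σ ρ

/-- The image of a family under a ring homomorphism. -/
def map {B' : Type} [Ring B'] (η : CKF G B) (f : B →+* B') : CKF G B' where
  q v := f (η.q v)
  z v := f (η.z v)
  w v := f (η.w v)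
  qq u v := by rw [← map_mul, η.qq]; split_ifs <;> simp
  sz e := by rw [← map_mul, η.sz]
  zr e := by rw [← map_mul, η.zr]
  rw' e := by rw [← map_mul, η.rw']
  ws e := by rw [← map_mul, η.ws]
  ck1 e e' := by rw [← map_mul, η.ck1]; split_ifs <;> simp
  ck2 v := by rw [← η.ck2 v, map_sum]; simp only [map_mul]
  one := by rw [← map_sum, η.one, map_one]

end CKF

/-! ### The ground field acts on endomorphism rings -/

section scal

variable (K : Type) [Field K] {A : Type} [Ring A] [Algebra K A] (M : Type) [AddCommGroup M]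
  [Module Aᵐᵒᵖ M]

open MulOpposite

/-- Scalars act by linear maps. -/
def scal : K →+* Module.End Aᵐᵒᵖ M where
  toFun c :=
    { toFun := fun m => op (algebraMap K A c) • m
      map_add' := fun x y => smul_add _ x y
      map_smul' := fun a m => by
        rw [smul_smul, smul_smul, RingHom.id_apply]
        congr 1
        apply unop_injective
        rw [unop_mul, unop_mul, unop_op]
        exact (Algebra.commutes c a.unop).symm }
  map_one' := LinearMap.ext fun m => by
    change op (algebraMap K A 1) • m = m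
    rw [map_one, op_one, one_smul]
  map_mul' c d := LinearMap.ext fun m => by
    change op (algebraMap K A (c * d)) • m = op (algebraMap K A c) • op (algebraMap K A d) • m
    rw [smul_smul, ← op_mul, ← map_mul, mul_comm]
  map_zero' := LinearMap.ext fun m => by
    change op (algebraMap K A 0) • m = 0
    rw [map_zero, op_zero, zero_smul]
  map_add' c d := LinearMap.ext fun m => by
    change op (algebraMap K A (c + d)) • m = op (algebraMap K A c) • m + op (algebraMap K A d) • m
    rw [map_add, op_add, add_smul]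

theorem scal_apply (c : K) (m : M) :
    scal K (A := A) M c m = op (algebraMap K A c) • m := rfl

/-- The endomorphism ring as an algebra over the ground field. -/
@[reducible] def endAlg : Algebra K (Module.End Aᵐᵒᵖ M) :=
  (scal K (A := A) M).toAlgebra' fun c f => LinearMap.ext fun m => (f.map_smul _ m).symm

end scal

end

end Pool.Agent.Y83
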