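import Pool.Agent.Y83.Mr1

set_option linter.unusedSectionVars false
set_option linter.unusedVariables false

/-!
# The Cuntz-Krieger family on the endomorphism ring of a standard module
-/

namespace Pool.Agent.Y83

open Matrix MulOpposite

noncomputable section

/-- The graph obtained from `G` by replacing the vertex `v` by the indices `i` with `β i = v`;
an edge from `v` to `w` gives one edge from each copy of `v` to the chosen copy of `w`. -/
@[reducible] def FGraph.copy (G : FGraph) {κ : Type} [Fintype κ] [DecidableEq κ] (β : κ → G.V)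
    (σ : G.V → κ) : FGraph where
  V := κ
  E := {p : κ × G.E // G.s p.2 = β p.1}
  s := fun p => p.1.1
  r := fun p => σ (G.r p.1.2)

namespace LPA

variable (K : Type) [Field K] {G : FGraph} (hG : G.NoSinks)
variable {κ : Type} [Fintype κ] [DecidableEq κ] (β : κ → G.V) (k : ℤ)

theorem std_coord (x : (Std K hG β k).carrier) (i : κ) :
    (ck K hG).q (β i) * x.1 i = x.1 i := by
  have h1 : (Est K hG β).mulVec x.1 = x.1 := x.2
  have h2 := congrFun h1 i
  unfold Est at h2
  rw [Matrix.mulVec_diagonal] at h2
  exact h2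

/-- An element of a standard module from its coordinates. -/
def stdMk (x : κ → LPA K G) (h : ∀ i, (ck K hG).q (β i) * x i = x i) :
    (Std K hG β k).carrier := ⟨x, by
  change (Est K hG β).mulVec x = x
  funext i
  unfold Est
  rw [Matrix.mulVec_diagonal]
  exact h i⟩

/-- The endomorphism given by one entry. -/
def ent (i j : κ) (r : LPA K G) : Module.End (LPA K G)ᵐᵒᵖ (Std K hG β k).carrier where
  toFun x := stdMk K hG β k (Pi.single i ((ck K hG).q (β i) * r * x.1 j)) (fun l => by
    by_cases h : l = i
    · subst h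
      rw [Pi.single_eq_same, ← mul_assoc, ← mul_assoc, (ck K hG).qq, if_pos rfl]
    · rw [Pi.single_eq_of_ne h, mul_zero])
  map_add' x y := by
    apply Subtype.ext
    funext l
    change (Pi.single i ((ck K hG).q (β i) * r * (x.1 j + y.1 j)) : κ → LPA K G) l =
      (Pi.single i ((ck K hG).q (β i) * r * x.1 j) : κ → LPA K G) l +
      (Pi.single i ((ck K hG).q (β i) * r * y.1 j) : κ → LPA K G) l
    by_cases h : l = i
    · subst h
      rw [Pi.single_eq_same, Pi.single_eq_same, Pi.single_eq_same, mul_add]
    · rw [Pi.single_eq_of_ne h, Pi.single_eq_of_ne h, Pi.single_eq_of_ne h, add_zero]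
  map_smul' a x := by
    apply Subtype.ext
    funext l
    change (Pi.single i ((ck K hG).q (β i) * r * (x.1 j * a.unop)) : κ → LPA K G) l =
      (Pi.single i ((ck K hG).q (β i) * r * x.1 j) : κ → LPA K G) l * a.unop
    by_cases h : l = i
    · subst h
      rw [Pi.single_eq_same, Pi.single_eq_same, mul_assoc, mul_assoc, mul_assoc]
    · rw [Pi.single_eq_of_ne h, Pi.single_eq_of_ne h, zero_mul]

theorem ent_apply (i j : κ) (r : LPA K G) (x : (Std K hG β k).carrier) (l : κ) :
    (ent K hG β k i j r x).1 l = if l = i then (ck K hG).q (β i) * r * x.1 j else 0 := by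
  change (Pi.single i ((ck K hG).q (β i) * r * x.1 j) : κ → LPA K G) l = _
  rw [Pi.single_apply]

theorem end_ext {f g : Module.End (LPA K G)ᵐᵒᵖ (Std K hG β k).carrier}
    (h : ∀ x l, (f x).1 l = (g x).1 l) : f = g :=
  LinearMap.ext fun x => Subtype.ext (funext fun l => h x l)

theorem ent_mul (i j i' j' : κ) (r r' : LPA K G) :
    ent K hG β k i j r * ent K hG β k i' j' r' =
      if j = i' then ent K hG β k i j' (r * (ck K hG).q (β j) * r') else 0 := by
  apply end_ext
  intro x l
  rw [Module.End.mul_apply, ent_apply, ent_apply]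
  by_cases h : j = i'
  · subst h
    rw [if_pos rfl, if_pos rfl, ent_apply]
    split_ifs
    · simp only [mul_assoc]
    · rfl
  · rw [if_neg h, if_neg h, mul_zero, ite_self]
    rfl

theorem ent_add (i j : κ) (r r' : LPA K G) :
    ent K hG β k i j (r + r') = ent K hG β k i j r + ent K hG β k i j r' := by
  apply end_ext
  intro x l
  change (ent K hG β k i j (r + r') x).1 l =
    (ent K hG β k i j r x).1 l + (ent K hG β k i j r' x).1 l
  simp only [ent_apply]
  split_ifs
  · rw [mul_add, add_mul]
  · rw [add_zero]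

theorem ent_zero (i j : κ) : ent K hG β k i j 0 = 0 := by
  apply end_ext
  intro x l
  rw [ent_apply, mul_zero, zero_mul, ite_self]
  rfl

theorem ent_sum {μ : Type} (s : Finset μ) (i j : κ) (r : μ → LPA K G) :
    ent K hG β k i j (∑ a ∈ s, r a) = ∑ a ∈ s, ent K hG β k i j (r a) := by
  classical
  induction s using Finset.induction_on with
  | empty => simp [ent_zero]
  | insert a s ha ih => rw [Finset.sum_insert ha, Finset.sum_insert ha, ent_add, ih]

theorem q_ent (i j : κ) (r : LPA K G) :
    ent K hG β k i j ((ck K hG).q (β i) * r) = ent K hG β k i j r := by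
  apply end_ext
  intro x l
  rw [ent_apply, ent_apply, ← mul_assoc, (ck K hG).qq, if_pos rfl]

theorem ent_q (i j : κ) (r : LPA K G) :
    ent K hG β k i j (r * (ck K hG).q (β j)) = ent K hG β k i j r := by
  apply end_ext
  intro x l
  rw [ent_apply, ent_apply]
  congr 1
  rw [mul_assoc, mul_assoc, std_coord, mul_assoc]

theorem ent_smul (c : K) (i j : κ) (r : LPA K G) :
    letI := endAlg K (A := LPA K G) (Std K hG β k).carrier
    ent K hG β k i j (c • r) = c • ent K hG β k i j r := by
  letI := endAlg K (A := LPA K G) (Std K hG β k).carrier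
  apply end_ext
  intro x l
  change (ent K hG β k i j (c • r) x).1 l =
    (ent K hG β k i j r x).1 l * algebraMap K (LPA K G) c
  rw [ent_apply, ent_apply]
  split_ifs
  · rw [← Algebra.commutes c, ← Algebra.smul_def, mul_smul_comm, smul_mul_assoc]
  · rw [zero_mul]

theorem sum_ent_one : ∑ i, ent K hG β k i i 1 = 1 := by
  apply end_ext
  intro x l
  rw [LinearMap.sum_apply]
  have h1 : ((∑ i, (ent K hG β k i i 1) x : (Std K hG β k).carrier)).1 l =
      ∑ i, ((ent K hG β k i i 1) x).1 l := by
    have : ∀ s : Finset κ, ((∑ i ∈ s, (ent K hG β k i i 1) x : (Std K hG β k).carrier)).1 l =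
        ∑ i ∈ s, ((ent K hG β k i i 1) x).1 l := by
      intro s
      induction s using Finset.induction_on with
      | empty => simp; rfl
      | insert a s ha ih => rw [Finset.sum_insert ha, Finset.sum_insert ha, ← ih]; rfl
    exact this _
  rw [h1, Finset.sum_eq_single l]
  · rw [ent_apply, if_pos rfl, mul_one, std_coord]
    rfl
  · intro b _ hb
    rw [ent_apply, if_neg (Ne.symm hb)]
  · intro h; exact absurd (Finset.mem_univ _) h

variable (σ : G.V → κ) (hσ : ∀ i e, G.s e = β i → β (σ (G.r e)) = G.r e)

/-- The family on the endomorphism ring. -/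
def entFam : CKF (G.copy β σ) (Module.End (LPA K G)ᵐᵒᵖ (Std K hG β k).carrier) where
  q i := ent K hG β k i i 1
  z p := ent K hG β k p.1.1 (σ (G.r p.1.2)) ((ck K hG).z p.1.2)
  w p := ent K hG β k (σ (G.r p.1.2)) p.1.1 ((ck K hG).w p.1.2)
  qq i j := by
    rw [ent_mul]
    split_ifs with h
    · subst h
      rw [one_mul, mul_one]
      have := q_ent K hG β k i i 1
      rw [mul_one] at this
      exact this
    · rfl
  sz p := by
    rw [ent_mul, if_pos rfl, one_mul, q_ent]
  zr p := by
    rw [ent_mul, if_pos rfl, mul_one, ent_q]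
  rw' p := by
    rw [ent_mul, if_pos rfl, one_mul, q_ent]
  ws p := by
    rw [ent_mul, if_pos rfl, mul_one, ent_q]
  ck1 p p' := by
    rw [ent_mul]
    by_cases h1 : p.1.1 = p'.1.1
    · rw [if_pos h1]
      have h2 : (ck K hG).q (β p.1.1) * (ck K hG).z p'.1.2 = (ck K hG).z p'.1.2 := by
        rw [h1, ← p'.2, (ck K hG).sz]
      rw [mul_assoc, h2, (ck K hG).ck1]
      by_cases h3 : p.1.2 = p'.1.2
      · have h4 : p = p' := Subtype.ext (Prod.ext h1 h3)
        subst h4
        rw [if_pos rfl, if_pos rfl]
        have h5 := q_ent K hG β k (σ (G.r p.1.2)) (σ (G.r p.1.2)) 1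
        rw [hσ _ _ p.2, mul_one] at h5
        exact h5
      · rw [if_neg h3, if_neg (fun h => h3 (by rw [h])), ent_zero]
    · rw [if_neg h1, if_neg (fun h => h1 (by rw [h]))]
  ck2 i := by
    have h1 : ∀ p : {p : κ × G.E // G.s p.2 = β p.1},
        ent K hG β k p.1.1 (σ (G.r p.1.2)) ((ck K hG).z p.1.2) *
          ent K hG β k (σ (G.r p.1.2)) p.1.1 ((ck K hG).w p.1.2) =
        (fun p : κ × G.E => ent K hG β k p.1 p.1 ((ck K hG).z p.2 * (ck K hG).w p.2)) p.1 := by
      intro p
      rw [ent_mul, if_pos rfl, hσ _ _ p.2, (ck K hG).zr]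
    rw [Finset.sum_congr rfl fun p _ => h1 p, Finset.sum_filter]
    refine (Finset.sum_congr rfl (fun p _ => ?_)).trans
      ((Finset.sum_subtype (p := fun p : κ × G.E => G.s p.2 = β p.1)
      (Finset.univ.filter fun p : κ × G.E => G.s p.2 = β p.1) (by simp)
      (fun p : κ × G.E => if p.1 = i then
        ent K hG β k p.1 p.1 ((ck K hG).z p.2 * (ck K hG).w p.2) else 0)).symm.trans ?_)
    · rfl
    · rw [Finset.sum_filter, Fintype.sum_prod_type, Finset.sum_eq_single i]
      · have h5 := q_ent K hG β k i i 1
        rw [mul_one] at h5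
        rw [← h5, ← (ck K hG).ck2 (β i), ent_sum, Finset.sum_filter]
        refine Finset.sum_congr rfl fun e _ => ?_
        simp
      · intro j _ hj
        refine Finset.sum_eq_zero fun e _ => ?_
        rw [if_neg hj, ite_self]
      · intro h; exact absurd (Finset.mem_univ _) h
  one := sum_ent_one K hG β k

end LPA

end

end Pool.Agent.Y83
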