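import Pool.Agent.Y83.Mr2

set_option linter.unusedSectionVars false
set_option linter.unusedVariables false
set_option linter.style.haveILetI false

/-!
# The family on the endomorphism ring of a standard module is exhausting
-/

namespace Pool.Agent.Y83

open Matrix MulOpposite

noncomputable section

namespace LPA

variable (K : Type) [Field K] {G : FGraph} (hG : G.NoSinks)

attribute [local instance] endAlg

theorem algebraMap_mem (c : K) : algebraMap K (LPA K G) c ∈ grading K G 0 := by
  have h1 : algebraMap K (LPA K G) c = c • (1 : LPA K G) := Algebra.algebraMap_eq_smul_one c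
  rw [h1]
  exact Submodule.smul_mem (gr K G 0) c (one_mem_gr K)

/-- The degree preserving endomorphisms. -/
def end0 (P : GrMod (grading K G)) : Submodule K (Module.End (LPA K G)ᵐᵒᵖ P.carrier) where
  carrier := {g | ∀ n x, x ∈ P.deg n → g x ∈ P.deg n}
  add_mem' {f g} hf hg n x hx := AddSubgroup.add_mem _ (hf n x hx) (hg n x hx)
  zero_mem' n x _ := AddSubgroup.zero_mem _
  smul_mem' c g hg n x hx := by
    have h1 := P.smul_mem n 0 (g x) (algebraMap K (LPA K G) c) (hg n x hx) (algebraMap_mem K c)
    rw [add_zero] at h1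
    exact h1

variable {κ : Type} [Fintype κ] [DecidableEq κ] (β : κ → G.V) (k : ℤ)

/-- `ent` as a linear map -/
def entL (i j : κ) : LPA K G →ₗ[K] Module.End (LPA K G)ᵐᵒᵖ (Std K hG β k).carrier where
  toFun r := ent K hG β k i j r
  map_add' := ent_add K hG β k i j
  map_smul' c r := ent_smul K hG β k c i j r

variable (σ : G.V → κ) (hσ : ∀ i e, G.s e = β i → β (σ (G.r e)) = G.r e)

include hσ in
theorem ent_zw (i j : κ) (e f : G.E) (t : LPA K G) (he : G.s e = β i) (hf : G.s f = β j) :
    ent K hG β k i j ((ck K hG).z e * t * (ck K hG).w f) =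
      ent K hG β k i (σ (G.r e)) ((ck K hG).z e) *
        ent K hG β k (σ (G.r e)) (σ (G.r f)) t *
        ent K hG β k (σ (G.r f)) j ((ck K hG).w f) := by
  rw [ent_mul, if_pos rfl, ent_mul, if_pos rfl, hσ _ _ he, hσ _ _ hf, (ck K hG).zr]
  congr 1
  rw [mul_assoc _ ((ck K hG).q (G.r f)) ((ck K hG).w f), (ck K hG).rw']

theorem ent_zero_left (i j : κ) (r : LPA K G) (h : (ck K hG).q (β i) * r = 0) :
    ent K hG β k i j r = 0 := by
  rw [← q_ent, h, ent_zero]

theorem ent_zero_right (i j : κ) (r : LPA K G) (h : r * (ck K hG).q (β j) = 0) :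
    ent K hG β k i j r = 0 := by
  rw [← ent_q, h, ent_zero]

theorem ent_levS (m : ℕ) : ∀ r ∈ (ck K hG).levS K m, ∀ i j,
    ent K hG β k i j r ∈ (entFam K hG β k σ hσ).levS K (m + 1) := by
  induction m with
  | zero =>
    intro r hr i j
    have h : (ck K hG).levS K 0 ≤
        ((entFam K hG β k σ hσ).levS K 1).comap (entL K hG β k i j) := by
      refine Submodule.span_le.mpr ?_
      rintro _ ⟨v, rfl⟩
      change ent K hG β k i j ((ck K hG).q v) ∈ (entFam K hG β k σ hσ).levS K 1
      by_cases h1 : β i = v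
      · by_cases h2 : β j = v
        · have h3 : (ck K hG).q v =
              ∑ e with G.s e = v, (ck K hG).z e * (ck K hG).q (G.r e) * (ck K hG).w e := by
            rw [← (ck K hG).ck2 v]
            refine Finset.sum_congr rfl fun e _ => ?_
            rw [(ck K hG).zr]
          rw [h3, ent_sum]
          refine Submodule.sum_mem _ fun e he => ?_
          have he' : G.s e = v := (Finset.mem_filter.mp he).2
          rw [ent_zw K hG β k σ hσ i j e e _ (he'.trans h1.symm) (he'.trans h2.symm)]
          have h4 : ent K hG β k (σ (G.r e)) (σ (G.r e)) ((ck K hG).q (G.r e)) =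
              (entFam K hG β k σ hσ).q (σ (G.r e)) := by
            have h5 := q_ent K hG β k (σ (G.r e)) (σ (G.r e)) 1
            rw [mul_one, hσ _ _ (he'.trans h1.symm)] at h5
            exact h5
          rw [h4]
          exact (entFam K hG β k σ hσ).zw_mem K
            ((entFam K hG β k σ hσ).q_mem_levS_zero K (σ (G.r e)))
            (⟨(i, e), he'.trans h1.symm⟩ : (G.copy β σ).E)
            (⟨(j, e), he'.trans h2.symm⟩ : (G.copy β σ).E)
        · rw [ent_zero_right K hG β k i j _ (by rw [(ck K hG).qq, if_neg (Ne.symm h2)])]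
          exact Submodule.zero_mem _
      · rw [ent_zero_left K hG β k i j _ (by rw [(ck K hG).qq, if_neg h1])]
        exact Submodule.zero_mem _
    exact h hr
  | succ m ih =>
    intro r hr i j
    have h : (ck K hG).levS K (m + 1) ≤
        ((entFam K hG β k σ hσ).levS K (m + 1 + 1)).comap (entL K hG β k i j) := by
      refine (ck K hG).levS_succ_le K fun t ht e f => ?_
      change ent K hG β k i j ((ck K hG).z e * t * (ck K hG).w f) ∈
        (entFam K hG β k σ hσ).levS K (m + 1 + 1)
      by_cases h1 : G.s e = β i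
      · by_cases h2 : G.s f = β j
        · rw [ent_zw K hG β k σ hσ i j e f _ h1 h2]
          exact (entFam K hG β k σ hσ).zw_mem K (ih t ht _ _)
            (⟨(i, e), h1⟩ : (G.copy β σ).E) (⟨(j, f), h2⟩ : (G.copy β σ).E)
        · rw [ent_zero_right K hG β k i j _ (by
            rw [mul_assoc, (ck K hG).w_q, if_neg h2, mul_zero])]
          exact Submodule.zero_mem _
      · rw [ent_zero_left K hG β k i j _ (by
          rw [← mul_assoc, ← mul_assoc, (ck K hG).q_z, if_neg (Ne.symm h1), zero_mul, zero_mul])]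
        exact Submodule.zero_mem _
    exact h hr

/-- the basis elements -/
def stdE (j : κ) : (Std K hG β k).carrier :=
  stdMk K hG β k (Pi.single j ((ck K hG).q (β j))) (fun l => by
    by_cases h : l = j
    · subst h
      rw [Pi.single_eq_same, (ck K hG).qq, if_pos rfl]
    · rw [Pi.single_eq_of_ne h, mul_zero])

theorem std_sum_coe {μ : Type} (s : Finset μ) (x : μ → (Std K hG β k).carrier) (l : κ) :
    ((∑ j ∈ s, x j : (Std K hG β k).carrier)).1 l = ∑ j ∈ s, (x j).1 l := by
  classical
  induction s using Finset.induction_on with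
  | empty => simp; rfl
  | insert a s ha ih => rw [Finset.sum_insert ha, Finset.sum_insert ha, ← ih]; rfl

theorem std_expand (x : (Std K hG β k).carrier) :
    x = ∑ j, op (x.1 j) • stdE K hG β k j := by
  apply Subtype.ext
  funext l
  rw [std_sum_coe, Finset.sum_eq_single l]
  · change x.1 l = (Pi.single l ((ck K hG).q (β l)) : κ → LPA K G) l * x.1 l
    rw [Pi.single_eq_same, std_coord]
  · intro b _ hb
    change (Pi.single b ((ck K hG).q (β b)) : κ → LPA K G) l * x.1 b = 0
    rw [Pi.single_eq_of_ne (Ne.symm hb), zero_mul]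
  · intro h; exact absurd (Finset.mem_univ _) h

theorem end_expand (g : Module.End (LPA K G)ᵐᵒᵖ (Std K hG β k).carrier) :
    g = ∑ i, ∑ j, ent K hG β k i j ((g (stdE K hG β k j)).1 i) := by
  apply end_ext
  intro x l
  have h0 : (g x).1 l = ∑ j, (g (op (x.1 j) • stdE K hG β k j)).1 l := by
    conv_lhs => rw [std_expand K hG β k x, map_sum, std_sum_coe]
  rw [h0]
  symm
  rw [LinearMap.sum_apply, std_sum_coe, Finset.sum_eq_single l]
  · rw [LinearMap.sum_apply, std_sum_coe]
    refine Finset.sum_congr rfl fun j _ => ?_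
    rw [ent_apply, if_pos rfl, std_coord, map_smul]
    rfl
  · intro b _ hb
    rw [LinearMap.sum_apply, std_sum_coe]
    refine Finset.sum_eq_zero fun j _ => ?_
    rw [ent_apply, if_neg (Ne.symm hb)]
  · intro h; exact absurd (Finset.mem_univ _) h

theorem stdE_mem (j : κ) : stdE K hG β k j ∈ (Std K hG β k).deg (-k) := by
  intro l _
  change (Pi.single j ((ck K hG).q (β j)) : κ → LPA K G) l ∈ grading K G (-k + k)
  rw [neg_add_cancel]
  by_cases h : l = j
  · subst h
    rw [Pi.single_eq_same]
    exact q_mem K hG _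
  · rw [Pi.single_eq_of_ne h]
    exact AddSubgroup.zero_mem _

/-- The family is exhausting. -/
theorem entFam_exhausting (g : Module.End (LPA K G)ᵐᵒᵖ (Std K hG β k).carrier)
    (hg : g ∈ end0 K (Std K hG β k)) : ∃ i, g ∈ (entFam K hG β k σ hσ).levS K i := by
  have h1 : ∀ i j, (g (stdE K hG β k j)).1 i ∈ grading K G 0 := by
    intro i j
    have h2 := hg _ _ (stdE_mem K hG β k j) i (Set.mem_univ _)
    change (g (stdE K hG β k j)).1 i ∈ grading K G (-k + k) at h2
    rwa [neg_add_cancel] at h2
  have h2 : ∀ i j, ∃ m, (g (stdE K hG β k j)).1 i ∈ (ck K hG).levS K m := fun i j =>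
    exists_lev_of_mem K hG (h1 i j)
  choose m hm using h2
  let M : ℕ := Finset.univ.sup fun p : κ × κ => m p.1 p.2
  refine ⟨M + 1, ?_⟩
  rw [end_expand K hG β k g]
  refine Submodule.sum_mem _ fun i _ => Submodule.sum_mem _ fun j _ => ?_
  refine ent_levS K hG β k σ hσ M _ ?_ i j
  exact (ck K hG).levS_mono K (Finset.le_sup (f := fun p : κ × κ => m p.1 p.2)
    (Finset.mem_univ (i, j))) (hm i j)

theorem entFam_q_ne_zero (i : κ) : (entFam K hG β k σ hσ).q i ≠ 0 := by
  intro h
  have h1 := congrArg (fun g : Module.End (LPA K G)ᵐᵒᵖ (Std K hG β k).carrier =>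
    (g (stdE K hG β k i)).1 i) h
  change (ent K hG β k i i 1 (stdE K hG β k i)).1 i = 0 at h1
  rw [ent_apply, if_pos rfl, mul_one] at h1
  change (ck K hG).q (β i) * (Pi.single i ((ck K hG).q (β i)) : κ → LPA K G) i = 0 at h1
  rw [Pi.single_eq_same, (ck K hG).qq, if_pos rfl] at h1
  exact q_ne_zero K hG _ h1

/-- Endomorphisms of degree `d`. -/
def HomD {A : Type} [Ring A] {𝒜 : ℤ → AddSubgroup A} (P Q : GrMod 𝒜) (d : ℤ)
    (f : P.carrier →ₗ[Aᵐᵒᵖ] Q.carrier) : Prop := ∀ n x, x ∈ P.deg n → f x ∈ Q.deg (n + d)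

theorem ent_homD (i j : κ) (d : ℤ) (r : LPA K G) (hr : r ∈ grading K G d) :
    HomD (Std K hG β k) (Std K hG β k) d (ent K hG β k i j r) := by
  intro n x hx l _
  change (ent K hG β k i j r x).1 l ∈ grading K G (n + d + k)
  rw [ent_apply]
  split_ifs
  · have h1 : x.1 j ∈ grading K G (n + k) := hx j (Set.mem_univ _)
    have h2 := SetLike.mul_mem_graded (SetLike.mul_mem_graded (q_mem K hG (β i)) hr) h1
    rwa [show 0 + d + (n + k) = n + d + k by ring] at h2
  · exact AddSubgroup.zero_mem _

end LPA

end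

end Pool.Agent.Y83
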