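import Mathlib

/-!
# The sign-gyration cocycle on pairs of integer matrices
-/

namespace Pool.Agent.Y83

/-- `choose(z,2)` modulo two. -/
def c2 (z : ℤ) : ZMod 2 := ((z * (z - 1) / 2 : ℤ) : ZMod 2)

theorem c2_zero : c2 0 = 0 := by simp [c2]

theorem c2_one : c2 1 = 0 := by simp [c2]

theorem two_mul_half (z : ℤ) : 2 * (z * (z - 1) / 2) = z * (z - 1) := by
  have : 2 ∣ z * (z - 1) := by
    rcases Int.even_or_odd z with h | h
    · exact Dvd.dvd.mul_right h.two_dvd _
    · exact Dvd.dvd.mul_left (by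
        obtain ⟨k, hk⟩ := h
        exact ⟨k, by omega⟩) _
  omega

theorem c2_add (a b : ℤ) : c2 (a + b) = c2 a + c2 b + (a : ZMod 2) * b := by
  have h : (a + b) * (a + b - 1) / 2 = a * (a - 1) / 2 + b * (b - 1) / 2 + a * b := by
    have h1 := two_mul_half (a + b)
    have h2 := two_mul_half a
    have h3 := two_mul_half b
    have h4 : (a + b) * (a + b - 1) = a * (a - 1) + b * (b - 1) + 2 * (a * b) := by ring
    omega
  unfold c2
  rw [h]
  push_cast
  ring

theorem c2_mul (a b : ℤ) : c2 (a * b) = (a : ZMod 2) * c2 b + (b : ZMod 2) * c2 a := by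
  have h : a * b * (a * b - 1) / 2 = a * a * (b * (b - 1) / 2) + b * (a * (a - 1) / 2) := by
    have h1 := two_mul_half (a * b)
    have h2 := two_mul_half a
    have h3 := two_mul_half b
    have h4 : 2 * (a * a * (b * (b - 1) / 2) + b * (a * (a - 1) / 2))
        = a * a * (2 * (b * (b - 1) / 2)) + b * (2 * (a * (a - 1) / 2)) := by ring
    rw [h2, h3] at h4
    have h5 : a * a * (b * (b - 1)) + b * (a * (a - 1)) = a * b * (a * b - 1) := by ring
    omega
  have h6 : (a : ZMod 2) * a = a := by
    generalize (a : ZMod 2) = x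
    revert x; decide
  unfold c2
  rw [h]
  push_cast
  rw [h6]

end Pool.Agent.Y83
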