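import Pool.Agent.Y83.Sgc

set_option linter.unusedSectionVars false

/-!
# The cocycle identity: the quartic part
-/

namespace Pool.Agent.Y83

open Finset

/-- order indicator modulo two -/
def lo {α : Type*} [LinearOrder α] (a a' : α) : ZMod 2 := if a < a' then 1 else 0

/-- equality indicator modulo two -/
def ei {α : Type*} [DecidableEq α] (a a' : α) : ZMod 2 := if a = a' then 1 else 0

section quartic

variable {α β γ : Type*} [Fintype α] [LinearOrder α] [Fintype β] [LinearOrder β]
  [Fintype γ] [LinearOrder γ]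

/-- the quartic part of the cocycle -/
def Q (r : α → β → ZMod 2) (s : β → α → ZMod 2) : ZMod 2 :=
  (∑ i, ∑ j, ∑ k, ∑ l, lo i j * lo l k * (r i k * s k i) * (r j l * s l j)) +
  ∑ i, ∑ j, ∑ k, ∑ l, lo i j * (1 + lo k l) * (r i k * s k j) * (r j l * s l i)

variable (x : α → β → ZMod 2) (y : β → γ → ZMod 2) (z : γ → α → ZMod 2)

def MI (t t' : α × β × γ) : ZMod 2 :=
  x t.1 t.2.1 * y t.2.1 t.2.2 * z t.2.2 t.1 * (x t'.1 t'.2.1 * y t'.2.1 t'.2.2 * z t'.2.2 t'.1)

def MII (t t' : α × β × γ) : ZMod 2 :=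
  x t.1 t.2.1 * y t.2.1 t.2.2 * z t.2.2 t'.1 * (x t'.1 t'.2.1 * y t'.2.1 t'.2.2 * z t'.2.2 t.1)

theorem MI_swap (t t' : α × β × γ) : MI x y z t' t = MI x y z t t' := by
  unfold MI; ring

theorem MII_swap (t t' : α × β × γ) : MII x y z t' t = MII x y z t t' := by
  unfold MII; ring

theorem MI_eq_MII_of_fst (t t' : α × β × γ) (h : t.1 = t'.1) :
    MI x y z t t' = MII x y z t t' := by
  unfold MI MII; rw [h]

theorem MI_eq_MII_of_thd (t t' : α × β × γ) (h : t.2.2 = t'.2.2) :
    MI x y z t t' = MII x y z t t' := by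
  unfold MI MII; rw [h]; ring

theorem sum6 {M : Type*} [AddCommMonoid M] (f : α → α → β → β → γ → γ → M) :
    (∑ t : α × β × γ, ∑ t' : α × β × γ, f t.1 t'.1 t.2.1 t'.2.1 t.2.2 t'.2.2) =
      ∑ a, ∑ a', ∑ b, ∑ b', ∑ c, ∑ c', f a a' b b' c c' := by
  simp only [Fintype.sum_prod_type]
  refine Finset.sum_congr rfl fun a _ => ?_
  calc (∑ b, ∑ c, ∑ a', ∑ b', ∑ c', f a a' b b' c c')
      = ∑ b, ∑ a', ∑ c, ∑ b', ∑ c', f a a' b b' c c' :=
        Finset.sum_congr rfl fun b _ => Finset.sum_comm
    _ = ∑ a', ∑ b, ∑ c, ∑ b', ∑ c', f a a' b b' c c' := Finset.sum_comm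
    _ = ∑ a', ∑ b, ∑ b', ∑ c, ∑ c', f a a' b b' c c' :=
        Finset.sum_congr rfl fun a' _ => Finset.sum_congr rfl fun b _ => Finset.sum_comm

theorem Q_xy_z : Q (fun a c => ∑ b, x a b * y b c) z =
    ∑ t : α × β × γ, ∑ t' : α × β × γ,
      (lo t.1 t'.1 * lo t'.2.2 t.2.2 * MI x y z t t' +
        lo t.1 t'.1 * (1 + lo t.2.2 t'.2.2) * MII x y z t t') := by
  have h := sum6 (α := α) (β := β) (γ := γ) (fun a a' b b' c c' =>
      lo a a' * lo c' c * (x a b * y b c * z c a * (x a' b' * y b' c' * z c' a')) +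
        lo a a' * (1 + lo c c') * (x a b * y b c * z c a' * (x a' b' * y b' c' * z c' a)))
  unfold MI MII
  rw [h]
  unfold Q
  rw [← Finset.sum_add_distrib]
  refine Finset.sum_congr rfl fun a _ => ?_
  rw [← Finset.sum_add_distrib]
  refine Finset.sum_congr rfl fun a' _ => ?_
  rw [← Finset.sum_add_distrib]
  have key : ∀ c c' : γ,
      lo a a' * lo c' c * ((∑ b, x a b * y b c) * z c a) * ((∑ b, x a' b * y b c') * z c' a') +
      lo a a' * (1 + lo c c') * ((∑ b, x a b * y b c) * z c a') *
        ((∑ b, x a' b * y b c') * z c' a) =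
      ∑ b, ∑ b', (lo a a' * lo c' c * (x a b * y b c * z c a * (x a' b' * y b' c' * z c' a')) +
        lo a a' * (1 + lo c c') * (x a b * y b c * z c a' * (x a' b' * y b' c' * z c' a))) := by
    intro c c'
    simp only [Finset.sum_add_distrib, Finset.sum_mul, Finset.mul_sum]
    congr 1 <;>
    · rw [Finset.sum_comm]
      refine Finset.sum_congr rfl fun b _ => Finset.sum_congr rfl fun b' _ => ?_
      ring
  calc (∑ c, ((∑ c', lo a a' * lo c' c * ((∑ b, x a b * y b c) * z c a) *
        ((∑ b, x a' b * y b c') * z c' a')) + ∑ c', lo a a' * (1 + lo c c') *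
          ((∑ b, x a b * y b c) * z c a') * ((∑ b, x a' b * y b c') * z c' a)))
      = ∑ c, ∑ c', ∑ b, ∑ b', (lo a a' * lo c' c *
        (x a b * y b c * z c a * (x a' b' * y b' c' * z c' a')) +
        lo a a' * (1 + lo c c') * (x a b * y b c * z c a' * (x a' b' * y b' c' * z c' a))) := by
        refine Finset.sum_congr rfl fun c _ => ?_
        rw [← Finset.sum_add_distrib]
        exact Finset.sum_congr rfl fun c' _ => key c c'
    _ = _ := by
        rw [Finset.sum_congr rfl fun c _ => Finset.sum_comm]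
        rw [Finset.sum_comm]
        refine Finset.sum_congr rfl fun b _ => ?_
        rw [Finset.sum_congr rfl fun c _ => Finset.sum_comm]
        rw [Finset.sum_comm]

theorem Q_x_yz : Q x (fun b a => ∑ c, y b c * z c a) =
    ∑ t : α × β × γ, ∑ t' : α × β × γ,
      (lo t.1 t'.1 * lo t'.2.1 t.2.1 * MI x y z t t' +
        lo t.1 t'.1 * (1 + lo t.2.1 t'.2.1) * MII x y z t t') := by
  have h := sum6 (α := α) (β := β) (γ := γ) (fun a a' b b' c c' =>
      lo a a' * lo b' b * (x a b * y b c * z c a * (x a' b' * y b' c' * z c' a')) +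
        lo a a' * (1 + lo b b') * (x a b * y b c * z c a' * (x a' b' * y b' c' * z c' a)))
  unfold MI MII
  rw [h]
  unfold Q
  rw [← Finset.sum_add_distrib]
  refine Finset.sum_congr rfl fun a _ => ?_
  rw [← Finset.sum_add_distrib]
  refine Finset.sum_congr rfl fun a' _ => ?_
  rw [← Finset.sum_add_distrib]
  refine Finset.sum_congr rfl fun b _ => ?_
  rw [← Finset.sum_add_distrib]
  refine Finset.sum_congr rfl fun b' _ => ?_
  simp only [Finset.sum_add_distrib, Finset.sum_mul, Finset.mul_sum]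
  congr 1 <;>
  · rw [Finset.sum_comm]
    refine Finset.sum_congr rfl fun c _ => Finset.sum_congr rfl fun c' _ => ?_
    ring

theorem Q_y_zx : Q y (fun c b => ∑ a, z c a * x a b) =
    ∑ t : α × β × γ, ∑ t' : α × β × γ,
      (lo t.2.1 t'.2.1 * lo t'.2.2 t.2.2 * MI x y z t t' +
        lo t.2.1 t'.2.1 * (1 + lo t.2.2 t'.2.2) * MII x y z t t') := by
  have h := sum6 (α := α) (β := β) (γ := γ) (fun a a' b b' c c' =>
      lo b b' * lo c' c * (x a b * y b c * z c a * (x a' b' * y b' c' * z c' a')) +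
        lo b b' * (1 + lo c c') * (x a b * y b c * z c a' * (x a' b' * y b' c' * z c' a)))
  unfold MI MII
  rw [h]
  unfold Q
  have key : ∀ (b b' : β) (c c' : γ),
      lo b b' * lo c' c * (y b c * ∑ a, z c a * x a b) * (y b' c' * ∑ a, z c' a * x a b') +
      lo b b' * (1 + lo c c') * (y b c * ∑ a, z c a * x a b') *
        (y b' c' * ∑ a, z c' a * x a b) =
      ∑ a, ∑ a', (lo b b' * lo c' c * (x a b * y b c * z c a * (x a' b' * y b' c' * z c' a')) +
        lo b b' * (1 + lo c c') * (x a b * y b c * z c a' * (x a' b' * y b' c' * z c' a))) := by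
    intro b b' c c'
    simp only [Finset.sum_add_distrib, Finset.sum_mul, Finset.mul_sum]
    congr 1
    · rw [Finset.sum_comm]
      refine Finset.sum_congr rfl fun b _ => Finset.sum_congr rfl fun b' _ => ?_
      ring
    · refine Finset.sum_congr rfl fun b _ => Finset.sum_congr rfl fun b' _ => ?_
      ring
  calc _ = ∑ b, ∑ b', ∑ c, ∑ c', ∑ a, ∑ a', (lo b b' * lo c' c *
        (x a b * y b c * z c a * (x a' b' * y b' c' * z c' a')) +
        lo b b' * (1 + lo c c') * (x a b * y b c * z c a' * (x a' b' * y b' c' * z c' a))) := by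
        rw [← Finset.sum_add_distrib]
        refine Finset.sum_congr rfl fun b _ => ?_
        rw [← Finset.sum_add_distrib]
        refine Finset.sum_congr rfl fun b' _ => ?_
        rw [← Finset.sum_add_distrib]
        refine Finset.sum_congr rfl fun c _ => ?_
        rw [← Finset.sum_add_distrib]
        exact Finset.sum_congr rfl fun c' _ => key b b' c c'
    _ = _ := by
        -- move a, a' to the front
        have mv : ∀ (g : β → β → γ → γ → α → ZMod 2),
            (∑ b, ∑ b', ∑ c, ∑ c', ∑ a, g b b' c c' a) =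
            ∑ a, ∑ b, ∑ b', ∑ c, ∑ c', g b b' c c' a := by
          intro g
          calc _ = ∑ b, ∑ b', ∑ c, ∑ a, ∑ c', g b b' c c' a :=
                Finset.sum_congr rfl fun b _ => Finset.sum_congr rfl fun b' _ =>
                  Finset.sum_congr rfl fun c _ => Finset.sum_comm
            _ = ∑ b, ∑ b', ∑ a, ∑ c, ∑ c', g b b' c c' a :=
                Finset.sum_congr rfl fun b _ => Finset.sum_congr rfl fun b' _ => Finset.sum_comm
            _ = ∑ b, ∑ a, ∑ b', ∑ c, ∑ c', g b b' c c' a :=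
                Finset.sum_congr rfl fun b _ => Finset.sum_comm
            _ = _ := Finset.sum_comm
        rw [mv]
        refine Finset.sum_congr rfl fun a _ => ?_
        rw [mv]

end quartic

end Pool.Agent.Y83
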