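import Pool.Agent.Y83.Sgc2

set_option linter.unusedSectionVars false

/-!
# The cocycle identity
-/

namespace Pool.Agent.Y83

open Finset

section aux

variable {α : Type*} [LinearOrder α]

theorem lo_swap (a a' : α) : lo a' a = 1 + lo a a' + ei a a' := by
  unfold lo ei
  rcases lt_trichotomy a a' with h | h | h
  · simp [h, h.not_gt, h.ne]; decide
  · subst h; simp; decide
  · simp [h, h.not_gt, h.ne']

theorem ei_swap (a a' : α) : ei a' a = ei a a' := by
  unfold ei; simp [eq_comm]

theorem lo_of_eq {a a' : α} (h : a = a') : lo a a' = 0 := by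
  subst h; simp [lo]

theorem ei_of_eq {a a' : α} (h : a = a') : ei a a' = 1 := by
  subst h; simp [ei]

theorem ei_of_ne {a a' : α} (h : a ≠ a') : ei a a' = 0 := by
  simp [ei, h]

theorem two_eq_zero' : (2 : ZMod 2) = 0 := by decide

theorem add_self' (x : ZMod 2) : x + x = 0 := by
  revert x; decide

theorem mul_self' (x : ZMod 2) : x * x = x := by
  revert x; decide

end aux

/-- a sum over ordered pairs of a function whose values at `(t,t')`, `(t',t)` cancel -/
theorem sum_pairs_zero {T : Type*} [Fintype T] (g : T → T → ZMod 2)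
    (h : ∀ t t', g t t' + g t' t = 0) (h0 : ∀ t, g t t = 0) : ∑ t, ∑ t', g t t' = 0 := by
  classical
  rw [← Fintype.sum_prod_type']
  refine Finset.sum_involution (fun p _ => (p.2, p.1)) ?_ ?_ ?_ ?_
  · rintro ⟨t, t'⟩ _
    exact h t t'
  · rintro ⟨t, t'⟩ _ hne heq
    simp only [Prod.mk.injEq] at heq
    apply hne
    rw [heq.1]
    exact h0 _
  · rintro ⟨t, t'⟩ _
    simp
  · rintro ⟨t, t'⟩ _
    rfl

section quartic

variable {α β γ : Type*} [Fintype α] [LinearOrder α] [Fintype β] [LinearOrder β]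
  [Fintype γ] [LinearOrder γ]

variable (x : α → β → ZMod 2) (y : β → γ → ZMod 2) (z : γ → α → ZMod 2)

/-- the correction term -/
def EX : ZMod 2 := ∑ a : α, ∑ c : γ, ∑ b : β, ∑ b' : β, lo b b' *
  ((x a b * y b c) * (x a b' * y b' c)) * z c a

/-- weight u -/
def wu (t t' : α × β × γ) : ZMod 2 :=
  lo t.1 t'.1 * lo t.2.1 t'.2.1 + lo t.1 t'.1 * lo t.2.2 t'.2.2 + lo t.2.1 t'.2.1 * lo t.2.2 t'.2.2
    + lo t.2.1 t'.2.1

theorem step1 : ∑ t : α × β × γ, ∑ t' : α × β × γ,
    (wu t t' + ei t.2.1 t'.2.1 * lo t.1 t'.1 * lo t.2.2 t'.2.2) *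
      (MI x y z t t' + MII x y z t t') = 0 := by
  apply sum_pairs_zero
  · rintro ⟨a, b, c⟩ ⟨a', b', c'⟩
    rw [MI_swap x y z (a, b, c) (a', b', c'), MII_swap x y z (a, b, c) (a', b', c')]
    by_cases ha : a = a'
    · have := MI_eq_MII_of_fst x y z (a, b, c) (a', b', c') ha
      rw [this, add_self']; ring
    by_cases hc : c = c'
    · have := MI_eq_MII_of_thd x y z (a, b, c) (a', b', c') hc
      rw [this, add_self']; ring
    rw [← add_mul]
    have key : wu (a, b, c) (a', b', c') + ei b b' * lo a a' * lo c c' +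
        (wu (a', b', c') (a, b, c) + ei b' b * lo a' a * lo c' c) = 0 := by
      unfold wu
      dsimp only
      rw [lo_swap a a', lo_swap b b', lo_swap c c', ei_swap b b', ei_of_ne ha, ei_of_ne hc]
      by_cases hb : b = b'
      · rw [ei_of_eq hb, lo_of_eq hb]
        generalize lo a a' = A
        generalize lo c c' = C
        revert A C; decide
      · rw [ei_of_ne hb]
        generalize lo a a' = A
        generalize lo c c' = C
        generalize lo b b' = B
        revert A B C; decide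
    dsimp only at key ⊢
    rw [key, zero_mul]
  · rintro ⟨a, b, c⟩
    have := MI_eq_MII_of_fst x y z (a, b, c) (a, b, c) rfl
    rw [this, add_self', mul_zero]

theorem step2 : ∑ t : α × β × γ, ∑ t' : α × β × γ,
    ei t.2.1 t'.2.1 * lo t.1 t'.1 * lo t.2.2 t'.2.2 * MII x y z t t' =
    ∑ t : α × β × γ, ∑ t' : α × β × γ,
    ei t.2.1 t'.2.1 * lo t.1 t'.1 * lo t'.2.2 t.2.2 * MI x y z t t' := by
  have h1 := sum6 (α := α) (β := β) (γ := γ) (fun a a' b b' c c' =>
      ei b b' * lo a a' * lo c c' * (x a b * y b c * z c a' * (x a' b' * y b' c' * z c' a)))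
  have h2 := sum6 (α := α) (β := β) (γ := γ) (fun a a' b b' c c' =>
      ei b b' * lo a a' * lo c' c * (x a b * y b c * z c a * (x a' b' * y b' c' * z c' a')))
  unfold MI MII
  rw [h1, h2]
  refine Finset.sum_congr rfl fun a _ => Finset.sum_congr rfl fun a' _ =>
    Finset.sum_congr rfl fun b _ => Finset.sum_congr rfl fun b' _ => ?_
  rw [Finset.sum_comm]
  refine Finset.sum_congr rfl fun c _ => Finset.sum_congr rfl fun c' _ => ?_
  by_cases hb : b = b'
  · subst hb; ring
  · rw [ei_of_ne hb]; ring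

theorem step4 : ∑ t : α × β × γ, ∑ t' : α × β × γ,
    ei t.2.2 t'.2.2 * (lo t.1 t'.1 * ei t.2.1 t'.2.1 + lo t.1 t'.1 + lo t.2.1 t'.2.1 +
      ei t.1 t'.1 * lo t.2.1 t'.2.1) * MI x y z t t' = 0 := by
  apply sum_pairs_zero
  · rintro ⟨a, b, c⟩ ⟨a', b', c'⟩
    rw [MI_swap x y z (a, b, c) (a', b', c')]
    rw [← add_mul]
    have key : ei c c' * (lo a a' * ei b b' + lo a a' + lo b b' + ei a a' * lo b b') +
        ei c' c * (lo a' a * ei b' b + lo a' a + lo b' b + ei a' a * lo b' b) = 0 := by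
      rw [lo_swap a a', lo_swap b b', ei_swap b b', ei_swap a a', ei_swap c c']
      by_cases hb : b = b'
      · rw [ei_of_eq hb, lo_of_eq hb]
        generalize lo a a' = A
        generalize ei a a' = A'
        generalize ei c c' = C
        revert A A' C; decide
      · rw [ei_of_ne hb]
        by_cases ha : a = a'
        · rw [ei_of_eq ha, lo_of_eq ha]
          generalize lo b b' = B
          generalize ei c c' = C
          revert B C; decide
        · rw [ei_of_ne ha]
          generalize lo a a' = A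
          generalize lo b b' = B
          generalize ei c c' = C
          revert A B C; decide
    dsimp only at key ⊢
    rw [key, zero_mul]
  · rintro ⟨a, b, c⟩
    dsimp only
    rw [lo_of_eq (rfl : a = a), lo_of_eq (rfl : b = b)]
    ring

theorem step5 : ∑ t : α × β × γ, ∑ t' : α × β × γ,
    ei t.2.2 t'.2.2 * (ei t.1 t'.1 * lo t.2.1 t'.2.1) * MI x y z t t' = EX x y z := by
  have h1 := sum6 (α := α) (β := β) (γ := γ) (fun a a' b b' c c' =>
      ei c c' * (ei a a' * lo b b') *
        (x a b * y b c * z c a * (x a' b' * y b' c' * z c' a')))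
  unfold MI EX
  rw [h1]
  refine Finset.sum_congr rfl fun a _ => ?_
  rw [Finset.sum_eq_single a]
  · calc _ = ∑ b, ∑ b', ∑ c, lo b b' * ((x a b * y b c) * (x a b' * y b' c)) * z c a := by
          refine Finset.sum_congr rfl fun b _ => Finset.sum_congr rfl fun b' _ =>
            Finset.sum_congr rfl fun c _ => ?_
          rw [Finset.sum_eq_single c]
          · rw [ei_of_eq (rfl : c = c), ei_of_eq (rfl : a = a)]
            calc _ = lo b b' * (x a b * y b c * (x a b' * y b' c)) * (z c a * z c a) := by ring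
              _ = _ := by rw [mul_self']
          · intro c' _ hc
            rw [ei_of_ne (Ne.symm hc)]; ring
          · intro h; exact absurd (Finset.mem_univ _) h
      _ = _ := by
          calc _ = ∑ b, ∑ c, ∑ b', lo b b' * ((x a b * y b c) * (x a b' * y b' c)) * z c a :=
                Finset.sum_congr rfl fun b _ => Finset.sum_comm
            _ = _ := Finset.sum_comm
  · intro a' _ ha
    refine Finset.sum_eq_zero fun b _ => Finset.sum_eq_zero fun b' _ =>
      Finset.sum_eq_zero fun c _ => Finset.sum_eq_zero fun c' _ => ?_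
    rw [ei_of_ne (Ne.symm ha)]; ring
  · intro h; exact absurd (Finset.mem_univ _) h

theorem quartic_identity :
    Q (fun a c => ∑ b, x a b * y b c) z + EX x y z =
      Q x (fun b a => ∑ c, y b c * z c a) + Q y (fun c b => ∑ a, z c a * x a b) := by
  rw [Q_xy_z, Q_x_yz, Q_y_zx]
  have h1 := step1 x y z
  have h2 := step2 x y z
  have h4 := step4 x y z
  have h5 := step5 x y z
  have e : ∀ s t u : ZMod 2, s + t = u → s = t + u := by decide
  have e' : ∀ s t : ZMod 2, s + t = 0 → s = t := by decide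
  apply e'
  rw [← h5]
  have key : ∀ t t' : α × β × γ,
      (lo t.1 t'.1 * lo t'.2.2 t.2.2 * MI x y z t t' +
        lo t.1 t'.1 * (1 + lo t.2.2 t'.2.2) * MII x y z t t') +
      ei t.2.2 t'.2.2 * (ei t.1 t'.1 * lo t.2.1 t'.2.1) * MI x y z t t' +
      ((lo t.1 t'.1 * lo t'.2.1 t.2.1 * MI x y z t t' +
        lo t.1 t'.1 * (1 + lo t.2.1 t'.2.1) * MII x y z t t') +
       (lo t.2.1 t'.2.1 * lo t'.2.2 t.2.2 * MI x y z t t' +
        lo t.2.1 t'.2.1 * (1 + lo t.2.2 t'.2.2) * MII x y z t t')) =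
      ei t.2.2 t'.2.2 * (lo t.1 t'.1 * ei t.2.1 t'.2.1 + lo t.1 t'.1 + lo t.2.1 t'.2.1 +
      ei t.1 t'.1 * lo t.2.1 t'.2.1) * MI x y z t t' +
      (wu t t' + ei t.2.1 t'.2.1 * lo t.1 t'.1 * lo t.2.2 t'.2.2) *
      (MI x y z t t' + MII x y z t t') +
      (ei t.2.1 t'.2.1 * lo t.1 t'.1 * lo t.2.2 t'.2.2 * MII x y z t t' +
        ei t.2.1 t'.2.1 * lo t.1 t'.1 * lo t'.2.2 t.2.2 * MI x y z t t') := by
    rintro ⟨a, b, c⟩ ⟨a', b', c'⟩
    generalize MI x y z (a, b, c) (a', b', c') = M1
    generalize MII x y z (a, b, c) (a', b', c') = M2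
    unfold wu
    dsimp only
    rw [lo_swap b b', lo_swap c c']
    by_cases hb : b = b'
    · rw [ei_of_eq hb, lo_of_eq hb]
      by_cases hc : c = c'
      · rw [ei_of_eq hc, lo_of_eq hc]
        generalize lo a a' = A
        generalize ei a a' = A'
        revert A A' M1 M2; decide
      · rw [ei_of_ne hc]
        generalize lo a a' = A
        generalize ei a a' = A'
        generalize lo c c' = C
        revert A A' C M1 M2; decide
    · rw [ei_of_ne hb]
      by_cases hc : c = c'
      · rw [ei_of_eq hc, lo_of_eq hc]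
        generalize lo a a' = A
        generalize ei a a' = A'
        generalize lo b b' = B
        revert A A' B M1 M2; decide
      · rw [ei_of_ne hc]
        generalize lo a a' = A
        generalize ei a a' = A'
        generalize lo b b' = B
        generalize lo c c' = C
        revert A A' B C M1 M2; decide
  calc _ = ∑ t : α × β × γ, ∑ t' : α × β × γ, (
      (lo t.1 t'.1 * lo t'.2.2 t.2.2 * MI x y z t t' +
        lo t.1 t'.1 * (1 + lo t.2.2 t'.2.2) * MII x y z t t') +
      ei t.2.2 t'.2.2 * (ei t.1 t'.1 * lo t.2.1 t'.2.1) * MI x y z t t' +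
      ((lo t.1 t'.1 * lo t'.2.1 t.2.1 * MI x y z t t' +
        lo t.1 t'.1 * (1 + lo t.2.1 t'.2.1) * MII x y z t t') +
       (lo t.2.1 t'.2.1 * lo t'.2.2 t.2.2 * MI x y z t t' +
        lo t.2.1 t'.2.1 * (1 + lo t.2.2 t'.2.2) * MII x y z t t'))) := by
        simp only [← Finset.sum_add_distrib]
    _ = ∑ t : α × β × γ, ∑ t' : α × β × γ, (
      ei t.2.2 t'.2.2 * (lo t.1 t'.1 * ei t.2.1 t'.2.1 + lo t.1 t'.1 + lo t.2.1 t'.2.1 +
      ei t.1 t'.1 * lo t.2.1 t'.2.1) * MI x y z t t' +
      (wu t t' + ei t.2.1 t'.2.1 * lo t.1 t'.1 * lo t.2.2 t'.2.2) *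
      (MI x y z t t' + MII x y z t t') +
      (ei t.2.1 t'.2.1 * lo t.1 t'.1 * lo t.2.2 t'.2.2 * MII x y z t t' +
        ei t.2.1 t'.2.1 * lo t.1 t'.1 * lo t'.2.2 t.2.2 * MI x y z t t')) :=
        Finset.sum_congr rfl fun t _ => Finset.sum_congr rfl fun t' _ => key t t'
    _ = (∑ t : α × β × γ, ∑ t' : α × β × γ,
      ei t.2.2 t'.2.2 * (lo t.1 t'.1 * ei t.2.1 t'.2.1 + lo t.1 t'.1 + lo t.2.1 t'.2.1 +
      ei t.1 t'.1 * lo t.2.1 t'.2.1) * MI x y z t t') +
      (∑ t : α × β × γ, ∑ t' : α × β × γ,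
       (wu t t' + ei t.2.1 t'.2.1 * lo t.1 t'.1 * lo t.2.2 t'.2.2) *
      (MI x y z t t' + MII x y z t t')) +
      ((∑ t : α × β × γ, ∑ t' : α × β × γ,
      ei t.2.1 t'.2.1 * lo t.1 t'.1 * lo t.2.2 t'.2.2 * MII x y z t t') +
        ∑ t : α × β × γ, ∑ t' : α × β × γ,
        ei t.2.1 t'.2.1 * lo t.1 t'.1 * lo t'.2.2 t.2.2 * MI x y z t t') := by
        simp only [← Finset.sum_add_distrib]
    _ = 0 := by
        rw [h4, h1, h2, add_zero, zero_add]
        exact add_self' _

end quartic

end Pool.Agent.Y83
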