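import Pool.Agent.Y83.Sgc3

set_option linter.unusedSectionVars false

/-!
# The sign-gyration cocycle of a pair of integer matrices, and the triangle identity
-/

namespace Pool.Agent.Y83

open Finset Matrix

theorem c2_sum {β : Type*} [LinearOrder β] (u : β → ℤ) (s : Finset β) :
    c2 (∑ j ∈ s, u j) = ∑ j ∈ s, c2 (u j) +
      ∑ j ∈ s, ∑ j' ∈ s, lo j j' * ((u j : ZMod 2) * (u j' : ZMod 2)) := by
  induction s using Finset.induction_on_max with
  | empty => simp [c2_zero]
  | insert a s hs ih =>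
    have ha : a ∉ s := fun h => lt_irrefl _ (hs a h)
    rw [Finset.sum_insert ha, Finset.sum_insert ha, Finset.sum_insert ha, c2_add, ih,
      Finset.sum_insert ha]
    have e1 : lo a a * ((u a : ZMod 2) * (u a : ZMod 2)) = 0 := by
      rw [lo_of_eq rfl, zero_mul]
    have e2 : ∑ j' ∈ s, lo a j' * ((u a : ZMod 2) * (u j' : ZMod 2)) = 0 := by
      refine Finset.sum_eq_zero fun j hj => ?_
      have : lo a j = 0 := by simp [lo, (hs j hj).not_gt]
      rw [this, zero_mul]
    have e3 : ∑ j ∈ s, ∑ j' ∈ insert a s, lo j j' * ((u j : ZMod 2) * (u j' : ZMod 2)) =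
        (u a : ZMod 2) * (∑ j ∈ s, (u j : ZMod 2)) +
        ∑ j ∈ s, ∑ j' ∈ s, lo j j' * ((u j : ZMod 2) * (u j' : ZMod 2)) := by
      rw [Finset.mul_sum, ← Finset.sum_add_distrib]
      refine Finset.sum_congr rfl fun j hj => ?_
      rw [Finset.sum_insert ha]
      have : lo j a = 1 := by simp [lo, hs j hj]
      rw [this]; ring
    rw [e1, e2, e3]
    push_cast
    ring

section

variable {α β γ : Type*} [Fintype α] [LinearOrder α] [Fintype β] [LinearOrder β]
  [Fintype γ] [LinearOrder γ]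

/-- entrywise reduction modulo two -/
def md (R : Matrix α β ℤ) : α → β → ZMod 2 := fun i k => (R i k : ZMod 2)

/-- The sign-gyration cocycle of a pair of matrices. -/
def sgc (R : Matrix α β ℤ) (S : Matrix β α ℤ) : ZMod 2 :=
  Q (md R) (md S) + ∑ i, ∑ k, c2 (R i k) * (S k i : ZMod 2)

theorem md_mul (X : Matrix α β ℤ) (Y : Matrix β γ ℤ) :
    md (X * Y) = fun a c => ∑ b, md X a b * md Y b c := by
  funext a c
  simp [md, Matrix.mul_apply]

theorem T_identity (X : Matrix α β ℤ) (Y : Matrix β γ ℤ) (Z : Matrix γ α ℤ) :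
    (∑ a, ∑ c, c2 ((X * Y) a c) * (Z c a : ZMod 2)) =
      (∑ a, ∑ b, c2 (X a b) * ((Y * Z) b a : ZMod 2)) +
      (∑ b, ∑ c, c2 (Y b c) * ((Z * X) c b : ZMod 2)) + EX (md X) (md Y) (md Z) := by
  have h1 : ∀ a c, c2 ((X * Y) a c) * (Z c a : ZMod 2) =
      (∑ b, c2 (X a b) * ((Y b c : ZMod 2) * (Z c a : ZMod 2))) +
      (∑ b, c2 (Y b c) * ((Z c a : ZMod 2) * (X a b : ZMod 2))) +
      ∑ b, ∑ b', lo b b' * ((md X a b * md Y b c) * (md X a b' * md Y b' c)) * md Z c a := by
    intro a c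
    rw [Matrix.mul_apply, c2_sum]
    simp only [c2_mul, add_mul, Finset.sum_add_distrib, Finset.sum_mul]
    have e1 : ∑ b, (X a b : ZMod 2) * c2 (Y b c) * (Z c a : ZMod 2) =
        ∑ b, c2 (Y b c) * ((Z c a : ZMod 2) * (X a b : ZMod 2)) :=
      Finset.sum_congr rfl fun b _ => by ring
    have e2 : ∑ b, (Y b c : ZMod 2) * c2 (X a b) * (Z c a : ZMod 2) =
        ∑ b, c2 (X a b) * ((Y b c : ZMod 2) * (Z c a : ZMod 2)) :=
      Finset.sum_congr rfl fun b _ => by ring
    rw [e1, e2]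
    have e3 : ∑ b, ∑ b', lo b b' * (((X a b * Y b c : ℤ) : ZMod 2) * ((X a b' * Y b' c : ℤ) : ZMod 2))
          * (Z c a : ZMod 2) =
        ∑ b, ∑ b', lo b b' * ((md X a b * md Y b c) * (md X a b' * md Y b' c)) * md Z c a := by
      refine Finset.sum_congr rfl fun b _ => Finset.sum_congr rfl fun b' _ => ?_
      simp [md]
    rw [e3]
    ring
  calc _ = ∑ a, ∑ c, ((∑ b, c2 (X a b) * ((Y b c : ZMod 2) * (Z c a : ZMod 2))) +
      (∑ b, c2 (Y b c) * ((Z c a : ZMod 2) * (X a b : ZMod 2))) +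
      ∑ b, ∑ b', lo b b' * ((md X a b * md Y b c) * (md X a b' * md Y b' c)) * md Z c a) :=
        Finset.sum_congr rfl fun a _ => Finset.sum_congr rfl fun c _ => h1 a c
    _ = _ := by
      simp only [Finset.sum_add_distrib]
      have e1 : ∑ a, ∑ c, ∑ b, c2 (X a b) * ((Y b c : ZMod 2) * (Z c a : ZMod 2)) =
          ∑ a, ∑ b, c2 (X a b) * ((Y * Z) b a : ZMod 2) := by
        refine Finset.sum_congr rfl fun a _ => ?_
        rw [Finset.sum_comm]
        refine Finset.sum_congr rfl fun b _ => ?_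
        rw [Matrix.mul_apply]
        push_cast
        rw [Finset.mul_sum]
      have e2 : ∑ a, ∑ c, ∑ b, c2 (Y b c) * ((Z c a : ZMod 2) * (X a b : ZMod 2)) =
          ∑ b, ∑ c, c2 (Y b c) * ((Z * X) c b : ZMod 2) := by
        calc _ = ∑ c, ∑ a, ∑ b, c2 (Y b c) * ((Z c a : ZMod 2) * (X a b : ZMod 2)) :=
              Finset.sum_comm
          _ = ∑ c, ∑ b, ∑ a, c2 (Y b c) * ((Z c a : ZMod 2) * (X a b : ZMod 2)) :=
              Finset.sum_congr rfl fun c _ => Finset.sum_comm
          _ = ∑ b, ∑ c, ∑ a, c2 (Y b c) * ((Z c a : ZMod 2) * (X a b : ZMod 2)) :=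
              Finset.sum_comm
          _ = _ := by
              refine Finset.sum_congr rfl fun b _ => Finset.sum_congr rfl fun c _ => ?_
              rw [Matrix.mul_apply]
              push_cast
              rw [Finset.mul_sum]
      rw [e1, e2]
      rfl

/-- The triangle identity. -/
theorem sgc_triangle (X : Matrix α β ℤ) (Y : Matrix β γ ℤ) (Z : Matrix γ α ℤ) :
    sgc (X * Y) Z = sgc X (Y * Z) + sgc Y (Z * X) := by
  unfold sgc
  rw [T_identity]
  have h := quartic_identity (md X) (md Y) (md Z)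
  rw [← md_mul, ← md_mul, ← md_mul] at h
  have h' : Q (md X) (md (Y * Z)) + Q (md Y) (md (Z * X)) + EX (md X) (md Y) (md Z) =
      Q (md (X * Y)) (md Z) := by
    rw [← h, add_assoc, add_self', add_zero]
  rw [← h']
  have e : ∀ a b c t1 t2 : ZMod 2, a + b + c + (t1 + t2 + c) = a + t1 + (b + t2) := by decide
  exact e _ _ _ _ _

theorem md_one : md (1 : Matrix α α ℤ) = fun i j => ei i j := by
  funext i j
  by_cases h : i = j
  · subst h; simp [md, ei]
  · simp [md, ei, h]

theorem sgc_one (A : Matrix α α ℤ) : sgc (1 : Matrix α α ℤ) A = 0 := by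
  have h := sgc_triangle (1 : Matrix α α ℤ) (1 : Matrix α α ℤ) A
  rw [Matrix.one_mul, Matrix.one_mul, Matrix.mul_one] at h
  have e : ∀ a : ZMod 2, a = a + a → a = 0 := by decide
  exact e _ h

end

end Pool.Agent.Y83
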