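import Pool.Agent.Y83.Sgc4

set_option linter.unusedSectionVars false

/-!
# The cocycle on pairs of linear maps between based free abelian groups; the square lemma
-/

namespace Pool.Agent.Y83

open Module LinearMap

section lin

variable {ι κ μ : Type*} [Fintype ι] [LinearOrder ι] [Fintype κ] [LinearOrder κ]
  [Fintype μ] [LinearOrder μ]
variable {P Q W : Type*} [AddCommGroup P] [AddCommGroup Q] [AddCommGroup W]

/-- The cocycle of a pair of linear maps with respect to bases. -/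
noncomputable def sg (p : Basis ι ℤ P) (q : Basis κ ℤ Q) (f : Q →ₗ[ℤ] P) (g : P →ₗ[ℤ] Q) :
    ZMod 2 :=
  sgc (LinearMap.toMatrix q p f) (LinearMap.toMatrix p q g)

theorem sg_triangle (p : Basis ι ℤ P) (q : Basis κ ℤ Q) (w : Basis μ ℤ W)
    (X : Q →ₗ[ℤ] P) (Y : W →ₗ[ℤ] Q) (Z : P →ₗ[ℤ] W) :
    sg p w (X ∘ₗ Y) Z = sg p q X (Y ∘ₗ Z) + sg q w Y (Z ∘ₗ X) := by
  unfold sg
  rw [LinearMap.toMatrix_comp w q p X Y, LinearMap.toMatrix_comp p w q Y Z,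
    LinearMap.toMatrix_comp q p w Z X]
  exact sgc_triangle _ _ _

/-- The square lemma. -/
theorem sg_square {ι₁ κ₁ : Type*} [Fintype ι₁] [LinearOrder ι₁] [Fintype κ₁] [LinearOrder κ₁]
    (p : Basis ι ℤ P) (q : Basis κ ℤ Q) (R : Q →ₗ[ℤ] P) (S : P →ₗ[ℤ] Q)
    (p₁ : Basis ι₁ ℤ (range (R ∘ₗ S))) (q₁ : Basis κ₁ ℤ (range (S ∘ₗ R)))
    (R₁ : range (S ∘ₗ R) →ₗ[ℤ] range (R ∘ₗ S)) (hR₁ : ∀ x, (R₁ x : P) = R x)
    (S₁ : range (R ∘ₗ S) →ₗ[ℤ] range (S ∘ₗ R)) (hS₁ : ∀ x, (S₁ x : Q) = S x) :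
    sg p q R S + sg q q₁ (range (S ∘ₗ R)).subtype (S ∘ₗ R).rangeRestrict =
      sg p p₁ (range (R ∘ₗ S)).subtype (R ∘ₗ S).rangeRestrict + sg p₁ q₁ R₁ S₁ := by
  haveI : Module.Free ℤ P := Module.Free.of_basis p
  haveI : Module.Finite ℤ P := Module.Finite.of_basis p
  let n := Module.finBasis ℤ (range R)
  let i : range R →ₗ[ℤ] P := (range R).subtype
  let r : Q →ₗ[ℤ] range R := R.rangeRestrict
  have hle : range (R ∘ₗ S) ≤ range R := LinearMap.range_comp_le_range _ _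
  let i' : range (R ∘ₗ S) →ₗ[ℤ] range R := Submodule.inclusion hle
  let t : range R →ₗ[ℤ] range (S ∘ₗ R) :=
    LinearMap.codRestrict _ (S ∘ₗ (range R).subtype) (by
      rintro ⟨_, x, rfl⟩
      exact ⟨x, rfl⟩)
  have e1 : i ∘ₗ r = R := by ext x; rfl
  have e2 : i ∘ₗ i' = (range (R ∘ₗ S)).subtype := by ext x; rfl
  have e3 : S ∘ₗ i = (range (S ∘ₗ R)).subtype ∘ₗ t := by ext x; rfl
  have e4 : r ∘ₗ (range (S ∘ₗ R)).subtype = i' ∘ₗ R₁ := by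
    ext x
    exact (hR₁ x).symm
  have e5 : t ∘ₗ i' = S₁ := by
    ext x
    exact (hS₁ x).symm
  have e6 : R₁ ∘ₗ t = (R ∘ₗ S).rangeRestrict ∘ₗ i := by
    ext x
    exact (hR₁ _)
  have e7 : i' ∘ₗ (R ∘ₗ S).rangeRestrict = r ∘ₗ S := by ext x; rfl
  have e8 : t ∘ₗ r = (S ∘ₗ R).rangeRestrict := by ext x; rfl
  have t1 := sg_triangle p n q i r S
  have t2 := sg_triangle p n p₁ i i' (R ∘ₗ S).rangeRestrict
  have t3 := sg_triangle n p₁ q₁ i' R₁ t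
  have t4 := sg_triangle n q q₁ r (range (S ∘ₗ R)).subtype t
  rw [e1, e3] at t1
  rw [e2, e7, ← e6] at t2
  rw [e5] at t3
  rw [e4, e8, t3] at t4
  rw [t1, t2]
  generalize sg p n i (r ∘ₗ S) = a at *
  generalize sg n p₁ i' (R₁ ∘ₗ t) = b at *
  generalize sg p₁ q₁ R₁ S₁ = c at *
  generalize sg n q r ((range (S ∘ₗ R)).subtype ∘ₗ t) = d at *
  generalize sg q q₁ (range (S ∘ₗ R)).subtype (S ∘ₗ R).rangeRestrict = e at *
  rw [add_assoc, ← t4, add_assoc]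

end lin

end Pool.Agent.Y83
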