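import Pool.Agent.Y83.Sgc5

set_option linter.unusedSectionVars false
set_option linter.style.haveILetI false
set_option linter.unusedVariables false

/-!
# The potential of an endomorphism over an invertible core
-/

namespace Pool.Agent.Y83

open Module LinearMap

section pot

variable {V : Type} [AddCommGroup V] {d : ℕ} (v : Basis (Fin d) ℤ V) (A : V →ₗ[ℤ] V)

/-- The restriction of an endomorphism to its range. -/
def rres {P : Type} [AddCommGroup P] (α : P →ₗ[ℤ] P) : range α →ₗ[ℤ] range α :=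
  α.rangeRestrict ∘ₗ (range α).subtype

open Classical in
/-- The potential at level `k`. -/
noncomputable def Phi : (k : ℕ) → (P : Type) → [AddCommGroup P] → [Module.Free ℤ P] →
    [Module.Finite ℤ P] → {n : ℕ} → (p : Basis (Fin n) ℤ P) → (α : P →ₗ[ℤ] P) →
    (θ : P →ₗ[ℤ] V) → ZMod 2
  | 0, P, _, _, _, _, p, _, θ =>
      if h : Function.Bijective θ then
        sg v p θ ((LinearEquiv.ofBijective θ h).symm.toLinearMap ∘ₗ A) else 0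
  | k + 1, P, _, _, _, _, p, α, θ =>
      sg p (Module.finBasis ℤ (range α)) (range α).subtype α.rangeRestrict +
        Phi k (range α) (Module.finBasis ℤ (range α)) (rres α) (θ ∘ₗ (range α).subtype)

theorem Phi_of_bijective (hA : Function.Bijective A) (k : ℕ) :
    ∀ (P : Type) [AddCommGroup P] [Module.Free ℤ P] [Module.Finite ℤ P] {n : ℕ}
    (p : Basis (Fin n) ℤ P) (α : P →ₗ[ℤ] P) (θ : P →ₗ[ℤ] V) (h : Function.Bijective θ)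
    (_ : θ ∘ₗ α = A ∘ₗ θ) (g : V →ₗ[ℤ] P) (_ : θ ∘ₗ g = A),
    Phi v A k P p α θ = sg v p θ g := by
  induction k with
  | zero =>
    intro P _ _ _ n p α θ h hα g hg
    have e : (LinearEquiv.ofBijective θ h).symm.toLinearMap ∘ₗ A = g := by
      ext x
      apply h.1
      have := congrArg (fun f => f x) hg
      simp only [LinearMap.comp_apply] at this
      rw [this]
      exact LinearEquiv.apply_symm_apply (LinearEquiv.ofBijective θ h) (A x)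
    simp only [Phi, dif_pos h, e]
  | succ k ih =>
    intro P _ _ _ n p α θ h hα g hg
    have hαb : Function.Bijective α := by
      have h1 : Function.Bijective (θ ∘ₗ α) := by
        rw [hα]
        exact hA.comp h
      exact (Function.Bijective.of_comp_iff' h _).mp h1
    have hb : Function.Bijective (θ ∘ₗ (range α).subtype) := by
      refine h.comp ⟨Subtype.val_injective, fun x => ?_⟩
      obtain ⟨y, hy⟩ := hαb.2 x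
      exact ⟨⟨x, ⟨y, hy⟩⟩, rfl⟩
    let i := (range α).subtype
    have hgr : ∀ x, g x ∈ range α := fun x => hαb.2 _
    let g' : V →ₗ[ℤ] range α := g.codRestrict (range α) hgr
    have e1 : i ∘ₗ g' = g := by ext x; rfl
    have e2 : g' ∘ₗ θ = α.rangeRestrict := by
      ext x
      apply h.1
      have h1 := congrArg (fun f => f (θ x)) hg
      have h2 := congrArg (fun f => f x) hα
      simp only [LinearMap.comp_apply] at h1 h2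
      change θ (g (θ x)) = θ (α x)
      rw [h1, h2]
    have h3 := ih (range α) (Module.finBasis ℤ (range α)) (rres α) (θ ∘ₗ i) hb
      (by
        ext x
        have h2 := congrArg (fun f => f x.1) hα
        exact h2) g'
      (by rw [LinearMap.comp_assoc, e1, hg])
    have t := sg_triangle v p (Module.finBasis ℤ (range α)) θ i g'
    rw [e1, e2] at t
    simp only [Phi]
    rw [h3, t]
    have e : ∀ a b : ZMod 2, a + (b + a) = b := by decide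
    exact e _ _

/-- The stabilisation condition at level `k`. -/
def Cd {P : Type} [AddCommGroup P] (k : ℕ) (α : P →ₗ[ℤ] P) (θ : P →ₗ[ℤ] V) : Prop :=
  ∃ ω : V →ₗ[ℤ] P, θ ∘ₗ ω = A ^ k ∧ ω ∘ₗ θ = α ^ k ∧ α ∘ₗ ω = ω ∘ₗ A

variable {A}

theorem Cd.bij {P : Type} [AddCommGroup P] {α : P →ₗ[ℤ] P} {θ : P →ₗ[ℤ] V}
    (h : Cd A 0 α θ) : Function.Bijective θ := by
  obtain ⟨ω, h1, h2, -⟩ := h
  rw [pow_zero] at h1 h2
  refine ⟨Function.LeftInverse.injective (g := ω) fun x => ?_,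
    Function.RightInverse.surjective (g := ω) fun x => ?_⟩
  · exact congrArg (fun f => f x) h2
  · exact congrArg (fun f => f x) h1

theorem Cd.succ {P : Type} [AddCommGroup P] {k : ℕ} {α : P →ₗ[ℤ] P} {θ : P →ₗ[ℤ] V}
    (hθ : θ ∘ₗ α = A ∘ₗ θ) (h : Cd A k α θ) : Cd A (k + 1) α θ := by
  obtain ⟨ω, h1, h2, h3⟩ := h
  refine ⟨α ∘ₗ ω, ?_, ?_, ?_⟩
  · rw [h3, ← LinearMap.comp_assoc, h1]; rfl
  · rw [LinearMap.comp_assoc, h2]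
    exact (pow_succ' α k).symm
  · rw [LinearMap.comp_assoc, ← h3]

theorem rres_pow {P : Type} [AddCommGroup P] (α : P →ₗ[ℤ] P) (k : ℕ) (x : range α) :
    (((rres α) ^ k) x : P) = (α ^ k) x := by
  induction k generalizing x with
  | zero => rfl
  | succ k ih =>
    rw [pow_succ, pow_succ, Module.End.mul_apply, Module.End.mul_apply, ih]
    rfl

theorem Cd.res {P : Type} [AddCommGroup P] {k : ℕ} {α : P →ₗ[ℤ] P} {θ : P →ₗ[ℤ] V}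
    {A' : V →ₗ[ℤ] V} (hA : A ∘ₗ A' = LinearMap.id) (hA' : A' ∘ₗ A = LinearMap.id)
    (hθ : θ ∘ₗ α = A ∘ₗ θ)
    (h : Cd A (k + 1) α θ) : Cd A k (rres α) (θ ∘ₗ (range α).subtype) := by
  obtain ⟨ω, h1, h2, h3⟩ := h
  have e0 : ω = α ∘ₗ ω ∘ₗ A' := by
    rw [← LinearMap.comp_assoc, h3, LinearMap.comp_assoc, hA, LinearMap.comp_id]
  have hmem : ∀ x, (ω ∘ₗ A') x ∈ range α := by
    intro x
    refine ⟨(ω ∘ₗ A') (A' x), ?_⟩
    have := congrArg (fun f => f (A' x)) e0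
    exact this.symm
  refine ⟨(ω ∘ₗ A').codRestrict _ hmem, ?_, ?_, ?_⟩
  · ext x
    have e1 := congrArg (fun f => f (A' x)) h1
    have e2 := congrArg (fun f => (A ^ k) (f x)) hA
    rw [pow_succ] at e1
    simp only [LinearMap.comp_apply, LinearMap.id_apply, Module.End.mul_apply] at e1 e2
    change θ (ω (A' x)) = (A ^ k) x
    rw [e1, e2]
  · ext x
    obtain ⟨_, y, rfl⟩ := x
    rw [rres_pow]
    have e1 := congrArg (fun f => f y) hθ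
    have e2 := congrArg (fun f => f (θ y)) hA'
    have e3 := congrArg (fun f => f y) h2
    simp only [LinearMap.comp_apply, LinearMap.id_apply] at e1 e2 e3
    change ω (A' (θ (α y))) = (α ^ k) (α y)
    rw [e1, e2, e3, pow_succ, Module.End.mul_apply]
  · ext x
    have e1 := congrArg (fun f => f (A' x)) h3
    have e2 := congrArg (fun f => ω (f x)) hA
    have e3 := congrArg (fun f => ω (f x)) hA'
    simp only [LinearMap.comp_apply, LinearMap.id_apply] at e1 e2 e3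
    change α (ω (A' x)) = ω (A' (A x))
    rw [e1, e2, e3]

/-- A step changes the potential by the cocycle of the step. -/
theorem Phi_step {A' : V →ₗ[ℤ] V} (hA : A ∘ₗ A' = LinearMap.id) (hA' : A' ∘ₗ A = LinearMap.id)
    (k : ℕ) :
    ∀ (P : Type) [AddCommGroup P] [Module.Free ℤ P] [Module.Finite ℤ P] {n : ℕ}
    (p : Basis (Fin n) ℤ P) (Q : Type) [AddCommGroup Q] [Module.Free ℤ Q] [Module.Finite ℤ Q]
    {m : ℕ} (q : Basis (Fin m) ℤ Q) (R : Q →ₗ[ℤ] P) (S : P →ₗ[ℤ] Q) (θ : P →ₗ[ℤ] V)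
    (_ : θ ∘ₗ (R ∘ₗ S) = A ∘ₗ θ) (_ : Cd A k (R ∘ₗ S) θ) (_ : Cd A k (S ∘ₗ R) (θ ∘ₗ R)),
    Phi v A k Q q (S ∘ₗ R) (θ ∘ₗ R) = Phi v A k P p (R ∘ₗ S) θ + sg p q R S := by
  induction k with
  | zero =>
    intro P _ _ _ n p Q _ _ _ m q R S θ hθ hP hQ
    have hAb : Function.Bijective A := by
      refine ⟨Function.LeftInverse.injective (g := A') fun x => ?_,
        Function.RightInverse.surjective (g := A') fun x => ?_⟩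
      · exact congrArg (fun f => f x) hA'
      · exact congrArg (fun f => f x) hA
    have bP := hP.bij
    have bQ := hQ.bij
    let g : V →ₗ[ℤ] Q := (LinearEquiv.ofBijective (θ ∘ₗ R) bQ).symm.toLinearMap ∘ₗ A
    have hg : (θ ∘ₗ R) ∘ₗ g = A := by
      ext x
      exact LinearEquiv.apply_symm_apply (LinearEquiv.ofBijective (θ ∘ₗ R) bQ) (A x)
    have hθQ : (θ ∘ₗ R) ∘ₗ (S ∘ₗ R) = A ∘ₗ (θ ∘ₗ R) :=
      congrArg (fun f => f ∘ₗ R) hθ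
    rw [Phi_of_bijective v A hAb 0 Q q (S ∘ₗ R) (θ ∘ₗ R) bQ hθQ g hg,
      Phi_of_bijective v A hAb 0 P p (R ∘ₗ S) θ bP hθ (R ∘ₗ g) hg]
    have e1 : g ∘ₗ θ = S := by
      ext x
      apply bQ.1
      have h1 := congrArg (fun f => f (θ x)) hg
      have h2 := congrArg (fun f => f x) hθ
      simp only [LinearMap.comp_apply] at h1 h2
      change θ (R (g (θ x))) = θ (R (S x))
      rw [h1, h2]
    have t := sg_triangle v p q θ R g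
    rw [e1] at t
    exact t
  | succ k ih =>
    intro P _ _ _ n p Q _ _ _ m q R S θ hθ hP hQ
    have hθQ : (θ ∘ₗ R) ∘ₗ (S ∘ₗ R) = A ∘ₗ (θ ∘ₗ R) :=
      congrArg (fun f => f ∘ₗ R) hθ
    let R₁ : range (S ∘ₗ R) →ₗ[ℤ] range (R ∘ₗ S) :=
      (R ∘ₗ (range (S ∘ₗ R)).subtype).codRestrict _ (by
        rintro ⟨_, x, rfl⟩
        exact ⟨R x, rfl⟩)
    let S₁ : range (R ∘ₗ S) →ₗ[ℤ] range (S ∘ₗ R) :=
      (S ∘ₗ (range (R ∘ₗ S)).subtype).codRestrict _ (by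
        rintro ⟨_, x, rfl⟩
        exact ⟨S x, rfl⟩)
    have e1 : rres (R ∘ₗ S) = R₁ ∘ₗ S₁ := by ext x; rfl
    have e2 : rres (S ∘ₗ R) = S₁ ∘ₗ R₁ := by ext x; rfl
    have e3 : (θ ∘ₗ R) ∘ₗ (range (S ∘ₗ R)).subtype = (θ ∘ₗ (range (R ∘ₗ S)).subtype) ∘ₗ R₁ := by
      ext x; rfl
    have sq := sg_square p q R S (Module.finBasis ℤ (range (R ∘ₗ S)))
      (Module.finBasis ℤ (range (S ∘ₗ R))) R₁ (fun x => rfl) S₁ (fun x => rfl)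
    have hP1 := hP.res hA hA' hθ
    have hQ1 := hQ.res hA hA' hθQ
    have h1 := ih (range (R ∘ₗ S)) (Module.finBasis ℤ (range (R ∘ₗ S)))
      (range (S ∘ₗ R)) (Module.finBasis ℤ (range (S ∘ₗ R))) R₁ S₁
      (θ ∘ₗ (range (R ∘ₗ S)).subtype)
      (by
        ext x
        have h2 := congrArg (fun f => f x.1) hθ
        exact h2) (e1 ▸ hP1) (by rw [← e3, ← e2]; exact hQ1)
    simp only [Phi]
    rw [e3, e2, e1, h1]
    have e : ∀ a b c d f : ZMod 2, a + b = c + d → b + (f + d) = c + f + a := by decide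
    exact e _ _ _ _ _ sq

theorem Phi_stab {A' : V →ₗ[ℤ] V} (hA : A ∘ₗ A' = LinearMap.id)
    (hA' : A' ∘ₗ A = LinearMap.id) (k : ℕ) :
    ∀ (P : Type) [AddCommGroup P] [Module.Free ℤ P] [Module.Finite ℤ P] {n : ℕ}
    (p : Basis (Fin n) ℤ P) (α : P →ₗ[ℤ] P) (θ : P →ₗ[ℤ] V)
    (_ : θ ∘ₗ α = A ∘ₗ θ) (_ : Cd A k α θ),
    Phi v A (k + 1) P p α θ = Phi v A k P p α θ := by
  have hAb : Function.Bijective A := by
    refine ⟨Function.LeftInverse.injective (g := A') fun x => ?_,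
      Function.RightInverse.surjective (g := A') fun x => ?_⟩
    · exact congrArg (fun f => f x) hA'
    · exact congrArg (fun f => f x) hA
  induction k with
  | zero =>
    intro P _ _ _ n p α θ hθ h
    have hb := h.bij
    obtain ⟨ω, h1, h2, h3⟩ := h
    have hg : θ ∘ₗ (ω ∘ₗ A) = A := by
      rw [← LinearMap.comp_assoc, h1]; rfl
    rw [Phi_of_bijective v A hAb 1 P p α θ hb hθ (ω ∘ₗ A) hg,
      Phi_of_bijective v A hAb 0 P p α θ hb hθ (ω ∘ₗ A) hg]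
  | succ k ih =>
    intro P _ _ _ n p α θ hθ h
    have h1 := ih (range α) (Module.finBasis ℤ (range α)) (rres α) (θ ∘ₗ (range α).subtype)
      (by
        ext x
        have h2 := congrArg (fun f => f x.1) hθ
        exact h2) (h.res hA hA' hθ)
    rw [Phi, h1]
    conv_rhs => rw [Phi]

/-- `σ` is the potential of `(P, α)` over the core `(V, A)` along `θ`. -/
def HasPot {A : V →ₗ[ℤ] V} (P : Type) [AddCommGroup P] [Module.Free ℤ P] [Module.Finite ℤ P]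
    {n : ℕ} (p : Basis (Fin n) ℤ P) (α : P →ₗ[ℤ] P) (θ : P →ₗ[ℤ] V) (σ : ZMod 2) : Prop :=
  θ ∘ₗ α = A ∘ₗ θ ∧ ∃ k, Cd A k α θ ∧ Phi v A k P p α θ = σ

theorem HasPot.ge {A' : V →ₗ[ℤ] V} (hA : A ∘ₗ A' = LinearMap.id)
    (hA' : A' ∘ₗ A = LinearMap.id) {P : Type} [AddCommGroup P] [Module.Free ℤ P]
    [Module.Finite ℤ P] {n : ℕ} {p : Basis (Fin n) ℤ P} {α : P →ₗ[ℤ] P} {θ : P →ₗ[ℤ] V}
    {σ : ZMod 2} (h : HasPot v (A := A) P p α θ σ) :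
    ∃ k₀, ∀ k, k₀ ≤ k → Cd A k α θ ∧ Phi v A k P p α θ = σ := by
  obtain ⟨hθ, k₀, hC, hP⟩ := h
  refine ⟨k₀, fun k hk => ?_⟩
  induction k, hk using Nat.le_induction with
  | base => exact ⟨hC, hP⟩
  | succ k hk ih => exact ⟨ih.1.succ hθ, by rw [Phi_stab v hA hA' k P p α θ hθ ih.1]; exact ih.2⟩

theorem HasPot.unique {A' : V →ₗ[ℤ] V} (hA : A ∘ₗ A' = LinearMap.id)
    (hA' : A' ∘ₗ A = LinearMap.id) {P : Type} [AddCommGroup P] [Module.Free ℤ P]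
    [Module.Finite ℤ P] {n : ℕ} {p : Basis (Fin n) ℤ P} {α : P →ₗ[ℤ] P} {θ : P →ₗ[ℤ] V}
    {σ τ : ZMod 2} (h : HasPot v (A := A) P p α θ σ) (h' : HasPot v (A := A) P p α θ τ) :
    σ = τ := by
  obtain ⟨k₁, h1⟩ := h.ge v hA hA'
  obtain ⟨k₂, h2⟩ := h'.ge v hA hA'
  rw [← (h1 (max k₁ k₂) (le_max_left _ _)).2, ← (h2 (max k₁ k₂) (le_max_right _ _)).2]

theorem HasPot.of_bijective {A' : V →ₗ[ℤ] V} (hA : A ∘ₗ A' = LinearMap.id)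
    (hA' : A' ∘ₗ A = LinearMap.id) {P : Type} [AddCommGroup P] [Module.Free ℤ P]
    [Module.Finite ℤ P] {n : ℕ} {p : Basis (Fin n) ℤ P} {α : P →ₗ[ℤ] P} {θ : P →ₗ[ℤ] V}
    (ω : V →ₗ[ℤ] P) (h1 : θ ∘ₗ ω = LinearMap.id) (h2 : ω ∘ₗ θ = LinearMap.id)
    (hθ : θ ∘ₗ α = A ∘ₗ θ) : HasPot v (A := A) P p α θ (sg v p θ (ω ∘ₗ A)) := by
  have hAb : Function.Bijective A := by
    refine ⟨Function.LeftInverse.injective (g := A') fun x => ?_,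
      Function.RightInverse.surjective (g := A') fun x => ?_⟩
    · exact congrArg (fun f => f x) hA'
    · exact congrArg (fun f => f x) hA
  have hC : Cd A 0 α θ := by
    refine ⟨ω, h1, h2, ?_⟩
    calc α ∘ₗ ω = (ω ∘ₗ θ) ∘ₗ (α ∘ₗ ω) := by rw [h2]; rfl
      _ = ω ∘ₗ (θ ∘ₗ α) ∘ₗ ω := rfl
      _ = ω ∘ₗ (A ∘ₗ θ) ∘ₗ ω := by rw [hθ]
      _ = (ω ∘ₗ A) ∘ₗ (θ ∘ₗ ω) := rfl
      _ = ω ∘ₗ A := by rw [h1]; rfl
  refine ⟨hθ, 0, hC, ?_⟩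
  have hg : θ ∘ₗ (ω ∘ₗ A) = A := by
    rw [← LinearMap.comp_assoc, h1]; rfl
  exact Phi_of_bijective v A hAb 0 P p α θ hC.bij hθ (ω ∘ₗ A) hg

/-- forward step -/
theorem HasPot.forward {A' : V →ₗ[ℤ] V} (hA : A ∘ₗ A' = LinearMap.id)
    (hA' : A' ∘ₗ A = LinearMap.id) {P : Type} [AddCommGroup P] [Module.Free ℤ P]
    [Module.Finite ℤ P] {n : ℕ} {p : Basis (Fin n) ℤ P}
    {Q : Type} [AddCommGroup Q] [Module.Free ℤ Q]
    [Module.Finite ℤ Q] {m : ℕ} {q : Basis (Fin m) ℤ Q}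
    (R : Q →ₗ[ℤ] P) (S : P →ₗ[ℤ] Q) {θ : P →ₗ[ℤ] V}
    {σ : ZMod 2} (h : HasPot v (A := A) P p (R ∘ₗ S) θ σ) :
    HasPot v (A := A) Q q (S ∘ₗ R) (θ ∘ₗ R) (σ + sg p q R S) := by
  obtain ⟨k₀, hk⟩ := h.ge v hA hA'
  have hθ := h.1
  have hθQ : (θ ∘ₗ R) ∘ₗ (S ∘ₗ R) = A ∘ₗ (θ ∘ₗ R) :=
    congrArg (fun f => f ∘ₗ R) hθ
  obtain ⟨hC0, -⟩ := hk k₀ le_rfl
  obtain ⟨hC1, hP1⟩ := hk (k₀ + 1) (Nat.le_succ _)
  have hQ : Cd A (k₀ + 1) (S ∘ₗ R) (θ ∘ₗ R) := by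
    obtain ⟨ω, h1, h2, h3⟩ := hC0
    refine ⟨S ∘ₗ ω, ?_, ?_, ?_⟩
    · calc (θ ∘ₗ R) ∘ₗ (S ∘ₗ ω) = (θ ∘ₗ (R ∘ₗ S)) ∘ₗ ω := rfl
        _ = (A ∘ₗ θ) ∘ₗ ω := by rw [hθ]
        _ = A ∘ₗ (θ ∘ₗ ω) := rfl
        _ = A ^ (k₀ + 1) := by rw [h1]; exact (pow_succ' A k₀).symm
    · have hpow : ∀ k : ℕ, S ∘ₗ ((R ∘ₗ S) ^ k) ∘ₗ R = (S ∘ₗ R) ^ (k + 1) := by
        intro k
        induction k with
        | zero => rfl
        | succ k ih =>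
          calc S ∘ₗ ((R ∘ₗ S) ^ (k + 1)) ∘ₗ R = (S ∘ₗ R) ∘ₗ (S ∘ₗ ((R ∘ₗ S) ^ k) ∘ₗ R) := by
                rw [pow_succ']; rfl
            _ = (S ∘ₗ R) ^ (k + 1 + 1) := by rw [ih]; exact (pow_succ' _ _).symm
      calc (S ∘ₗ ω) ∘ₗ (θ ∘ₗ R) = S ∘ₗ (ω ∘ₗ θ) ∘ₗ R := rfl
        _ = (S ∘ₗ R) ^ (k₀ + 1) := by rw [h2]; exact hpow k₀
    · calc (S ∘ₗ R) ∘ₗ (S ∘ₗ ω) = S ∘ₗ ((R ∘ₗ S) ∘ₗ ω) := rfl
        _ = (S ∘ₗ ω) ∘ₗ A := by rw [h3]; rfl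
  refine ⟨hθQ, k₀ + 1, hQ, ?_⟩
  rw [Phi_step v hA hA' (k₀ + 1) P p Q q R S θ hθ hC1 hQ, hP1]

/-- backward step -/
theorem HasPot.backward {A' : V →ₗ[ℤ] V} (hA : A ∘ₗ A' = LinearMap.id)
    (hA' : A' ∘ₗ A = LinearMap.id) {P : Type} [AddCommGroup P] [Module.Free ℤ P]
    [Module.Finite ℤ P] {n : ℕ} {p : Basis (Fin n) ℤ P}
    {Q : Type} [AddCommGroup Q] [Module.Free ℤ Q]
    [Module.Finite ℤ Q] {m : ℕ} {q : Basis (Fin m) ℤ Q}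
    (R : Q →ₗ[ℤ] P) (S : P →ₗ[ℤ] Q) {θ : Q →ₗ[ℤ] V}
    {σ : ZMod 2} (h : HasPot v (A := A) Q q (S ∘ₗ R) θ σ) :
    HasPot v (A := A) P p (R ∘ₗ S) (A' ∘ₗ θ ∘ₗ S) (σ + sg p q R S) := by
  obtain ⟨k₀, hk⟩ := h.ge v hA hA'
  have hθ := h.1
  have hθP : (A' ∘ₗ θ ∘ₗ S) ∘ₗ (R ∘ₗ S) = A ∘ₗ (A' ∘ₗ θ ∘ₗ S) := by
    calc (A' ∘ₗ θ ∘ₗ S) ∘ₗ (R ∘ₗ S) = A' ∘ₗ (θ ∘ₗ (S ∘ₗ R)) ∘ₗ S := rfl
      _ = (A' ∘ₗ A) ∘ₗ θ ∘ₗ S := by rw [hθ]; rfl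
      _ = (A ∘ₗ A') ∘ₗ θ ∘ₗ S := by rw [hA, hA']
      _ = A ∘ₗ (A' ∘ₗ θ ∘ₗ S) := rfl
  have hθR : (A' ∘ₗ θ ∘ₗ S) ∘ₗ R = θ := by
    calc (A' ∘ₗ θ ∘ₗ S) ∘ₗ R = A' ∘ₗ (θ ∘ₗ (S ∘ₗ R)) := rfl
      _ = (A' ∘ₗ A) ∘ₗ θ := by rw [hθ]; rfl
      _ = θ := by rw [hA']; rfl
  obtain ⟨hC0, -⟩ := hk k₀ le_rfl
  obtain ⟨hC1, hP1⟩ := hk (k₀ + 1) (Nat.le_succ _)
  have hP : Cd A (k₀ + 1) (R ∘ₗ S) (A' ∘ₗ θ ∘ₗ S) := by
    obtain ⟨ω, h1, h2, h3⟩ := hC0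
    refine ⟨R ∘ₗ ω ∘ₗ A, ?_, ?_, ?_⟩
    · calc (A' ∘ₗ θ ∘ₗ S) ∘ₗ (R ∘ₗ ω ∘ₗ A) = ((A' ∘ₗ θ ∘ₗ S) ∘ₗ R) ∘ₗ (ω ∘ₗ A) := rfl
        _ = (θ ∘ₗ ω) ∘ₗ A := by rw [hθR]; rfl
        _ = A ^ (k₀ + 1) := by rw [h1]; exact (pow_succ A k₀).symm
    · have hpow : ∀ k : ℕ, R ∘ₗ ((S ∘ₗ R) ^ k) ∘ₗ S = (R ∘ₗ S) ^ (k + 1) := by
        intro k
        induction k with
        | zero => rfl
        | succ k ih =>
          calc R ∘ₗ ((S ∘ₗ R) ^ (k + 1)) ∘ₗ S = (R ∘ₗ S) ∘ₗ (R ∘ₗ ((S ∘ₗ R) ^ k) ∘ₗ S) := by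
                rw [pow_succ']; rfl
            _ = (R ∘ₗ S) ^ (k + 1 + 1) := by rw [ih]; exact (pow_succ' _ _).symm
      calc (R ∘ₗ ω ∘ₗ A) ∘ₗ (A' ∘ₗ θ ∘ₗ S) = R ∘ₗ ω ∘ₗ (A ∘ₗ A') ∘ₗ θ ∘ₗ S := rfl
        _ = R ∘ₗ (ω ∘ₗ θ) ∘ₗ S := by rw [hA]; rfl
        _ = (R ∘ₗ S) ^ (k₀ + 1) := by rw [h2]; exact hpow k₀
    · calc (R ∘ₗ S) ∘ₗ (R ∘ₗ ω ∘ₗ A) = R ∘ₗ ((S ∘ₗ R) ∘ₗ ω) ∘ₗ A := rfl
        _ = (R ∘ₗ ω ∘ₗ A) ∘ₗ A := by rw [h3]; rfl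
  refine ⟨hθP, k₀ + 1, hP, ?_⟩
  have hst := Phi_step v hA hA' (k₀ + 1) P p Q q R S (A' ∘ₗ θ ∘ₗ S) hθP hP
    (by rw [hθR]; exact hC1)
  rw [hθR, hP1] at hst
  rw [hst]
  have e : ∀ a b : ZMod 2, a = a + b + b := by decide
  exact e _ _

end pot

end Pool.Agent.Y83
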