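import Pool.Agent.Y83.Sgc6

set_option linter.unusedSectionVars false
set_option linter.unusedVariables false

/-!
# Strong shift equivalence with units, and the invariant
-/

namespace Pool.Agent.Y83

open Module Matrix

/-- A square nonnegative integer matrix together with a weight (row) vector. -/
structure WM where
  n : ℕ
  A : Matrix (Fin n) (Fin n) ℕ
  u : Fin n → ℕ

/-- cast a matrix of natural numbers to integers -/
def zm {α β : Type*} (R : Matrix α β ℕ) : Matrix α β ℤ := R.map (fun x => (x : ℤ))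

theorem zm_mul {α β γ : Type*} [Fintype β] (R : Matrix α β ℕ) (S : Matrix β γ ℕ) :
    zm (R * S) = zm R * zm S := by
  ext i j
  simp [zm, Matrix.mul_apply]

/-- An elementary step of strong shift equivalence transporting the weight vectors. -/
def WM.Step (X Y : WM) : Prop :=
  ∃ (R : Matrix (Fin X.n) (Fin Y.n) ℕ) (S : Matrix (Fin Y.n) (Fin X.n) ℕ),
    X.A = R * S ∧ Y.A = S * R ∧ Y.u = X.u ᵥ* R

/-- Nonnegative pairs without cycles of length one and two have trivial cocycle. -/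
theorem sgc_nonneg {n m : ℕ} (R : Matrix (Fin n) (Fin m) ℕ) (S : Matrix (Fin m) (Fin n) ℕ)
    (h1 : (R * S).trace = 0) (h2 : ((R * S) * (R * S)).trace = 0) :
    sgc (zm R) (zm S) = 0 := by
  have e1 : ∀ i k, R i k * S k i = 0 := by
    intro i k
    simp only [Matrix.trace, Matrix.diag_apply, Matrix.mul_apply, Finset.sum_eq_zero_iff,
      Finset.mem_univ, true_imp_iff] at h1
    exact h1 i k
  have e2 : ∀ i j k l, R i k * S k j * (R j l * S l i) = 0 := by
    intro i j k l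
    simp only [Matrix.trace, Matrix.diag_apply] at h2
    rw [Finset.sum_eq_zero_iff] at h2
    have h3 := h2 i (Finset.mem_univ _)
    rw [Matrix.mul_apply, Finset.sum_eq_zero_iff] at h3
    have h4 := h3 j (Finset.mem_univ _)
    rcases Nat.mul_eq_zero.mp h4 with h5 | h5
    · rw [Matrix.mul_apply, Finset.sum_eq_zero_iff] at h5
      rw [h5 k (Finset.mem_univ _), zero_mul]
    · rw [Matrix.mul_apply, Finset.sum_eq_zero_iff] at h5
      rw [h5 l (Finset.mem_univ _), mul_zero]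
  have f1 : ∀ i k, md (zm R) i k * md (zm S) k i = 0 := by
    intro i k
    have := congrArg (fun x : ℕ => (x : ZMod 2)) (e1 i k)
    simpa [md, zm] using this
  have f2 : ∀ i j k l, md (zm R) i k * md (zm S) k j * (md (zm R) j l * md (zm S) l i) = 0 := by
    intro i j k l
    have := congrArg (fun x : ℕ => (x : ZMod 2)) (e2 i j k l)
    simpa [md, zm] using this
  have f3 : ∀ i k, c2 (zm R i k) * ((zm S k i : ℤ) : ZMod 2) = 0 := by
    intro i k
    rcases Nat.mul_eq_zero.mp (e1 i k) with h | h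
    · have : zm R i k = 0 := by simp [zm, h]
      rw [this, c2_zero, zero_mul]
    · have : zm S k i = 0 := by simp [zm, h]
      rw [this]; simp
  unfold sgc
  rw [Finset.sum_eq_zero (fun i _ => Finset.sum_eq_zero (fun k _ => f3 i k)), add_zero]
  unfold Q
  rw [Finset.sum_eq_zero, Finset.sum_eq_zero, add_zero]
  · intro i _
    refine Finset.sum_eq_zero fun j _ => Finset.sum_eq_zero fun k _ =>
      Finset.sum_eq_zero fun l _ => ?_
    rw [mul_assoc, f2, mul_zero]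
  · intro i _
    refine Finset.sum_eq_zero fun j _ => Finset.sum_eq_zero fun k _ =>
      Finset.sum_eq_zero fun l _ => ?_
    rw [f1 i k, mul_zero, zero_mul]

/-- abbreviation: cast a vector -/
def zv {n : ℕ} (u : Fin n → ℕ) : Fin n → ℤ := fun i => (u i : ℤ)

theorem zv_vecMul {n m : ℕ} (u : Fin n → ℕ) (R : Matrix (Fin n) (Fin m) ℕ) :
    zv (u ᵥ* R) = zv u ᵥ* zm R := by
  funext j
  simp [zv, zm, Matrix.vecMul, dotProduct]

variable {d : ℕ} (C : Matrix (Fin d) (Fin d) ℤ) (u₀ : Fin d → ℤ)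

/-- The invariant property propagated along strong shift equivalences. -/
def WM.Inv (X : WM) : Prop :=
  X.A.trace = 0 ∧ (X.A * X.A).trace = 0 ∧
  ∃ θ : Matrix (Fin d) (Fin X.n) ℤ,
    HasPot (Pi.basisFun ℤ (Fin d)) (A := C.toLin') (Fin X.n → ℤ) (Pi.basisFun ℤ (Fin X.n))
      (zm X.A).toLin' θ.toLin' 0 ∧
    ∃ k, zv X.u ᵥ* (zm X.A) ^ k = u₀ ᵥ* (θ * (zm X.A) ^ k)

variable {C u₀}

theorem sg_toLin' {n m : ℕ} (R : Matrix (Fin n) (Fin m) ℤ) (S : Matrix (Fin m) (Fin n) ℤ) :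
    sg (Pi.basisFun ℤ (Fin n)) (Pi.basisFun ℤ (Fin m)) R.toLin' S.toLin' = sgc R S := by
  unfold sg
  rw [← Matrix.toLin_eq_toLin', ← Matrix.toLin_eq_toLin', LinearMap.toMatrix_toLin,
    LinearMap.toMatrix_toLin]

theorem mul_pow_comm {n m : ℕ} (R : Matrix (Fin n) (Fin m) ℤ) (S : Matrix (Fin m) (Fin n) ℤ)
    (k : ℕ) : R * (S * R) ^ k = (R * S) ^ k * R := by
  induction k with
  | zero => simp
  | succ k ih =>
    rw [pow_succ, ← Matrix.mul_assoc, ih, pow_succ]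
    simp only [Matrix.mul_assoc]

theorem WM.Step.inv_forward {C' : Matrix (Fin d) (Fin d) ℤ} (hC : C * C' = 1) (hC' : C' * C = 1)
    {X Y : WM} (h : X.Step Y) (hX : X.Inv C u₀) : Y.Inv C u₀ := by
  obtain ⟨R, S, hA, hB, hu⟩ := h
  obtain ⟨t1, t2, θ, hp, k, hk⟩ := hX
  refine ⟨?_, ?_, θ * zm R, ?_, k, ?_⟩
  · rw [hB, Matrix.trace_mul_comm, ← hA, t1]
  · rw [hB, Matrix.mul_assoc, Matrix.trace_mul_comm, Matrix.mul_assoc, Matrix.mul_assoc,
      ← Matrix.mul_assoc, ← hA, t2]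
  · have hc : C.toLin' ∘ₗ C'.toLin' = LinearMap.id := by
      rw [← Matrix.toLin'_mul, hC, Matrix.toLin'_one]
    have hc' : C'.toLin' ∘ₗ C.toLin' = LinearMap.id := by
      rw [← Matrix.toLin'_mul, hC', Matrix.toLin'_one]
    have e1 : (zm X.A).toLin' = (zm R).toLin' ∘ₗ (zm S).toLin' := by
      rw [hA, zm_mul, Matrix.toLin'_mul]
    rw [e1] at hp
    have := HasPot.forward (Pi.basisFun ℤ (Fin d)) hc hc' (q := Pi.basisFun ℤ (Fin Y.n))
      (zm R).toLin' (zm S).toLin' hp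
    rw [sg_toLin', sgc_nonneg R S (by rw [← hA, t1]) (by rw [← hA, t2]), add_zero] at this
    rw [hB, zm_mul, Matrix.toLin'_mul, Matrix.toLin'_mul]
    exact this
  · rw [hu, hB, zm_mul, zv_vecMul, Matrix.vecMul_vecMul, Matrix.mul_assoc, mul_pow_comm, ← zm_mul,
      ← hA, ← Matrix.vecMul_vecMul, hk, Matrix.vecMul_vecMul, Matrix.mul_assoc]

theorem WM.Step.inv_backward {C' : Matrix (Fin d) (Fin d) ℤ} (hC : C * C' = 1) (hC' : C' * C = 1)
    {X Y : WM} (h : X.Step Y) (hY : Y.Inv C u₀) : X.Inv C u₀ := by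
  obtain ⟨R, S, hA, hB, hu⟩ := h
  obtain ⟨t1, t2, θ, hp, k, hk⟩ := hY
  have s1 : X.A.trace = 0 := by rw [hA, Matrix.trace_mul_comm, ← hB, t1]
  have s2 : (X.A * X.A).trace = 0 := by
    rw [hA, Matrix.mul_assoc, Matrix.trace_mul_comm, Matrix.mul_assoc, Matrix.mul_assoc,
      ← Matrix.mul_assoc, ← hB, t2]
  have hc : C.toLin' ∘ₗ C'.toLin' = LinearMap.id := by
    rw [← Matrix.toLin'_mul, hC, Matrix.toLin'_one]
  have hc' : C'.toLin' ∘ₗ C.toLin' = LinearMap.id := by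
    rw [← Matrix.toLin'_mul, hC', Matrix.toLin'_one]
  refine ⟨s1, s2, C' * (θ * zm S), ?_, k + 1, ?_⟩
  · have e1 : (zm Y.A).toLin' = (zm S).toLin' ∘ₗ (zm R).toLin' := by
      rw [hB, zm_mul, Matrix.toLin'_mul]
    rw [e1] at hp
    have := HasPot.backward (Pi.basisFun ℤ (Fin d)) hc hc' (p := Pi.basisFun ℤ (Fin X.n))
      (zm R).toLin' (zm S).toLin' hp
    rw [sg_toLin', sgc_nonneg R S (by rw [← hA, s1]) (by rw [← hA, s2]), add_zero] at this
    rw [hA, zm_mul, Matrix.toLin'_mul, Matrix.toLin'_mul, Matrix.toLin'_mul]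
    exact this
  · have hθ : θ * zm Y.A = C * θ := by
      have h1 := hp.1
      rw [← Matrix.toLin'_mul, ← Matrix.toLin'_mul] at h1
      exact Matrix.toLin'.injective h1
    have hθR : C' * (θ * zm S) * zm R = θ := by
      rw [Matrix.mul_assoc, Matrix.mul_assoc, ← zm_mul, ← hB, hθ, ← Matrix.mul_assoc, hC',
        Matrix.one_mul]
    have e1 : zv X.u ᵥ* (zm X.A) ^ (k + 1) = zv Y.u ᵥ* ((zm Y.A) ^ k * zm S) := by
      rw [hu, zv_vecMul, hA, hB, zm_mul, zm_mul, Matrix.vecMul_vecMul, ← Matrix.mul_assoc,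
        mul_pow_comm, Matrix.mul_assoc, ← pow_succ]
    rw [e1, ← Matrix.vecMul_vecMul, hk, Matrix.vecMul_vecMul]
    congr 1
    calc θ * zm Y.A ^ k * zm S = (C' * (θ * zm S) * zm R) * zm Y.A ^ k * zm S := by rw [hθR]
      _ = C' * (θ * zm S) * (zm R * (zm S * zm R) ^ k) * zm S := by
          rw [hB, zm_mul]; simp only [Matrix.mul_assoc]
      _ = C' * (θ * zm S) * ((zm R * zm S) ^ k * (zm R * zm S)) := by
          rw [mul_pow_comm]; simp only [Matrix.mul_assoc]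
      _ = C' * (θ * zm S) * zm X.A ^ (k + 1) := by
          rw [← pow_succ, hA, zm_mul]

theorem WM.inv_iff {C' : Matrix (Fin d) (Fin d) ℤ} (hC : C * C' = 1) (hC' : C' * C = 1)
    {X Y : WM} (h : Relation.EqvGen WM.Step X Y) : X.Inv C u₀ ↔ Y.Inv C u₀ := by
  induction h with
  | rel X Y h => exact ⟨h.inv_forward hC hC', h.inv_backward hC hC'⟩
  | refl X => exact Iff.rfl
  | symm X Y _ ih => exact ih.symm
  | trans X Y Z _ _ ih1 ih2 => exact ih1.trans ih2

/-- The invariant: strongly shift equivalent (with weights) invertible matrices without cycles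
of length one and two are conjugate by an integral matrix with trivial cocycle. -/
theorem sse_invariant {d e : ℕ} (C : Matrix (Fin d) (Fin d) ℕ) (u : Fin d → ℕ)
    (B : Matrix (Fin e) (Fin e) ℕ) (w : Fin e → ℕ)
    (C' : Matrix (Fin d) (Fin d) ℤ) (hC : zm C * C' = 1) (hC' : C' * zm C = 1)
    (B' : Matrix (Fin e) (Fin e) ℤ) (hB : zm B * B' = 1) (hB' : B' * zm B = 1)
    (t1 : C.trace = 0) (t2 : (C * C).trace = 0)
    (h : Relation.EqvGen WM.Step ⟨d, C, u⟩ ⟨e, B, w⟩) :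
    ∃ (U : Matrix (Fin d) (Fin e) ℤ) (U' : Matrix (Fin e) (Fin d) ℤ),
      U * U' = 1 ∧ U' * U = 1 ∧ U * zm B = zm C * U ∧ zv u ᵥ* U = zv w ∧
      sgc U (U' * zm C) = 0 := by
  have hc : (zm C).toLin' ∘ₗ C'.toLin' = LinearMap.id := by
    rw [← Matrix.toLin'_mul, hC, Matrix.toLin'_one]
  have hc' : C'.toLin' ∘ₗ (zm C).toLin' = LinearMap.id := by
    rw [← Matrix.toLin'_mul, hC', Matrix.toLin'_one]
  have h0 : WM.Inv (zm C) (zv u) ⟨d, C, u⟩ := by
    refine ⟨t1, t2, 1, ?_, 0, by simp⟩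
    have := HasPot.of_bijective (Pi.basisFun ℤ (Fin d)) hc hc' (p := Pi.basisFun ℤ (Fin d))
      (α := (zm C).toLin') (θ := (1 : Matrix (Fin d) (Fin d) ℤ).toLin')
      (1 : Matrix (Fin d) (Fin d) ℤ).toLin'
      (by rw [← Matrix.toLin'_mul, Matrix.mul_one, Matrix.toLin'_one])
      (by rw [← Matrix.toLin'_mul, Matrix.mul_one, Matrix.toLin'_one])
      (by rw [← Matrix.toLin'_mul, ← Matrix.toLin'_mul, Matrix.mul_one, Matrix.one_mul])
    rw [← Matrix.toLin'_mul, sg_toLin', sgc_one] at this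
    exact this
  obtain ⟨-, -, θ, hp, k, hk⟩ := (WM.inv_iff hC hC' h).mp h0
  have hθ : θ * zm B = zm C * θ := by
    have h1 := hp.1
    rw [← Matrix.toLin'_mul, ← Matrix.toLin'_mul] at h1
    exact Matrix.toLin'.injective h1
  -- `θ` is invertible
  obtain ⟨l, ⟨ω, w1, w2, w3⟩, -⟩ := hp.2
  obtain ⟨Ω, rfl⟩ : ∃ Ω : Matrix (Fin e) (Fin d) ℤ, Ω.toLin' = ω := ⟨ω.toMatrix', by simp⟩
  have x1 : θ * Ω = (zm C) ^ l := by
    rw [← Matrix.toLin'_mul, ← Matrix.toLin'_pow] at w1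
    exact Matrix.toLin'.injective w1
  have x2 : Ω * θ = (zm B) ^ l := by
    rw [← Matrix.toLin'_mul] at w2
    have := w2.trans (Matrix.toLin'_pow (zm B) l).symm
    exact Matrix.toLin'.injective this
  have powinv : ∀ {n : ℕ} (M M' : Matrix (Fin n) (Fin n) ℤ), M * M' = 1 → ∀ k : ℕ,
      M ^ k * M' ^ k = 1 := by
    intro n M M' hM k
    induction k with
    | zero => simp
    | succ k ih =>
      rw [pow_succ, pow_succ', Matrix.mul_assoc, ← Matrix.mul_assoc M, hM, Matrix.one_mul, ih]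
  have y1 : θ * (Ω * C' ^ l) = 1 := by
    rw [← Matrix.mul_assoc, x1, powinv _ _ hC]
  have y2 : (B' ^ l * Ω) * θ = 1 := by
    rw [Matrix.mul_assoc, x2, powinv _ _ hB']
  have y3 : Ω * C' ^ l = B' ^ l * Ω := by
    calc Ω * C' ^ l = ((B' ^ l * Ω) * θ) * (Ω * C' ^ l) := by rw [y2, Matrix.one_mul]
      _ = (B' ^ l * Ω) * (θ * (Ω * C' ^ l)) := by rw [Matrix.mul_assoc]
      _ = B' ^ l * Ω := by rw [y1, Matrix.mul_one]
  refine ⟨θ, Ω * C' ^ l, y1, by rw [y3, y2], hθ, ?_, ?_⟩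
  · have e1 : zv w = (zv w ᵥ* (zm B) ^ k) ᵥ* B' ^ k := by
      rw [Matrix.vecMul_vecMul, powinv _ _ hB, Matrix.vecMul_one]
    rw [e1]
    change _ = (zv w ᵥ* (zm B) ^ k) ᵥ* B' ^ k
    have hk' : zv w ᵥ* (zm B) ^ k = zv u ᵥ* (θ * (zm B) ^ k) := hk
    rw [hk', Matrix.vecMul_vecMul, Matrix.mul_assoc, powinv _ _ hB, Matrix.mul_one]
  · have h2 := HasPot.of_bijective (Pi.basisFun ℤ (Fin d)) hc hc' (p := Pi.basisFun ℤ (Fin e))
      (α := (zm B).toLin') (θ := θ.toLin') (Ω * C' ^ l).toLin'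
      (by rw [← Matrix.toLin'_mul, y1, Matrix.toLin'_one])
      (by rw [← Matrix.toLin'_mul, y3, y2, Matrix.toLin'_one])
      (by rw [← Matrix.toLin'_mul, ← Matrix.toLin'_mul, hθ])
    rw [← Matrix.toLin'_mul, sg_toLin'] at h2
    exact h2.unique (Pi.basisFun ℤ (Fin d)) hc hc' hp

end Pool.Agent.Y83
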