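import Mathlib

/-!
# Trace data of finite dimensional algebras over an algebraically closed field of
characteristic zero
-/

namespace Pool.Agent.Y83

open Matrix

/-- Trace data: the traces of the simple quotients, with dual idempotents. -/
structure TraceData (K : Type) (T : Type) [Field K] [Ring T] [Algebra K T] (n : ℕ) where
  τ : Fin n → T →ₗ[K] K
  p : Fin n → T
  comm : ∀ a x y, τ a (x * y) = τ a (y * x)
  idem : ∀ a (ι : Type) [Fintype ι] [DecidableEq ι] (M : Matrix ι ι T), M * M = M →
    ∃ k : ℕ, τ a M.trace = k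
  nil : ∀ a (ι : Type) [Fintype ι] [DecidableEq ι] (M : Matrix ι ι T), IsNilpotent M →
    τ a M.trace = 0
  p_idem : ∀ a, p a * p a = p a
  dual : ∀ a b, τ b (p a) = if a = b then 1 else 0
  span : ∀ θ : T →ₗ[K] K, (∀ x y, θ (x * y) = θ (y * x)) → (∀ x, IsNilpotent x → θ x = 0) →
    ∀ t, θ t = ∑ a, θ (p a) * τ a t

theorem trace_idem_nat {K : Type*} [Field K] {ι : Type*} [Fintype ι] [DecidableEq ι]
    (M : Matrix ι ι K) (h : M * M = M) : ∃ k : ℕ, M.trace = k := by
  have he : IsIdempotentElem (M.toLin') := by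
    have : M.toLin' ∘ₗ M.toLin' = M.toLin' := by rw [← Matrix.toLin'_mul, h]
    exact this
  rw [← Matrix.trace_toLin'_eq]
  exact ⟨_, (LinearMap.IsIdempotentElem.isProj_range _ he).trace⟩

theorem trace_nil_zero {K : Type*} [Field K] {ι : Type*} [Fintype ι] [DecidableEq ι]
    (M : Matrix ι ι K) (h : IsNilpotent M) : M.trace = 0 :=
  (Matrix.isNilpotent_trace_of_isNilpotent h).eq_zero

theorem trace_comp {K : Type*} [Field K] {ι κ : Type*} [Fintype ι]
    [Fintype κ]  (M : Matrix ι ι (Matrix κ κ K)) :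
    (Matrix.comp ι ι κ κ K M).trace = (M.trace).trace := by
  simp only [Matrix.trace, Matrix.diag_apply, Fintype.sum_prod_type, Matrix.comp_apply,
    Matrix.sum_apply]
  rw [Finset.sum_comm]

theorem trace_functional_matrix {K : Type*} [Field K] {d : ℕ} [NeZero d]
    (θ : Matrix (Fin d) (Fin d) K →ₗ[K] K) (hθ : ∀ x y, θ (x * y) = θ (y * x))
    (M : Matrix (Fin d) (Fin d) K) : θ M = θ (Matrix.single 0 0 1) * M.trace := by
  have h1 : ∀ (i j : Fin d) (c : K), θ (Matrix.single i j c) =
      if i = j then θ (Matrix.single 0 0 1) * c else 0 := by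
    intro i j c
    have e1 : Matrix.single i j c = Matrix.single i (0 : Fin d) (1 : K) * Matrix.single 0 j c := by
      rw [Matrix.single_mul_single_same, one_mul]
    rw [e1, hθ]
    by_cases h : i = j
    · subst h
      rw [if_pos rfl, Matrix.single_mul_single_same, mul_one]
      have : Matrix.single (0 : Fin d) (0 : Fin d) c = c • Matrix.single (0 : Fin d) (0 : Fin d) (1 : K) := by
        rw [Matrix.smul_single, smul_eq_mul, mul_one]
      rw [this, map_smul, smul_eq_mul, mul_comm]
    · rw [if_neg h, Matrix.single_mul_single_of_ne _ _ _ _ (Ne.symm h), map_zero]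
  generalize θ (Matrix.single 0 0 1) = c₀ at h1 ⊢
  conv_lhs => rw [Matrix.matrix_eq_sum_single M]
  rw [map_sum]
  simp only [map_sum, h1]
  simp only [Finset.sum_ite_eq, Finset.mem_univ, if_true, Matrix.trace, Matrix.diag_apply,
    Finset.mul_sum]

/-- A trace functional on a product of matrix algebras. -/
theorem trace_functional_pi {K : Type*} [Field K] {n : ℕ} {d : Fin n → ℕ}
    [hd : ∀ i, NeZero (d i)]
    (θ : (Π i, Matrix (Fin (d i)) (Fin (d i)) K) →ₗ[K] K)
    (hθ : ∀ x y, θ (x * y) = θ (y * x))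
    (x : Π i, Matrix (Fin (d i)) (Fin (d i)) K) :
    θ x = ∑ a, θ (Pi.single a (Matrix.single 0 0 1)) * (x a).trace := by
  classical
  have h2 : x = ∑ a, Pi.single a (x a) := (Finset.univ_sum_single x).symm
  conv_lhs => rw [h2]
  rw [map_sum]
  refine Finset.sum_congr rfl fun a _ => ?_
  have h3 := trace_functional_matrix
    (θ ∘ₗ (LinearMap.single K (fun i => Matrix (Fin (d i)) (Fin (d i)) K) a)) (by
      intro x y
      simp only [LinearMap.comp_apply, LinearMap.coe_single, Pi.single_mul]
      exact hθ _ _) (x a)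
  exact h3

theorem exists_traceData (K : Type) (T : Type) [Field K] [IsAlgClosed K] [Ring T]
    [Algebra K T] [FiniteDimensional K T] : ∃ n, Nonempty (TraceData K T n) := by
  classical
  have : IsArtinianRing T := IsArtinianRing.of_finite K T
  have : IsSemiprimaryRing T := inferInstance
  obtain ⟨n, d, hd, ⟨e⟩⟩ := IsSemisimpleRing.exists_algEquiv_pi_matrix_of_isAlgClosed K
    (T ⧸ Ring.jacobson T)
  have := hd
  let π : T →ₐ[K] (Π i, Matrix (Fin (d i)) (Fin (d i)) K) :=
    (e : _ →ₐ[K] _).comp (Ideal.Quotient.mkₐ K (Ring.jacobson T))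
  have hπs : Function.Surjective π :=
    e.surjective.comp (Ideal.Quotient.mkₐ_surjective K _)
  have hker : ∀ x, π x = 0 → IsNilpotent x := by
    intro x hx
    have h1 : Ideal.Quotient.mkₐ K (Ring.jacobson T) x = 0 := by
      apply e.injective
      rw [map_zero]; exact hx
    have h2 : x ∈ Ring.jacobson T := by
      rw [← Ideal.Quotient.eq_zero_iff_mem]
      exact h1
    obtain ⟨k, hk⟩ := IsSemiprimaryRing.isNilpotent (R := T)
    refine ⟨k, ?_⟩
    have h3 : x ^ k ∈ (Ring.jacobson T) ^ k := Ideal.pow_mem_pow h2 k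
    rw [hk] at h3
    exact h3
  let πa : ∀ a, T →ₐ[K] Matrix (Fin (d a)) (Fin (d a)) K := fun a =>
    (Pi.evalAlgHom K _ a).comp π
  let E₀ : Fin n → (Π i, Matrix (Fin (d i)) (Fin (d i)) K) := fun a =>
    Pi.single a (Matrix.single 0 0 1)
  have hlift : ∀ a : Fin n, ∃ e' : T, IsIdempotentElem e' ∧
      π e' = Pi.single a (Matrix.single 0 0 1) := by
    intro a
    refine exists_isIdempotentElem_eq_of_ker_isNilpotent π.toRingHom (fun x hx => hker x hx)
      (E₀ a) ?_ ?_
    · obtain ⟨y, hy⟩ := hπs (Pi.single a (Matrix.single 0 0 1))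
      exact ⟨y, hy⟩
    · change E₀ a * E₀ a = E₀ a
      simp only [E₀]
      rw [← Pi.single_mul, Matrix.single_mul_single_same, mul_one]
  choose p hp1 hp2 using hlift
  refine ⟨n, ⟨⟨fun a => (Matrix.traceLinearMap _ K K) ∘ₗ (πa a).toLinearMap, p, ?_, ?_, ?_, ?_,
    ?_, ?_⟩⟩⟩
  · intro a x y
    simp only [LinearMap.comp_apply, AlgHom.toLinearMap_apply, map_mul, Matrix.traceLinearMap_apply]
    exact Matrix.trace_mul_comm _ _
  · intro a ι _ _ M hM
    let N := Matrix.comp ι ι (Fin (d a)) (Fin (d a)) K (M.map (πa a))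
    have hN : N * N = N := by
      have h1 : (M.map (πa a)) * (M.map (πa a)) = M.map (πa a) := by
        rw [← Matrix.map_mul, hM]
      have h2 := map_mul (Matrix.compRingEquiv ι (Fin (d a)) K) (M.map (πa a)) (M.map (πa a))
      rw [h1] at h2
      exact h2.symm
    obtain ⟨k, hk⟩ := trace_idem_nat N hN
    refine ⟨k, ?_⟩
    rw [← hk, trace_comp]
    simp only [LinearMap.comp_apply, AlgHom.toLinearMap_apply, Matrix.traceLinearMap_apply]
    congr 1
    simp [Matrix.trace]
  · intro a ι _ _ M hM
    let N := Matrix.comp ι ι (Fin (d a)) (Fin (d a)) K (M.map (πa a))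
    have hN : IsNilpotent N := by
      have h1 : IsNilpotent ((πa a).mapMatrix M) := hM.map _
      exact h1.map (Matrix.compRingEquiv ι (Fin (d a)) K)
    have hk := trace_nil_zero N hN
    rw [← hk, trace_comp]
    simp only [LinearMap.comp_apply, AlgHom.toLinearMap_apply, Matrix.traceLinearMap_apply]
    congr 1
    simp [Matrix.trace]
  · exact hp1
  · intro a b
    simp only [LinearMap.comp_apply, AlgHom.toLinearMap_apply, Matrix.traceLinearMap_apply]
    change Matrix.trace ((π (p a)) b) = _
    rw [hp2]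
    by_cases h : a = b
    · subst h
      rw [Pi.single_eq_same, if_pos rfl, Matrix.trace_single_eq_same]
    · rw [Pi.single_eq_of_ne (Ne.symm h), if_neg h, Matrix.trace_zero]
  · intro θ h1 h2 t
    obtain ⟨σ, hσ⟩ := LinearMap.exists_rightInverse_of_surjective π.toLinearMap
      (LinearMap.range_eq_top.mpr hπs)
    have hσ' : ∀ x, π (σ x) = x := fun x => congrArg (fun f => f x) hσ
    have key : ∀ x y, π x = π y → θ x = θ y := by
      intro x y hxy
      have : θ (x - y) = 0 := h2 _ (hker _ (by rw [map_sub, hxy, sub_self]))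
      rw [map_sub] at this
      exact sub_eq_zero.mp this
    have h3 := trace_functional_pi (θ ∘ₗ σ) (by
      intro x y
      simp only [LinearMap.comp_apply]
      rw [key (σ (x * y)) (σ x * σ y) (by rw [hσ', map_mul, hσ', hσ']),
        key (σ (y * x)) (σ y * σ x) (by rw [hσ', map_mul, hσ', hσ']), h1]) (π t)
    simp only [LinearMap.comp_apply] at h3
    rw [key (σ (π t)) t (by rw [hσ'])] at h3
    rw [h3]
    refine Finset.sum_congr rfl fun a _ => ?_
    rw [key (σ (Pi.single a (Matrix.single 0 0 1))) (p a) (by rw [hσ', hp2])]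
    rfl

end Pool.Agent.Y83
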